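import Pool.Agent.MP_f7db47_al.TW.OGeo
import Pool.Agent.MP_f7db47_al.Typed

/-!
Column finite matrices as operators.
-/

set_option linter.unusedSectionVars false

namespace Pool.Agent.MP_f7db47_al.OB

open Function

universe v

section Gen

variable {Λ : Type v} [Ring Λ] {X Y Z W : Type}

/-- Right linear maps of free modules. -/
abbrev Op (Λ : Type v) [Ring Λ] (Y Z : Type) : Type v := (Z →₀ Λ) →ₗ[Λᵐᵒᵖ] (Y →₀ Λ)

/-- The entries. -/
noncomputable def ent (a : Op Λ Y Z) : Matrix Y Z Λ := fun i j => a (Finsupp.single j 1) i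

lemma op_single (a : Op Λ Y Z) (j : Z) (r : Λ) :
    a (Finsupp.single j r) = MulOpposite.op r • a (Finsupp.single j 1) := by
  rw [← map_smul, Finsupp.smul_single, op_smul_eq_mul, one_mul]

lemma op_ext {a b : Op Λ Y Z} (h : ∀ j, a (Finsupp.single j 1) = b (Finsupp.single j 1)) : a = b :=
  Finsupp.lhom_ext fun j r => by rw [op_single a, op_single b, h]

lemma ent_inj {a b : Op Λ Y Z} (h : ent a = ent b) : a = b :=
  op_ext fun j => Finsupp.ext fun i => congrFun (congrFun h i) j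

lemma ent_comp (a : Op Λ X Y) (b : Op Λ Y Z) (i : X) (k : Z) :
    ent (a ∘ₗ b) i k = ∑ j ∈ (b (Finsupp.single k 1)).support, ent a i j * ent b j k := by
  change a (b (Finsupp.single k 1)) i = _
  conv_lhs => rw [← Finsupp.sum_single (b (Finsupp.single k 1)), Finsupp.sum, map_sum,
    Finsupp.finsetSum_apply]
  refine Finset.sum_congr rfl fun j _ => ?_
  rw [op_single]
  rfl

lemma ent_fin (b : Op Λ Y Z) (k : Z) : {j | ent b j k ≠ 0}.Finite :=
  (b (Finsupp.single k 1)).hasFiniteSupport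

lemma ent_comp' (a : Op Λ X Y) (b : Op Λ Y Z) (i : X) (k : Z) :
    ent (a ∘ₗ b) i k = ∑ᶠ j, ent a i j * ent b j k := by
  rw [ent_comp, finsum_eq_sum_of_support_subset]
  intro j hj
  exact Finsupp.mem_support_iff.2 fun c => hj
    ((congrArg (ent a i j * ·) (show ent b j k = 0 from c)).trans (mul_zero _))

lemma ent_add (a b : Op Λ Y Z) : ent (a + b) = ent a + ent b := rfl

lemma ent_sub (a b : Op Λ Y Z) : ent (a - b) = ent a - ent b := rfl

lemma ent_neg (a : Op Λ Y Z) : ent (-a) = -ent a := rfl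

lemma ent_zero : ent (0 : Op Λ Y Z) = 0 := rfl

lemma ent_id [DecidableEq Y] : ent (LinearMap.id : Op Λ Y Y) = 1 := by
  ext i j
  rw [Matrix.one_apply]
  exact (Finsupp.single_apply (a := j) (a' := i)).trans (by simp only [eq_comm])

/-- The operator with given columns. -/
noncomputable def cols (c : Z → (Y →₀ Λ)) : Op Λ Y Z :=
  Finsupp.lsum ℕ fun j =>
    { toFun := fun r => MulOpposite.op r • c j
      map_add' := fun r s => by rw [MulOpposite.op_add, add_smul]
      map_smul' := fun s r => by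
        rw [RingHom.id_apply, smul_smul]
        rfl }

lemma cols_single (c : Z → (Y →₀ Λ)) (j : Z) : cols c (Finsupp.single j 1) = c j := by
  rw [cols, Finsupp.lsum_single]
  exact one_smul _ _

/-- The operator with a given column finite matrix. -/
noncomputable def opOf (a : Matrix Y Z Λ) (h : ∀ j, {i | a i j ≠ 0}.Finite) : Op Λ Y Z :=
  cols fun j => Finsupp.ofSupportFinite (fun i => a i j) (h j)

lemma ent_opOf (a : Matrix Y Z Λ) (h : ∀ j, {i | a i j ≠ 0}.Finite) : ent (opOf a h) = a := by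
  ext i j
  rw [ent, opOf, cols_single]
  rfl

variable (Λ) in
/-- Extension by zero. -/
noncomputable def push (φ : Z → Y) : Op Λ Y Z := Finsupp.lmapDomain Λ Λᵐᵒᵖ φ

variable (Λ) in
/-- Restriction. -/
noncomputable def pull {φ : Z → Y} (h : Injective φ) : Op Λ Z Y := Finsupp.lcomapDomain φ h

lemma push_single (φ : Z → Y) (j : Z) (r : Λ) :
    push Λ φ (Finsupp.single j r) = Finsupp.single (φ j) r := Finsupp.mapDomain_single

lemma pull_single {φ : Z → Y} (h : Injective φ) (j : Z) (r : Λ) :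
    pull Λ h (Finsupp.single (φ j) r) = Finsupp.single j r :=
  Finsupp.ext fun _ => Finsupp.single_apply_left h _ _ _

lemma pull_single' {φ : Z → Y} (h : Injective φ) {i : Y} (hi : i ∉ Set.range φ) (r : Λ) :
    pull Λ h (Finsupp.single i r) = 0 :=
  Finsupp.ext fun j => Finsupp.single_eq_of_ne fun c => hi ⟨j, c⟩

lemma pull_push {φ : Z → Y} (h : Injective φ) (z : Z →₀ Λ) : pull Λ h (push Λ φ z) = z :=
  Finsupp.comapDomain_mapDomain φ h z

lemma push_push (φ : Y → X) (ψ : Z → Y) (z : Z →₀ Λ) :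
    push Λ φ (push Λ ψ z) = push Λ (φ ∘ ψ) z := Finsupp.mapDomain_comp.symm

lemma push_apply {φ : Z → Y} (h : Injective φ) (z : Z →₀ Λ) (j : Z) : push Λ φ z (φ j) = z j :=
  Finsupp.mapDomain_apply h z j

lemma push_apply' {φ : Z → Y} (z : Z →₀ Λ) {i : Y} (hi : i ∉ Set.range φ) : push Λ φ z i = 0 :=
  Finsupp.mapDomain_of_notMem_range z i hi

/-- The infinite amplification. -/
noncomputable def amp (a : Op Λ X X) : Op Λ (ℕ × X) (ℕ × X) :=
  cols fun y => push Λ (Prod.mk y.1) (a (Finsupp.single y.2 1))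

lemma amp_push (a : Op Λ X X) (k : ℕ) (z : X →₀ Λ) :
    amp a (push Λ (Prod.mk k) z) = push Λ (Prod.mk k) (a z) :=
  LinearMap.congr_fun (f := amp a ∘ₗ push Λ (Prod.mk k)) (g := push Λ (Prod.mk k) ∘ₗ a)
    (op_ext fun j => by
      rw [LinearMap.comp_apply, push_single, amp, cols_single, LinearMap.comp_apply]) z

lemma amp_single (a : Op Λ X X) (k : ℕ) (i : X) (r : Λ) :
    amp a (Finsupp.single (k, i) r) = push Λ (Prod.mk k) (a (Finsupp.single i r)) := by
  rw [← amp_push, push_single]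

lemma amp_add (a b : Op Λ X X) : amp (a + b) = amp a + amp b :=
  op_ext fun ⟨k, i⟩ => by simp only [amp_single, LinearMap.add_apply, map_add]

lemma amp_mul (a b : Op Λ X X) (z : ℕ × X →₀ Λ) : amp (a * b) z = amp a (amp b z) :=
  LinearMap.congr_fun (f := amp (a * b)) (g := amp a ∘ₗ amp b) (op_ext fun ⟨k, i⟩ => by
    rw [LinearMap.comp_apply, amp_single, amp_single, amp_push, Module.End.mul_apply]) z

lemma amp_one (z : ℕ × X →₀ Λ) : amp (1 : Op Λ X X) z = z :=
  LinearMap.congr_fun (f := amp (1 : Op Λ X X)) (g := LinearMap.id) (op_ext fun ⟨k, i⟩ => by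
    rw [amp_single, Module.End.one_apply, push_single, LinearMap.id_apply]) z

/-- The shift. -/
def sh (X : Type) : ℕ × X → ℕ × X := fun y => (y.1 + 1, y.2)

lemma sh_inj : Injective (sh X) := fun _ _ h =>
  Prod.ext (Nat.succ_injective (congrArg Prod.fst h)) (congrArg Prod.snd h :)

lemma mk_inj (k : ℕ) : Injective (Prod.mk k : X → ℕ × X) := Prod.mk_right_injective k

lemma push_sh (k : ℕ) (z : X →₀ Λ) :
    push Λ (sh X) (push Λ (Prod.mk k) z) = push Λ (Prod.mk (k + 1)) z := push_push _ _ z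

lemma pull_sh (k : ℕ) (z : X →₀ Λ) :
    pull Λ sh_inj (push Λ (Prod.mk (k + 1)) z) = push Λ (Prod.mk k) z := by
  rw [← push_sh, pull_push]

lemma pull_sh0 (z : X →₀ Λ) : pull Λ sh_inj (push Λ (Prod.mk 0) z) = 0 :=
  Finsupp.ext fun _ => push_apply' z fun ⟨_, c⟩ => Nat.succ_ne_zero _ (congrArg Prod.fst c).symm

lemma pull0_succ (k : ℕ) (z : X →₀ Λ) :
    pull Λ (mk_inj 0) (push Λ (Prod.mk (k + 1)) z) = 0 :=
  Finsupp.ext fun _ => push_apply' z fun ⟨_, c⟩ => Nat.succ_ne_zero _ (congrArg Prod.fst c)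

lemma amp_ext {a b : Op Λ Y (ℕ × X)}
    (h : ∀ k z, a (push Λ (Prod.mk k) z) = b (push Λ (Prod.mk k) z)) (z : ℕ × X →₀ Λ) :
    a z = b z :=
  LinearMap.congr_fun (op_ext fun ⟨k, i⟩ => by rw [← push_single, h]) z

lemma amp_eq (a : Op Λ X X) (z : ℕ × X →₀ Λ) :
    amp a z = push Λ (Prod.mk 0) (a (pull Λ (mk_inj 0) z)) +
      push Λ (sh X) (amp a (pull Λ sh_inj z)) :=
  amp_ext (a := amp a) (b := push Λ (Prod.mk 0) ∘ₗ a ∘ₗ pull Λ (mk_inj 0) +
    push Λ (sh X) ∘ₗ amp a ∘ₗ pull Λ sh_inj) (fun k z => by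
      cases k <;> simp only [LinearMap.add_apply, LinearMap.comp_apply, amp_push, pull_push,
        pull_sh0, map_zero, add_zero, zero_add, pull0_succ, pull_sh, push_sh]) z

lemma amp_sh (a : Op Λ X X) (z : ℕ × X →₀ Λ) :
    amp a (push Λ (sh X) z) = push Λ (sh X) (amp a z) :=
  amp_ext (a := amp a ∘ₗ push Λ (sh X)) (b := push Λ (sh X) ∘ₗ amp a) (fun k z => by
    simp only [LinearMap.comp_apply, amp_push, push_sh]) z

lemma amp_sh' (a : Op Λ X X) (z : ℕ × X →₀ Λ) :
    amp a (pull Λ sh_inj z) = pull Λ sh_inj (amp a z) :=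
  amp_ext (a := amp a ∘ₗ pull Λ sh_inj) (b := pull Λ sh_inj ∘ₗ amp a) (fun k z => by
    cases k <;> simp only [LinearMap.comp_apply, amp_push, pull_sh, pull_sh0, map_zero]) z

lemma amp_zero' (a : Op Λ X X) (z : ℕ × X →₀ Λ) :
    a (pull Λ (mk_inj 0) z) = pull Λ (mk_inj 0) (amp a z) :=
  amp_ext (a := a ∘ₗ pull Λ (mk_inj 0)) (b := pull Λ (mk_inj 0) ∘ₗ amp a) (fun k z => by
    cases k <;> simp only [LinearMap.comp_apply, amp_push, pull_push, pull0_succ, map_zero]) z

lemma pull0_sh (z : ℕ × X →₀ Λ) : pull Λ (mk_inj 0) (push Λ (sh X) z) = 0 :=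
  Finsupp.ext fun _ => push_apply' z fun ⟨_, c⟩ => Nat.succ_ne_zero _ (congrArg Prod.fst c)

end Gen

section Sp

variable {R : Type v} [Ring R] {G : Type} [Group G] {X Y Z : Type}

/-- The support of the operator lies in the relation. -/
def Sp (E : Y → G → Z → Prop) (a : Op (MonoidAlgebra R G) Y Z) : Prop :=
  ∀ i j, Sup {g | E i g j} (ent a i j)

variable {E E' : Y → G → Z → Prop} {a b : Op (MonoidAlgebra R G) Y Z}

lemma Sp.mono (h : Sp E a) (h' : ∀ i g j, E i g j → E' i g j) : Sp E' a :=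
  fun i j => (h i j).mono fun g => h' i g j

lemma Sp.and (h : Sp E a) (h' : Sp E' a) : Sp (fun i g j => E i g j ∧ E' i g j) a :=
  fun i j g c => ⟨h i j g c, h' i j g c⟩

lemma Sp.add (h : Sp E a) (h' : Sp E b) : Sp E (a + b) := fun i j => (h i j).add (h' i j)

lemma Sp.neg (h : Sp E a) : Sp E (-a) := fun i j => (h i j).neg

lemma Sp.sub (h : Sp E a) (h' : Sp E b) : Sp E (a - b) := fun i j => (h i j).sub (h' i j)

lemma sp_zero (E : Y → G → Z → Prop) : Sp E (0 : Op (MonoidAlgebra R G) Y Z) :=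
  fun _ _ => sup_zero _

lemma Sp.comp {E₁ : X → G → Y → Prop} {E₂ : Y → G → Z → Prop} {a : Op (MonoidAlgebra R G) X Y}
    (h : Sp E₁ a) (h' : Sp E₂ b) :
    Sp (fun i g k => ∃ j g₁ g₂, E₁ i g₁ j ∧ E₂ j g₂ k ∧ g = g₁ * g₂) (a ∘ₗ b) := fun i k => by
  rw [ent_comp]
  exact sup_sum _ _ fun j _ => (h i j).mul (h' j k) fun x hx y hy => ⟨j, x, y, hx, hy, rfl⟩

lemma sp_of_single {φ : Z → Y} {u : G}
    (h : ∀ j, a (Finsupp.single j 1) = Finsupp.single (φ j) (MonoidAlgebra.single u 1)) :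
    Sp (fun i g j => g = u ∧ i = φ j) a := fun i j => by
  rw [ent, h]
  by_cases c : i = φ j
  · rw [c, Finsupp.single_eq_same]
    exact sup_single (S := {g | g = u ∧ φ j = φ j}) ⟨rfl, rfl⟩ 1
  · rw [Finsupp.single_eq_of_ne c]
    exact sup_zero _

lemma sp_push (φ : Z → Y) : Sp (fun i g j => g = 1 ∧ i = φ j) (push (MonoidAlgebra R G) φ) :=
  sp_of_single fun j => push_single φ j 1

lemma sp_pull {φ : Z → Y} (h : Injective φ) :
    Sp (fun j g i => g = 1 ∧ i = φ j) (pull (MonoidAlgebra R G) h) := fun j i => by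
  change Sup _ (Finsupp.single i (1 : MonoidAlgebra R G) (φ j))
  by_cases c : i = φ j
  · rw [c, Finsupp.single_eq_same]
    exact sup_one (S := {g | g = 1 ∧ φ j = φ j}) ⟨rfl, rfl⟩
  · rw [Finsupp.single_eq_of_ne' c]
    exact sup_zero _

lemma sp_one : Sp (fun i g j => g = 1 ∧ i = j) (1 : Op (MonoidAlgebra R G) Y Y) :=
  sp_of_single (φ := id) fun _ => rfl

lemma Sp.amp {E : X → G → X → Prop} {a : Op (MonoidAlgebra R G) X X} (h : Sp E a) :
    Sp (fun y g z => y.1 = z.1 ∧ E y.2 g z.2) (amp a) := fun ⟨k, i⟩ ⟨l, j⟩ => by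
  rw [ent, amp_single]
  by_cases c : k = l
  · subst c
    rw [push_apply (mk_inj k)]
    exact (h i j).mono fun g hg => ⟨rfl, hg⟩
  · rw [push_apply' _ fun ⟨_, d⟩ => c (congrArg Prod.fst d).symm]
    exact sup_zero _

/-- The homogeneous part of an operator. -/
noncomputable def part0 (g : G) (a : Op (MonoidAlgebra R G) Y Z) : Op (MonoidAlgebra R G) Y Z :=
  opOf (mpr {g} (ent a)) fun j => (ent_fin a j).subset
    fun _ hi c => hi ((congrArg (pr {g}) c).trans (map_zero _))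

lemma ent_part0 (g : G) (a : Op (MonoidAlgebra R G) Y Z) : ent (part0 g a) = mpr {g} (ent a) :=
  ent_opOf _ _

/-- The homogeneous part of an operator, as an additive map. -/
noncomputable def part (g : G) : Op (MonoidAlgebra R G) Y Z →+ Op (MonoidAlgebra R G) Y Z where
  toFun := part0 g
  map_zero' := ent_inj ((ent_part0 g 0).trans (msup_zero {g}).mpr_eq)
  map_add' a b := ent_inj (by rw [ent_part0, ent_add, ent_add, ent_part0, ent_part0, mpr_add])

lemma ent_part (g : G) (a : Op (MonoidAlgebra R G) Y Z) : ent (part g a) = mpr {g} (ent a) :=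
  ent_opOf _ _

lemma Sp.part (h : Sp E a) (g : G) : Sp (fun i x j => x = g ∧ E i x j) (part g a) := fun i j => by
  rw [ent_part]
  exact fun x hx => ⟨sup_pr _ _ x hx, (h i j).pr x hx⟩

lemma part_eq {g : G} (h : Sp (fun _ x _ => x = g) a) : part g a = a :=
  ent_inj ((ent_part g a).trans (MSup.mpr_eq h))

lemma part_ne {g g' : G} (h : Sp (fun _ x _ => x = g') a) (hg : g' ≠ g) : part g a = 0 :=
  ent_inj ((ent_part g a).trans (MSup.mpr_eq_zero (U := {g'}) h (by rintro _ rfl; exact hg)))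

lemma ent_sum {ι : Type*} (s : Finset ι) (f : ι → Op (MonoidAlgebra R G) Y Z) :
    ent (∑ x ∈ s, f x) = ∑ x ∈ s, ent (f x) :=
  map_sum (AddMonoidHom.mk' ent ent_add) f s

lemma sum_part {F : Finset G} (h : Sp (fun _ g _ => g ∈ F) a) : ∑ g ∈ F, part g a = a := by
  classical
  apply ent_inj
  rw [ent_sum]
  ext i j g
  simp only [ent_part, Matrix.sum_apply, mpr, Matrix.map_apply, MonoidAlgebra.coeff_sum,
    Finsupp.finsetSum_apply, coeff_pr, Set.mem_singleton_iff, Finset.sum_ite_eq]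
  split_ifs with c
  · rfl
  · exact (by_contra fun d => c (h i j g d) : (ent a i j).coeff g = 0).symm

variable (R) in
/-- The operator given by a group element. -/
noncomputable def tau [MulAction G X] : G →* Op (MonoidAlgebra R G) X X where
  toFun g := cols fun j => Finsupp.single (g • j) (MonoidAlgebra.single g 1)
  map_one' := op_ext fun j => by rw [cols_single, one_smul]; rfl
  map_mul' g h := op_ext fun j => by
    rw [Module.End.mul_apply, cols_single, cols_single, op_single, cols_single, mul_smul,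
      Finsupp.smul_single, op_smul_eq_mul, MonoidAlgebra.single_mul_single, one_mul]

lemma tau_single [MulAction G X] (g : G) (j : X) (r : MonoidAlgebra R G) :
    tau R g (Finsupp.single j r) = Finsupp.single (g • j) (MonoidAlgebra.single g 1 * r) := by
  rw [op_single]
  change _ • cols _ _ = _
  rw [cols_single, Finsupp.smul_single, op_smul_eq_mul]

lemma sp_tau [MulAction G X] (g : G) : Sp (fun (i : X) h j => h = g ∧ i = g • j) (tau R g) :=
  sp_of_single fun j => by rw [tau_single, mul_one]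

/-- Filtered rings. -/
class Flt (Φ : ℕ → AddSubgroup R) : Prop where
  one : (1 : R) ∈ Φ 0
  mul : ∀ {d e : ℕ} {x y : R}, x ∈ Φ d → y ∈ Φ e → x * y ∈ Φ (d + e)
  mono : Monotone Φ

/-- Elements with coefficients in a subgroup. -/
def coS (G : Type) [Group G] (U : AddSubgroup R) : AddSubgroup (MonoidAlgebra R G) where
  carrier := {x | ∀ g, x.coeff g ∈ U}
  add_mem' h h' g := U.add_mem (h g) (h' g)
  zero_mem' _ := U.zero_mem
  neg_mem' h g := U.neg_mem (h g)

/-- Operators of bounded filtration degree. -/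
def Bd (Φ : ℕ → AddSubgroup R) (a : Op (MonoidAlgebra R G) Y Z) : Prop :=
  ∃ d, ∀ i j, ent a i j ∈ coS G (Φ d)

variable {Φ : ℕ → AddSubgroup R} [hΦ : Flt Φ]

include hΦ

lemma bd_zero : Bd Φ (0 : Op (MonoidAlgebra R G) Y Z) := ⟨0, fun _ _ => zero_mem _⟩

lemma Bd.add (h : Bd Φ a) (h' : Bd Φ b) : Bd Φ (a + b) := by
  obtain ⟨d, h⟩ := h
  obtain ⟨e, h'⟩ := h'
  exact ⟨d + e, fun i j g => add_mem (hΦ.mono le_self_add (h i j g)) (hΦ.mono le_add_self (h' i j g))⟩

lemma Bd.neg (h : Bd Φ a) : Bd Φ (-a) := h.imp fun _ c i j => neg_mem (c i j)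

lemma Bd.comp {a : Op (MonoidAlgebra R G) X Y} (h : Bd Φ a) (h' : Bd Φ b) : Bd Φ (a ∘ₗ b) := by
  classical
  obtain ⟨d, h⟩ := h
  obtain ⟨e, h'⟩ := h'
  refine ⟨d + e, fun i k => ?_⟩
  rw [ent_comp]
  refine sum_mem fun j _ g => ?_
  rw [MonoidAlgebra.coeff_mul]
  refine sum_mem fun x _ => sum_mem fun y _ => ?_
  dsimp only
  split_ifs
  exacts [hΦ.mul (h i j x) (h' j k y), zero_mem _]

lemma co_single (u : G) : MonoidAlgebra.single u (1 : R) ∈ coS G (Φ 0) := fun g => by
  classical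
  rw [MonoidAlgebra.coeff_single, Finsupp.single_apply]
  split_ifs
  exacts [hΦ.one, zero_mem _]

lemma co_fs (j i : Y) (u : G) :
    Finsupp.single j (MonoidAlgebra.single u (1 : R)) i ∈ coS G (Φ 0) := by
  classical
  rw [Finsupp.single_apply]
  split_ifs
  exacts [co_single u, zero_mem _]

lemma bd_push (φ : Z → Y) : Bd Φ (push (MonoidAlgebra R G) φ) :=
  ⟨0, fun i j => by rw [ent, push_single]; exact co_fs _ _ 1⟩

lemma bd_pull {φ : Z → Y} (h : Injective φ) : Bd Φ (pull (MonoidAlgebra R G) h) :=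
  ⟨0, fun _ _ => co_fs _ _ 1⟩

lemma bd_tau [MulAction G X] (g : G) : Bd Φ (tau R g : Op (MonoidAlgebra R G) X X) :=
  ⟨0, fun i j => by rw [ent, tau_single, mul_one]; exact co_fs _ _ g⟩

lemma bd_id : Bd Φ (LinearMap.id : Op (MonoidAlgebra R G) X X) := ⟨0, fun _ _ => co_fs _ _ 1⟩

lemma Bd.amp {a : Op (MonoidAlgebra R G) X X} (h : Bd Φ a) : Bd Φ (amp a) :=
  h.imp fun _ h ⟨k, i⟩ ⟨l, j⟩ => by
    rw [ent, amp_single]
    by_cases c : k = l
    · subst c
      rw [push_apply (mk_inj k)]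
      exact h i j
    · rw [push_apply' _ fun ⟨_, d⟩ => c (congrArg Prod.fst d).symm]
      exact zero_mem _

lemma Bd.part (h : Bd Φ a) (g : G) : Bd Φ (part g a) := h.imp fun _ h i j x => by
  classical
  rw [ent_part, mpr, Matrix.map_apply, coeff_pr]
  split_ifs
  exacts [h i j x, zero_mem _]

end Sp

end Pool.Agent.MP_f7db47_al.OB
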