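import Pool.Agent.MP_f7db47_al.TW.Orb
import Pool.Agent.MP_f7db47_al.GN.DA

/-!
Twisted coefficients: part DA.
-/

set_option linter.unusedSectionVars false

universe u u' v w

section

namespace Pool.Agent.MP_f7db47_al.TW

open GN

open Matrix

variable {R : Type v} [Ring R]

variable {G : Type} [Group G] [MulSemiringAction G R] {Λ : Type}

/-- Control of the support of a matrix through labels. -/
def Ctl {I J : Type} (r : Λ → G → Λ → Prop) (li : I → Λ) (lj : J → Λ)
    (f : Matrix I J (SkewMonoidAlgebra R G)) : Prop :=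
  MSup2 (fun i j => {g | r (li i) g (lj j)}) f

/-- Standard idempotents: diagonal matrices of zeros and ones. -/
def Std {J : Type} (_ : J → Λ) (p : Matrix J J (SkewMonoidAlgebra R G)) : Prop :=
  (∀ i j, i ≠ j → p i j = 0) ∧ ∀ i, p i i = 1 ∨ p i i = 0

/-- A controlled isomorphism from the image of `p` to the image of `p'`. -/
structure Iso {I J : Type} [Fintype I] [Fintype J] (r : Λ → G → Λ → Prop) (l : I → Λ)
    (l' : J → Λ) (p : Matrix I I (SkewMonoidAlgebra R G)) (p' : Matrix J J (SkewMonoidAlgebra R G))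
    (f : Matrix J I (SkewMonoidAlgebra R G)) (g : Matrix I J (SkewMonoidAlgebra R G)) : Prop where
  gf : g * f = p
  fg : f * g = p'
  fp : f * p = f
  pg : p * g = g
  cf : Ctl r l' l f
  cg : Ctl r l l' g

/-- Stably standard, with control. -/
def SS {J : Type} [Fintype J] (r : Λ → G → Λ → Prop) (l : J → Λ)
    (p : Matrix J J (SkewMonoidAlgebra R G)) : Prop :=
  ∃ (E M : Type) (_ : Fintype E) (_ : DecidableEq E) (_ : Fintype M) (_ : DecidableEq M)
    (lE : E → Λ) (lM : M → Λ) (eE : Matrix E E (SkewMonoidAlgebra R G))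
    (eM : Matrix M M (SkewMonoidAlgebra R G)) (f : Matrix M (J ⊕ E) (SkewMonoidAlgebra R G))
    (g : Matrix (J ⊕ E) M (SkewMonoidAlgebra R G)),
    Std lE eE ∧ Std lM eM ∧ Iso r (Sum.elim l lE) lM (fromBlocks p 0 0 eE) eM f g

/-- An isomorphism over `R` between the images of two idempotents. -/
structure Bs {I J : Type} [Fintype I] [Fintype J] (e : Matrix I I (SkewMonoidAlgebra R G))
    (e' : Matrix J J (SkewMonoidAlgebra R G)) (b : Matrix I J (SkewMonoidAlgebra R G))
    (c : Matrix J I (SkewMonoidAlgebra R G)) : Prop where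
  sb : MSup {1} b
  sc : MSup {1} c
  bc : b * c = e
  cb : c * b = e'
  eb : e * b = b
  ce : c * e = c

/-- The isomorphism `f` from the image of `e` to the image of `e'` has trivial torsion. -/
def Triv {I J : Type} [Fintype I] [DecidableEq I] [Fintype J]
    (e : Matrix I I (SkewMonoidAlgebra R G)) (e' : Matrix J J (SkewMonoidAlgebra R G))
    (f : Matrix J I (SkewMonoidAlgebra R G)) : Prop :=
  ∀ b c, Bs e e' b c → T (b * f + (1 - e))

variable (R) in
/-- Controlled vanishing of the reduced projective class group over `N` spiders. -/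
def Q0 (N k k' : ℕ) : Prop :=
  ∀ (G : Type) [Group G] [MulSemiringAction G R] (Λ : Type) (B : Gpd G Λ) (S : Fin N → Spi G Λ),
    (∀ a, QQ R (B.grp a)) → ∀ (J : Type) [Fintype J] [DecidableEq J] (l : J → Λ)
    (p : Matrix J J (SkewMonoidAlgebra R G)), p * p = p → Ctl ((CR B S).rel k) l l p →
    SS ((CR B S).rel k') l p

/-- The coefficient of `t ^ a`. -/
noncomputable def cf (a : ℤ) : SkewMonoidAlgebra R (G × MZ) →+ SkewMonoidAlgebra R G :=
  Sk.comapDomainAddMonoidHom (fun g => (g, Multiplicative.ofAdd a))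
    fun _ _ h => congrArg Prod.fst h

/-- The element `t ^ b`. -/
noncomputable def tp (R : Type v) [Ring R] (G : Type) [Group G] [MulSemiringAction G R] (b : ℤ) :
    SkewMonoidAlgebra R (G × MZ) :=
  SkewMonoidAlgebra.single (1, Multiplicative.ofAdd b) 1

/-- The part of degree at least `c`. -/
noncomputable def chi {J : Type} (c : ℤ) (w : J → SkewMonoidAlgebra R (G × MZ)) :
    J → SkewMonoidAlgebra R (G × MZ) :=
  fun j => pr {g | c ≤ Multiplicative.toAdd g.2} (w j)

/-- The projection of the nonnegative part along the image of the part of degree `≥ d`. -/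
noncomputable def bop {I J : Type} [Fintype I] [Fintype J] (d : ℕ)
    (u : Matrix J I (SkewMonoidAlgebra R (G × MZ))) (v : Matrix I J (SkewMonoidAlgebra R (G × MZ)))
    (e : Matrix J J (SkewMonoidAlgebra R (G × MZ))) (w : J → SkewMonoidAlgebra R (G × MZ)) :
    J → SkewMonoidAlgebra R (G × MZ) :=
  e *ᵥ chi 0 w - u *ᵥ chi d (v *ᵥ chi 0 w)

/-- The idempotent of Bass, Heller and Swan. -/
noncomputable def bhs {I J : Type} [Fintype I] [Fintype J] [DecidableEq J] (d L : ℕ)
    (u : Matrix J I (SkewMonoidAlgebra R (G × MZ))) (v : Matrix I J (SkewMonoidAlgebra R (G × MZ)))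
    (e : Matrix J J (SkewMonoidAlgebra R (G × MZ))) :
    Matrix (J × Fin L) (J × Fin L) (SkewMonoidAlgebra R G) :=
  fun x y => cf ((x.2 : ℕ) : ℤ) (bop d u v e (Pi.single y.1 (tp R G ((y.2 : ℕ) : ℤ))) x.1)

/-- All degrees are at most `d` in absolute value. -/
def Deg {I J : Type} (d : ℕ) (u : Matrix I J (SkewMonoidAlgebra R (G × MZ))) : Prop :=
  MSup {g | |Multiplicative.toAdd g.2| ≤ (d : ℤ)} u

variable (R) in
/-- The idempotents of Bass, Heller and Swan are stably standard. -/
def QB (N k k' : ℕ) : Prop :=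
  ∀ (G : Type) [Group G] [MulSemiringAction G R] (Λ : Type) (B : Gpd G Λ) (S : Fin N → Spi G Λ),
    (∀ a, QQ R (B.grp a)) → ∀ (I J : Type) [Fintype I] [DecidableEq I] [Fintype J]
    [DecidableEq J] (l : I → Λ) (l' : J → Λ) (e : Matrix I I (SkewMonoidAlgebra R (G × MZ)))
    (e' : Matrix J J (SkewMonoidAlgebra R (G × MZ))) (u : Matrix J I (SkewMonoidAlgebra R (G × MZ)))
    (v : Matrix I J (SkewMonoidAlgebra R (G × MZ))) (d L : ℕ), Std l e → Std l' e' →
    Iso (up ((CR B S).rel k)) l l' e e' u v → Deg d u → Deg d v → 2 * d ≤ L →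
    SS ((CR B S).rel k') (fun x : J × Fin L => l' x.1) (bhs d L u v e')

end Pool.Agent.MP_f7db47_al.TW

end
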