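import Pool.Agent.MP_f7db47_al.TW.AIso
import Pool.Agent.MP_f7db47_al.GN.ABhs

/-!
Twisted coefficients: part ABhs.
-/

set_option linter.unusedSectionVars false

universe u u' v w

section

namespace Pool.Agent.MP_f7db47_al.TW

open GN

open Matrix

variable {R : Type v} [Ring R] {G : Type} [Group G] [MulSemiringAction G R] {Λ : Type} {I J K : Type}
  [Fintype I] [DecidableEq I] [Fintype J] [DecidableEq J] [Fintype K] [DecidableEq K]

section Aux

variable {X Y : Type}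

/-- the inclusion of the part of degree zero -/
noncomputable def ABhsI (R : Type v) [Ring R] (G : Type) [Group G] [MulSemiringAction G R] :
    SkewMonoidAlgebra R G →+* SkewMonoidAlgebra R (G × MZ) :=
  mapR R (MonoidHom.inl G MZ)

/-- the standard vectors -/
noncomputable def ABhsB (R : Type v) [Ring R] (G : Type) [Group G] [MulSemiringAction G R] (J : Type) [DecidableEq J]
    (L : ℕ) : Matrix J (J × Fin L) (SkewMonoidAlgebra R (G × MZ)) :=
  fun j y => (Pi.single y.1 (tp R G ((y.2 : ℕ) : ℤ)) : J → SkewMonoidAlgebra R (G × MZ)) j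

/-- the coordinates -/
noncomputable def ABhsC (L : ℕ) (W : Matrix J X (SkewMonoidAlgebra R (G × MZ))) :
    Matrix (J × Fin L) X (SkewMonoidAlgebra R G) :=
  fun x y => cf ((x.2 : ℕ) : ℤ) (W x.1 y)

/-- the projection, on matrices -/
noncomputable def ABhsP (d : ℕ) (u : Matrix J I (SkewMonoidAlgebra R (G × MZ)))
    (v : Matrix I J (SkewMonoidAlgebra R (G × MZ))) (e : Matrix J J (SkewMonoidAlgebra R (G × MZ)))
    (W : Matrix J X (SkewMonoidAlgebra R (G × MZ))) : Matrix J X (SkewMonoidAlgebra R (G × MZ)) :=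
  e * mpr (ABhsGe G 0) W - u * mpr (ABhsGe G d) (v * mpr (ABhsGe G 0) W)

lemma ABhs_eq (d L : ℕ) (u : Matrix J I (SkewMonoidAlgebra R (G × MZ)))
    (v : Matrix I J (SkewMonoidAlgebra R (G × MZ))) (e : Matrix J J (SkewMonoidAlgebra R (G × MZ))) :
    bhs d L u v e = ABhsC L (ABhsP d u v e (ABhsB R G J L)) := rfl

lemma ABhs_coeff (a : ℤ) (w : SkewMonoidAlgebra R (G × MZ)) (g : G) :
    (cf a w).coeff g = w.coeff (g, Multiplicative.ofAdd a) := rfl

lemma ABhs_cf (a : ℤ) (g : G × MZ) (r : R) : cf a (SkewMonoidAlgebra.single g r) =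
    if Multiplicative.toAdd g.2 = a then SkewMonoidAlgebra.single g.1 r else 0 := by
  classical
  ext γ
  rw [ABhs_coeff]
  split_ifs with h
  · subst h
    simp [Finsupp.single_apply, Prod.ext_iff]
  · rw [SkewMonoidAlgebra.coeff_single, Finsupp.single_apply, if_neg]
    · rfl
    · rintro rfl
      exact h rfl

lemma ABhs_I (g : G) (r : R) :
    ABhsI R G (SkewMonoidAlgebra.single g r) = SkewMonoidAlgebra.single (g, 1) r := by
  rw [ABhsI, Sk.mapDomainRingHom_apply, SkewMonoidAlgebra.mapDomain_single]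
  rfl

lemma ABhs_cf_mul (a : ℤ) (w : SkewMonoidAlgebra R (G × MZ)) (m : SkewMonoidAlgebra R G) :
    cf a (w * ABhsI R G m) = cf a w * m := by
  induction w using Sk.induction_linear with
  | zero => simp
  | add x y hx hy => simp only [add_mul, map_add, hx, hy]
  | single g r =>
    induction m using Sk.induction_linear with
    | zero => simp
    | add x y hx hy => simp only [mul_add, map_add, hx, hy]
    | single γ s =>
      rw [ABhs_I, SkewMonoidAlgebra.single_mul_single, ABhs_cf, ABhs_cf]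
      simp only [Prod.snd_mul, mul_one, Prod.fst_mul]
      split_ifs
      · rw [SkewMonoidAlgebra.single_mul_single]; rfl
      · rw [zero_mul]

lemma ABhs_C_mul [Fintype X] (L : ℕ) (W : Matrix J X (SkewMonoidAlgebra R (G × MZ)))
    (M : Matrix X Y (SkewMonoidAlgebra R G)) :
    ABhsC L W * M = ABhsC L (W * M.map (ABhsI R G)) := by
  ext1 x y
  simp only [Matrix.mul_apply, ABhsC, map_sum, Matrix.map_apply, ABhs_cf_mul]

lemma ABhs_C_add (L : ℕ) (W W' : Matrix J X (SkewMonoidAlgebra R (G × MZ))) :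
    ABhsC L W + ABhsC L W' = ABhsC L (W + W') := by
  ext1 x y
  exact (map_add (cf _) _ _).symm

lemma ABhs_C_zero (L : ℕ) : ABhsC L (0 : Matrix J X (SkewMonoidAlgebra R (G × MZ))) = 0 := by
  ext1 x y
  exact map_zero (cf _)

lemma ABhs_BC {L : ℕ} {W : Matrix J X (SkewMonoidAlgebra R (G × MZ))} (h0 : MSup (ABhsGe G 0) W)
    (hL : MSup (ABhsLt G L) W) : ABhsB R G J L * (ABhsC L W).map (ABhsI R G) = W := by
  ext1 j x
  have h : Sup (ABhsGe G 0 ∩ ABhsLt G L) (W j x) := fun g hg => ⟨h0 j x g hg, hL j x g hg⟩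
  rw [Matrix.mul_apply, Fintype.sum_prod_type, Finset.sum_eq_single j]
  · simp only [ABhsB, ABhsC, Pi.single_eq_same, Matrix.map_apply]
    refine h.induction (P := fun w => ∑ b : Fin L, tp R G ((b : ℕ) : ℤ) *
      ABhsI R G (cf ((b : ℕ) : ℤ) w) = w) (by simp) (fun a b ha hb => ?_) fun g hg r => ?_
    · simp only [map_add, mul_add, Finset.sum_add_distrib, ha, hb]
    · have h1 : 0 ≤ Multiplicative.toAdd g.2 := hg.1
      have h2 : Multiplicative.toAdd g.2 < L := hg.2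
      rw [Finset.sum_eq_single (⟨(Multiplicative.toAdd g.2).toNat, by omega⟩ : Fin L)]
      · rw [ABhs_cf, if_pos (by simp only; omega), ABhs_I, tp, SkewMonoidAlgebra.single_mul_single]
        simp [Int.toNat_of_nonneg h1]
      · intro b _ hb
        rw [ABhs_cf, if_neg fun e => hb (Fin.ext (by simp only; omega)), map_zero, mul_zero]
      · simp
  · intro j' _ hj
    simp [ABhsB, Pi.single_eq_of_ne hj.symm]
  · simp

lemma ABhs_ge {d : ℕ} {a b : ℤ} {u : Matrix I J (SkewMonoidAlgebra R (G × MZ))} (hu : Deg d u)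
    {W : Matrix J X (SkewMonoidAlgebra R (G × MZ))} (hW : MSup (ABhsGe G a) W) (h : b + d ≤ a) :
    MSup (ABhsGe G b) (u * W) :=
  MSup.mul hu hW fun x hx y hy => by
    have h1 := abs_le.1 (show |Multiplicative.toAdd x.2| ≤ (d : ℤ) from hx)
    have h2 : a ≤ Multiplicative.toAdd y.2 := hy
    change b ≤ Multiplicative.toAdd x.2 + Multiplicative.toAdd y.2
    omega

lemma ABhs_lt {d : ℕ} {a b : ℤ} {u : Matrix I J (SkewMonoidAlgebra R (G × MZ))} (hu : Deg d u)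
    {W : Matrix J X (SkewMonoidAlgebra R (G × MZ))} (hW : MSup (ABhsLt G a) W) (h : a + d ≤ b) :
    MSup (ABhsLt G b) (u * W) :=
  MSup.mul hu hW fun x hx y hy => by
    have h1 := abs_le.1 (show |Multiplicative.toAdd x.2| ≤ (d : ℤ) from hx)
    have h2 : Multiplicative.toAdd y.2 < a := hy
    change Multiplicative.toAdd x.2 + Multiplicative.toAdd y.2 < b
    omega

lemma ABhs_left {e : Matrix I J (SkewMonoidAlgebra R (G × MZ))} (he : Deg 0 e) (c : ℤ)
    (W : Matrix J X (SkewMonoidAlgebra R (G × MZ))) :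
    mpr (ABhsGe G c) (e * W) = e * mpr (ABhsGe G c) W :=
  mpr_mul_left W he fun x hx y => by
    have h1 := abs_le.1 (show |Multiplicative.toAdd x.2| ≤ ((0 : ℕ) : ℤ) from hx)
    change c ≤ Multiplicative.toAdd x.2 + Multiplicative.toAdd y.2 ↔ c ≤ Multiplicative.toAdd y.2
    omega

lemma ABhs_right [Fintype X] (c : ℤ) (W : Matrix J X (SkewMonoidAlgebra R (G × MZ)))
    (M : Matrix X Y (SkewMonoidAlgebra R G)) :
    mpr (ABhsGe G c) W * M.map (ABhsI R G) = mpr (ABhsGe G c) (W * M.map (ABhsI R G)) :=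
  (mpr_mul_right (U := Set.range (MonoidHom.inl G MZ)) W (fun _ _ => sup_mapDomain _ _) <| by
    rintro g _ ⟨x, rfl⟩
    simp [ABhsGe]).symm

lemma ABhs_P_right [Fintype X] (d : ℕ) (u : Matrix J I (SkewMonoidAlgebra R (G × MZ)))
    (v : Matrix I J (SkewMonoidAlgebra R (G × MZ))) (e : Matrix J J (SkewMonoidAlgebra R (G × MZ)))
    (W : Matrix J X (SkewMonoidAlgebra R (G × MZ))) (M : Matrix X Y (SkewMonoidAlgebra R G)) :
    ABhsP d u v e W * M.map (ABhsI R G) = ABhsP d u v e (W * M.map (ABhsI R G)) := by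
  simp only [ABhsP, Matrix.sub_mul, Matrix.mul_assoc, ABhs_right]

lemma ABhs_P_sub (d : ℕ) (u : Matrix J I (SkewMonoidAlgebra R (G × MZ)))
    (v : Matrix I J (SkewMonoidAlgebra R (G × MZ))) (e : Matrix J J (SkewMonoidAlgebra R (G × MZ)))
    (W W' : Matrix J X (SkewMonoidAlgebra R (G × MZ))) :
    ABhsP d u v e (W - W') = ABhsP d u v e W - ABhsP d u v e W' := by
  simp only [ABhsP, mpr_sub, Matrix.mul_sub]
  abel

lemma ABhs_comm (b : ℤ) (x : SkewMonoidAlgebra R (G × MZ)) : x * tp R G b = tp R G b * x := by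
  induction x using Sk.induction_linear with
  | zero => simp
  | add x y hx hy => simp only [add_mul, mul_add, hx, hy]
  | single g r =>
    simp only [tp, SkewMonoidAlgebra.single_mul_single, mul_one, one_mul, smul_one, prod_smul,
      one_smul]
    congr 1
    ext <;> simp [mul_comm]

lemma ABhs_smul_mul {A : Type*} [Ring A] {I J K : Type} [Fintype J] (c : A) (M : Matrix I J A)
    (N : Matrix J K A) : (c • M) * N = c • (M * N) := by
  ext1 i k
  simp only [Matrix.mul_apply, Matrix.smul_apply, smul_eq_mul, Finset.mul_sum, mul_assoc]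

lemma ABhs_T_mul (b : ℤ) (u : Matrix I J (SkewMonoidAlgebra R (G × MZ)))
    (W : Matrix J X (SkewMonoidAlgebra R (G × MZ))) : u * (tp R G b • W) = tp R G b • (u * W) := by
  ext1 i x
  simp only [Matrix.mul_apply, Matrix.smul_apply, smul_eq_mul, Finset.mul_sum, ← mul_assoc,
    ABhs_comm]

lemma ABhs_T_T {a b : ℤ} (h : a + b = 0) (W : Matrix J X (SkewMonoidAlgebra R (G × MZ))) :
    tp R G a • tp R G b • W = W := by
  rw [smul_smul, tp, tp, SkewMonoidAlgebra.single_mul_single, Prod.mk_mul_mk, ← ofAdd_add, h,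
    mul_one, smul_one, mul_one]
  exact one_smul _ _

lemma ABhs_T_ge {a b c : ℤ} {W : Matrix J X (SkewMonoidAlgebra R (G × MZ))}
    (hW : MSup (ABhsGe G a) W) (h : c ≤ a + b) : MSup (ABhsGe G c) (tp R G b • W) :=
  fun j x => (sup_single (S := {(1, Multiplicative.ofAdd b)}) rfl 1).mul (hW j x) <| by
    rintro _ rfl y hy
    have h2 : a ≤ Multiplicative.toAdd y.2 := hy
    change c ≤ b + Multiplicative.toAdd y.2
    omega

lemma ABhs_T_ctl {r : Λ → G → Λ → Prop} {l : J → Λ} {m : X → Λ} (b : ℤ)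
    {W : Matrix J X (SkewMonoidAlgebra R (G × MZ))} (hW : Ctl (up r) l m W) :
    Ctl (up r) l m (tp R G b • W) :=
  fun j x => (sup_single (S := {(1, Multiplicative.ofAdd b)}) rfl 1).mul (hW j x) <| by
    rintro _ rfl y hy
    change r _ (1 * y.1) _
    rw [one_mul]
    exact hy

lemma ABhs_C_ctl {r : Λ → G → Λ → Prop} {l : J → Λ} {m : X → Λ} (L : ℕ)
    {W : Matrix J X (SkewMonoidAlgebra R (G × MZ))} (hW : Ctl (up r) l m W) :
    Ctl r (fun x : J × Fin L => l x.1) m (ABhsC L W) :=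
  fun x y _ hg => hW x.1 y _ hg

lemma ABhs_B_ctl (F : GN.FR G Λ) (l : J → Λ) (L : ℕ) :
    Ctl (up (F.rel 0)) l (fun x : J × Fin L => l x.1) (ABhsB R G J L) := by
  intro j y
  simp only [ABhsB]
  by_cases h : j = y.1
  · subst h
    rw [Pi.single_eq_same]
    rw [tp]
    exact sup_single (g := ((1 : G), Multiplicative.ofAdd ((y.2 : ℕ) : ℤ))) (F.refl _) 1
  · rw [Pi.single_eq_of_ne h]
    exact sup_zero _

lemma ABhs_deg {l : I → Λ} {e : Matrix I I (SkewMonoidAlgebra R (G × MZ))} (h : Std l e) (d : ℕ) :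
    Deg d e := h.msup (by simp)

variable (F : GN.FR G Λ) {r : Λ → G × MZ → Λ → Prop} {k d : ℕ} {l : I → Λ} {l' : J → Λ}
  {e : Matrix I I (SkewMonoidAlgebra R (G × MZ))} {e' : Matrix J J (SkewMonoidAlgebra R (G × MZ))}
  {u : Matrix J I (SkewMonoidAlgebra R (G × MZ))} {v : Matrix I J (SkewMonoidAlgebra R (G × MZ))}

lemma ABhs_P_ctl (he' : Std l' e') (h : Iso (up (F.rel k)) l l' e e' u v) (d : ℕ) {k' : ℕ}
    {m : X → Λ} {W : Matrix J X (SkewMonoidAlgebra R (G × MZ))} (hW : Ctl (up (F.rel k')) l' m W) :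
    Ctl (up (F.rel (2 * k + k'))) l' m (ABhsP d u v e' W) := by
  have h1 : Ctl ((ABhsF F).rel k') l' m (mpr (ABhsGe G 0) W) := fun i j => (hW i j).pr
  have h2 := Ctl.mul (ABhsF F) (k := k) h.cg h1
  have h3 : Ctl ((ABhsF F).rel (k + k')) l m (mpr (ABhsGe G d) (v * mpr (ABhsGe G 0) W)) :=
    fun i j => (h2 i j).pr
  exact Ctl.sub (r := (ABhsF F).rel _)
    (Ctl.le _ (Ctl.mul _ (he'.ctl (ABhsF F) 0) h1) (by omega))
    (Ctl.le _ (Ctl.mul (ABhsF F) (k := k) h.cf h3) (by omega))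

lemma ABhs_P_ge (he' : Std l' e') (hu : Deg d u) (v : Matrix I J (SkewMonoidAlgebra R (G × MZ)))
    (W : Matrix J X (SkewMonoidAlgebra R (G × MZ))) : MSup (ABhsGe G 0) (ABhsP d u v e' W) :=
  (ABhs_ge (ABhs_deg he' 0) (msup_mpr _ _) (by simp)).sub (ABhs_ge hu (msup_mpr _ _) (by simp))

lemma ABhs_P_eq (h : Iso r l l' e e' u v) (W : Matrix J X (SkewMonoidAlgebra R (G × MZ))) :
    ABhsP d u v e' W = u * mpr (ABhsGe G d)ᶜ (v * mpr (ABhsGe G 0) W) := by
  rw [ABhsP, ← h.fg, Matrix.mul_assoc, ← Matrix.mul_sub]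
  congr 1
  exact sub_eq_of_eq_add' (mpr_add_mpr_compl _ _).symm

lemma ABhs_P_lt (h : Iso r l l' e e' u v) (hu : Deg d u) {L : ℕ} (hL : 2 * d ≤ L)
    (W : Matrix J X (SkewMonoidAlgebra R (G × MZ))) : MSup (ABhsLt G L) (ABhsP d u v e' W) := by
  rw [ABhs_P_eq h]
  exact ABhs_lt (a := d) hu ((msup_mpr _ _).mono fun g hg => lt_of_not_ge (α := ℤ) hg)
    (by omega)

lemma ABhs_P_u (he : Std l e) (h : Iso r l l' e e' u v) (hu : Deg d u)
    {x : Matrix I X (SkewMonoidAlgebra R (G × MZ))} (hx : MSup (ABhsGe G d) x) :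
    ABhsP d u v e' (u * x) = 0 := by
  rw [ABhsP, (ABhs_ge hu hx (by simp)).mpr_eq, ← Matrix.mul_assoc, h.pf, ← Matrix.mul_assoc v,
    h.gf, ABhs_left (ABhs_deg he 0), hx.mpr_eq, ← Matrix.mul_assoc, h.fp, sub_self]

lemma ABhs_P_e (he' : Std l' e') (h : Iso r l l' e e' u v)
    (W : Matrix J X (SkewMonoidAlgebra R (G × MZ))) :
    ABhsP d u v e' (e' * mpr (ABhsGe G 0) W) = ABhsP d u v e' W := by
  rw [ABhs_P_eq h, ABhs_P_eq h, ABhs_left (ABhs_deg he' 0), (msup_mpr _ _).mpr_eq,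
    ← Matrix.mul_assoc v, h.gp]

lemma ABhs_P_P (he : Std l e) (he' : Std l' e') (h : Iso r l l' e e' u v) (hu : Deg d u)
    (W : Matrix J X (SkewMonoidAlgebra R (G × MZ))) :
    ABhsP d u v e' (ABhsP d u v e' W) = ABhsP d u v e' W := by
  conv_lhs => rw [ABhsP.eq_1 d u v e' W]
  rw [ABhs_P_sub, ABhs_P_e he' h, ABhs_P_u he h hu (msup_mpr _ _), sub_zero]

lemma ABhs_BP (he' : Std l' e') (h : Iso r l l' e e' u v) (hu : Deg d u) {L : ℕ}
    (hL : 2 * d ≤ L) (W : Matrix J X (SkewMonoidAlgebra R (G × MZ))) :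
    ABhsB R G J L * (ABhsC L (ABhsP d u v e' W)).map (ABhsI R G) = ABhsP d u v e' W :=
  ABhs_BC (ABhs_P_ge he' hu v W) (ABhs_P_lt h hu hL W)

lemma ABhs_win (he : Std l e) (he' : Std l' e') (h : Iso r l l' e e' u v) (hu : Deg d u)
    (L₁ : ℕ) {L : ℕ} (hL : 2 * d ≤ L) (W : Matrix J X (SkewMonoidAlgebra R (G × MZ))) :
    ABhsC L₁ (ABhsP d u v e' (ABhsB R G J L)) * ABhsC L (ABhsP d u v e' W) =
      ABhsC L₁ (ABhsP d u v e' W) := by
  rw [ABhs_C_mul, ABhs_P_right, ABhs_BP he' h hu hL, ABhs_P_P he he' h hu]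

lemma ABhs_P_zero (d : ℕ) (u : Matrix J I (SkewMonoidAlgebra R (G × MZ)))
    (v : Matrix I J (SkewMonoidAlgebra R (G × MZ))) (e : Matrix J J (SkewMonoidAlgebra R (G × MZ))) :
    ABhsP d u v e (0 : Matrix J X (SkewMonoidAlgebra R (G × MZ))) = 0 := by
  simpa only [sub_self] using ABhs_P_sub d u v e (0 : Matrix J X (SkewMonoidAlgebra R (G × MZ))) 0

/-- the shifted part of high degree -/
noncomputable def ABhsS (d : ℕ) (v : Matrix I J (SkewMonoidAlgebra R (G × MZ)))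
    (W : Matrix J X (SkewMonoidAlgebra R (G × MZ))) : Matrix I X (SkewMonoidAlgebra R (G × MZ)) :=
  tp R G (-d) • mpr (ABhsGe G d) (v * mpr (ABhsGe G 0) W)

lemma ABhs_S_right [Fintype X] (d : ℕ) (v : Matrix I J (SkewMonoidAlgebra R (G × MZ)))
    (W : Matrix J X (SkewMonoidAlgebra R (G × MZ))) (M : Matrix X Y (SkewMonoidAlgebra R G)) :
    ABhsS d v W * M.map (ABhsI R G) = ABhsS d v (W * M.map (ABhsI R G)) := by
  simp only [ABhsS, ABhs_smul_mul, Matrix.mul_assoc, ABhs_right]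

lemma ABhs_S_sub (d : ℕ) (v : Matrix I J (SkewMonoidAlgebra R (G × MZ)))
    (W W' : Matrix J X (SkewMonoidAlgebra R (G × MZ))) :
    ABhsS d v (W - W') = ABhsS d v W - ABhsS d v W' := by
  simp only [ABhsS, mpr_sub, Matrix.mul_sub, smul_sub]

lemma ABhs_S_ctl (h : Ctl (up (F.rel k)) l l' v) (d : ℕ) {k' : ℕ}
    {m : X → Λ} {W : Matrix J X (SkewMonoidAlgebra R (G × MZ))} (hW : Ctl (up (F.rel k')) l' m W) :
    Ctl (up (F.rel (k + k'))) l m (ABhsS d v W) := by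
  have h1 : Ctl ((ABhsF F).rel k') l' m (mpr (ABhsGe G 0) W) := fun i j => (hW i j).pr
  exact ABhs_T_ctl _ fun i j => (Ctl.mul (ABhsF F) (k := k) h h1 i j).pr

lemma ABhs_Su (he : Std l e) (h : Iso r l l' e e' u v) (hu : Deg d u)
    {x : Matrix I X (SkewMonoidAlgebra R (G × MZ))} (hx : MSup (ABhsGe G d) x) :
    ABhsS d v (u * x) = e * tp R G (-d) • x := by
  rw [ABhsS, (ABhs_ge hu hx (by simp)).mpr_eq, ← Matrix.mul_assoc v, h.gf,
    ABhs_left (ABhs_deg he 0), hx.mpr_eq, ABhs_T_mul]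

lemma ABhs_Se (he' : Std l' e') (h : Iso r l l' e e' u v)
    (W : Matrix J X (SkewMonoidAlgebra R (G × MZ))) :
    ABhsS d v (e' * mpr (ABhsGe G 0) W) = ABhsS d v W := by
  rw [ABhsS, ABhsS, ABhs_left (ABhs_deg he' 0), (msup_mpr _ _).mpr_eq, ← Matrix.mul_assoc v, h.gp]

lemma ABhs_SP (he : Std l e) (he' : Std l' e') (h : Iso r l l' e e' u v) (hu : Deg d u)
    (W : Matrix J X (SkewMonoidAlgebra R (G × MZ))) : ABhsS d v (ABhsP d u v e' W) = 0 := by
  rw [ABhsP, ABhs_S_sub, ABhs_Se he' h, ABhs_Su he h hu (msup_mpr _ _), ABhs_T_mul,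
    ← ABhs_left (ABhs_deg he 0), ← Matrix.mul_assoc, h.pg, ABhsS, sub_self]

variable {r' r'' : Λ → G × MZ → Λ → Prop} {d' : ℕ} {l'' : K → Λ}
  {e'' : Matrix K K (SkewMonoidAlgebra R (G × MZ))} {u' : Matrix K J (SkewMonoidAlgebra R (G × MZ))}
  {v' : Matrix J K (SkewMonoidAlgebra R (G × MZ))}

lemma ABhs_deg_mul (hu : Deg d u) (hu' : Deg d' u') : Deg (d + d') (u' * u) :=
  MSup.mul hu' hu fun x hx y hy => by
    have h1 := abs_le.1 (show |Multiplicative.toAdd x.2| ≤ (d' : ℤ) from hx)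
    have h2 := abs_le.1 (show |Multiplicative.toAdd y.2| ≤ (d : ℤ) from hy)
    change |Multiplicative.toAdd x.2 + Multiplicative.toAdd y.2| ≤ _
    rw [abs_le]
    omega

lemma ABhs_a12 (he' : Std l' e') (he'' : Std l'' e'')
    (h' : Iso r' l' l'' e' e'' u' v') (hu : Deg d u) (hu' : Deg d' u')
    (W : Matrix K X (SkewMonoidAlgebra R (G × MZ))) :
    ABhsP d' u' v' e'' (ABhsP (d + d') (u' * u) (v * v') e'' W) = ABhsP d' u' v' e'' W := by
  rw [ABhsP.eq_1 (d + d'), ABhs_P_sub, ABhs_P_e he'' h', Matrix.mul_assoc u',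
    ABhs_P_u he' h' hu' (ABhs_ge hu (msup_mpr _ _) (by omega)), sub_zero]

lemma ABhs_b12 (he : Std l e) (he' : Std l' e') (he'' : Std l'' e'') (h : Iso r l l' e e' u v)
    (h' : Iso r' l' l'' e' e'' u' v') (hu : Deg d u) (hu' : Deg d' u')
    (W : Matrix K X (SkewMonoidAlgebra R (G × MZ))) :
    ABhsP d u v e' (ABhsS d' v' (ABhsP (d + d') (u' * u) (v * v') e'' W)) =
      ABhsP d u v e' (ABhsS d' v' W) := by
  rw [ABhsP.eq_1 (d + d'), ABhs_S_sub, ABhs_Se he'' h', Matrix.mul_assoc u',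
    ABhs_Su he' h' hu' (ABhs_ge hu (msup_mpr _ _) (by omega)), ← ABhs_T_mul,
    ← Matrix.mul_assoc e', h.pf, ABhs_P_sub,
    ABhs_P_u he h hu (ABhs_T_ge (msup_mpr _ _) (by omega)), sub_zero]

lemma ABhs_gf (he : Std l e) (he'' : Std l'' e'')
    (h12 : Iso r'' l l'' e e'' (u' * u) (v * v')) (h' : Iso r' l' l'' e' e'' u' v')
    (hu : Deg (d + d') (u' * u)) (W : Matrix K X (SkewMonoidAlgebra R (G × MZ))) :
    ABhsP (d + d') (u' * u) (v * v') e'' (ABhsP d' u' v' e'' W) +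
      ABhsP (d + d') (u' * u) (v * v') e'' (u' * (tp R G d' • ABhsP d u v e' (ABhsS d' v' W))) =
      ABhsP (d + d') (u' * u) (v * v') e'' W := by
  have h1 : MSup (ABhsGe G 0) (ABhsS d' v' W) := ABhs_T_ge (msup_mpr _ _) (by simp)
  rw [ABhsP.eq_1 d', ABhsP.eq_1 d, h1.mpr_eq, smul_sub, ← ABhs_T_mul, ← ABhs_T_mul, ABhsS,
    ABhs_T_T (add_neg_cancel _), Matrix.mul_sub, ← Matrix.mul_assoc u' e', h'.fp,
    ← Matrix.mul_assoc u' u, ABhs_P_sub, ABhs_P_sub, ABhs_P_e he'' h12,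
    ABhs_P_u he h12 hu (ABhs_T_ge (msup_mpr _ _) (by omega)), sub_zero, sub_add_cancel]

end Aux

theorem exists_deg (u : Matrix I J (SkewMonoidAlgebra R (G × MZ))) : ∃ d, Deg d u := by
  obtain ⟨s, hs, -⟩ := exists_finset_msup u
  refine ⟨s.sup fun g => (Multiplicative.toAdd g.2).natAbs, hs.mono fun g hg => ?_⟩
  have := Finset.le_sup (f := fun g : G × MZ => (Multiplicative.toAdd g.2).natAbs) hg
  change |Multiplicative.toAdd g.2| ≤ _
  rw [← Int.natCast_natAbs]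
  exact Int.ofNat_le.2 this

theorem Deg.mono {d d' : ℕ} {u : Matrix I J (SkewMonoidAlgebra R (G × MZ))} (h : Deg d u)
    (hd : d ≤ d') : Deg d' u :=
  MSup.mono h fun _ hg => le_trans (α := ℤ) hg (Int.ofNat_le.2 hd)

theorem Std.deg {l : I → Λ} {e : Matrix I I (SkewMonoidAlgebra R (G × MZ))} (h : Std l e) (d : ℕ) :
    Deg d e :=
  ABhs_deg h d

variable (F : GN.FR G Λ) {k : ℕ} {l : I → Λ} {l' : J → Λ} {l'' : K → Λ}
  {e : Matrix I I (SkewMonoidAlgebra R (G × MZ))} {e' : Matrix J J (SkewMonoidAlgebra R (G × MZ))}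
  {e'' : Matrix K K (SkewMonoidAlgebra R (G × MZ))}
  {u : Matrix J I (SkewMonoidAlgebra R (G × MZ))} {v : Matrix I J (SkewMonoidAlgebra R (G × MZ))}

theorem bhs_idem {d L : ℕ} (he : Std l e) (he' : Std l' e')
    (h : Iso (up (F.rel k)) l l' e e' u v) (hu : Deg d u) (hv : Deg d v) (hL : 2 * d ≤ L) :
    bhs d L u v e' * bhs d L u v e' = bhs d L u v e' ∧
      Ctl (F.rel (2 * k)) (fun x : J × Fin L => l' x.1) (fun x => l' x.1) (bhs d L u v e') := by
  rw [ABhs_eq]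
  exact ⟨ABhs_win he he' h hu L hL _, ABhs_C_ctl L (ABhs_P_ctl F he' h d (ABhs_B_ctl F l' L))⟩

theorem bhs_win {d L L' : ℕ} (he : Std l e) (he' : Std l' e')
    (h : Iso (up (F.rel k)) l l' e e' u v) (hu : Deg d u) (hv : Deg d v) (hL : 2 * d ≤ L)
    (hL' : 2 * d ≤ L') :
    ∃ f g, Iso (F.rel (2 * k)) (fun x : J × Fin L => l' x.1) (fun x : J × Fin L' => l' x.1)
      (bhs d L u v e') (bhs d L' u v e') f g :=
  ⟨ABhsC L' (ABhsP d u v e' (ABhsB R G J L)), ABhsC L (ABhsP d u v e' (ABhsB R G J L')),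
    ABhs_win he he' h hu L hL' _, ABhs_win he he' h hu L' hL _, ABhs_win he he' h hu L' hL _,
    ABhs_win he he' h hu L hL _, ABhs_C_ctl L' (ABhs_P_ctl F he' h d (ABhs_B_ctl F l' L)),
    ABhs_C_ctl L (ABhs_P_ctl F he' h d (ABhs_B_ctl F l' L'))⟩

theorem bhs_mul {d d' L : ℕ} {u' : Matrix K J (SkewMonoidAlgebra R (G × MZ))}
    {v' : Matrix J K (SkewMonoidAlgebra R (G × MZ))} (he : Std l e) (he' : Std l' e')
    (he'' : Std l'' e'') (h : Iso (up (F.rel k)) l l' e e' u v)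
    (h' : Iso (up (F.rel k)) l' l'' e' e'' u' v') (hu : Deg d u) (hv : Deg d v) (hu' : Deg d' u')
    (hv' : Deg d' v') (hL : 2 * (d + d') ≤ L) :
    ∃ f g, Iso (F.rel (10 * k)) (fun x : K × Fin L => l'' x.1)
      (Sum.elim (fun x : K × Fin L => l'' x.1) fun x : J × Fin L => l' x.1)
      (bhs (d + d') L (u' * u) (v * v') e'')
      (fromBlocks (bhs d' L u' v' e'') 0 0 (bhs d L u v e')) f g := by
  have h12 : Iso (up (F.rel (k + k))) l l'' e e'' (u' * u) (v * v') :=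
    Iso.trans (ABhsF F) (k := k) (k' := k) h h'
  have hu12 : Deg (d + d') (u' * u) := ABhs_deg_mul hu hu'
  have b1 := ABhs_BP (X := J × Fin L) he' h hu (L := L) (by omega)
  have b1' := ABhs_BP (X := K × Fin L) he' h hu (L := L) (by omega)
  have b2 := ABhs_BP (X := K × Fin L) he'' h' hu' (L := L) (by omega)
  have b12 := ABhs_BP (X := K × Fin L) he'' h12 hu12 hL
  have b12' := ABhs_BP (X := J × Fin L) he'' h12 hu12 hL
  have cK := ABhs_B_ctl (R := R) F l'' L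
  have cJ := ABhs_B_ctl (R := R) F l' L
  rw [ABhs_eq, ABhs_eq, ABhs_eq]
  refine ⟨fromRows (ABhsC L (ABhsP d' u' v' e'' (ABhsB R G K L)))
    (ABhsC L (ABhsP d u v e' (ABhsS d' v' (ABhsB R G K L)))),
    fromCols (ABhsC L (ABhsP (d + d') (u' * u) (v * v') e'' (ABhsP d' u' v' e'' (ABhsB R G K L))))
      (ABhsC L (ABhsP (d + d') (u' * u) (v * v') e''
        (u' * (tp R G d' • ABhsP d u v e' (ABhsB R G J L))))), ?_, ?_, ?_, ?_, ?_, ?_⟩
  · rw [fromCols_mul_fromRows]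
    simp only [ABhs_C_mul, ABhs_P_right, Matrix.mul_assoc, ABhs_smul_mul, b1', b2, ABhs_C_add]
    rw [ABhs_P_P he' he'' h' hu', ABhs_P_P he he' h hu, ABhs_gf he he'' h12 h' hu12]
  · rw [fromRows_mul_fromCols]
    simp only [ABhs_C_mul, ABhs_P_right, ABhs_S_right, b12, b12', ABhs_a12 he' he'' h' hu hu',
      ABhs_b12 he he' he'' h h' hu hu']
    rw [ABhs_P_P he' he'' h' hu',
      ABhs_P_u he' h' hu' (ABhs_T_ge (ABhs_P_ge he' hu _ _) (by simp)), ABhs_SP he' he'' h' hu',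
      ABhs_Su he' h' hu' (ABhs_T_ge (ABhs_P_ge he' hu _ _) (by simp)),
      ABhs_T_T (neg_add_cancel _), ABhs_P_zero, ← (ABhs_P_ge he' hu v (ABhsB R G J L)).mpr_eq,
      ABhs_P_e he' h, ABhs_P_P he he' h hu, (ABhs_P_ge he' hu v (ABhsB R G J L)).mpr_eq,
      ABhs_C_zero, ABhs_C_zero]
  · rw [fromRows_mul]
    simp only [ABhs_C_mul, ABhs_P_right, ABhs_S_right, b12, ABhs_a12 he' he'' h' hu hu',
      ABhs_b12 he he' he'' h h' hu hu']
  · rw [mul_fromCols, ABhs_win he he'' h12 hu12 L hL, ABhs_win he he'' h12 hu12 L hL]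
  · rintro (x | x) y
    · exact Ctl.le F (ABhs_C_ctl L (ABhs_P_ctl F he'' h' d' cK)) (by omega) x y
    · exact Ctl.le F (ABhs_C_ctl L (ABhs_P_ctl F he' h d (ABhs_S_ctl F h'.cg d' cK)))
        (by omega) x y
  · rintro x (y | y)
    · exact Ctl.le F (ABhs_C_ctl L (ABhs_P_ctl F he'' h12 _ (ABhs_P_ctl F he'' h' d' cK)))
        (by omega) x y
    · exact Ctl.le F (ABhs_C_ctl L (ABhs_P_ctl F he'' h12 _ (Ctl.mul (ABhsF F) (k := k) h'.cf
        (ABhs_T_ctl _ (ABhs_P_ctl F he' h d cJ))))) (by omega) x y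

end Pool.Agent.MP_f7db47_al.TW

end
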