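import Pool.Agent.MP_f7db47_al.TW.AIso
import Pool.Agent.MP_f7db47_al.GN.ABhs2

/-!
Twisted coefficients: part ABhs2.
-/

set_option linter.unusedSectionVars false

universe u u' v w

section

namespace Pool.Agent.MP_f7db47_al.TW

open GN

open Matrix

variable {R : Type v} [Ring R] {G : Type} [Group G] [MulSemiringAction G R] {Λ : Type} {I J K M : Type}
  [Fintype I] [DecidableEq I] [Fintype J] [DecidableEq J] [Fintype K] [DecidableEq K]
  [Fintype M] [DecidableEq M]

/-- The element `x t ^ b`. -/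
noncomputable def abhs2T (b : ℤ) : SkewMonoidAlgebra R G →+ SkewMonoidAlgebra R (G × MZ) :=
  (AddMonoidHom.mulRight (tp R G b)).comp
    (mapR R (MonoidHom.inl G MZ)).toAddMonoidHom

lemma abhs2_single (b : ℤ) (g : G) (r : R) :
    abhs2T b (SkewMonoidAlgebra.single g r) = SkewMonoidAlgebra.single (g, Multiplicative.ofAdd b) r := by
  simp [abhs2T, tp, SkewMonoidAlgebra.single_mul_single]

lemma abhs2_mul (a b : ℤ) (x y : SkewMonoidAlgebra R G) :
    abhs2T a x * abhs2T b y = abhs2T (a + b) (x * y) := by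
  induction x using Sk.induction_linear with
  | zero => simp
  | add x x' h h' => simp only [map_add, add_mul, h, h']
  | single g r =>
    induction y using Sk.induction_linear with
    | zero => simp
    | add y y' h h' => simp only [map_add, mul_add, h, h']
    | single g' r' =>
      simp only [abhs2_single, SkewMonoidAlgebra.single_mul_single, Prod.mk_mul_mk, ofAdd_add,
        prod_smul]

lemma abhs2_sup {S : Set G} {x : SkewMonoidAlgebra R G} (hx : Sup S x) (b : ℤ) :
    Sup {g : G × MZ | g.1 ∈ S ∧ Multiplicative.toAdd g.2 = b} (abhs2T b x) := by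
  refine hx.induction (P := fun x => Sup {g : G × MZ | g.1 ∈ S ∧ Multiplicative.toAdd g.2 = b}
    (abhs2T b x)) (by simpa using sup_zero _) (fun a c ha hc => by simpa using ha.add hc)
    fun g hg r => ?_
  rw [abhs2_single]
  exact sup_single (S := {g : G × MZ | g.1 ∈ S ∧ Multiplicative.toAdd g.2 = b}) ⟨hg, rfl⟩ r

lemma abhs2_cf (a b : ℤ) (x : SkewMonoidAlgebra R G) :
    cf a (abhs2T b x) = if a = b then x else 0 := by
  induction x using Sk.induction_linear with
  | zero => simp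
  | add x x' h h' =>
    simp only [map_add, h, h']
    split_ifs <;> simp
  | single g r =>
    rw [abhs2_single]
    split_ifs with h
    · subst h
      exact Sk.comapDomain_single_map (fun g : G => (g, Multiplicative.ofAdd a))
        (fun _ _ h => congrArg Prod.fst h) g r
    · refine Sk.comapDomain_single_of_not_mem_range ?_ fun _ _ h => congrArg Prod.fst h
      rintro ⟨g', hg'⟩
      exact h (congrArg (fun z : G × MZ => Multiplicative.toAdd z.2) hg')

lemma abhs2_pr (c b : ℤ) (x : SkewMonoidAlgebra R G) :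
    pr {g : G × MZ | c ≤ Multiplicative.toAdd g.2} (abhs2T b x) =
      if c ≤ b then abhs2T b x else 0 := by
  have h := abhs2_sup (sup_univ x) b
  split_ifs with hc
  · exact (h.mono fun g hg => by
      change c ≤ Multiplicative.toAdd g.2
      rw [hg.2]
      exact hc).pr_eq
  · refine h.pr_eq_zero fun g hg h' => hc ?_
    have h2 : c ≤ Multiplicative.toAdd g.2 := h'
    rwa [hg.2] at h2

/-- The vector `w t ^ b`. -/
noncomputable def abhs2V (b : ℤ) (w : J → SkewMonoidAlgebra R G) : J → SkewMonoidAlgebra R (G × MZ) :=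
  fun j => abhs2T b (w j)

lemma abhs2_mulVec (a b : ℤ) (p : Matrix I J (SkewMonoidAlgebra R G)) (w : J → SkewMonoidAlgebra R G) :
    p.map (abhs2T a) *ᵥ abhs2V b w = abhs2V (a + b) (p *ᵥ w) := by
  funext i
  simp only [mulVec, dotProduct, abhs2V, map_apply, abhs2_mul, map_sum]

lemma abhs2_mmul (a b : ℤ) (p : Matrix I J (SkewMonoidAlgebra R G))
    (q : Matrix J K (SkewMonoidAlgebra R G)) :
    p.map (abhs2T a) * q.map (abhs2T b) = (p * q).map (abhs2T (a + b)) := by
  ext1 i k
  simp only [Matrix.mul_apply, map_apply, abhs2_mul, map_sum]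

lemma abhs2_chi (c b : ℤ) (w : J → SkewMonoidAlgebra R G) :
    chi c (abhs2V b w) = if c ≤ b then abhs2V b w else 0 := by
  funext j
  simp only [chi, abhs2V, abhs2_pr]
  split_ifs <;> rfl

lemma abhs2_chi_add (c : ℤ) (w w' : J → SkewMonoidAlgebra R (G × MZ)) :
    chi c (w + w') = chi c w + chi c w' := funext fun _ => map_add _ _ _

lemma abhs2_chi_zero (c : ℤ) : chi c (0 : J → SkewMonoidAlgebra R (G × MZ)) = 0 :=
  funext fun _ => map_zero _

lemma abhs2_pi (j : J) (b : ℤ) :
    (Pi.single j (tp R G b) : J → SkewMonoidAlgebra R (G × MZ)) = abhs2V b (Pi.single j 1) := by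
  funext i
  by_cases h : i = j
  · subst h
    simp only [abhs2V, Pi.single_eq_same]
    exact (abhs2_single b 1 1).symm
  · simp only [abhs2V, Pi.single_eq_of_ne h, map_zero]

lemma abhs2_one : (1 : Matrix I I (SkewMonoidAlgebra R G)).map (abhs2T 0) = 1 := by
  refine Matrix.map_one _ (map_zero _) ?_
  exact abhs2_single 0 1 1

lemma abhs2_ctl {r : Λ → G → Λ → Prop} {l : I → Λ} {l' : J → Λ}
    {p : Matrix I J (SkewMonoidAlgebra R G)} (h : Ctl r l l' p) (b : ℤ) :
    Ctl (up r) l l' (p.map (abhs2T b)) := fun i j => (abhs2_sup (h i j) b).mono fun _ hg => hg.1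

lemma abhs2_deg (p : Matrix I J (SkewMonoidAlgebra R G)) {b : ℤ} {d : ℕ} (hb : |b| ≤ d) :
    Deg d (p.map (abhs2T b)) := fun i j => (abhs2_sup (sup_univ (p i j)) b).mono fun g hg => by
  change |Multiplicative.toAdd g.2| ≤ (d : ℤ)
  rw [hg.2]
  exact hb

lemma abhs2_chi_elim (c : ℤ) (w : J → SkewMonoidAlgebra R (G × MZ))
    (w' : M → SkewMonoidAlgebra R (G × MZ)) :
    chi c (Sum.elim w w') = Sum.elim (chi c w) (chi c w') := by
  funext x
  cases x <;> rfl

lemma abhs2_diag (u : Matrix J I (SkewMonoidAlgebra R (G × MZ)))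
    (u' : Matrix M K (SkewMonoidAlgebra R (G × MZ))) (w : I → SkewMonoidAlgebra R (G × MZ))
    (w' : K → SkewMonoidAlgebra R (G × MZ)) :
    fromBlocks u 0 0 u' *ᵥ Sum.elim w w' = Sum.elim (u *ᵥ w) (u' *ᵥ w') := by
  rw [fromBlocks_mulVec]
  simp

lemma abhs2_bop_zero (d : ℕ) (u : Matrix J I (SkewMonoidAlgebra R (G × MZ)))
    (v : Matrix I J (SkewMonoidAlgebra R (G × MZ))) (e : Matrix J J (SkewMonoidAlgebra R (G × MZ))) :
    bop d u v e 0 = 0 := by
  simp only [bop, abhs2_chi_zero, mulVec_zero, sub_zero]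

lemma abhs2_bop_sum (d : ℕ) (u : Matrix J I (SkewMonoidAlgebra R (G × MZ)))
    (v : Matrix I J (SkewMonoidAlgebra R (G × MZ))) (e : Matrix J J (SkewMonoidAlgebra R (G × MZ)))
    (u' : Matrix M K (SkewMonoidAlgebra R (G × MZ))) (v' : Matrix K M (SkewMonoidAlgebra R (G × MZ)))
    (e' : Matrix M M (SkewMonoidAlgebra R (G × MZ))) (w : J → SkewMonoidAlgebra R (G × MZ))
    (w' : M → SkewMonoidAlgebra R (G × MZ)) :
    bop d (fromBlocks u 0 0 u') (fromBlocks v 0 0 v') (fromBlocks e 0 0 e') (Sum.elim w w') =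
      Sum.elim (bop d u v e w) (bop d u' v' e' w') := by
  simp only [bop, abhs2_chi_elim, abhs2_diag]
  funext x
  cases x <;> rfl

theorem bhs_std {l : I → Λ} {e : Matrix I I (SkewMonoidAlgebra R (G × MZ))} (he : Std l e)
    (d L : ℕ) : Std (fun x : I × Fin L => l x.1) (bhs d L e e e) := by
  classical
  set E : Matrix I I (SkewMonoidAlgebra R G) :=
    diagonal fun i => if e i i = 1 then 1 else 0 with hE
  have hs : Std l E := std_diag l _
  have hEE : E * E = E := hs.idem
  have h4 : e = E.map (abhs2T 0) := by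
    ext1 i j
    rw [map_apply]
    by_cases hij : i = j
    · subst hij
      rw [hE, diagonal_apply_eq]
      split_ifs with h
      · exact h.trans (abhs2_single 0 1 1).symm
      · rw [map_zero]
        exact (he.2 i).resolve_left h
    · rw [he.1 i j hij, hs.1 i j hij, map_zero]
  have key : ∀ x y, bhs d L e e e x y =
      if x.2 = y.2 ∧ (y.2 : ℕ) < d then E x.1 y.1 else 0 := by
    intro x y
    have h5 : (0 : ℤ) ≤ ((y.2 : ℕ) : ℤ) := Int.natCast_nonneg _
    simp only [bhs, bop, h4, abhs2_pi, abhs2_chi, if_pos h5, abhs2_mulVec, zero_add]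
    by_cases h : (y.2 : ℕ) < d
    · have h6 : ¬ ((d : ℤ) ≤ ((y.2 : ℕ) : ℤ)) := by omega
      simp only [if_neg h6, mulVec_zero, sub_zero, abhs2V, abhs2_cf, h, and_true, Nat.cast_inj,
        Fin.val_inj, mulVec_single_one, col_apply]
    · have h6 : (d : ℤ) ≤ ((y.2 : ℕ) : ℤ) := by omega
      simp only [if_pos h6, abhs2_mulVec, zero_add, mulVec_mulVec, hEE, sub_self, h, and_false,
        if_false]
      simp
  refine ⟨fun x y hxy => ?_, fun x => ?_⟩
  · rw [key]
    split_ifs with h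
    · exact hs.1 _ _ fun c => hxy (Prod.ext c h.1)
    · rfl
  · rw [key]
    split_ifs
    · exact hs.2 _
    · exact Or.inr rfl

theorem bhs_sum (d L : ℕ) (u : Matrix J I (SkewMonoidAlgebra R (G × MZ)))
    (v : Matrix I J (SkewMonoidAlgebra R (G × MZ))) (e : Matrix J J (SkewMonoidAlgebra R (G × MZ)))
    (u' : Matrix M K (SkewMonoidAlgebra R (G × MZ))) (v' : Matrix K M (SkewMonoidAlgebra R (G × MZ)))
    (e' : Matrix M M (SkewMonoidAlgebra R (G × MZ))) :
    (bhs d L (fromBlocks u 0 0 u') (fromBlocks v 0 0 v') (fromBlocks e 0 0 e')).submatrix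
        (Equiv.sumProdDistrib J M (Fin L)).symm (Equiv.sumProdDistrib J M (Fin L)).symm =
      fromBlocks (bhs d L u v e) 0 0 (bhs d L u' v' e') := by
  have hl : ∀ (j : J) (t : SkewMonoidAlgebra R (G × MZ)),
      (Pi.single (Sum.inl j) t : J ⊕ M → SkewMonoidAlgebra R (G × MZ)) =
        Sum.elim (Pi.single j t) 0 := fun j t => (Sum.elim_single_zero j t).symm
  have hr : ∀ (j : M) (t : SkewMonoidAlgebra R (G × MZ)),
      (Pi.single (Sum.inr j) t : J ⊕ M → SkewMonoidAlgebra R (G × MZ)) =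
        Sum.elim (0 : J → SkewMonoidAlgebra R (G × MZ)) (Pi.single j t) :=
    fun j t => (Sum.elim_zero_single j t).symm
  ext1 x y
  rcases x with ⟨i, a⟩ | ⟨i, a⟩ <;> rcases y with ⟨j, b⟩ | ⟨j, b⟩ <;>
    simp only [submatrix_apply, Equiv.sumProdDistrib_symm_apply_left,
      Equiv.sumProdDistrib_symm_apply_right, bhs, hl, hr, abhs2_bop_sum, abhs2_bop_zero,
      Sum.elim_inl, Sum.elim_inr, fromBlocks_apply₁₁, fromBlocks_apply₁₂, fromBlocks_apply₂₁,
      fromBlocks_apply₂₂, Pi.zero_apply, map_zero, Matrix.zero_apply]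

/-- The automorphism `t p + 1 - p`. -/
theorem bhs_basic (F : GN.FR G Λ) {k k' : ℕ} {l : I → Λ} {p : Matrix I I (SkewMonoidAlgebra R G)}
    (hp : p * p = p) (hc : Ctl (F.rel k) l l p) :
    ∃ u v : Matrix I I (SkewMonoidAlgebra R (G × MZ)), Iso (up (F.rel k)) l l 1 1 u v ∧ Deg 1 u ∧
      Deg 1 v ∧ (SS (F.rel k') (fun x : I × Fin 2 => l x.1) (bhs 1 2 u v 1) →
        SS (F.rel k') l p) := by
  have q1 : p * (1 - p) = 0 := by rw [mul_sub, mul_one, hp, sub_self]
  have q2 : (1 - p) * p = 0 := by rw [sub_mul, one_mul, hp, sub_self]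
  have q3 : (1 - p) * (1 - p) = 1 - p := by rw [mul_sub, mul_one, q2, sub_zero]
  have key : ∀ a b : ℤ, a + b = 0 → (p.map (abhs2T a) + (1 - p).map (abhs2T 0)) *
      (p.map (abhs2T b) + (1 - p).map (abhs2T 0)) = 1 := by
    intro a b hab
    have z : ∀ c : ℤ, (0 : Matrix I I (SkewMonoidAlgebra R G)).map (abhs2T c) = 0 :=
      fun c => Matrix.map_zero _ (map_zero _)
    simp only [add_mul, mul_add, abhs2_mmul, hp, q1, q2, q3, hab, add_zero, z, zero_add]
    rw [← Matrix.map_add _ (map_add _), add_sub_cancel, abhs2_one]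
  have hc' : ∀ a : ℤ, Ctl (up (F.rel k)) l l (p.map (abhs2T a) + (1 - p).map (abhs2T 0)) :=
    fun a => (abhs2_ctl hc a).add (abhs2_ctl ((ctl_one F k l).sub hc) 0)
  have hd : ∀ a : ℤ, |a| ≤ (1 : ℕ) → Deg 1 (p.map (abhs2T a) + (1 - p).map (abhs2T 0)) :=
    fun a ha i j => (abhs2_deg p ha i j).add (abhs2_deg (1 - p) (by simp) i j)
  refine ⟨_, _, ⟨key (-1) 1 (by simp), key 1 (-1) (by simp), mul_one _, one_mul _, hc' _, hc' _⟩,
    hd _ (by simp), hd _ (by simp), fun h => ?_⟩
  have b0 : ∀ w : I → SkewMonoidAlgebra R G, bop 1 (p.map (abhs2T 1) + (1 - p).map (abhs2T 0))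
      (p.map (abhs2T (-1)) + (1 - p).map (abhs2T 0)) 1 (abhs2V 0 w) = abhs2V 0 w := by
    intro w
    simp [bop, abhs2_chi, add_mulVec, abhs2_mulVec, abhs2_chi_add]
  have b1 : ∀ w : I → SkewMonoidAlgebra R G, bop 1 (p.map (abhs2T 1) + (1 - p).map (abhs2T 0))
      (p.map (abhs2T (-1)) + (1 - p).map (abhs2T 0)) 1 (abhs2V 1 w) = abhs2V 1 (p *ᵥ w) := by
    intro w
    simp [bop, abhs2_chi, add_mulVec, abhs2_mulVec, abhs2_chi_add, q1, q3]
    funext i
    simp [abhs2V, sub_mulVec]
  let a : I × Fin 2 ≃ I ⊕ I :=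
    { toFun := fun x => if x.2 = 1 then Sum.inl x.1 else Sum.inr x.1
      invFun := Sum.elim (fun i => (i, 1)) fun i => (i, 0)
      left_inv := by
        rintro ⟨i, m⟩
        fin_cases m <;> simp
      right_inv := by
        rintro (i | i) <;> simp }
  refine SS.of_sum_std (std_one l) (SS.of_reindex a ?_)
  convert h using 1
  · funext x
    obtain ⟨i, m⟩ := x
    fin_cases m <;> simp [a]
  · ext1 ⟨i, m⟩ ⟨j, n⟩
    fin_cases m <;> fin_cases n <;>
      simp [a, bhs, abhs2_pi, b0, b1, abhs2V, abhs2_cf, Matrix.one_apply, Pi.single_apply]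

end Pool.Agent.MP_f7db47_al.TW

end
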