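import Pool.Agent.MP_f7db47_al.TW.AMain
import Pool.Agent.MP_f7db47_al.GrMain

/-!
Twisted coefficients: tame actions on trees.
-/

set_option linter.unusedSectionVars false

namespace Pool.Agent.MP_f7db47_al.TW

open Matrix GN Function

universe v

variable {R : Type v} [Ring R] {G : Type} [Group G] [MulSemiringAction G R]

/-- The homogeneous components. -/
noncomputable def grC : SkewMonoidAlgebra R G →+ (G →₀ SkewMonoidAlgebra R G) :=
  AddMonoidHom.mk' (fun x => Finsupp.onFinset x.coeff.support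
    (fun g => SkewMonoidAlgebra.single g (x.coeff g)) fun g hg => Finsupp.mem_support_iff.2
      fun c => hg (by rw [c, SkewMonoidAlgebra.single_zero]))
    fun a b => Finsupp.ext fun g => by simp [SkewMonoidAlgebra.single_add]

lemma grC_apply (x : SkewMonoidAlgebra R G) (g : G) :
    grC x g = SkewMonoidAlgebra.single g (x.coeff g) := rfl

lemma grC_single (g : G) (r : R) :
    grC (SkewMonoidAlgebra.single g r) = Finsupp.single g (SkewMonoidAlgebra.single g r) := by
  ext1 h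
  rw [grC_apply, SkewMonoidAlgebra.coeff_single]
  by_cases c : h = g
  · rw [c, Finsupp.single_eq_same, Finsupp.single_eq_same]
  · rw [Finsupp.single_eq_of_ne c, Finsupp.single_eq_of_ne c, SkewMonoidAlgebra.single_zero]

/-- The grading of the twisted group ring. -/
noncomputable instance grS : GrS G (SkewMonoidAlgebra R G) where
  c := grC
  sum_c x := by
    refine Eq.trans ?_ (Sk.sum_coeff_single x)
    exact Finsupp.sum_of_support_subset (grC x) (s := x.coeff.support)
      (fun g hg => Finsupp.mem_support_iff.2 fun c => Finsupp.mem_support_iff.1 hg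
        (by rw [grC_apply, c, SkewMonoidAlgebra.single_zero])) _ fun _ _ => rfl
  c_c x g := grC_single g _
  mul a b g h ha hb := by
    have h1 : SkewMonoidAlgebra.single g (a.coeff g) = a := by
      rw [← grC_apply, ha, Finsupp.single_eq_same]
    have h2 : SkewMonoidAlgebra.single h (b.coeff h) = b := by
      rw [← grC_apply, hb, Finsupp.single_eq_same]
    rw [← h1, ← h2, SkewMonoidAlgebra.single_mul_single, grC_single]
  one := grC_single 1 1
  un g := ⟨SkewMonoidAlgebra.single g 1, SkewMonoidAlgebra.single g⁻¹ 1,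
    by rw [SkewMonoidAlgebra.single_mul_single, mul_inv_cancel, smul_one, one_mul]; rfl,
    by rw [SkewMonoidAlgebra.single_mul_single, inv_mul_cancel, smul_one, one_mul]; rfl⟩
  hun g := grC_single g 1
  hun' g := grC_single g⁻¹ 1

lemma gr_sup {S : Set G} {x : SkewMonoidAlgebra R G} (h : Gr.Sup S x) : Sup S x :=
  fun g hg => h g fun c => hg (Sk.single_right_injective (g := g)
    ((grC_apply x g).symm.trans (c.trans (SkewMonoidAlgebra.single_zero g).symm)))

lemma mpr2_mul_left {I J K : Type} [Fintype J] {S : I → K → Set G} {S₁ : J → K → Set G}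
    {U : I → J → Set G} {A : Matrix I J (SkewMonoidAlgebra R G)}
    (B : Matrix J K (SkewMonoidAlgebra R G)) (hA : MSup2 U A)
    (h : ∀ i j k, ∀ y ∈ U i j, ∀ g, y * g ∈ S i k ↔ g ∈ S₁ j k) :
    mpr2 S (A * B) = A * mpr2 S₁ B := by
  ext1 i k
  simp only [mpr2, Matrix.mul_apply, map_sum]
  exact Finset.sum_congr rfl fun j _ => pr_mul_left _ (hA i j) (h i j k)

/-- The groupoid of a `G`-set. -/
def orbG (G : Type) [Group G] (V : Type) [MulAction G V] : Gpd G V where
  r y g y' := g • y' = y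
  refl := one_smul G
  symm h := by rw [← h, inv_smul_smul]
  trans h h' := by rw [mul_smul, h', h]

theorem T_split2 [NR R] {V L : Type} [MulAction G V] (B : Gpd G L) (π : L → Bool → V)
    (hπ : ∀ a g b s, B.r a g b → g • π b s = π a s)
    (h1 : ∀ y : V, G1 R (MulAction.stabilizer G y)) (h0 : ∀ a, G0 R (B.grp a))
    {J : Type} [Fintype J] [DecidableEq J] (e : J → L) (z : J → V)
    {Θ₀ Θ₁ ε : Matrix J J (SkewMonoidAlgebra R G)}
    (h₀ : MSup2 (fun i j => {x | x • z j = π (e i) false}) Θ₀)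
    (h₁ : MSup2 (fun i j => {x | x • z j = π (e i) true}) Θ₁) (hε : Ctl B.r e e ε)
    (hεε : ε * ε = ε) (hu : IsUnit (ε * Θ₀ + (1 - ε) * Θ₁)) : T (ε * Θ₀ + (1 - ε) * Θ₁) := by
  obtain ⟨⟨Θ, Γ, u1, u2⟩, hΘ⟩ := hu
  change Θ = _ at hΘ
  rw [← hΘ]
  have hη : Ctl B.r e e (1 - ε) := (ctl_one (ABase_fr B) 0 e).sub hε
  have a1 : ε * (1 - ε) = 0 := by rw [mul_sub, mul_one, hεε, sub_self]
  have a2 : (1 - ε) * ε = 0 := by rw [sub_mul, one_mul, hεε, sub_self]
  have a3 : (1 - ε) * (1 - ε) = 1 - ε := by rw [mul_sub, mul_one, a2, sub_zero]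
  have b0 : ε * Θ = ε * Θ₀ := by
    rw [hΘ, mul_add, ← mul_assoc, ← mul_assoc, hεε, a1, zero_mul, add_zero]
  have b1 : (1 - ε) * Θ = (1 - ε) * Θ₁ := by
    rw [hΘ, mul_add, ← mul_assoc, ← mul_assoc, a2, a3, zero_mul, zero_add]
  have c0 : MSup2 (fun i j => {x | x • z j = π (e i) false}) (ε * Θ) := by
    rw [b0]
    refine MSup2.mul hε h₀ fun i j k a ha b hb => ?_
    change (a * b) • z k = _
    rw [mul_smul, hb, hπ _ _ _ _ ha]
  have c1 : MSup2 (fun i j => {x | x • z j = π (e i) true}) ((1 - ε) * Θ) := by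
    rw [b1]
    refine MSup2.mul hη h₁ fun i j k a ha b hb => ?_
    change (a * b) • z k = _
    rw [mul_smul, hb, hπ _ _ _ _ ha]
  have key : ∀ (s s' : Bool) (p q : Matrix J J (SkewMonoidAlgebra R G)), p + q = 1 → p * p = p →
      q * p = 0 → Ctl B.r e e p → MSup2 (fun i j => {x | x • z j = π (e i) s}) (p * Θ) →
      MSup2 (fun i j => {x | x • z j = π (e i) s'}) (q * Θ) →
      MSup2 (fun j i => {x | x • π (e i) s = z j}) (Γ * p) := by
    intro s s' p q hpq hp hq cp c0 c1
    have aux : ∀ (t : Bool) (X : Matrix J J (SkewMonoidAlgebra R G)),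
        MSup2 (fun i j => {x | x • z j = π (e i) t}) X →
        mpr2 (fun i k => {x | x • π (e k) s = π (e i) t}) (X * (Γ * p)) =
          X * mpr2 (fun j k => {x | x • π (e k) s = z j}) (Γ * p) := fun t X hX =>
      mpr2_mul_left _ hX fun i j k y hy g => by
        change (y * g) • _ = _ ↔ g • _ = _
        rw [← show y • z j = π (e i) t from hy, mul_smul, smul_left_cancel_iff]
    have d0 := aux s _ c0
    have d1 := aux s' _ c1
    rw [mul_assoc, ← mul_assoc Θ, u1, one_mul] at d0 d1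
    rw [hp, MSup2.mpr2_eq (S := fun i k => {x | x • π (e k) s = π (e i) s})
      (MSup2.mono cp fun i j g hg => hπ _ _ _ _ hg)] at d0
    rw [hq, MSup2.mpr2_eq (msup2_zero _)] at d1
    have d2 : Θ * mpr2 (fun j k => {x | x • π (e k) s = z j}) (Γ * p) = p := by
      rw [← one_mul Θ, ← hpq, add_mul, add_mul, ← d0, ← d1, add_zero]
    have d3 : Γ * p = mpr2 (fun j k => {x | x • π (e k) s = z j}) (Γ * p) := by
      conv_lhs => rw [← d2, ← mul_assoc, u2, one_mul]
    rw [d3]
    exact msup2_mpr2 _ _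
  have g0 := key false true ε (1 - ε) (add_sub_cancel _ _) hεε a2 hε c0 c1
  have g1 := key true false (1 - ε) ε (sub_add_cancel _ _) a3 a1 hη c1 c0
  let B' : Gpd G (L × Bool) :=
    ⟨fun a g b => B.r a.1 g b.1 ∧ a.2 = b.2, fun a => ⟨B.refl _, rfl⟩,
      fun h => ⟨B.symm h.1, h.2.symm⟩, fun h h' => ⟨B.trans h.1 h'.1, h.2.trans h'.2⟩⟩
  have hB' : ∀ a, B'.grp a = B.grp a.1 := fun a => Subgroup.ext fun g => ⟨fun h => h.1, fun h => ⟨h, rfl⟩⟩
  obtain ⟨E, M, _, _, _, _, lE, lM, eE, eM, f, g, sE, sM, hI⟩ :=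
    ss_block B' (fun a => by rw [hB']; exact h0 _)
      (Sum.elim (fun i => (e i, false)) fun i => (e i, true)) (fromBlocks ε 0 0 (1 - ε))
      (by simp [fromBlocks_multiply, hεε, a3])
      (Ctl.fromBlocks (hε.relab fun _ _ _ h => ⟨h, rfl⟩) (ctl_zero _ _ _) (ctl_zero _ _ _)
        (hη.relab fun _ _ _ h => ⟨h, rfl⟩))
  have hV : ∀ y, G1 R ((orbG G V).grp y) := h1
  have i1 : Iso (orbG G V).r z (Sum.elim (fun i => π (e i) false) fun i => π (e i) true) 1
      (fromBlocks ε 0 0 (1 - ε)) (fromRows (ε * Θ) ((1 - ε) * Θ)) (fromCols (Γ * ε) (Γ * (1 - ε))) := by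
    refine ⟨?_, ?_, Matrix.mul_one _, Matrix.one_mul _, ?_, ?_⟩
    · rw [fromCols_mul_fromRows, mul_assoc, mul_assoc, ← mul_assoc ε, ← mul_assoc (1 - ε), hεε, a3,
        ← mul_add, ← add_mul, add_sub_cancel, one_mul, u2]
    · rw [fromRows_mul_fromCols]
      simp only [mul_assoc, ← mul_assoc Θ, u1, one_mul, hεε, a1, a2, a3]
    · rintro (i | i) j
      · exact c0 i j
      · exact c1 i j
    · rintro j (i | i)
      · exact g0 j i
      · exact g1 j i
  have i2 : Iso (orbG G V).r (Sum.elim (fun i => π (e i) false) fun i => π (e i) false)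
      (fun i => π (e i) false) (fromBlocks ε 0 0 (1 - ε)) 1 (fromCols ε (1 - ε))
      (fromRows ε (1 - ε)) := by
    refine ⟨?_, ?_, ?_, ?_, ?_, ?_⟩
    · rw [fromRows_mul_fromCols, hεε, a1, a2, a3]
    · rw [fromCols_mul_fromRows, hεε, a3, add_sub_cancel]
    · rw [fromCols_mul_fromBlocks]
      simp [hεε, a3]
    · rw [fromBlocks_mul_fromRows]
      simp [hεε, a3]
    · rintro j (i | i)
      · exact (hε j i).mono fun _ h => hπ _ _ _ _ h
      · exact (hη j i).mono fun _ h => hπ _ _ _ _ h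
    · rintro (i | i) j
      · exact (hε i j).mono fun _ h => hπ _ _ _ _ h
      · exact (hη i j).mono fun _ h => hπ _ _ _ _ h
  have j1 := Iso.trans (ABase_fr (orbG G V)) (k := 0) (k' := 0)
    (i1.sum (iso_refl (l := fun x => π (lE x).1 (lE x).2) sE.idem (sE.msup2 fun _ => one_smul _ _)))
    (hI.relab (m' := fun x => π (lM x).1 (lM x).2)
      (by rintro j γ ((i | i) | i) h <;> exact (hπ _ _ _ _ h.1).trans (congrArg _ h.2.symm))
      (by rintro ((i | i) | i) γ j h <;> exact (hπ _ _ _ _ h.1).trans (congrArg _ h.2.symm)))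
  have j2 := Iso.trans (ABase_fr (orbG G V)) (k := 0) (k' := 0)
    (hI.symm.relab (m := fun x => π (lM x).1 false)
      (by rintro ((i | i) | i) γ j h <;> exact hπ _ _ _ _ h.1)
      (by rintro j γ ((i | i) | i) h <;> exact hπ _ _ _ _ h.1))
    (i2.sum (iso_refl (l := fun x => π (lE x).1 false) sE.idem (sE.msup2 fun _ => one_smul _ _)))
  have s1 : ∀ l : J ⊕ E → V, Std l (fromBlocks (1 : Matrix J J (SkewMonoidAlgebra R G)) 0 0 eE) :=
    fun _ => (std_one fun i => (e i, false)).sum sE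
  have t := Triv.comp (s1 _) sM (s1 (Sum.elim z fun x => π (lE x).1 false)) j1 j2
    (triv_block _ hV (s1 _) sM j1) (triv_block _ hV sM (s1 _) j2)
  have e1 : fromBlocks (fromCols ε (1 - ε)) 0 0 eE * g *
      (f * fromBlocks (fromRows (ε * Θ) ((1 - ε) * Θ)) 0 0 eE) = fromBlocks Θ 0 0 eE := by
    rw [Matrix.mul_assoc, ← Matrix.mul_assoc g, hI.gf, ← Matrix.mul_assoc, fromBlocks_multiply,
      fromBlocks_multiply]
    simp only [Matrix.mul_zero, Matrix.zero_mul, add_zero, zero_add, sE.idem, i2.fp,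
      fromCols_mul_fromRows, ← mul_assoc, hεε, a3]
    rw [← add_mul, add_sub_cancel, one_mul]
  rw [e1] at t
  exact T_of_triv (t.of_sum sE)

theorem qq_tame [NR R] {G₀ V : Type} [Group G₀] [MulAction G₀ V] (p : G →* G₀)
    {X : SimpleGraph V} (hX : TreeAction G₀ X) {F : Set (Subgroup G₀)} (hT : TameTree G₀ X F ∅)
    (hF : ∀ H ∈ F, QQ R (H.comap p))
    (hV : ∀ y : V, QQ R ((MulAction.stabilizer G₀ y).comap p)) : QQ R G := by
  intro P _ hP Δ _ _ f _ hf
  let q : Δ →* G₀ := p.comp ((MonoidHom.fst _ _).comp f)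
  let _ : MulAction Δ V := MulAction.compHom V q
  have hV' : ∀ y : V, QQ R (MulAction.stabilizer Δ y) := fun y =>
    qq_of_le' hP f hf _ (hV y) _ fun x hx => hx
  rw [G1_iff]
  intro J _ _ A hu
  refine Gr.tree_main q (fun _ _ => rfl) hX hT (stdTS R Δ)
    (fun H hH J _ _ A hA hu => T_of_isUnit_msup _
      (qq_of_le' hP f hf _ (hF H hH) _ fun x hx => hx).g1 (fun i j => gr_sup (hA i j)) hu)
    (fun K hK => hK.elim)
    (fun y J _ _ A hA hu => T_of_isUnit_msup _ (hV' y).g1 (fun i j => gr_sup (hA i j)) hu)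
    (fun D _ J _ _ e z Θ₀ Θ₁ ε h₀ h₁ hε hεε hu => ?_) hu
  let B : Gpd Δ D.E :=
    ⟨fun a g b => b = a ∧ g ∈ D.C a, fun a => ⟨rfl, one_mem _⟩,
      fun h => ⟨h.1.symm, h.1 ▸ inv_mem h.2⟩,
      fun h h' => ⟨h'.1.trans h.1, mul_mem h.2 (h.1 ▸ h'.2)⟩⟩
  exact T_split2 B D.ep (fun a g b s h => by rw [h.1]; exact h.2 s) (fun y => (hV' y).g1)
    (fun a => (AMain_le (H := B.grp a) (fun g hg => hg.2 false) (hV' (D.ep a false))).g0) e z
    (fun i j => gr_sup (h₀ i j)) (fun i j => gr_sup (h₁ i j)) (fun i j => gr_sup (hε i j)) hεε hu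

end Pool.Agent.MP_f7db47_al.TW
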