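import Pool.Agent.MP_f7db47_al.TW.Main

/-!
Flasque rings.
-/

set_option linter.unusedSectionVars false

namespace Pool.Agent.MP_f7db47_al.TW

open Matrix Function

universe u v w

/-- Data for an Eilenberg swindle. -/
structure Fl (Λ : Type w) [Ring Λ] where
  σ : Λ →+ Λ
  a₀ : Λ
  b₀ : Λ
  a₁ : Λ
  b₁ : Λ
  mul : ∀ x y, σ (x * y) = σ x * σ y
  h0 : a₀ * b₀ = 1
  h1 : a₁ * b₁ = σ 1
  h01 : a₀ * b₁ = 0
  eq : ∀ x, σ x = b₀ * x * a₀ + b₁ * σ x * a₁

section Swindle

variable {Λ : Type w} [Ring Λ] {J : Type} [Fintype J] [DecidableEq J]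

lemma TS_white (S : TS Λ) {A B : Matrix J J Λ} (h : A * B = 1) (h' : B * A = 1) :
    S.T (fromBlocks A 0 0 B) := by
  have := S.mul (S.mul (S.mul (S.mul (S.mul (S.upper A) (S.lower (-B))) (S.upper A))
    (S.upper (-1 : Matrix J J Λ))) (S.lower (1 : Matrix J J Λ))) (S.upper (-1 : Matrix J J Λ))
  simpa [fromBlocks_multiply, h, h'] using this

lemma TS_comm (S : TS Λ) (X Y : Matrix J J Λ) (h : S.T (1 + Y * X)) : S.T (1 + X * Y) := by
  have := S.comm (-X) Y (by rwa [Matrix.mul_neg, sub_neg_eq_add])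
  rwa [Matrix.neg_mul, sub_neg_eq_add] at this

/-- The Eilenberg swindle. -/
theorem Fl.T (F : Fl Λ) (S : TS Λ) {A : Matrix J J Λ} (hA : IsUnit A) : S.T A := by
  obtain ⟨⟨A, A', u1, u2⟩, rfl⟩ := hA
  change S.T A
  let s : Matrix J J Λ → Matrix J J Λ := fun M => M.map F.σ
  have s1 : ∀ M N, s (M * N) = s M * s N := fun M N => by
    ext i k
    simp only [s, map_apply, Matrix.mul_apply, map_sum, F.mul]
  let c : Λ →+* Matrix J J Λ := scalar J
  have s2 : s 1 = c (F.σ 1) := by
    simp only [s, c, scalar_apply]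
    rw [← diagonal_one, diagonal_map (map_zero _)]
  have s3 : ∀ M, s M = c F.b₀ * M * c F.a₀ + c F.b₁ * s M * c F.a₁ := fun M => by
    ext i j
    simp only [s, c, scalar_apply, Matrix.add_apply, mul_diagonal, diagonal_mul, map_apply]
    exact F.eq _
  have k0 : c F.a₀ * c F.b₀ = 1 := by rw [← map_mul, F.h0, map_one]
  have k1 : c F.a₁ * c F.b₁ = s 1 := by rw [← map_mul, F.h1, s2]
  have k01 : c F.a₀ * c F.b₁ = 0 := by rw [← map_mul, F.h01, map_zero]
  have q1 : ∀ M, s 1 * s M = s M := fun M => by rw [← s1, one_mul]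
  have q2 : ∀ M, s M * s 1 = s M := fun M => by rw [← s1, mul_one]
  have inv : ∀ M N, M * N = 1 → (1 + (s M - s 1)) * (1 + (s N - s 1)) = 1 := fun M N h => by
    simp only [mul_add, add_mul, mul_sub, sub_mul, one_mul, mul_one, q1, q2, ← s1, h]
    abel
  have t0 := TS_white S (inv A A' u1) (inv A' A u2)
  have t1 : S.T (fromBlocks (1 + c F.b₁ * ((s A - s 1) * c F.a₁)) 0 0 (1 + (s A' - s 1))) := by
    have := TS_comm S (fromBlocks (c F.b₁) 0 0 1)
      (fromBlocks ((s A - s 1) * c F.a₁) 0 0 (s A' - s 1)) (by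
        convert t0 using 1
        rw [fromBlocks_multiply, ← fromBlocks_one, fromBlocks_add]
        simp only [Matrix.mul_zero, Matrix.zero_mul, add_zero, zero_add, mul_one, mul_assoc, k1,
          sub_mul, q2, sub_zero])
    convert this using 1
    rw [fromBlocks_multiply, ← fromBlocks_one, fromBlocks_add]
    simp only [Matrix.mul_zero, Matrix.zero_mul, add_zero, zero_add, one_mul]
  have e : fromBlocks (1 + (s A - s 1)) 0 0 (1 + (s A' - s 1)) =
      fromBlocks (1 + c F.b₀ * ((A - 1) * c F.a₀)) 0 0 1 *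
        fromBlocks (1 + c F.b₁ * ((s A - s 1) * c F.a₁)) 0 0 (1 + (s A' - s 1)) := by
    rw [fromBlocks_multiply]
    simp only [Matrix.mul_zero, Matrix.zero_mul, add_zero, zero_add, one_mul]
    congr 1
    have : c F.b₀ * ((A - 1) * c F.a₀) * (c F.b₁ * ((s A - s 1) * c F.a₁)) = 0 := by
      rw [mul_assoc, mul_assoc, ← mul_assoc (c F.a₀), k01, zero_mul, mul_zero, mul_zero]
    rw [add_mul, one_mul, mul_add, mul_one, this, add_zero]
    conv_lhs => rw [s3 A, s3 1]
    noncomm_ring
  rw [e] at t0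
  have t2 := TS_comm S _ _ (S.of_stab (S.cancel_right t1 t0))
  rwa [mul_assoc, k0, mul_one, add_sub_cancel] at t2

end Swindle

section Skew

variable {D : Type v} [Ring D] {Δ : Type u} [Group Δ] [MulSemiringAction Δ D]

/-- The data are invariant under the action. -/
structure Fl.Inv (F : Fl D) (φ : D → D) : Prop where
  σ : ∀ x, F.σ (φ x) = φ (F.σ x)
  a₀ : φ F.a₀ = F.a₀
  b₀ : φ F.b₀ = F.b₀
  a₁ : φ F.a₁ = F.a₁
  b₁ : φ F.b₁ = F.b₁

/-- The swindle on the twisted group ring. -/
noncomputable def Fl.skew (F : Fl D) (h : ∀ δ : Δ, F.Inv fun x => δ • x) :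
    Fl (SkewMonoidAlgebra D Δ) where
  σ := SkewMonoidAlgebra.liftNC
    ((SkewMonoidAlgebra.singleAddHom (1 : Δ)).comp F.σ) fun δ => SkewMonoidAlgebra.single δ 1
  a₀ := SkewMonoidAlgebra.single 1 F.a₀
  b₀ := SkewMonoidAlgebra.single 1 F.b₀
  a₁ := SkewMonoidAlgebra.single 1 F.a₁
  b₁ := SkewMonoidAlgebra.single 1 F.b₁
  mul x y := by
    induction x using Sk.induction_linear with
    | zero => simp
    | add x x' hx hx' => simp only [add_mul, map_add, hx, hx']
    | single g r =>
      induction y using Sk.induction_linear with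
      | zero => simp
      | add y y' hy hy' => simp only [mul_add, map_add, hy, hy']
      | single k s =>
        simp [SkewMonoidAlgebra.single_mul_single, Sk.singleAddHom_apply, F.mul, (h g).σ]
  h0 := by rw [SkewMonoidAlgebra.single_mul_single, one_smul, F.h0, one_mul]; rfl
  h1 := by
    rw [SkewMonoidAlgebra.one_def, SkewMonoidAlgebra.liftNC_single, AddMonoidHom.comp_apply,
      Sk.singleAddHom_apply, SkewMonoidAlgebra.single_mul_single,
      SkewMonoidAlgebra.single_mul_single, one_smul, one_smul, F.h1, mul_one (F.σ 1)]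
  h01 := by simp [SkewMonoidAlgebra.single_mul_single, F.h01]
  eq x := by
    induction x using Sk.induction_linear with
    | zero => simp
    | add x x' hx hx' =>
      rw [map_add, mul_add, add_mul, mul_add, add_mul, add_add_add_comm, ← hx, ← hx']
    | single g r =>
      simp only [SkewMonoidAlgebra.liftNC_single, AddMonoidHom.comp_apply, Sk.singleAddHom_apply,
        SkewMonoidAlgebra.single_mul_single, one_mul, mul_one, one_smul, (h g).a₀, (h g).a₁]
      rw [← SkewMonoidAlgebra.single_add, ← F.eq]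

theorem Fl.qq (F : Fl D) (h : ∀ δ : Δ, F.Inv fun x => δ • x) : QQ D Δ := by
  intro P _ _ Γ _ _ f hf _
  rw [G1_iff]
  intro J _ _ A hA
  refine (F.skew (Δ := Γ) fun γ => ?_).T (stdTS D Γ) hA
  have : (fun x : D => γ • x) = fun x => (f γ).1 • x := funext (hf.eq γ)
  rw [this]
  exact h _

end Skew

/-- Elementary matrices. -/
def elemSys (Λ : Type w) [Ring Λ] : GenSys Λ where
  gen ι _ _ M := ∃ i j : ι, i ≠ j ∧ ∃ c, M = 1 + single i j c
  elem _ _ _ i j h c := ⟨i, j, h, c, rfl⟩
  inv := by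
    rintro ι _ _ _ ⟨i, j, hij, c, rfl⟩
    have key : ∀ c d : Λ, c + d = 0 →
        (1 + single i j c) * (1 + single i j d) = (1 : Matrix ι ι Λ) := by
      intro c d hcd
      simp only [mul_add, add_mul, one_mul, mul_one, single_mul_single_of_ne _ _ _ _ hij.symm,
        add_zero]
      rw [add_assoc, ← single_add, hcd, single_zero, add_zero]
    exact ⟨_, ⟨i, j, hij, -c, rfl⟩, key _ _ (add_neg_cancel c), key _ _ (neg_add_cancel c)⟩
  sub := by
    rintro ι κ _ _ _ _ e _ ⟨i, j, hij, c, rfl⟩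
    refine ⟨e.symm i, e.symm j, fun h => hij (e.symm.injective h), c, ?_⟩
    rw [submatrix_add, Pi.add_apply, Pi.add_apply, submatrix_one_equiv, submatrix_single_equiv]
  stab := by
    rintro ι κ _ _ _ _ _ ⟨i, j, hij, c, rfl⟩
    refine ⟨Sum.inl i, Sum.inl j, fun h => hij (Sum.inl_injective h), c, ?_⟩
    ext1 a b
    rcases a with a | a <;> rcases b with b | b <;> simp [Matrix.one_apply, Matrix.single_apply]

lemma elem_map {Λ : Type*} {Λ' : Type*} [Ring Λ] [Ring Λ'] (φ : Λ →+* Λ') {J : Type} [Fintype J]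
    [DecidableEq J] {A : Matrix J J Λ} (h : (elemSys Λ).T A) : (elemSys Λ').T (A.map φ) := by
  obtain ⟨ι, _, _, h⟩ := h
  refine ⟨ι, inferInstance, inferInstance, ?_⟩
  have key : ∀ B ∈ (elemSys Λ).HG (J ⊕ ι), B.map φ ∈ (elemSys Λ').HG (J ⊕ ι) := by
    intro B hB
    induction hB using Submonoid.closure_induction with
    | mem x hx =>
      obtain ⟨i, j, hij, c, rfl⟩ := hx
      refine GenSys.gen_mem ⟨i, j, hij, φ c, ?_⟩
      rw [Matrix.map_add _ (map_add φ), Matrix.map_one _ (map_zero φ) (map_one φ), map_single]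
    | one => rw [Matrix.map_one _ (map_zero φ) (map_one φ)]; exact one_mem _
    | mul x y _ _ hx hy => rw [Matrix.map_mul]; exact mul_mem hx hy
  have := key _ h
  rwa [fromBlocks_map, Matrix.map_zero _ (map_zero φ), Matrix.map_zero _ (map_zero φ),
    Matrix.map_one _ (map_zero φ) (map_one φ)] at this

/-- If all cyclic subgroups allow a swindle, trivial matrices are stably elementary. -/
theorem elem_of_T {D : Type v} [Ring D] {G : Type u} [Group G] [MulSemiringAction G D]
    (h : ∀ g : G, ∃ F : Fl D, ∀ δ ∈ Subgroup.zpowers g, F.Inv fun x => δ • x)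
    {J : Type} [Fintype J] [DecidableEq J] {A : Matrix J J (SkewMonoidAlgebra D G)} (hA : T A) :
    (elemSys _).T A := by
  obtain ⟨ι, _, _, hA⟩ := hA
  have sub : ∀ (g : G) (B : Matrix (J ⊕ ι) (J ⊕ ι) (SkewMonoidAlgebra D (Subgroup.zpowers g))),
      IsUnit B → (elemSys _).T (B.map (mapR D (Subgroup.zpowers g).subtype)) := fun g B hB => by
    obtain ⟨F, hF⟩ := h g
    exact elem_map _ ((F.skew (Δ := Subgroup.zpowers g) fun δ => hF δ.1 δ.2).T
      (elemSys _).toTS hB)
  refine GenSys.T_of_stab (K := ι) ?_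
  generalize fromBlocks A 0 0 (1 : Matrix ι ι _) = B at hA
  induction hA using Submonoid.closure_induction with
  | mem x hx =>
    cases hx with
    | elem i j hij c => exact GenSys.T_gen ⟨i, j, hij, c, rfl⟩
    | base U V h1 h2 =>
      have := sub 1 _ (T_gen (Gen.base U V h1 h2)).isUnit
      convert this using 1
      ext1 i j
      simp
    | idem e he g =>
      have := sub g _ (T_gen (Gen.idem e he ⟨g, Subgroup.mem_zpowers g⟩)).isUnit
      convert this using 1
      ext1 i j
      simp [Matrix.one_apply, apply_ite]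
  | one => exact GenSys.T_one
  | mul x y _ _ hx hy => exact GenSys.T_mul hx hy

end Pool.Agent.MP_f7db47_al.TW
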