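import Pool.Agent.MP_f7db47_al.TW.OBack

/-!
Vanishing of the obstruction group.
-/

set_option linter.unusedSectionVars false

namespace Pool.Agent.MP_f7db47_al.OB

open Function

universe v

variable {R : Type v} [Ring R] {G : Type} [Group G] {V : Type} [MulAction G V] {M : Obj V}
  {Φ : ℕ → AddSubgroup R} [Flt Φ]

lemma exists_emb (M : Obj V) : ∃ e : M.I → Ix V, Injective e ∧ (∀ i, M.t i = (e i).t) ∧
    ∀ i, M.x i = (e i).p.1 := by
  have : Countable M.I := Set.countable_univ_iff.1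
    ((Set.countable_iUnion fun n => (M.fin n).countable).mono fun i _ =>
      Set.mem_iUnion.2 ⟨M.t i, le_refl (M.t i)⟩)
  obtain ⟨c, hc⟩ := exists_injective_nat M.I
  exact ⟨fun i => ⟨⟨M.x i, M.nonneg i, M.total i⟩, M.t i, c i⟩,
    fun _ _ h => hc (congrArg Ix.m h), fun _ => rfl, fun _ => rfl⟩

variable {a b : Matrix M.I M.I (MonoidAlgebra R G)}

lemma Ctrl.fin (h : Ctrl Φ M a) (j : M.I) : {i | a i j ≠ 0}.Finite := by
  obtain ⟨α, hα⟩ := h.2.2.1
  exact (M.fin (M.t j + α)).subset fun i c => (hα i j c).1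

variable {e : M.I → Ix V} (he : Injective e)

/-- Extension by zero. -/
noncomputable def hat (c : Op (MonoidAlgebra R G) M.I M.I) : FF R G V :=
  .of (push _ e ∘ₗ c ∘ₗ pull _ he)

lemma Sp.hat {E : M.I → G → M.I → Prop} {c : Op (MonoidAlgebra R G) M.I M.I} (h : Sp E c) :
    Sp (fun i' g j' => ∃ i j, i' = e i ∧ j' = e j ∧ E i g j) (hat he c).op := by
  refine ((sp_push _).comp (h.comp (sp_pull _))).mono ?_
  rintro _ _ _ ⟨i, _, _, ⟨rfl, rfl⟩, ⟨j, g, _, d, ⟨rfl, rfl⟩, rfl⟩, rfl⟩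
  exact ⟨i, j, rfl, rfl, by rwa [one_mul, mul_one]⟩

lemma ent_hat (c : Op (MonoidAlgebra R G) M.I M.I) (i j : M.I) :
    ent (hat he c).op (e i) (e j) = ent c i j := by
  rw [ent, hat, FF.of_op, LinearMap.comp_apply, LinearMap.comp_apply, pull_single, push_apply he]
  rfl

lemma hat_inv {c d : Op (MonoidAlgebra R G) M.I M.I} (h : c ∘ₗ d = LinearMap.id) :
    (1 + (hat he c - hat he LinearMap.id)) * (1 + (hat he d - hat he LinearMap.id)) = 1 :=
  FF.ext fun z => by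
    have : ∀ w, c (d w) = w := LinearMap.congr_fun h
    simp only [hat, FF.of_op, op_mul, op_add, op_sub, op_one, LinearMap.comp_apply,
      LinearMap.add_apply, LinearMap.sub_apply, LinearMap.id_apply, map_add, map_sub, pull_push,
      this]
    abel

open Classical in
lemma op_inv (ha : Ctrl Φ M a) (hb : Ctrl Φ M b) (h : mulM a b = 1) :
    opOf a ha.fin ∘ₗ opOf b hb.fin = LinearMap.id := by
  apply ent_inj
  rw [ent_id, ← h]
  ext1 i k
  rw [ent_comp', ent_opOf, ent_opOf]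
  rfl

variable (ht : ∀ i, M.t i = (e i).t) (hx : ∀ i, M.x i = (e i).p.1)

include ht hx

lemma small_range : Small (Set.range e) := by
  obtain ⟨K, a1, a2⟩ := M.cpt
  refine ⟨fun n => ((M.fin n).image e).subset ?_, K, a1, ?_⟩
  · rintro _ ⟨⟨i, rfl⟩, c⟩
    exact ⟨i, (ht i).trans_le c, rfl⟩
  · rintro _ ⟨i, rfl⟩ v c
    exact a2 i v (by rwa [hx])

lemma one_of {E : Ix V → Ix V → Prop} {α : ℕ}
    (h : ∀ i j, E i j → i ∈ Set.range e ∧ i.t ≤ j.t + α) : One E := by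
  obtain ⟨a0, K, a1, a2⟩ := small_range ht hx
  exact ⟨fun j => (a0 (j.t + α)).subset fun i c => h i j c,
    fun _ _ => ⟨K, a1, fun i j c _ => a2 i (h i j c).1⟩, α, fun i j c => (h i j c).2⟩

lemma ss_hat (ha : Ctrl Φ M a) : hat he (opOf a ha.fin) - hat he LinearMap.id ∈ SS Φ G V := by
  have h1 : Sp (fun i g j => (a i j).coeff g ≠ 0) (opOf a ha.fin) := fun i j g c => by
    rwa [ent_opOf] at c
  have h2 := Sp.hat he (sp_one (R := R) (G := G) (Y := M.I))
  obtain ⟨⟨D, a0⟩, ⟨F, a1, a2⟩, ⟨α, a3⟩, a4⟩ := id ha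
  have a5 : ∀ {i j g}, (a i j).coeff g ≠ 0 → a i j ≠ 0 := fun c d => c (by rw [d]; rfl)
  have a6 : Bd Φ (opOf a ha.fin) := ⟨D, fun i j g => by rw [ent_opOf]; exact a0 i j g⟩
  refine sub_mem ⟨⟨⟨_, ⟨⟨F, a1, ?_⟩, one_of ht hx (α := α) ?_, one_of ht hx (α := α) ?_,
    fun ε hε => (a4 ε hε).imp fun T c => ?_⟩, h1.hat he⟩,
    (bd_push _).comp (a6.comp (bd_pull _))⟩, _, small_range ht hx, (h1.hat he).mono ?_⟩
    ⟨⟨⟨_, good_smul 1, h2.mono ?_⟩, (bd_push _).comp (bd_id.comp (bd_pull _))⟩, _,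
    small_range ht hx, h2.mono ?_⟩
  · rintro _ g _ ⟨i, j, rfl, rfl, c⟩
    exact a2 i j g c
  · rintro _ _ ⟨g, i, j, rfl, rfl, c⟩
    exact ⟨⟨i, rfl⟩, ht i ▸ ht j ▸ (a3 i j (a5 c)).1⟩
  · rintro _ _ ⟨g, i, j, rfl, rfl, c⟩
    exact ⟨⟨j, rfl⟩, ht i ▸ ht j ▸ (a3 i j (a5 c)).2⟩
  · rintro _ g _ ⟨i, j, rfl, rfl, d⟩ f
    have := c i j g d ((ht i).symm ▸ f)
    rwa [hx, hx] at this
  · rintro _ _ _ ⟨i, j, rfl, rfl, -⟩
    exact ⟨⟨i, rfl⟩, j, rfl⟩
  · rintro _ _ _ ⟨i, _, rfl, rfl, rfl, rfl⟩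
    exact ⟨rfl, (one_smul _ _).symm⟩
  · rintro _ _ _ ⟨i, j, rfl, rfl, -⟩
    exact ⟨⟨i, rfl⟩, j, rfl⟩

omit ht hx

lemma ent_hat' (c d : Op (MonoidAlgebra R G) M.I M.I) {i j : Ix V}
    (h : ent (hat he c - hat he d).op i j ≠ 0) : i ∈ Set.range e ∧ j ∈ Set.range e := by
  have : Sp (fun i _ j => i ∈ Set.range e ∧ j ∈ Set.range e) (hat he c - hat he d).op :=
    Sp.sub ((Sp.hat he (E := fun _ _ _ => True) fun _ _ _ _ => trivial).mono
      fun _ _ _ ⟨i, j, a, b, _⟩ => ⟨⟨i, a.symm⟩, j, b.symm⟩)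
      ((Sp.hat he (E := fun _ _ _ => True) fun _ _ _ _ => trivial).mono
        fun _ _ _ ⟨i, j, a, b, _⟩ => ⟨⟨i, a.symm⟩, j, b.symm⟩)
  by_contra f
  exact h (MonoidAlgebra.coeff_injective (Finsupp.ext fun g => by_contra fun k => f (this i j g k)))

/-- The obstruction group vanishes. -/
theorem k1zero (hQ : TW.QQ (DD Φ G V) G) (hc : ∀ g : G, ∃ v : V, g • v = v) : K1Zero Φ G V := by
  classical
  intro M a b ha hb hab hba
  obtain ⟨e, he, ht, hx⟩ := exists_emb M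
  obtain ⟨μ, a1, a2⟩ := ps_surj (ss_hat he ht hx ha)
  obtain ⟨ν, b1, b2⟩ := ps_surj (ss_hat he ht hx hb)
  have inv : ∀ {μ ν c d}, ps Φ G V false μ = 0 → ps Φ G V false ν = 0 →
      ps Φ G V true μ = hat he c - hat he LinearMap.id →
      ps Φ G V true ν = hat he d - hat he LinearMap.id → c ∘ₗ d = LinearMap.id →
      Matrix.scalar Unit (1 + μ) * Matrix.scalar Unit (1 + ν) = 1 := fun c1 c2 c3 c4 c5 => by
    rw [← map_mul, ← map_one (Matrix.scalar Unit)]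
    refine congrArg _ (ps_inj fun s => ?_)
    rw [map_mul, map_add, map_add, map_one]
    cases s
    · rw [c1, c2, add_zero, mul_one]
    · rw [c3, c4, hat_inv he c5]
  obtain ⟨ι, _, _, hB⟩ := TW.elem_of_T (fun g => (hc g).elim fun v hv => ⟨fl Φ G v, fun δ hδ =>
    fl_inv ((Subgroup.zpowers_le.2 (MulAction.mem_stabilizer_iff.2 hv)) hδ)⟩)
    (hQ.g1 _ _ _ (inv a1 b1 a2 b2 (op_inv ha hb hab)) (inv b1 a1 b2 a2 (op_inv hb ha hba)))
  have hm : ∀ s, (Matrix.fromBlocks (Matrix.scalar Unit (1 + μ)) 0 0 (1 : Matrix ι ι _)).map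
      (ps Φ G V s) = 1 + Matrix.single (Sum.inl ()) (Sum.inl ()) (ps Φ G V s μ) := fun s => by
    ext1 i j
    rcases i with i | i <;> rcases j with j | j <;>
      simp [Matrix.one_apply, apply_ite (ps Φ G V s)]
  have hB' := TW.rel_elem (ps Φ G V false) (ps Φ G V true) (SS Φ G V)
    (fun c s h => ⟨(cg_ps _ c).mul h.1, h.2.left (cg_ps _ c).1⟩)
    (fun c s h => ⟨h.1.mul (cg_ps _ c), h.2.right (cg_ps _ c).1⟩) ss_ps (fun _ => ss_unit) hB
    (by rw [hm, a1, Matrix.single_zero, add_zero])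
  obtain ⟨S, c1, c2⟩ := elemProd_of hB'
  obtain ⟨K, c3, c4⟩ := c1.2
  let k₀ : (Unit ⊕ ι) ⊕ Unit := Sum.inl (Sum.inl ())
  let N : Obj V :=
    { I := {y : ((Unit ⊕ ι) ⊕ Unit) × Ix V // y.2 ∈ S ∧ y ∉ Set.range fun i => (k₀, e i)}
      t := fun y => y.1.2.t
      x := fun y => y.1.2.p.1
      fin := fun n => ((Set.finite_univ.prod (c1.1 n)).preimage
        Subtype.val_injective.injOn).subset fun y c => ⟨trivial, y.2.1, c⟩
      nonneg := fun y => y.1.2.p.2.1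
      total := fun y => y.1.2.p.2.2
      cpt := ⟨K, c3, fun y => c4 _ y.2.1⟩ }
  have hι : Injective (Sum.elim (fun i => (k₀, e i)) Subtype.val : (M.sum N).I → _) :=
    Injective.sumElim (fun _ _ h => he (congrArg Prod.snd h)) Subtype.val_injective
      fun i y h => y.2.2 ⟨i, h⟩
  refine ⟨N, ?_⟩
  convert c2 (M.sum N) _ hι (fun y hy => ?_) (by rintro (i | i); exacts [ht i, rfl])
    (by rintro (i | i); exacts [hx i, rfl]) using 1
  · have e1 : Matrix.fromBlocks (1 + Matrix.single (Sum.inl ()) (Sum.inl ()) (ps Φ G V true μ)) 0 0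
        (1 : Matrix Unit Unit _) = 1 + Matrix.single k₀ k₀ (ps Φ G V true μ) := by
      ext1 i j
      rcases i with i | i <;> rcases j with j | j <;>
        simp [k₀, Matrix.one_apply, Matrix.single_apply]
    have e2 : ∀ y z, big (Matrix.single k₀ k₀ (ps Φ G V true μ)) y z ≠ 0 →
        (y ∈ Set.range fun i => (k₀, e i)) ∧ z ∈ Set.range fun i => (k₀, e i) := by
      rintro ⟨k, i⟩ ⟨l, j⟩ c
      rw [big, Matrix.single_apply] at c
      split_ifs at c with d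
      · obtain ⟨rfl, rfl⟩ := d
        rw [a2] at c
        obtain ⟨⟨i, rfl⟩, j, rfl⟩ := ent_hat' he _ _ c
        exact ⟨⟨i, rfl⟩, j, rfl⟩
      · exact (c rfl).elim
    rw [hm, e1, big_add]
    ext1 y z
    rw [Matrix.submatrix_apply, Matrix.add_apply]
    rcases y with i | y <;> rcases z with j | z
    · change a i j = _ + ent (Matrix.single k₀ k₀ (ps Φ G V true μ) k₀ k₀).op (e i) (e j)
      rw [Matrix.single_apply_same, a2, op_sub, ent_sub, Matrix.sub_apply, ent_hat, ent_hat,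
        ent_opOf, ent_id]
      by_cases c : i = j
      · rw [c, big_one_eq, Matrix.one_apply_eq, add_sub_cancel]
      · rw [big_one_ne (hι.ne (Sum.inl_injective.ne c)), Matrix.one_apply_ne c, zero_add, sub_zero]
    · rw [big_one_ne (hι.ne Sum.inl_ne_inr), zero_add]
      exact (by_contra fun c => z.2.2 (e2 _ _ c).2 : _ = _).symm
    · rw [big_one_ne (hι.ne Sum.inr_ne_inl), zero_add]
      exact (by_contra fun c => y.2.2 (e2 _ _ c).1 : _ = _).symm
    · refine Eq.trans ?_ ((congrArg (_ + ·) (by_contra fun c => y.2.2 (e2 _ _ c).1)).trans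
        (add_zero _)).symm
      by_cases c : y = z
      · rw [c, big_one_eq]
        exact if_pos rfl
      · rw [big_one_ne (hι.ne (Sum.inr_injective.ne c))]
        exact if_neg c
  · by_cases c : y ∈ Set.range fun i => (k₀, e i)
    · obtain ⟨i, rfl⟩ := c
      exact ⟨Sum.inl i, rfl⟩
    · exact ⟨Sum.inr ⟨y, hy, c⟩, rfl⟩

end Pool.Agent.MP_f7db47_al.OB
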