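import Pool.Agent.MP_f7db47_al.TW.Main

/-!
Twisted coefficients: free modules.
-/

namespace Pool.Agent.MP_f7db47_al.TW

open Matrix

universe u v

/-- Idempotent integer matrices have a free image. -/
theorem int_idem_free {κ : Type} [Fintype κ] [DecidableEq κ] (e : Matrix κ κ ℤ) (he : e * e = e) :
    ∃ (r : ℕ) (U : Matrix κ (Fin r) ℤ) (V : Matrix (Fin r) κ ℤ), U * V = e ∧ V * U = 1 := by
  obtain ⟨r, b⟩ := Submodule.basisOfPid (Pi.basisFun ℤ κ) (LinearMap.range (toLin' e))
  refine ⟨r, LinearMap.toMatrix b (Pi.basisFun ℤ κ) (Submodule.subtype _),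
    LinearMap.toMatrix (Pi.basisFun ℤ κ) b (toLin' e).rangeRestrict, ?_, ?_⟩
  · rw [← LinearMap.toMatrix_comp, LinearMap.subtype_comp_codRestrict,
      LinearMap.toMatrix_eq_toMatrix', LinearMap.toMatrix'_toLin']
  · rw [← LinearMap.toMatrix_comp, ← LinearMap.toMatrix_id b]
    congr 1
    ext1 ⟨_, x, rfl⟩
    apply Subtype.ext
    change toLin' e (toLin' e x) = toLin' e x
    rw [← LinearMap.comp_apply, ← toLin'_mul, he]

variable {R : Type v} [Ring R]

/-- Stably induced idempotents are stably free. -/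
theorem SI.free {G : Type u} [Group G] [MulSemiringAction G R] {J : Type} [Fintype J]
    [DecidableEq J] {p : Matrix J J (SkewMonoidAlgebra R G)} (hp : p * p = p) (h : SI p) :
    ∃ (ι : Type) (_ : Fintype ι) (_ : DecidableEq ι) (r : ℕ)
      (X : Matrix (J ⊕ ι) (Fin r) (SkewMonoidAlgebra R G))
      (Y : Matrix (Fin r) (J ⊕ ι) (SkewMonoidAlgebra R G)),
      X * Y = fromBlocks p 0 0 1 ∧ Y * X = 1 := by
  obtain ⟨ι, i1, i2, κ, k1, k2, e, X, Y, he, hXY, hYX⟩ := h
  obtain ⟨r, U, V, h1, h2⟩ := int_idem_free e he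
  have a1 : U.map (sz R (1 : G)) * V.map (sz R (1 : G)) = Y * X := by
    rw [map_sz_mul, h1, one_mul, hYX]
  have a2 : V.map (sz R (1 : G)) * U.map (sz R (1 : G)) = 1 := by
    rw [map_sz_mul, h2, one_mul, map_sz_one_one]
  refine ⟨ι, i1, i2, r, X * U.map (sz R (1 : G)), V.map (sz R (1 : G)) * Y, ?_, ?_⟩
  · rw [Matrix.mul_assoc, ← Matrix.mul_assoc (U.map _), a1, Matrix.mul_assoc, ← Matrix.mul_assoc,
      hXY, fromBlocks_multiply]
    simp [hp]
  · rw [Matrix.mul_assoc, ← Matrix.mul_assoc Y, ← a1, Matrix.mul_assoc, a2, Matrix.mul_one, a2]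

variable (R) in
/-- The free modules on two index types are isomorphic. -/
def FI (I J : Type) [Fintype I] [DecidableEq I] [Fintype J] [DecidableEq J] : Prop :=
  ∃ (u : Matrix I J R) (w : Matrix J I R), u * w = 1 ∧ w * u = 1

section FI

variable {I J K L : Type} [Fintype I] [DecidableEq I] [Fintype J] [DecidableEq J]
  [Fintype K] [DecidableEq K] [Fintype L] [DecidableEq L]

theorem FI.symm (h : FI R I J) : FI R J I := by
  obtain ⟨u, w, h1, h2⟩ := h
  exact ⟨w, u, h2, h1⟩

theorem FI.trans (h : FI R I J) (h' : FI R J K) : FI R I K := by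
  obtain ⟨u, w, h1, h2⟩ := h
  obtain ⟨u', w', h1', h2'⟩ := h'
  refine ⟨u * u', w' * w, ?_, ?_⟩
  · rw [Matrix.mul_assoc, ← Matrix.mul_assoc u', h1', Matrix.one_mul, h1]
  · rw [Matrix.mul_assoc, ← Matrix.mul_assoc w, h2, Matrix.one_mul, h2']

theorem fi_equiv (e : I ≃ J) : FI R I J := by
  refine ⟨(1 : Matrix J J R).submatrix e id, (1 : Matrix J J R).submatrix id e, ?_, ?_⟩
  · rw [← submatrix_mul _ _ _ _ _ Function.bijective_id, Matrix.one_mul, submatrix_one_equiv]
  · rw [submatrix_mul_equiv, Matrix.one_mul, submatrix_id_id]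

theorem FI.sum (h : FI R I J) (h' : FI R K L) : FI R (I ⊕ K) (J ⊕ L) := by
  obtain ⟨u, w, h1, h2⟩ := h
  obtain ⟨u', w', h1', h2'⟩ := h'
  exact ⟨fromBlocks u 0 0 u', fromBlocks w 0 0 w', by simp [fromBlocks_multiply, h1, h1'],
    by simp [fromBlocks_multiply, h2, h2']⟩

theorem fi_fin [h : NR R] (n : ℕ) : FI R (Fin (n + 1)) Unit := by
  have h1 : FI R (Fin 1) Unit := fi_equiv finOneEquiv
  induction n with
  | zero => exact h1
  | succ n ih =>
    exact ((fi_equiv (finSumFinEquiv (m := n + 1) (n := 1)).symm).trans (ih.sum h1)).trans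
      (FI.symm h.ex)

theorem fi_of_nonempty [NR R] [Nonempty I] [Nonempty J] : FI R I J := by
  have key : ∀ (I : Type) [Fintype I] [DecidableEq I] [Nonempty I], FI R I Unit := by
    intro I _ _ _
    obtain ⟨n, hn⟩ := Nat.exists_eq_succ_of_ne_zero (Fintype.card_ne_zero (α := I))
    exact (fi_equiv (Fintype.equivFinOfCardEq hn)).trans (fi_fin n)
  exact (key I).trans (key J).symm

end FI

end Pool.Agent.MP_f7db47_al.TW
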