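import Pool.Agent.MP_f7db47_al.TW.AIso
import Pool.Agent.MP_f7db47_al.TW.Free
import Pool.Agent.MP_f7db47_al.GN.ABase

/-!
Twisted coefficients: part ABase.
-/

set_option linter.unusedSectionVars false

universe u u' v w

section

namespace Pool.Agent.MP_f7db47_al.TW

open GN

open Matrix

variable {R : Type v} [Ring R] {G : Type} [Group G] [MulSemiringAction G R] {Λ : Type}

theorem ABase_const (B : Gpd G Λ) (y : Λ) (hy : G0 R (B.grp y)) {J : Type} [Fintype J]
    [DecidableEq J] (p : Matrix J J (SkewMonoidAlgebra R G)) (hp : p * p = p)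
    (hc : Ctl B.r (fun _ => y) (fun _ => y) p) : SS B.r (fun _ : J => y) p := by
  have hinj := (B.grp y).subtype_injective
  obtain ⟨q, rfl⟩ := exists_map_of_msup (B.grp y).subtype hinj (A := p)
    fun i j => (hc i j).mono fun g hg => ⟨⟨g, hg⟩, rfl⟩
  set φ := mapR R (B.grp y).subtype with hφ
  have hq : q * q = q := by
    apply Matrix.map_injective (mapDomain_inj (R := R) _ hinj)
    simpa [Matrix.map_mul] using hp
  obtain ⟨ι, i1, i2, r, X, Y, hXY, hYX⟩ := (hy J q hq).free hq
  have hQm : (X * Y).map φ = fromBlocks (q.map φ) 0 0 1 := by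
    rw [hXY, fromBlocks_map, Matrix.map_zero _ (map_zero φ), Matrix.map_zero _ (map_zero φ),
      Matrix.map_one _ (map_zero φ) (map_one φ)]
  have hsup : ∀ x : SkewMonoidAlgebra R (B.grp y), Sup {g | B.r y g y} (φ x) := fun x =>
    (sup_mapDomain _ x).mono (by
      rintro _ ⟨g, rfl⟩
      exact g.2)
  refine ⟨ι, Fin r, i1, i2, inferInstance, inferInstance, fun _ => y, fun _ => y, 1, 1,
    Y.map φ, X.map φ, std_one _, std_one _, ?_⟩
  rw [← hQm]
  refine ⟨?_, ?_, ?_, ?_, ?_, ?_⟩
  · rw [← Matrix.map_mul]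
  · rw [← Matrix.map_mul, hYX, Matrix.map_one _ (map_zero φ) (map_one φ)]
  · rw [← Matrix.map_mul, ← Matrix.mul_assoc, hYX, Matrix.one_mul]
  · rw [← Matrix.map_mul, Matrix.mul_assoc, hYX, Matrix.mul_one]
  · rintro i (j | j) <;> exact hsup _
  · rintro (i | i) j <;> exact hsup _

theorem ABase_one (B : Gpd G Λ) (y : Λ) (hy : G0 R (B.grp y)) {J : Type} [Fintype J]
    [DecidableEq J] (l : J → Λ) (hl : ∀ j, ∃ g, B.r y g (l j))
    (p : Matrix J J (SkewMonoidAlgebra R G)) (hp : p * p = p) (hc : Ctl B.r l l p) :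
    SS B.r l p := by
  choose u hu using hl
  obtain ⟨D, hD⟩ : ∃ D : Matrix J J (SkewMonoidAlgebra R G),
      D = diagonal fun i => SkewMonoidAlgebra.single (u i) 1 := ⟨_, rfl⟩
  obtain ⟨D', hD'⟩ : ∃ D' : Matrix J J (SkewMonoidAlgebra R G),
      D' = diagonal fun i => SkewMonoidAlgebra.single (u i)⁻¹ 1 := ⟨_, rfl⟩
  have e2 : D' * D = 1 := by
    rw [hD, hD', diagonal_mul_diagonal, ← diagonal_one]
    congr 1; funext i
    rw [SkewMonoidAlgebra.single_mul_single, inv_mul_cancel, one_mul, smul_one]; rfl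
  have cf : Ctl B.r (fun _ : J => y) l (D * p) := by
    intro i j
    rw [hD, diagonal_mul]
    exact (sup_single (S := {g | B.r y g (l i)}) (hu i) 1).mul (hc i j)
      fun a ha b hb => B.trans ha hb
  have cg : Ctl B.r l (fun _ : J => y) (p * D') := by
    intro i j
    rw [hD', mul_diagonal]
    exact (hc i j).mul (sup_single (S := {g | B.r (l j) g y}) (B.symm (hu j)) 1)
      fun a ha b hb => B.trans ha hb
  have hI : Iso B.r l (fun _ : J => y) p (D * p * (p * D')) (D * p) (p * D') :=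
    ⟨by rw [mul_assoc, ← mul_assoc D', e2, one_mul, hp], rfl, by rw [mul_assoc, hp],
      by rw [← mul_assoc, hp], cf, cg⟩
  have hc' : Ctl B.r (fun _ : J => y) (fun _ : J => y) (D * p * (p * D')) :=
    Ctl.mul (ABase_fr B) (k := 0) (k' := 0) cf cg
  exact SS.of_iso (ABase_fr B) (k := 0) (k' := 0) hI
    (ABase_const B y hy _ hI.symm.idem hc')

theorem ABase_ind (B : Gpd G Λ) (hB : ∀ a, G0 R (B.grp a)) (n : ℕ) :
    ∀ (J : Type) [Fintype J] [DecidableEq J] (l : J → Λ) (p : Matrix J J (SkewMonoidAlgebra R G)),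
      Fintype.card J < n → p * p = p → Ctl B.r l l p → SS B.r l p := by
  induction n with
  | zero => intro J _ _ l p h; omega
  | succ n ih =>
    intro J _ _ l p hn hp hc
    classical
    rcases isEmpty_or_nonempty J with hJ | ⟨⟨j0⟩⟩
    · refine ⟨Empty, Empty, inferInstance, inferInstance, inferInstance, inferInstance,
        Empty.elim, Empty.elim, 1, 1, 0, 0, std_one _, std_one _, ?_, ?_, ?_, ?_, ?_, ?_⟩
      · ext1 i; exact isEmptyElim i
      · ext1 i; exact isEmptyElim i
      · ext1 i; exact isEmptyElim i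
      · ext1 i; exact isEmptyElim i
      · exact ctl_zero _ _ _
      · exact ctl_zero _ _ _
    · let P : J → Prop := fun j => ∃ g, B.r (l j0) g (l j)
      have hP : ∀ i j, p i j ≠ 0 → (P i ↔ P j) := by
        intro i j h
        have : ∃ g, (p i j).coeff g ≠ 0 := by
          by_contra hh
          push Not at hh
          exact h (by ext g; simpa using hh g)
        obtain ⟨g, hg⟩ := this
        have h1 : B.r (l i) g (l j) := hc i j g hg
        exact ⟨fun ⟨a, ha⟩ => ⟨_, B.trans ha h1⟩, fun ⟨a, ha⟩ => ⟨_, B.trans ha (B.symm h1)⟩⟩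
      have hP' : ∀ i j, p i j ≠ 0 → (¬ P i ↔ ¬ P j) := fun i j h => not_congr (hP i j h)
      refine SS.of_split P hP ?_ ?_
      · exact ABase_one B (l j0) (hB _) _ (fun x => x.2) _
          ((iso_refl hp hc).restrict P P hP hP).idem (hc.submatrix _ _)
      · refine ih _ _ _ ?_ ((iso_refl hp hc).restrict _ _ hP' hP').idem (hc.submatrix _ _)
        have : Fintype.card {i // ¬ P i} < Fintype.card J :=
          Fintype.card_subtype_lt (x := j0) fun h => h ⟨1, B.refl _⟩
        omega

theorem ss_block (B : Gpd G Λ) (hB : ∀ a, G0 R (B.grp a)) {J : Type} [Fintype J] [DecidableEq J]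
    (l : J → Λ) (p : Matrix J J (SkewMonoidAlgebra R G)) (hp : p * p = p) (hc : Ctl B.r l l p) :
    SS B.r l p :=
  ABase_ind B hB _ J l p (Nat.lt_succ_self _) hp hc

end Pool.Agent.MP_f7db47_al.TW

end
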