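import Pool.Agent.MP_f7db47_al.TW.AIso
import Pool.Agent.MP_f7db47_al.TW.Free
import Pool.Agent.MP_f7db47_al.GN.ATriv

/-!
Twisted coefficients: part ATriv.
-/

set_option linter.unusedSectionVars false

universe u u' v w

section

namespace Pool.Agent.MP_f7db47_al.TW

open GN

open Matrix

variable {R : Type v} [Ring R] {G : Type} [Group G] [MulSemiringAction G R] {Λ : Type} {I J K L : Type}
  [Fintype I] [DecidableEq I] [Fintype J] [DecidableEq J] [Fintype K] [DecidableEq K]
  [Fintype L] [DecidableEq L]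

lemma ATriv_base {A : Matrix I J (SkewMonoidAlgebra R G)} (hA : MSup {1} A) :
    A = (A.map fun x => x.coeff 1).map (SkewMonoidAlgebra.single 1) := by
  classical
  ext1 i j
  ext g
  rw [map_apply, map_apply, SkewMonoidAlgebra.coeff_single, Finsupp.single_apply]
  split_ifs with h
  · rw [h]
  · by_contra c
    exact h (hA i j g c).symm

/-- Invertible matrices that come from `R`. -/
theorem T_of_base {A B : Matrix I I (SkewMonoidAlgebra R G)} (hAB : A * B = 1) (hBA : B * A = 1)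
    (hA : MSup {1} A) : T A := by
  have hB : MSup {1} B := by
    have h1 : A * mpr {1} B = 1 := by
      rw [← mpr_mul_left (S := {1}) B hA (by rintro _ rfl g; simp), hAB,
        (msup_one (S := {1}) rfl).mpr_eq]
    rw [← mul_one B, ← h1, ← mul_assoc, hBA, one_mul]
    exact msup_mpr _ _
  have hinj : Function.Injective fun M : Matrix I I R =>
      M.map (SkewMonoidAlgebra.single (1 : G)) :=
    Matrix.map_injective (Sk.single_right_injective)
  rw [ATriv_base hA, ATriv_base hB, map_single_mul] at hAB hBA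
  rw [ATriv_base hA]
  exact T_gen (Gen.base _ _ (hinj (hAB.trans map_single_one_one.symm))
    (hinj (hBA.trans map_single_one_one.symm)))

theorem T_of_triv {A : Matrix I I (SkewMonoidAlgebra R G)} (h : Triv 1 1 A) : T A := by
  have := h 1 1 ⟨msup_one rfl, msup_one rfl, mul_one _, mul_one _, mul_one _, mul_one _⟩
  rwa [one_mul, sub_self, add_zero] at this

section Bs

variable {e : Matrix I I (SkewMonoidAlgebra R G)} {e' : Matrix J J (SkewMonoidAlgebra R G)}
  {b b' : Matrix I J (SkewMonoidAlgebra R G)} {c c' : Matrix J I (SkewMonoidAlgebra R G)}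

lemma msup_one_mul {A : Matrix I J (SkewMonoidAlgebra R G)} {B : Matrix J K (SkewMonoidAlgebra R G)}
    (hA : MSup {1} A) (hB : MSup {1} B) : MSup {1} (A * B) :=
  hA.mul hB (by rintro _ rfl _ rfl; exact mul_one _)

lemma Bs.be (h : Bs e e' b c) : b * e' = b := by rw [← h.cb, ← Matrix.mul_assoc, h.bc, h.eb]

lemma Bs.ec (h : Bs e e' b c) : e' * c = c := by rw [← h.cb, Matrix.mul_assoc, h.bc, h.ce]

lemma Bs.ee (h : Bs e e' b c) : e * e = e := by
  conv_lhs => rw [← h.bc]
  rw [Matrix.mul_assoc, h.bc, h.ce, h.bc]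

lemma Bs.comp {e'' : Matrix K K (SkewMonoidAlgebra R G)} {b' : Matrix J K (SkewMonoidAlgebra R G)}
    {c' : Matrix K J (SkewMonoidAlgebra R G)} (h : Bs e e' b c) (h' : Bs e' e'' b' c') :
    Bs e e'' (b * b') (c' * c) :=
  ⟨msup_one_mul h.sb h'.sb, msup_one_mul h'.sc h.sc,
    by rw [Matrix.mul_assoc, ← Matrix.mul_assoc b', h'.bc, h.ec, h.bc],
    by rw [Matrix.mul_assoc, ← Matrix.mul_assoc c, h.cb, h'.eb, h'.cb],
    by rw [← Matrix.mul_assoc, h.eb], by rw [Matrix.mul_assoc, h.ce]⟩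

/-- One choice is enough. -/
theorem triv_of_one {f : Matrix J I (SkewMonoidAlgebra R G)} (hf : e' * f = f) (h : Bs e e' b c)
    (t : T (b * f + (1 - e))) : Triv e e' f := by
  intro b' c' h'
  have key : ∀ {b b' : Matrix I J (SkewMonoidAlgebra R G)}
      {c c' : Matrix J I (SkewMonoidAlgebra R G)}, Bs e e' b c → Bs e e' b' c' →
      (b' * c + (1 - e)) * (b * c' + (1 - e)) = 1 := by
    intro b b' c c' h h'
    simp only [Matrix.add_mul, Matrix.mul_add, Matrix.mul_sub, Matrix.sub_mul, Matrix.mul_assoc,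
      Matrix.one_mul, Matrix.mul_one, h.ce, h.ee, ← Matrix.mul_assoc c b, h.cb, h'.ec, h'.bc,
      ← Matrix.mul_assoc e b, h.eb]
    abel
  have t0 : T (b' * c + (1 - e)) := T_of_base (key h h') (key h' h)
    ((msup_one_mul h'.sb h.sc).add ((msup_one (S := {1}) rfl).sub (h.bc ▸ msup_one_mul h.sb h.sc)))
  convert T_mul t0 t using 1
  simp only [Matrix.add_mul, Matrix.mul_add, Matrix.mul_sub, Matrix.sub_mul, Matrix.mul_assoc,
    Matrix.one_mul, Matrix.mul_one, h.ce, h.ee, ← Matrix.mul_assoc c b, h.cb, hf,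
    ← Matrix.mul_assoc e b, h.eb]
  abel

lemma ATriv_fac0 (P : I → Prop) [DecidablePred P] :
    (1 : Matrix I I (SkewMonoidAlgebra R G)).submatrix id (Subtype.val : {i // P i} → I) *
      (1 : Matrix I I (SkewMonoidAlgebra R G)).submatrix (Subtype.val : {i // P i} → I) id =
      diagonal fun i => if P i then 1 else 0 := by
  ext1 i j
  rw [Matrix.mul_apply]
  change ∑ x : {i // P i}, (1 : Matrix I I (SkewMonoidAlgebra R G)) i x.1 *
    (1 : Matrix I I (SkewMonoidAlgebra R G)) x.1 j = _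
  by_cases hi : P i
  · rw [Finset.sum_eq_single ⟨i, hi⟩ (fun x _ hx => by
      rw [one_apply_ne (i := i) (fun c => hx (Subtype.ext c.symm)), zero_mul]) (by simp)]
    simp [hi, diagonal_apply, one_apply]
  · rw [Finset.sum_eq_zero fun x _ => by
      rw [one_apply_ne (fun c => hi (by rw [c]; exact x.2)), zero_mul]]
    simp [hi, diagonal_apply]

lemma ATriv_fac {l : I → Λ} (he : Std l e) [DecidablePred fun i => ¬ e i i = 0] :
    (1 : Matrix I I (SkewMonoidAlgebra R G)).submatrix id (Subtype.val : {i // ¬ e i i = 0} → I) *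
      (1 : Matrix I I (SkewMonoidAlgebra R G)).submatrix
        (Subtype.val : {i // ¬ e i i = 0} → I) id = e := by
  rw [ATriv_fac0]
  refine Eq.trans ?_ he.eq_diag.symm
  congr 1
  funext i
  by_cases h : e i i = 0
  · rw [if_neg (not_not.2 h), h]
  · rw [if_pos h, (he.2 i).resolve_right h]

lemma ATriv_fac' (P : I → Prop) [DecidablePred P] :
    (1 : Matrix I I (SkewMonoidAlgebra R G)).submatrix (Subtype.val : {i // P i} → I) id *
      (1 : Matrix I I (SkewMonoidAlgebra R G)).submatrix id (Subtype.val : {i // P i} → I) = 1 := by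
  rw [← submatrix_mul _ _ _ _ _ Function.bijective_id, Matrix.one_mul,
    submatrix_one _ Subtype.val_injective]

theorem exists_bs0 [NR R] {Λ' : Type} {l : I → Λ} {l' : J → Λ'} (he : Std l e) (he' : Std l' e')
    (h : e = 0 ↔ e' = 0) : ∃ b c, Bs e e' b c := by
  classical
  by_cases h0 : e = 0
  · exact ⟨0, 0, msup_zero _, msup_zero _, by simp [h0], by simp [h.1 h0], by simp, by simp⟩
  have ne : ∀ {I Λ : Type} [Fintype I] [DecidableEq I] {l : I → Λ}
      {e : Matrix I I (SkewMonoidAlgebra R G)}, Std l e → e ≠ 0 →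
      Nonempty {i // ¬ e i i = 0} := by
    intro I Λ _ _ l e he h0
    by_contra c
    refine h0 (he.eq_diag.trans ?_)
    rw [← diagonal_zero]
    congr 1
    funext i
    by_contra c'
    exact c ⟨⟨i, c'⟩⟩
  have := ne he h0
  have := ne he' (mt h.2 h0)
  obtain ⟨u, w, h1, h2⟩ := fi_of_nonempty (R := R) (I := {i // ¬ e i i = 0})
    (J := {j // ¬ e' j j = 0})
  have f1 := ATriv_fac he
  have f2 := ATriv_fac he'
  have f3 := ATriv_fac' (R := R) (G := G) fun i => ¬ e i i = 0
  have f4 := ATriv_fac' (R := R) (G := G) fun i => ¬ e' i i = 0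
  have s1 : ∀ {I K L : Type} [DecidableEq I] (a : K → I) (b : L → I),
      MSup {1} ((1 : Matrix I I (SkewMonoidAlgebra R G)).submatrix a b) :=
    fun a b i j => msup_one (S := {1}) rfl (a i) (b j)
  have u1 : u.map (SkewMonoidAlgebra.single (1 : G)) * w.map (SkewMonoidAlgebra.single (1 : G)) =
      1 := by rw [map_single_mul, h1, map_single_one_one]
  have u2 : w.map (SkewMonoidAlgebra.single (1 : G)) * u.map (SkewMonoidAlgebra.single (1 : G)) =
      1 := by rw [map_single_mul, h2, map_single_one_one]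
  have su : MSup {1} (u.map (SkewMonoidAlgebra.single (1 : G))) := msup_map_single (S := {1}) rfl u
  have sw : MSup {1} (w.map (SkewMonoidAlgebra.single (1 : G))) := msup_map_single (S := {1}) rfl w
  have s2 := s1 id (Subtype.val : {i // ¬ e i i = 0} → I)
  have s3 := s1 (Subtype.val : {i // ¬ e i i = 0} → I) id
  have s4 := s1 id (Subtype.val : {i // ¬ e' i i = 0} → J)
  have s5 := s1 (Subtype.val : {i // ¬ e' i i = 0} → J) id
  generalize u.map (SkewMonoidAlgebra.single (1 : G)) = U at *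
  generalize w.map (SkewMonoidAlgebra.single (1 : G)) = W at *
  generalize (1 : Matrix I I (SkewMonoidAlgebra R G)).submatrix id
    (Subtype.val : {i // ¬ e i i = 0} → I) = x at *
  generalize (1 : Matrix I I (SkewMonoidAlgebra R G)).submatrix
    (Subtype.val : {i // ¬ e i i = 0} → I) id = y at *
  generalize (1 : Matrix J J (SkewMonoidAlgebra R G)).submatrix id
    (Subtype.val : {i // ¬ e' i i = 0} → J) = x' at *
  generalize (1 : Matrix J J (SkewMonoidAlgebra R G)).submatrix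
    (Subtype.val : {i // ¬ e' i i = 0} → J) id = y' at *
  have g1 : e * x = x := by
    have : x * y * x = x := by rw [Matrix.mul_assoc, f3, Matrix.mul_one]
    rwa [f1] at this
  have g2 : y * e = y := by
    have : y * (x * y) = y := by rw [← Matrix.mul_assoc, f3, Matrix.one_mul]
    rwa [f1] at this
  refine ⟨x * (U * y'), x' * (W * y), msup_one_mul s2 (msup_one_mul su s5),
    msup_one_mul s4 (msup_one_mul sw s3), ?_, ?_, ?_, ?_⟩
  · rw [Matrix.mul_assoc, Matrix.mul_assoc, ← Matrix.mul_assoc y', f4, Matrix.one_mul,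
      ← Matrix.mul_assoc U, u1, Matrix.one_mul, f1]
  · rw [Matrix.mul_assoc, Matrix.mul_assoc, ← Matrix.mul_assoc y, f3, Matrix.one_mul,
      ← Matrix.mul_assoc W, u2, Matrix.one_mul, f2]
  · rw [← Matrix.mul_assoc, g1]
  · rw [Matrix.mul_assoc, Matrix.mul_assoc, g2]

lemma ATriv_pc {Y : Type} {m : I → Y} {m' : J → Y} {f : Matrix I J (SkewMonoidAlgebra R G)}
    (hf : ∀ i j, f i j ≠ 0 → m i = m' j) (y : Y) :
    proj (SkewMonoidAlgebra R G) m y * f = f * proj (SkewMonoidAlgebra R G) m' y := by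
  ext1 i j
  rw [proj_mul_apply, mul_proj_apply]
  by_cases h0 : f i j = 0
  · simp [h0]
  · rw [hf i j h0]

theorem exists_bs [NR R] {Λ' Λ'' Y : Type} {l₁ : I → Λ'} {l₂ : J → Λ''} {r : Λ → G → Λ → Prop}
    {l : I → Λ} {l' : J → Λ} {f : Matrix J I (SkewMonoidAlgebra R G)}
    {g : Matrix I J (SkewMonoidAlgebra R G)} (he : Std l₁ e) (he' : Std l₂ e')
    (h : Iso r l l' e e' f g) (m : I → Y) (m' : J → Y) (hf : ∀ j i, f j i ≠ 0 → m' j = m i)
    (hg : ∀ i j, g i j ≠ 0 → m i = m' j) :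
    ∃ b c, Bs e e' b c ∧ (∀ i j, b i j ≠ 0 → m i = m' j) ∧ ∀ j i, c j i ≠ 0 → m' j = m i := by
  classical
  have sp : ∀ {I Λ : Type} [Fintype I] [DecidableEq I] (l : I → Λ) (m : I → Y) (y : Y),
      Std l (proj (SkewMonoidAlgebra R G) m y) := fun l m y =>
    std_diagc l _
  have key : ∀ y, ∃ b c, Bs (proj (SkewMonoidAlgebra R G) m y * e) (proj (SkewMonoidAlgebra R G) m' y * e') b c := fun y => by
    refine exists_bs0 ((sp l₁ m y).mul he) ((sp l₂ m' y).mul he') ⟨fun c => ?_, fun c => ?_⟩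
    · rw [← h.fg, ← Matrix.mul_assoc, ATriv_pc hf, ← h.pg, Matrix.mul_assoc,
        ← Matrix.mul_assoc _ e, c, Matrix.zero_mul, Matrix.mul_zero]
    · rw [← h.gf, ← Matrix.mul_assoc, ATriv_pc hg, ← h.pf, Matrix.mul_assoc,
        ← Matrix.mul_assoc _ e', c, Matrix.zero_mul, Matrix.mul_zero]
  choose b c hbc using key
  have ce : ∀ y, proj (SkewMonoidAlgebra R G) m y * e = e * proj (SkewMonoidAlgebra R G) m y :=
    ATriv_pc fun i j c => (he.relab (m := m) fun i j c => congrArg m (by_contra fun d =>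
      c (he.1 i j d))).eq_of_ne c
  have ce' : ∀ y, proj (SkewMonoidAlgebra R G) m' y * e' = e' * proj (SkewMonoidAlgebra R G) m' y :=
    ATriv_pc fun i j c => (he'.relab (m := m') fun i j c => congrArg m' (by_contra fun d =>
      c (he'.1 i j d))).eq_of_ne c
  have b1 : ∀ y, proj (SkewMonoidAlgebra R G) m y * b y = b y := fun y => by
    rw [← (hbc y).eb, ← Matrix.mul_assoc, ← mul_assoc, proj_mul_self]
  have b2 : ∀ y, b y * proj (SkewMonoidAlgebra R G) m' y = b y := fun y => by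
    rw [← (hbc y).be, ce', Matrix.mul_assoc, mul_assoc, proj_mul_self]
  have c1 : ∀ y, proj (SkewMonoidAlgebra R G) m' y * c y = c y := fun y => by
    rw [← (hbc y).ec, ← Matrix.mul_assoc, ← mul_assoc, proj_mul_self]
  have c2 : ∀ y, c y * proj (SkewMonoidAlgebra R G) m y = c y := fun y => by
    rw [← (hbc y).ce, ce, Matrix.mul_assoc, mul_assoc, proj_mul_self]
  obtain ⟨s, hs, hs'⟩ : ∃ s : Finset Y, (∀ i, m i ∈ s) ∧ ∀ j, m' j ∈ s :=
    ⟨Finset.univ.image m ∪ Finset.univ.image m', fun i => by simp, fun j => by simp⟩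
  refine ⟨∑ y ∈ s, b y, ∑ y ∈ s, c y, ⟨msup_sum _ _ fun y _ => (hbc y).sb,
    msup_sum _ _ fun y _ => (hbc y).sc, ?_, ?_, ?_, ?_⟩, fun i j c0 => ?_, fun j i c0 => ?_⟩
  · rw [Matrix.sum_mul, ← one_mul e, ← sum_proj (c := m) hs, Finset.sum_mul]
    refine Finset.sum_congr rfl fun y hy => ?_
    rw [Matrix.mul_sum, Finset.sum_eq_single_of_mem y hy fun z _ hz => by
      rw [← b2, ← c1, Matrix.mul_assoc, ← Matrix.mul_assoc _ _ (c z), proj_mul_ne _ hz.symm,
        Matrix.zero_mul, Matrix.mul_zero], (hbc y).bc]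
  · rw [Matrix.sum_mul, ← one_mul e', ← sum_proj (c := m') hs', Finset.sum_mul]
    refine Finset.sum_congr rfl fun y hy => ?_
    rw [Matrix.mul_sum, Finset.sum_eq_single_of_mem y hy fun z _ hz => by
      rw [← c2, ← b1, Matrix.mul_assoc, ← Matrix.mul_assoc _ _ (b z), proj_mul_ne _ hz.symm,
        Matrix.zero_mul, Matrix.mul_zero], (hbc y).cb]
  · rw [Matrix.mul_sum]
    refine Finset.sum_congr rfl fun y _ => ?_
    rw [← b1, ← Matrix.mul_assoc, ← ce, b1, (hbc y).eb]
  · rw [Matrix.sum_mul]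
    refine Finset.sum_congr rfl fun y _ => ?_
    rw [← c2, Matrix.mul_assoc, c2, (hbc y).ce]
  · rw [Matrix.sum_apply] at c0
    obtain ⟨y, -, hy⟩ := Finset.exists_ne_zero_of_sum_ne_zero c0
    have h1 : m i = y := by_contra fun d => hy (by rw [← b1, proj_mul_apply, if_neg d])
    have h2 : m' j = y := by_contra fun d => hy (by rw [← b2, mul_proj_apply, if_neg d])
    exact h1.trans h2.symm
  · rw [Matrix.sum_apply] at c0
    obtain ⟨y, -, hy⟩ := Finset.exists_ne_zero_of_sum_ne_zero c0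
    have h1 : m' j = y := by_contra fun d => hy (by rw [← c1, proj_mul_apply, if_neg d])
    have h2 : m i = y := by_contra fun d => hy (by rw [← c2, mul_proj_apply, if_neg d])
    exact h1.trans h2.symm

end Bs

lemma ATriv_comm (X : Matrix I J (SkewMonoidAlgebra R G)) (Y : Matrix J I (SkewMonoidAlgebra R G))
    (h : T (1 + Y * X)) : T (1 + X * Y) := by
  have := T_one_sub_comm (-X) Y (by rwa [Matrix.mul_neg, sub_neg_eq_add])
  rwa [Matrix.neg_mul, sub_neg_eq_add] at this

/-- the diagonal matrix of group elements -/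
noncomputable def ATrivD (R : Type v) [Ring R] (w : I → G) : Matrix I I (SkewMonoidAlgebra R G) :=
  diagonal fun i => SkewMonoidAlgebra.single (w i) 1

lemma ATriv_D_mul (w w' : I → G) (h : ∀ i, w i * w' i = 1) : ATrivD R w * ATrivD R w' = 1 := by
  rw [ATrivD, ATrivD, diagonal_mul_diagonal, ← diagonal_one]
  congr 1
  funext i
  rw [SkewMonoidAlgebra.single_mul_single, h, one_mul, smul_one]
  rfl

lemma ATriv_D_comm {l : I → Λ} {e : Matrix I I (SkewMonoidAlgebra R G)} (he : Std l e) (u : Λ → G) :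
    ATrivD R (fun i => u (l i)) * e = e * ATrivD R fun i => u (l i) := by
  rw [he.eq_diag, ATrivD, diagonal_mul_diagonal, diagonal_mul_diagonal]
  congr 1
  funext i
  rcases he.2 i with h | h <;> simp [h]

lemma ATriv_D_T {l : I → Λ} {e : Matrix I I (SkewMonoidAlgebra R G)} (he : Std l e) (u : Λ → G) :
    T (1 + (ATrivD R (fun i => u (l i)) - 1) * e) := by
  classical
  have := T_idem_diag (R := R) (ε := diagonal fun i => if e i i = 0 then 0 else 1)
    (u := fun i => u (l i)) (by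
      rw [diagonal_mul_diagonal]
      congr 1
      funext i
      split_ifs <;> simp) fun i j h => diagonal_apply_ne _ fun c => h (by rw [c])
  have h1 : (diagonal fun i => if e i i = 0 then (0 : ℤ) else 1).map (sz R (1 : G)) = e := by
    rw [diagonal_map (sz_zero _)]
    refine Eq.trans ?_ he.eq_diag.symm
    congr 1
    funext i
    split_ifs with h
    · rw [h, sz_zero]
    · rw [sz_one_one, (he.2 i).resolve_right h]
  rw [h1] at this
  convert this using 1
  rw [Matrix.sub_mul, one_mul, ATriv_D_comm he, ATrivD]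
  abel

variable {e : Matrix I I (SkewMonoidAlgebra R G)} {e' : Matrix J J (SkewMonoidAlgebra R G)}
  {f : Matrix J I (SkewMonoidAlgebra R G)} {g : Matrix I J (SkewMonoidAlgebra R G)}
  {r r' : Λ → G → Λ → Prop} {l : I → Λ} {l' : J → Λ}

theorem Triv.comp [NR R] {l'' : K → Λ} {Λ' : Type} {r' : Λ' → G → Λ' → Prop} {m' : J → Λ'}
    {m'' : K → Λ'}
    {e'' : Matrix K K (SkewMonoidAlgebra R G)} {f' : Matrix K J (SkewMonoidAlgebra R G)}
    {g' : Matrix J K (SkewMonoidAlgebra R G)} (he : Std l e) (he' : Std l' e') (he'' : Std l'' e'')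
    (h : Iso r l l' e e' f g) (h' : Iso r' m' m'' e' e'' f' g') (t : Triv e e' f)
    (t' : Triv e' e'' f') : Triv e e'' (f' * f) := by
  obtain ⟨b, c, hb, -⟩ := exists_bs he he' h (fun _ => ()) (fun _ => ()) (fun _ _ _ => rfl)
    fun _ _ _ => rfl
  obtain ⟨b', c', hb', -⟩ := exists_bs he' he'' h' (fun _ => ()) (fun _ => ()) (fun _ _ _ => rfl)
    fun _ _ _ => rfl
  refine triv_of_one (by rw [← Matrix.mul_assoc, h'.pf]) (hb.comp hb') ?_
  have a1 := hb.cb
  have a2 := hb.ce
  have a3 : ∀ X : Matrix J I (SkewMonoidAlgebra R G), c * (b * X) = e' * X := fun X => by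
    rw [← Matrix.mul_assoc, a1]
  have t1 : T (1 + b * ((b' * f' - e') * c)) := by
    apply ATriv_comm
    rw [Matrix.mul_assoc, a1, Matrix.sub_mul, Matrix.mul_assoc, h'.fp, he'.idem]
    convert t' b' c' hb' using 1
    abel
  have t2 := T_mul t1 (t b c hb)
  convert t2 using 1
  simp only [Matrix.add_mul, Matrix.mul_add, Matrix.mul_sub, Matrix.sub_mul, Matrix.mul_assoc,
    Matrix.one_mul, Matrix.mul_one, a2, a3, h.pf]
  abel

theorem Triv.of_sum {m : K → Λ} {q : Matrix K K (SkewMonoidAlgebra R G)} (hq : Std m q)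
    (t : Triv (fromBlocks e 0 0 q) (fromBlocks e' 0 0 q) (fromBlocks f 0 0 q)) : Triv e e' f := by
  intro b c hb
  apply T_of_stab (K := K)
  have sq : MSup {1} q := hq.msup rfl
  have := t (fromBlocks b 0 0 q) (fromBlocks c 0 0 q)
    ⟨hb.sb.fromBlocks (msup_zero _) (msup_zero _) sq, hb.sc.fromBlocks (msup_zero _) (msup_zero _) sq,
      by simp [fromBlocks_multiply, hb.bc, hq.idem], by simp [fromBlocks_multiply, hb.cb, hq.idem],
      by simp [fromBlocks_multiply, hb.eb, hq.idem], by simp [fromBlocks_multiply, hb.ce, hq.idem]⟩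
  rw [fromBlocks_multiply, ← fromBlocks_one, sub_eq_add_neg, fromBlocks_neg,
    fromBlocks_add, fromBlocks_add] at this
  convert this using 2 <;> simp [hq.idem, sub_eq_add_neg]

theorem Triv.of_split [NR R] {Λ' Λ'' : Type} {l₁ : I → Λ'} {l₂ : J → Λ''} (he : Std l₁ e)
    (he' : Std l₂ e') (h : Iso r l l' e e' f g) (P : I → Prop) [DecidablePred P] (P' : J → Prop)
    [DecidablePred P'] (hf : ∀ j i, f j i ≠ 0 → (P' j ↔ P i))
    (hg : ∀ i j, g i j ≠ 0 → (P i ↔ P' j))
    (t : Triv (e.submatrix (Subtype.val : {i // P i} → I) Subtype.val)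
      (e'.submatrix (Subtype.val : {j // P' j} → J) Subtype.val)
      (f.submatrix Subtype.val Subtype.val))
    (t' : Triv (e.submatrix (Subtype.val : {i // ¬ P i} → I) Subtype.val)
      (e'.submatrix (Subtype.val : {j // ¬ P' j} → J) Subtype.val)
      (f.submatrix Subtype.val Subtype.val)) : Triv e e' f := by
  obtain ⟨b, c, hb, b0, c0⟩ := exists_bs he he' h P P' (fun j i d => propext (hf j i d))
    fun i j d => propext (hg i j d)
  refine triv_of_one h.pf hb ?_
  have hI : Iso (fun _ g _ => g ∈ ({1} : Set G)) (fun _ => ()) (fun _ => ()) e e' c b :=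
    ⟨hb.bc, hb.cb, hb.ce, hb.eb, hb.sc, hb.sb⟩
  have i1 := hI.restrict P P' (fun j i d => (c0 j i d).to_iff) fun i j d => (b0 i j d).to_iff
  have i2 := hI.restrict (fun i => ¬ P i) (fun j => ¬ P' j)
    (fun j i d => (c0 j i d).to_iff.not) fun i j d => (b0 i j d).to_iff.not
  apply T_of_submatrix (Equiv.sumCompl P)
  have := T_upper_block ((b * f + (1 - e)).submatrix
    (Subtype.val : {i // P i} → I) (Subtype.val : {i // ¬ P i} → I))
    (t _ _ ⟨i1.cg, i1.cf, i1.gf, i1.fg, i1.pg, i1.fp⟩)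
    (t' _ _ ⟨i2.cg, i2.cf, i2.gf, i2.fg, i2.pg, i2.fp⟩)
  have hg0 : ∀ i j, ¬ (P i ↔ P' j) → b i j = 0 := fun i j hij => by
    by_contra h0
    exact hij (b0 i j h0).to_iff
  have hf0 : ∀ j i, ¬ (P' j ↔ P i) → f j i = 0 := fun j i hij => by
    by_contra h0
    exact hij (hf j i h0)
  convert this using 1
  ext1 i k
  rcases i with i | i <;> rcases k with k | k
  · simp only [submatrix_apply, Equiv.sumCompl_apply_inl, fromBlocks_apply₁₁, Matrix.add_apply,
      Matrix.sub_apply]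
    rw [ATriv_sub _ _ P' _ _ fun j hj => hg0 _ j fun e => hj (e.1 i.2)]
    simp only [Matrix.mul_apply, submatrix_apply, one_apply, Subtype.ext_iff]
  · rfl
  · simp only [submatrix_apply, Equiv.sumCompl_apply_inl, Equiv.sumCompl_apply_inr,
      fromBlocks_apply₂₁, Matrix.add_apply, Matrix.sub_apply, Matrix.zero_apply]
    have hne : i.1 ≠ k.1 := fun e => i.2 (e ▸ k.2)
    have hz : ∀ j, b i j = 0 ∨ f j k = 0 := fun j => by
      by_cases hj : P' j
      · exact Or.inl (hg0 _ _ fun e => i.2 (e.2 hj))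
      · exact Or.inr (hf0 _ _ fun e => hj (e.2 k.2))
    rw [Matrix.mul_apply, one_apply_ne hne, he.1 _ _ hne,
      Finset.sum_eq_zero fun j _ => by rcases hz j with h0 | h0 <;> simp [h0]]
    simp
  · simp only [submatrix_apply, Equiv.sumCompl_apply_inr, fromBlocks_apply₂₂, Matrix.add_apply,
      Matrix.sub_apply]
    rw [ATriv_sub _ _ (fun j => ¬ P' j) _ _ fun j hj =>
      hg0 _ j fun e => i.2 (e.2 (not_not.1 hj))]
    simp only [Matrix.mul_apply, submatrix_apply, one_apply, Subtype.ext_iff]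

/-- Block diagonal isomorphisms. -/
theorem triv_block [NR R] (B : Gpd G Λ) (hB : ∀ a, G1 R (B.grp a)) (he : Std l e) (he' : Std l' e')
    (h : Iso B.r l l' e e' f g) : Triv e e' f := by
  classical
  let s : Setoid Λ := ⟨fun a b => ∃ γ, B.r a γ b, ⟨fun a => ⟨1, B.refl a⟩,
    fun ⟨a, ha⟩ => ⟨a⁻¹, B.symm ha⟩, fun ⟨a, ha⟩ ⟨b, hb⟩ => ⟨a * b, B.trans ha hb⟩⟩⟩
  obtain ⟨c, hc, hcc⟩ : ∃ c : Λ → Λ, (∀ a, ∃ γ, B.r (c a) γ a) ∧
      ∀ a b γ, B.r a γ b → c a = c b :=
    ⟨fun a => (Quotient.mk s a).out, fun a => Quotient.mk_out (s := s) a, fun a b γ h => by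
      simp only [Quotient.sound (s := s) ⟨γ, h⟩]⟩
  choose u hu using hc
  obtain ⟨D, hD⟩ : ∃ D, D = ATrivD R fun i => u (l i) := ⟨_, rfl⟩
  obtain ⟨Di, hDi⟩ : ∃ D, D = ATrivD R fun i => (u (l i))⁻¹ := ⟨_, rfl⟩
  obtain ⟨E, hE⟩ : ∃ D, D = ATrivD R fun j => u (l' j) := ⟨_, rfl⟩
  obtain ⟨Ei, hEi⟩ : ∃ D, D = ATrivD R fun j => (u (l' j))⁻¹ := ⟨_, rfl⟩
  have d1 : D * Di = 1 := by rw [hD, hDi]; exact ATriv_D_mul _ _ fun _ => mul_inv_cancel _
  have d2 : Di * D = 1 := by rw [hD, hDi]; exact ATriv_D_mul _ _ fun _ => inv_mul_cancel _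
  have d3 : E * Ei = 1 := by rw [hE, hEi]; exact ATriv_D_mul _ _ fun _ => mul_inv_cancel _
  have d4 : Ei * E = 1 := by rw [hE, hEi]; exact ATriv_D_mul _ _ fun _ => inv_mul_cancel _
  have c1 : D * e = e * D := by rw [hD]; exact ATriv_D_comm he u
  have c2 : Di * e = e * Di := by rw [hDi]; exact ATriv_D_comm he fun a => (u a)⁻¹
  have c3 : E * e' = e' * E := by rw [hE]; exact ATriv_D_comm he' u
  have c4 : Ei * e' = e' * Ei := by rw [hEi]; exact ATriv_D_comm he' fun a => (u a)⁻¹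
  have ex : ∀ x : SkewMonoidAlgebra R G, x ≠ 0 → ∃ γ, x.coeff γ ≠ 0 := fun x h0 => by
    by_contra! h1
    exact h0 (by ext γ; exact h1 γ)
  obtain ⟨ag, af, hb, b0, -⟩ := exists_bs he he' h (fun i => c (l i)) (fun j => c (l' j))
    (fun j i d => (ex _ d).elim fun γ hγ => hcc _ _ _ (h.cf j i γ hγ))
    fun i j d => (ex _ d).elim fun γ hγ => hcc _ _ _ (h.cg i j γ hγ)
  refine triv_of_one h.pf hb ?_
  have a1 : af * ag = e' := hb.cb
  have a2 : ag * af = e := hb.bc
  have a3 : af * e = af := hb.ce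
  have a4 : e * ag = ag := hb.eb
  have a5 : ag * e' = ag := hb.be
  obtain ⟨ft, hft⟩ : ∃ x, x = E * f * Di := ⟨_, rfl⟩
  obtain ⟨gt, hgt⟩ : ∃ x, x = D * g * Ei := ⟨_, rfl⟩
  have b1 : ft * gt = e' := by
    rw [hft, hgt, Matrix.mul_assoc, Matrix.mul_assoc D, ← Matrix.mul_assoc Di, d2, Matrix.one_mul,
      Matrix.mul_assoc, ← Matrix.mul_assoc f, h.fg, ← c4, ← Matrix.mul_assoc, d3, Matrix.one_mul]
  have b2 : gt * ft = e := by
    rw [hft, hgt, Matrix.mul_assoc, Matrix.mul_assoc E, ← Matrix.mul_assoc Ei, d4, Matrix.one_mul,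
      Matrix.mul_assoc, ← Matrix.mul_assoc g, h.gf, ← c2, ← Matrix.mul_assoc, d1, Matrix.one_mul]
  have b3 : ft * e = ft := by
    rw [hft, Matrix.mul_assoc, c2, ← Matrix.mul_assoc, Matrix.mul_assoc E, h.fp]
  have b4 : e * gt = gt := by
    rw [hgt, ← Matrix.mul_assoc, ← Matrix.mul_assoc, ← c1, Matrix.mul_assoc D, h.pg]
  have b5 : e' * ft = ft := by rw [← b1, Matrix.mul_assoc, b2, b3]
  have ee := he.idem
  have hu1 : IsUnit (ag * ft + (1 - e)) := by
    refine ⟨⟨_, gt * af + (1 - e), ?_, ?_⟩, rfl⟩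
    · simp only [Matrix.add_mul, Matrix.mul_add, Matrix.mul_sub, Matrix.sub_mul, Matrix.mul_assoc,
        Matrix.one_mul, Matrix.mul_one, b3, ee, ← Matrix.mul_assoc ft gt, b1,
        ← Matrix.mul_assoc ag e', a5, a2, ← Matrix.mul_assoc e gt, b4]
      abel
    · simp only [Matrix.add_mul, Matrix.mul_add, Matrix.mul_sub, Matrix.sub_mul, Matrix.mul_assoc,
        Matrix.one_mul, Matrix.mul_one, a3, ee, ← Matrix.mul_assoc af ag, a1, b5, b2,
        ← Matrix.mul_assoc e ag, a4]
      abel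
  have s1 : MSup2 (fun i j => {γ | B.r (c (l i)) γ (c (l' j))}) ag := by
    intro i j
    by_cases h0 : ag i j = 0
    · rw [h0]; exact sup_zero _
    · refine (hb.sb i j).mono ?_
      rintro _ rfl
      have h2 : B.r (c (l i)) 1 (c (l' j)) := by
        rw [b0 i j h0]
        exact B.refl _
      exact h2
  have s2 : MSup2 (fun j i => {γ | B.r (c (l' j)) γ (c (l i))}) ft := by
    intro j i
    rw [hft, hE, hDi, ATrivD, ATrivD, mul_diagonal, diagonal_mul]
    exact ((sup_single (S := {γ | B.r (c (l' j)) γ (l' j)}) (hu _) 1).mul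
      (U := {γ | B.r (c (l' j)) γ (l i)}) (h.cf j i) fun _ ha _ hb => B.trans ha hb).mul
      (sup_single (S := {γ | B.r (l i) γ (c (l i))}) (B.symm (hu _)) 1)
      fun _ ha _ hb => B.trans ha hb
  have s3 : MSup2 (fun i j => {γ | B.r (c (l i)) γ (c (l j))}) e := he.msup2 fun _ => B.refl _
  have t2 : T (ag * ft + (1 - e)) :=
    T_of_groupoid (fun i j => {γ | B.r (c (l i)) γ (c (l j))}) (fun _ => B.refl _)
      (fun _ _ _ _ ha _ hb => B.trans ha hb) (fun _ _ _ ha => B.symm ha)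
      (fun i H hH => by
        have : H = B.grp (c (l i)) := SetLike.coe_injective hH
        rw [this]; exact hB _)
      ((s1.mul s2 fun _ _ _ _ ha _ hb => B.trans ha hb).add
        ((msup2_one fun _ => B.refl _).sub s3)) hu1
  have t1 : T (1 + ag * ((Ei - 1) * af)) := by
    apply ATriv_comm
    rw [Matrix.mul_assoc, a1, hEi]
    exact ATriv_D_T he' fun a => (u a)⁻¹
  have t3 : T (1 + (D - 1) * e) := by rw [hD]; exact ATriv_D_T he u
  have b6 : ft * (D * e) = E * f := by
    rw [hft, Matrix.mul_assoc, ← Matrix.mul_assoc Di, d2, Matrix.one_mul, Matrix.mul_assoc, h.fp]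
  have b7 : e * (D * e) = D * e := by rw [c1, ← Matrix.mul_assoc, ee]
  have b8 : e' * (E * f) = E * f := by rw [← Matrix.mul_assoc, ← c3, Matrix.mul_assoc, h.pf]
  have e23 : (ag * ft + (1 - e)) * (1 + (D - 1) * e) = ag * (E * f) + (1 - e) := by
    simp only [Matrix.add_mul, Matrix.mul_add, Matrix.mul_sub, Matrix.sub_mul, Matrix.mul_assoc,
      Matrix.one_mul, Matrix.mul_one, b3, b6, b7, ee]
    abel
  have t := T_mul t1 (T_mul t2 t3)
  rw [e23] at t
  convert t using 1
  simp only [Matrix.add_mul, Matrix.mul_add, Matrix.mul_sub, Matrix.sub_mul, Matrix.mul_assoc,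
    Matrix.one_mul, Matrix.mul_one, a3, ← Matrix.mul_assoc af ag, a1, b8,
    ← Matrix.mul_assoc Ei E, d4]
  abel

end Pool.Agent.MP_f7db47_al.TW

end
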