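import Pool.Agent.MP_f7db47_al.TAbs

/-!
Twisted group rings: basic tools and the predicates.
-/

namespace Pool.Agent.MP_f7db47_al.TW

open Function

universe u v

variable {R : Type v} [Ring R]

/-- The action of a product through the first factor. -/
instance prodAct {G P : Type*} [Group G] [Group P] [MulSemiringAction G R] :
    MulSemiringAction (G × P) R := MulSemiringAction.compHom R (MonoidHom.fst G P)

/-- The action of the trivial group. -/
instance punitAct : MulSemiringAction PUnit R where
  smul _ r := r
  one_smul _ := rfl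
  mul_smul _ _ _ := rfl
  smul_zero _ := rfl
  smul_add _ _ _ := rfl
  smul_one _ := rfl
  smul_mul _ _ _ := rfl

@[simp] lemma prod_smul {G P : Type*} [Group G] [Group P] [MulSemiringAction G R] (x : G × P)
    (r : R) : x • r = x.1 • r := rfl

variable (R) in
/-- A homomorphism that is compatible with the actions. -/
class Cp {H G : Type*} [Group H] [Group G] [MulSemiringAction H R] [MulSemiringAction G R]
    (f : H →* G) : Prop where
  eq : ∀ (a : H) (x : R), a • x = f a • x

section Cp

variable {G H K P Q : Type*} [Group G] [Group H] [Group K] [Group P] [Group Q]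
  [MulSemiringAction G R] [MulSemiringAction H R] [MulSemiringAction K R]

instance cpSub (S : Subgroup G) : Cp R S.subtype := ⟨fun _ _ => rfl⟩

instance cpIncl {S S' : Subgroup G} (h : S ≤ S') : Cp R (Subgroup.inclusion h) := ⟨fun _ _ => rfl⟩

instance cpId : Cp R (MonoidHom.id G) := ⟨fun _ _ => rfl⟩

instance cpInl : Cp R (MonoidHom.inl G P) := ⟨fun _ _ => rfl⟩

instance cpFst : Cp R (MonoidHom.fst G P) := ⟨fun _ _ => rfl⟩

instance cpComp (f : H →* G) (g : K →* H) [h : Cp R f] [h' : Cp R g] : Cp R (f.comp g) :=
  ⟨fun a x => (h'.eq a x).trans (h.eq _ x)⟩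

instance cpProdMap (f : H →* G) (g : P →* Q) [h : Cp R f] : Cp R (f.prodMap g) :=
  ⟨fun a x => h.eq a.1 x⟩

instance cpProd (f : H →* G) (g : H →* Q) [h : Cp R f] : Cp R (f.prod g) := ⟨fun a x => h.eq a x⟩

instance cpCod (f : H →* G) (S : Subgroup G) (hS : ∀ x, f x ∈ S) [h : Cp R f] :
    Cp R (f.codRestrict S hS) := ⟨fun a x => h.eq a x⟩

instance cpAssoc : Cp R (MulEquiv.prodAssoc (M := G) (N := P) (P := Q)).toMonoidHom :=
  ⟨fun _ _ => rfl⟩

variable (R) in
/-- The map of twisted group rings. -/
noncomputable def mapR (f : H →* G) [h : Cp R f] :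
    SkewMonoidAlgebra R H →+* SkewMonoidAlgebra R G :=
  SkewMonoidAlgebra.mapDomainRingHom (f := f) h.eq

@[simp] lemma mapR_single (f : H →* G) [Cp R f] (a : H) (r : R) :
    mapR R f (SkewMonoidAlgebra.single a r) = SkewMonoidAlgebra.single (f a) r :=
  SkewMonoidAlgebra.mapDomain_single

end Cp

namespace Sk

variable {G H : Type*}

theorem induction_linear {motive : SkewMonoidAlgebra R G → Prop} (x : SkewMonoidAlgebra R G)
    (zero : motive 0) (add : ∀ x y : SkewMonoidAlgebra R G, motive x → motive y → motive (x + y))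
    (single : ∀ m r, motive (SkewMonoidAlgebra.single m r)) : motive x :=
  SkewMonoidAlgebra.induction_on x zero single add

theorem mapDomainRingHom_apply [Group G] [Group H] [MulSemiringAction G R]
    [MulSemiringAction H R] (f : H →* G) [Cp R f] (x : SkewMonoidAlgebra R H) :
    mapR R f x = SkewMonoidAlgebra.mapDomain f x := rfl

theorem sum_coeff_single (x : SkewMonoidAlgebra R G) :
    x.coeff.sum SkewMonoidAlgebra.single = x := SkewMonoidAlgebra.sum_single x

theorem singleAddHom_apply (g : G) (r : R) :
    SkewMonoidAlgebra.singleAddHom g r = SkewMonoidAlgebra.single g r := rfl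

theorem single_right_injective {g : G} :
    Injective (SkewMonoidAlgebra.single g : R → SkewMonoidAlgebra R G) :=
  SkewMonoidAlgebra.single_injective g

/-- Pull back along an injective map. -/
noncomputable def comapDomain (f : H → G) (hf : Injective f) (x : SkewMonoidAlgebra R G) :
    SkewMonoidAlgebra R H := SkewMonoidAlgebra.ofCoeff (x.coeff.comapDomain f hf.injOn)

@[simp] lemma coeff_comapDomain (f : H → G) (hf : Injective f) (x : SkewMonoidAlgebra R G) :
    (comapDomain f hf x).coeff = x.coeff.comapDomain f hf.injOn := rfl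

/-- Pull back along an injective map, as an additive map. -/
noncomputable def comapDomainAddMonoidHom (f : H → G) (hf : Injective f) :
    SkewMonoidAlgebra R G →+ SkewMonoidAlgebra R H where
  toFun := comapDomain f hf
  map_zero' := by ext; simp
  map_add' x y := by ext; simp

@[simp] lemma comapDomainAddMonoidHom_apply (f : H → G) (hf : Injective f)
    (x : SkewMonoidAlgebra R G) : comapDomainAddMonoidHom f hf x = comapDomain f hf x := rfl

lemma comapDomain_single_of_not_mem_range {f : H → G} {r : R} {n : G} (hn : n ∉ Set.range f)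
    (hf : Injective f) : comapDomain f hf (SkewMonoidAlgebra.single n r) = 0 := by
  ext a
  have : n ≠ f a := fun h => hn ⟨a, h.symm⟩
  simp [Finsupp.single_eq_of_ne' this]

lemma comapDomain_single_map (f : H → G) (hf : Injective f) (m : H) (r : R) :
    comapDomain f hf (SkewMonoidAlgebra.single (f m) r) = SkewMonoidAlgebra.single m r := by
  ext; simp [Finsupp.single_apply_left hf]

lemma mapDomain_comapDomain {f : H → G} {x : SkewMonoidAlgebra R G}
    (hx : ↑x.coeff.support ⊆ Set.range f) (hf : Injective f) :
    SkewMonoidAlgebra.mapDomain f (comapDomain f hf x) = x := by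
  apply SkewMonoidAlgebra.coeff_injective
  rw [SkewMonoidAlgebra.coeff_mapDomain]
  exact Finsupp.mapDomain_comapDomain _ hf _ hx

lemma mapDomain_injective {f : H → G} (hf : Injective f) :
    Injective (SkewMonoidAlgebra.mapDomain (k := R) f) := fun x y h => by
  apply SkewMonoidAlgebra.coeff_injective
  apply Finsupp.mapDomain_injective hf
  rw [← SkewMonoidAlgebra.coeff_mapDomain, ← SkewMonoidAlgebra.coeff_mapDomain, h]

lemma single_commute [Group G] [MulSemiringAction G R] {g : G} (hg : ∀ x, g * x = x * g)
    (hr : ∀ r : R, g • r = r) (x : SkewMonoidAlgebra R G) :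
    SkewMonoidAlgebra.single g 1 * x = x * SkewMonoidAlgebra.single g 1 := by
  induction x using induction_linear with
  | zero => simp
  | add x y hx hy => rw [mul_add, add_mul, hx, hy]
  | single a r => simp [SkewMonoidAlgebra.single_mul_single, hg, hr]

end Sk

variable (R) (G : Type u) [Group G] [MulSemiringAction G R]

variable {G} in
/-- The element `n g` for an integer `n`. -/
noncomputable def sz (g : G) (n : ℤ) : SkewMonoidAlgebra R G := SkewMonoidAlgebra.single g (n : R)

/-- The generators: elementary matrices, invertible matrices over `R`, and the matrices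
`1 - e + e g` with `e` an idempotent integer matrix. -/
inductive Gen (R : Type v) [Ring R] (G : Type u) [Group G] [MulSemiringAction G R] (ι : Type)
    [Fintype ι] [DecidableEq ι] : Matrix ι ι (SkewMonoidAlgebra R G) → Prop
  | elem (i j : ι) (hij : i ≠ j) (c : SkewMonoidAlgebra R G) :
      Gen R G ι (1 + Matrix.single i j c)
  | base (U V : Matrix ι ι R) (hUV : U * V = 1) (hVU : V * U = 1) :
      Gen R G ι (U.map (SkewMonoidAlgebra.single 1))
  | idem (e : Matrix ι ι ℤ) (he : e * e = e) (g : G) :
      Gen R G ι (1 - e.map (sz R 1) + e.map (sz R g))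

/-- The submonoid generated by the generators. -/
noncomputable def HG (ι : Type) [Fintype ι] [DecidableEq ι] :
    Submonoid (Matrix ι ι (SkewMonoidAlgebra R G)) :=
  Submonoid.closure {M | Gen R G ι M}

variable {R G} in
/-- Stably a product of generators. -/
def T {J : Type} [Fintype J] [DecidableEq J] (A : Matrix J J (SkewMonoidAlgebra R G)) : Prop :=
  ∃ (ι : Type) (_ : Fintype ι) (_ : DecidableEq ι),
    Matrix.fromBlocks A 0 0 (1 : Matrix ι ι (SkewMonoidAlgebra R G)) ∈ HG R G (J ⊕ ι)

/-- All invertible matrices are trivial. -/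
def G1 : Prop :=
  ∀ (J : Type) [Fintype J] [DecidableEq J] (A B : Matrix J J (SkewMonoidAlgebra R G)),
    A * B = 1 → B * A = 1 → T A

variable {R G} in
/-- Stably induced idempotent. -/
def SI {J : Type} [Fintype J] [DecidableEq J] (p : Matrix J J (SkewMonoidAlgebra R G)) : Prop :=
  ∃ (ι : Type) (_ : Fintype ι) (_ : DecidableEq ι) (κ : Type) (_ : Fintype κ) (_ : DecidableEq κ)
    (e : Matrix κ κ ℤ) (X : Matrix (J ⊕ ι) κ (SkewMonoidAlgebra R G))
    (Y : Matrix κ (J ⊕ ι) (SkewMonoidAlgebra R G)),
    e * e = e ∧ X * Y = Matrix.fromBlocks p 0 0 1 ∧ Y * X = e.map (sz R 1)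

/-- All idempotent matrices are stably induced. -/
def G0 : Prop :=
  ∀ (J : Type) [Fintype J] [DecidableEq J] (p : Matrix J J (SkewMonoidAlgebra R G)),
    p * p = p → SI p

/-- The free modules of rank one and two are isomorphic. -/
class NR : Prop where
  ex : ∃ (u : Matrix Unit (Unit ⊕ Unit) R) (w : Matrix (Unit ⊕ Unit) Unit R),
    u * w = 1 ∧ w * u = 1

variable {R G}

@[simp] lemma sz_zero (g : G) : sz R g 0 = 0 := by simp [sz]

lemma sz_one (g : G) : sz R g 1 = SkewMonoidAlgebra.single g 1 := by simp [sz]

@[simp] lemma sz_one_one : sz R (1 : G) 1 = 1 := sz_one 1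

lemma sz_cast (n : ℤ) : sz R (1 : G) n = n := (SkewMonoidAlgebra.intCast_def n).symm

lemma sz_mul (g h : G) (a b : ℤ) : sz R g a * sz R h b = sz R (g * h) (a * b) := by
  have : g • (b : R) = b := map_intCast (MulSemiringAction.toRingHom G R g) b
  simp [sz, SkewMonoidAlgebra.single_mul_single, this]

variable (R) in
/-- The additive map `n ↦ n g`. -/
noncomputable def szA (g : G) : ℤ →+ SkewMonoidAlgebra R G :=
  (SkewMonoidAlgebra.singleAddHom g).comp (Int.castAddHom R)

lemma szA_apply (g : G) (n : ℤ) : szA R g n = sz R g n := rfl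

@[simp] lemma mapR_sz {G' : Type*} [Group G'] [MulSemiringAction G' R] (f : G →* G') [Cp R f]
    (g : G) (n : ℤ) : mapR R f (sz R g n) = sz R (f g) n := mapR_single f g _

end Pool.Agent.MP_f7db47_al.TW
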