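import Pool.Agent.MP_f7db47_al.TW.ATriv
import Pool.Agent.MP_f7db47_al.GN.CAlg

/-!
Twisted coefficients: part CAlg.
-/

set_option linter.unusedSectionVars false

universe u u' v w

section

namespace Pool.Agent.MP_f7db47_al.TW

open GN

open Matrix

variable {R : Type v} [Ring R]

section Degree

variable {A : Type*} [Ring A] {I : Type} {deg : I → ℕ} {c c' c'' : ℤ} {M M' : Matrix I I A}

variable [Fintype I] [DecidableEq I]

end Degree

section Comp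

variable {G : Type} [Group G] [MulSemiringAction G R] {I K : Type} [Fintype I] [DecidableEq I] [Fintype K] [DecidableEq K]

theorem CAlg_comm (X : Matrix I K (SkewMonoidAlgebra R G)) (Y : Matrix K I (SkewMonoidAlgebra R G))
    (h : T (1 + Y * X)) : T (1 + X * Y) := by
  have := T_one_sub_comm (-X) Y (by rwa [Matrix.mul_neg, sub_neg_eq_add])
  rwa [Matrix.neg_mul, sub_neg_eq_add] at this

theorem CAlg_raise {D : K → ℕ} {N : ℕ} (hN : ∀ i, D i ≤ N) (n : ℕ) :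
    ∀ (m : ℕ) (X : Matrix K K (SkewMonoidAlgebra R G)), N < m + n →
      (∀ i j, X i j ≠ 0 → D j < D i ∧ m ≤ D j) → T (1 + X) := by
  induction n with
  | zero =>
    intro m X hm hX
    have : X = 0 := by
      ext1 i j
      by_contra e
      have := (hX i j e).2
      have := hN j
      omega
    rw [this, add_zero]
    exact T_one
  | succ n ih =>
    intro m X hm hX
    have e : X = (diagonal fun i => if m + 1 ≤ D i then 1 else 0) * X := by
      ext1 i j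
      rw [diagonal_mul]
      split_ifs with h
      · rw [one_mul]
      · rw [zero_mul]
        by_contra e
        have := hX i j e
        omega
    rw [e]
    refine CAlg_comm _ _ (ih (m + 1) _ (by omega) fun i j h => ?_)
    rw [mul_diagonal] at h
    refine ⟨(hX i j (left_ne_zero_of_mul h)).1, ?_⟩
    by_contra e
    exact right_ne_zero_of_mul h (if_neg e)

variable {r : Matrix I K (SkewMonoidAlgebra R G)} {j : Matrix K I (SkewMonoidAlgebra R G)}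
  {Q W : Matrix K K (SkewMonoidAlgebra R G)}

theorem CAlg_left (hr : r * j = 1) (hQ : j * r = Q) {X : Matrix K K (SkewMonoidAlgebra R G)}
    (hX : Q * X = X * Q) (Y : Matrix K K (SkewMonoidAlgebra R G)) :
    r * X * j * (r * Y * j) = r * (X * Y) * j := by
  have e : r * X * j * r = r * X := by
    rw [Matrix.mul_assoc, hQ, Matrix.mul_assoc, ← hX, ← hQ, ← Matrix.mul_assoc,
      ← Matrix.mul_assoc, hr, Matrix.one_mul]
  rw [← Matrix.mul_assoc, ← Matrix.mul_assoc, e, Matrix.mul_assoc r X Y]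

theorem CAlg_right (hr : r * j = 1) (hQ : j * r = Q) (X : Matrix K K (SkewMonoidAlgebra R G))
    {Y : Matrix K K (SkewMonoidAlgebra R G)} (hY : Q * Y = Y * Q) :
    r * X * j * (r * Y * j) = r * (X * Y) * j := by
  have e : j * (r * Y * j) = Y * j := by
    rw [← Matrix.mul_assoc, ← Matrix.mul_assoc, hQ, hY, ← hQ, Matrix.mul_assoc,
      Matrix.mul_assoc, hr, Matrix.mul_one]
  rw [Matrix.mul_assoc (r * X), e, ← Matrix.mul_assoc, Matrix.mul_assoc r X Y]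

theorem CAlg_unip (hr : r * j = 1) (hQ : j * r = Q) {p n X : Matrix K K (SkewMonoidAlgebra R G)}
    (hp : Q * p = p * Q) (hn : n * p = 0) (hX : X = 1 + p * n) : T (r * X * j) := by
  have e : r * X * j = 1 + r * p * (n * j) := by
    rw [hX, Matrix.mul_add, Matrix.add_mul, Matrix.mul_one, hr]
    simp only [Matrix.mul_assoc]
  rw [e]
  refine CAlg_comm _ _ ?_
  rw [Matrix.mul_assoc, ← Matrix.mul_assoc j, hQ, hp, ← Matrix.mul_assoc, hn, Matrix.zero_mul,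
    add_zero]
  exact T_one

variable {D : K → ℕ} {N : ℕ}

theorem CAlg_up (hN : ∀ i, D i ≤ N) (hr : r * j = 1) (hQ : j * r = CAlg_Q _ D)
    {X : Matrix K K (SkewMonoidAlgebra R G)} (hX : Dg D 2 X) : T (r * (1 + X) * j) := by
  rw [Matrix.mul_add, Matrix.add_mul, Matrix.mul_one, hr, Matrix.mul_assoc]
  refine CAlg_comm _ _ ?_
  rw [Matrix.mul_assoc, hQ]
  refine CAlg_raise hN (N + 1) 0 _ (by omega) fun a b h => ?_
  have := CAlg_dg_mul hX CAlg_dg_Q rfl a b h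
  omega

theorem CAlg_two (hN : ∀ i, D i ≤ N) (hr : r * j = 1) (hQ : j * r = CAlg_Q _ D)
    {d Γ Γ' : Matrix K K (SkewMonoidAlgebra R G)} (h1 : Dg D (-1) d) (hΓ : Dg D 1 Γ)
    (hΓ' : Dg D 1 Γ') (hd : d * d = 0) (hc : d * Γ + Γ * d = 1) (hc' : d * Γ' + Γ' * d = 1) :
    T (r * ((d + Γ') * (d + Γ)) * j) := by
  have e0 : d * (Γ' - Γ) = -((Γ' - Γ) * d) := by
    rw [eq_neg_iff_add_eq_zero, mul_sub, sub_mul, sub_add_sub_comm, hc, hc', sub_self]
  have e1 : (Γ' - Γ) * d * ((Γ' - Γ) * d) = 0 := by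
    rw [mul_assoc, ← mul_assoc d, e0, neg_mul, mul_assoc _ d d, hd, mul_zero, neg_zero, mul_zero]
  have e2 : d * Γ * d = d := by
    rw [mul_assoc, eq_sub_of_add_eq' hc, mul_sub, mul_one, ← mul_assoc, hd, zero_mul, sub_zero]
  have e3 : d * Γ * ((Γ' - Γ) * d) = (Γ' - Γ) * d := by
    rw [← neg_neg ((Γ' - Γ) * d), ← e0, mul_neg, ← mul_assoc, e2]
  have e4 : (d + Γ') * (d + Γ) = 1 + (Γ' - Γ) * d + Γ' * Γ := by
    rw [← hc, add_mul, mul_add, mul_add, hd, sub_mul]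
    abel
  have e5 : (d + Γ') * (d + Γ) =
      (1 + (Γ' - Γ) * d) * (1 + (1 - (Γ' - Γ) * d) * (Γ' * Γ)) := by
    rw [e4, mul_add, mul_one, ← mul_assoc (1 + _), add_mul, one_mul, mul_sub, e1, mul_one,
      sub_zero, sub_add_cancel, one_mul]
  have g1 : Dg D 0 ((Γ' - Γ) * d) := CAlg_dg_mul (CAlg_dg_sub hΓ' hΓ) h1 rfl
  rw [e5, ← CAlg_left hr hQ (CAlg_ev (CAlg_dg_add CAlg_dg_one g1) rfl)]
  refine T_mul (CAlg_unip hr hQ (p := d * Γ) (n := (Γ' - Γ) * d)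
    (CAlg_ev (CAlg_dg_mul h1 hΓ rfl) rfl) ?_ (by rw [e3])) (CAlg_up hN hr hQ
      (CAlg_dg_mul (CAlg_dg_sub CAlg_dg_one g1) (CAlg_dg_mul hΓ' hΓ rfl) rfl))
  rw [mul_assoc, ← mul_assoc d, hd, zero_mul, mul_zero]

theorem CAlg_even (hW : CAlg_Q _ D * W + W * CAlg_Q _ D = W)
    {d Γ : Matrix K K (SkewMonoidAlgebra R G)} (h1 : Dg D (-1) d) (hΓ : Dg D 1 Γ) :
    CAlg_Q _ D * (W * (d + Γ)) = W * (d + Γ) * CAlg_Q _ D := by
  refine CAlg_oo hW ?_
  rw [mul_add, add_mul, add_add_add_comm, CAlg_od h1 rfl, CAlg_od hΓ rfl]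

theorem CAlg_indep (hN : ∀ i, D i ≤ N) (hr : r * j = 1) (hQ : j * r = CAlg_Q _ D)
    (hWW : W * W = 1) (hW : CAlg_Q _ D * W + W * CAlg_Q _ D = W)
    {d Γ Γ' : Matrix K K (SkewMonoidAlgebra R G)} (h1 : Dg D (-1) d) (hΓ : Dg D 1 Γ)
    (hΓ' : Dg D 1 Γ') (hd : d * d = 0) (hc : d * Γ + Γ * d = 1) (hc' : d * Γ' + Γ' * d = 1)
    (h : T (r * (W * (d + Γ)) * j)) : T (r * (W * (d + Γ')) * j) := by
  have e : ∀ X Y : Matrix K K (SkewMonoidAlgebra R G), X * Y = X * W * (W * Y) := fun X Y => by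
    rw [mul_assoc, ← mul_assoc W, hWW, one_mul]
  have t1 := CAlg_two hN hr hQ h1 hΓ hΓ' hd hc hc'
  have t2 := CAlg_two hN hr hQ h1 hΓ' hΓ' hd hc' hc'
  rw [e, ← CAlg_right hr hQ _ (CAlg_even hW h1 hΓ)] at t1
  rw [e, ← CAlg_right hr hQ _ (CAlg_even hW h1 hΓ')] at t2
  exact T_cancel_left (T_cancel_right h t1) t2

theorem CAlg_pair (hr : r * j = 1) (hQ : j * r = Q) (hWW : W * W = 1)
    {M V : Matrix K K (SkewMonoidAlgebra R G)} (hM : Q * (W * M) = W * M * Q) (h1 : M * V = 1)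
    (h2 : V * M = 1) :
    r * (W * M) * j * (r * (V * W) * j) = 1 ∧ r * (V * W) * j * (r * (W * M) * j) = 1 := by
  constructor
  · rw [CAlg_left hr hQ hM, mul_assoc, ← mul_assoc M, h1, one_mul, hWW, Matrix.mul_one, hr]
  · rw [CAlg_right hr hQ _ hM, mul_assoc, ← mul_assoc W, hWW, one_mul, h2, Matrix.mul_one, hr]

end Comp

section Cone

variable {G : Type} [Group G] [MulSemiringAction G R] {I J : Type} [Fintype I] [DecidableEq I] [Fintype J] [DecidableEq J]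

variable (R G) in
/-- The restriction to the odd part of the cone. -/
noncomputable def CAlg_r (deg : I → ℕ) : Matrix I (I ⊕ I) (SkewMonoidAlgebra R G) :=
  fromCols (CAlg_Q _ deg) (1 - CAlg_Q _ deg)

variable (R G) in
/-- The inclusion of the odd part of the cone. -/
noncomputable def CAlg_j (deg : I → ℕ) : Matrix (I ⊕ I) I (SkewMonoidAlgebra R G) :=
  fromRows (CAlg_Q _ deg) (1 - CAlg_Q _ deg)

variable (R G I) in
/-- The swap. -/
noncomputable def CAlg_W : Matrix (I ⊕ I) (I ⊕ I) (SkewMonoidAlgebra R G) := fromBlocks 0 1 1 0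

variable {deg : I → ℕ}

theorem CAlg_rj : CAlg_r R G deg * CAlg_j R G deg = 1 := by
  rw [CAlg_r, CAlg_j, fromCols_mul_fromRows]
  simp only [mul_sub, sub_mul, one_mul, mul_one, CAlg_QQ]
  abel

theorem CAlg_jr : CAlg_j R G deg * CAlg_r R G deg = CAlg_Q _ (CAlg_D deg) := by
  rw [CAlg_r, CAlg_j, fromRows_mul_fromCols, CAlg_QD]
  simp only [mul_sub, sub_mul, one_mul, mul_one, CAlg_QQ, sub_self, sub_zero]

theorem CAlg_WW : CAlg_W R G I * CAlg_W R G I = 1 := by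
  simp [CAlg_W, fromBlocks_multiply]

theorem CAlg_QW : CAlg_Q _ (CAlg_D deg) * CAlg_W R G I + CAlg_W R G I * CAlg_Q _ (CAlg_D deg) =
    CAlg_W R G I := by
  simp [CAlg_W, CAlg_QD, fromBlocks_multiply, fromBlocks_add]

theorem CAlg_formula (X Y Z U : Matrix I I (SkewMonoidAlgebra R G)) :
    CAlg_r R G deg * (CAlg_W R G I * fromBlocks X Y Z U) * CAlg_j R G deg =
      (1 - CAlg_Q _ deg) * X * CAlg_Q _ deg + CAlg_Q _ deg * U * (1 - CAlg_Q _ deg) +
        ((1 - CAlg_Q _ deg) * Y * (1 - CAlg_Q _ deg) + CAlg_Q _ deg * Z * CAlg_Q _ deg) := by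
  rw [CAlg_W, fromBlocks_multiply, CAlg_r, CAlg_j, fromCols_mul_fromBlocks, fromCols_mul_fromRows]
  simp only [zero_mul, one_mul, zero_add, add_zero, add_mul]
  abel

variable {d s : Matrix I I (SkewMonoidAlgebra R G)} {ι : Matrix I J (SkewMonoidAlgebra R G)}
  {ε : Matrix J I (SkewMonoidAlgebra R G)}

theorem CAlg_mid (hι : ∀ i j, ι i j ≠ 0 → deg i = 0) (hε : ∀ j i, ε j i ≠ 0 → deg i = 0)
    (a : Matrix J J (SkewMonoidAlgebra R G)) : Dg deg 0 (ι * a * ε) := fun i k h => by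
  obtain ⟨y, h1, h2⟩ := CAlg_ne h
  obtain ⟨x, h3, -⟩ := CAlg_ne h1
  rw [hι i x h3, hε y k h2, add_zero]

theorem CAlg_model {a b : Matrix J J (SkewMonoidAlgebra R G)} (hab : a * b = 1) (hba : b * a = 1)
    (h1 : ε * ι = 1) (h2 : ε * d = 0) (h3 : d * ι = 0) (h4 : ε * s = 0) (h5 : s * ι = 0)
    (h6 : d * s + s * d = 1 - ι * ε) :
    fromBlocks d (ι * a * ε) 0 (-d) * fromBlocks s 0 (ι * b * ε) (-s) +
      fromBlocks s 0 (ι * b * ε) (-s) * fromBlocks d (ι * a * ε) 0 (-d) = 1 := by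
  have e : ∀ x y : Matrix J J (SkewMonoidAlgebra R G), x * y = 1 →
      ι * x * ε * (ι * y * ε) = ι * ε := fun x y h => by
    rw [← Matrix.mul_assoc, ← Matrix.mul_assoc, Matrix.mul_assoc _ ε, h1, Matrix.mul_one,
      Matrix.mul_assoc ι, h, Matrix.mul_one]
  have e1 : ι * a * ε * s = 0 := by rw [Matrix.mul_assoc, h4, Matrix.mul_zero]
  have e2 : ι * b * ε * d = 0 := by rw [Matrix.mul_assoc, h2, Matrix.mul_zero]
  have e3 : d * (ι * b * ε) = 0 := by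
    rw [← Matrix.mul_assoc, ← Matrix.mul_assoc, h3, Matrix.zero_mul, Matrix.zero_mul]
  have e4 : s * (ι * a * ε) = 0 := by
    rw [← Matrix.mul_assoc, ← Matrix.mul_assoc, h5, Matrix.zero_mul, Matrix.zero_mul]
  have e5 : d * s = 1 - ι * ε - s * d := eq_sub_of_add_eq h6
  rw [fromBlocks_multiply, fromBlocks_multiply, fromBlocks_add, ← fromBlocks_one]
  simp only [e a b hab, e b a hba, mul_zero, zero_mul, mul_neg, neg_mul, e1, e2, e3, e4, e5,
    neg_zero, add_zero, zero_add, neg_neg]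
  congr 1 <;> abel

/-- The model case. -/
theorem CAlg_final {N : ℕ} (hN : ∀ i, deg i ≤ N) (hd : Dg deg (-1) d) (hs : Dg deg 1 s)
    (hι : ∀ i j, ι i j ≠ 0 → deg i = 0) (hε : ∀ j i, ε j i ≠ 0 → deg i = 0) (hdd : d * d = 0)
    {a b : Matrix J J (SkewMonoidAlgebra R G)}
    (h1 : ε * ι = 1) (h2 : ε * d = 0) (h3 : d * ι = 0) (h4 : ε * s = 0) (h5 : s * ι = 0)
    (h6 : d * s + s * d = 1 - ι * ε) (m1 : MSup {1} d) (m2 : MSup {1} s)
    (m3 : MSup {1} ι) (m4 : MSup {1} ε)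
    (h : T (CAlg_r R G deg * (CAlg_W R G I * (fromBlocks d (ι * a * ε) 0 (-d) +
      fromBlocks s 0 (ι * b * ε) (-s))) * CAlg_j R G deg)) : T a := by
  have q1 : CAlg_Q (SkewMonoidAlgebra R G) deg * ι = 0 := by
    ext1 i x
    rw [CAlg_Q, diagonal_mul]
    by_cases e : ι i x = 0
    · rw [e, mul_zero, Matrix.zero_apply]
    · rw [hι i x e, if_neg (by omega), zero_mul, Matrix.zero_apply]
  have q2 : ε * CAlg_Q (SkewMonoidAlgebra R G) deg = 0 := by
    ext1 x i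
    rw [CAlg_Q, mul_diagonal]
    by_cases e : ε x i = 0
    · rw [e, zero_mul, Matrix.zero_apply]
    · rw [hε x i e, if_neg (by omega), mul_zero, Matrix.zero_apply]
  have q3 : (1 - CAlg_Q (SkewMonoidAlgebra R G) deg) * ι = ι := by
    rw [Matrix.sub_mul, q1, Matrix.one_mul, sub_zero]
  have q4 : ε * (1 - CAlg_Q (SkewMonoidAlgebra R G) deg) = ε := by
    rw [Matrix.mul_sub, q2, Matrix.mul_one, sub_zero]
  have key : ∀ x y : Matrix J J (SkewMonoidAlgebra R G),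
      CAlg_r R G deg * (CAlg_W R G I * (fromBlocks d (ι * x * ε) 0 (-d) +
        fromBlocks s 0 (ι * y * ε) (-s))) * CAlg_j R G deg =
      (1 - CAlg_Q _ deg) * (d + s) * CAlg_Q _ deg +
        CAlg_Q _ deg * (-d + -s) * (1 - CAlg_Q _ deg) + ι * x * ε := fun x y => by
    rw [fromBlocks_add, CAlg_formula, add_zero, zero_add]
    simp only [← Matrix.mul_assoc, q1, q3, Matrix.zero_mul, add_zero]
    rw [Matrix.mul_assoc _ ε, q4]
  have g1 : Dg (CAlg_D deg) (-1) (fromBlocks d (ι * (1 : Matrix J J (SkewMonoidAlgebra R G)) * ε) 0 (-d)) :=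
    CAlg_dg_blocks hd (CAlg_mid hι hε 1) (CAlg_dg_zero _) (CAlg_dg_neg hd) rfl rfl
  have g2 : Dg (CAlg_D deg) 1 (fromBlocks s 0 (ι * (1 : Matrix J J (SkewMonoidAlgebra R G)) * ε) (-s)) :=
    CAlg_dg_blocks hs (CAlg_dg_zero _) (CAlg_mid hι hε 1) (CAlg_dg_neg hs) rfl rfl
  have g3 : fromBlocks d (ι * (1 : Matrix J J (SkewMonoidAlgebra R G)) * ε) 0 (-d) * fromBlocks d (ι * (1 : Matrix J J (SkewMonoidAlgebra R G)) * ε) 0 (-d) = 0 := by
    rw [fromBlocks_multiply, ← fromBlocks_zero]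
    simp only [Matrix.mul_one, mul_neg, neg_mul, hdd, mul_zero, zero_mul, add_zero, neg_zero,
      ← Matrix.mul_assoc, h3, Matrix.zero_mul, zero_add]
    rw [Matrix.mul_assoc, h2, Matrix.mul_zero, neg_zero]
  obtain ⟨i1, i2⟩ := CAlg_inv (CAlg_DN hN) g2 g3
    (CAlg_model (mul_one 1) (mul_one 1) h1 h2 h3 h4 h5 h6)
  obtain ⟨i3, i4⟩ := CAlg_pair CAlg_rj CAlg_jr CAlg_WW (CAlg_even CAlg_QW g1 g2) i1 i2
  have mQ : MSup {1} (CAlg_Q (SkewMonoidAlgebra R G) deg) := (std_diag deg _).msup rfl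
  have m0 : MSup {1} (1 : Matrix I I (SkewMonoidAlgebra R G)) := msup_one rfl
  have t0 := T_of_base i3 i4 (by
    rw [key]
    exact ((msup_one_mul (msup_one_mul (m0.sub mQ) (m1.add m2)) mQ).add
      (msup_one_mul (msup_one_mul mQ (m1.neg.add m2.neg)) (m0.sub mQ))).add
      (msup_one_mul (msup_one_mul m3 (msup_one rfl)) m4))
  rw [key] at h t0
  have e : (1 - CAlg_Q _ deg) * (d + s) * CAlg_Q _ deg +
      CAlg_Q _ deg * (-d + -s) * (1 - CAlg_Q _ deg) + ι * a * ε =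
      ((1 - CAlg_Q _ deg) * (d + s) * CAlg_Q _ deg +
        CAlg_Q _ deg * (-d + -s) * (1 - CAlg_Q _ deg) + ι * (1 : Matrix J J (SkewMonoidAlgebra R G)) * ε) * (1 + ι * ((a - 1) * ε)) := by
    have e1 : ((1 - CAlg_Q _ deg) * (d + s) * CAlg_Q _ deg +
        CAlg_Q _ deg * (-d + -s) * (1 - CAlg_Q _ deg) + ι * (1 : Matrix J J (SkewMonoidAlgebra R G)) * ε) * ι = ι := by
      simp only [Matrix.add_mul, Matrix.mul_assoc, q1, q3, Matrix.neg_mul, h1, h3, h5,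
        Matrix.mul_zero, neg_zero, add_zero, zero_add, Matrix.mul_one]
    generalize (1 - CAlg_Q _ deg) * (d + s) * CAlg_Q _ deg +
      CAlg_Q _ deg * (-d + -s) * (1 - CAlg_Q _ deg) = Z at e1 ⊢
    rw [mul_add, mul_one, ← Matrix.mul_assoc, e1]
    simp only [Matrix.sub_mul, Matrix.mul_sub, Matrix.mul_one, Matrix.one_mul, Matrix.mul_assoc]
    abel
  rw [e] at h
  have t1 := CAlg_comm _ _ (T_cancel_left t0 h)
  rwa [Matrix.mul_assoc, h1, Matrix.mul_one, add_sub_cancel] at t1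

theorem CAlg_shear (H : Matrix I I (SkewMonoidAlgebra R G)) :
    T (CAlg_r R G deg * (fromBlocks 1 H 0 1 : Matrix (I ⊕ I) (I ⊕ I) _) * CAlg_j R G deg) ∧
      T (CAlg_r R G deg * (CAlg_W R G I * fromBlocks 1 H 0 1 * CAlg_W R G I) *
        CAlg_j R G deg) := by
  constructor
  · refine CAlg_unip CAlg_rj CAlg_jr (p := fromBlocks 1 0 0 0) (n := fromBlocks 0 H 0 0) ?_ ?_ ?_
    · simp [CAlg_QD, fromBlocks_multiply]
    · simp [fromBlocks_multiply]
    · rw [← fromBlocks_one]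
      simp [fromBlocks_multiply, fromBlocks_add, -fromBlocks_one]
  · refine CAlg_unip CAlg_rj CAlg_jr (p := fromBlocks 0 0 0 1) (n := fromBlocks 0 0 H 0) ?_ ?_ ?_
    · simp [CAlg_QD, fromBlocks_multiply]
    · simp [fromBlocks_multiply]
    · rw [← fromBlocks_one]
      simp [CAlg_W, fromBlocks_multiply, fromBlocks_add, -fromBlocks_one]

/-- Change of the cone by a homotopy. -/
theorem CAlg_conj {N : ℕ} (hN : ∀ i, deg i ≤ N) {f f' H : Matrix I I (SkewMonoidAlgebra R G)}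
    (hd : Dg deg (-1) d) (hf : Dg deg 0 f) (hf' : Dg deg 0 f') (hH : Dg deg 1 H)
    (e : f - f' = d * H + H * d) {Γ Γ' : Matrix (I ⊕ I) (I ⊕ I) (SkewMonoidAlgebra R G)}
    (hΓ : Dg (CAlg_D deg) 1 Γ) (hΓ' : Dg (CAlg_D deg) 1 Γ')
    (hdd : fromBlocks d f 0 (-d) * fromBlocks d f 0 (-d) = 0)
    (hc : fromBlocks d f 0 (-d) * Γ + Γ * fromBlocks d f 0 (-d) = 1)
    (hc' : fromBlocks d f' 0 (-d) * Γ' + Γ' * fromBlocks d f' 0 (-d) = 1)
    (h : T (CAlg_r R G deg * (CAlg_W R G I * (fromBlocks d f 0 (-d) + Γ)) * CAlg_j R G deg)) :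
    T (CAlg_r R G deg * (CAlg_W R G I * (fromBlocks d f' 0 (-d) + Γ')) * CAlg_j R G deg) := by
  have p1 : fromBlocks 1 H 0 1 * fromBlocks 1 (-H) 0 1 =
      (1 : Matrix (I ⊕ I) (I ⊕ I) (SkewMonoidAlgebra R G)) := by
    simp [fromBlocks_multiply]
  have p2 : fromBlocks 1 (-H) 0 1 * fromBlocks 1 H 0 1 =
      (1 : Matrix (I ⊕ I) (I ⊕ I) (SkewMonoidAlgebra R G)) := by
    simp [fromBlocks_multiply]
  have p3 : fromBlocks d f 0 (-d) =
      fromBlocks 1 (-H) 0 1 * fromBlocks d f' 0 (-d) * fromBlocks 1 H 0 1 := by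
    rw [eq_add_of_sub_eq e]
    simp only [fromBlocks_multiply, one_mul, mul_one, zero_mul, mul_zero, add_zero, zero_add,
      mul_neg, neg_mul, neg_neg]
    congr 1
    abel
  have g0 : ∀ X : Matrix I I (SkewMonoidAlgebra R G), Dg deg 1 X →
      Dg (CAlg_D deg) 0 (fromBlocks 1 X 0 1) := fun X hX =>
    CAlg_dg_blocks CAlg_dg_one hX (CAlg_dg_zero _) CAlg_dg_one rfl rfl
  have g1 : Dg (CAlg_D deg) (-1) (fromBlocks d f 0 (-d)) :=
    CAlg_dg_blocks hd hf (CAlg_dg_zero _) (CAlg_dg_neg hd) rfl rfl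
  have g2 : Dg (CAlg_D deg) (-1) (fromBlocks d f' 0 (-d)) :=
    CAlg_dg_blocks hd hf' (CAlg_dg_zero _) (CAlg_dg_neg hd) rfl rfl
  have g3 := g0 H hH
  have g4 := g0 (-H) (CAlg_dg_neg hH)
  have s1 := (CAlg_shear (deg := deg) H).1
  have s2 := (CAlg_shear (deg := deg) (-H)).2
  generalize fromBlocks d f 0 (-d) = dd at *
  generalize fromBlocks d f' 0 (-d) = dd' at *
  generalize (fromBlocks 1 H 0 1 : Matrix (I ⊕ I) (I ⊕ I) _) = Φ at *
  generalize (fromBlocks 1 (-H) 0 1 : Matrix (I ⊕ I) (I ⊕ I) _) = Ψ at *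
  have t := CAlg_indep (CAlg_DN hN) CAlg_rj CAlg_jr CAlg_WW CAlg_QW (Γ' := Ψ * Γ' * Φ) g1 hΓ
    (CAlg_dg_mul (CAlg_dg_mul g4 hΓ' rfl) g3 rfl) hdd hc (by
      rw [p3]
      calc Ψ * dd' * Φ * (Ψ * Γ' * Φ) + Ψ * Γ' * Φ * (Ψ * dd' * Φ)
          = Ψ * (dd' * (Φ * Ψ) * Γ' + Γ' * (Φ * Ψ) * dd') * Φ := by
            simp only [mul_add, add_mul, mul_assoc]
        _ = 1 := by rw [p1, mul_one, mul_one, hc', mul_one, p2]) h
  have e1 : CAlg_W R G I * (dd + Ψ * Γ' * Φ) =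
      CAlg_W R G I * Ψ * CAlg_W R G I * (CAlg_W R G I * (dd' + Γ') * Φ) := by
    rw [p3, ← add_mul, ← mul_add]
    simp only [mul_assoc]
    rw [← mul_assoc (CAlg_W R G I) (CAlg_W R G I), CAlg_WW, one_mul]
  have e2 := CAlg_even CAlg_QW g2 hΓ'
  rw [e1, ← CAlg_right CAlg_rj CAlg_jr _ (by
      rw [← mul_assoc, e2, mul_assoc, CAlg_ev g3 rfl, ← mul_assoc]),
    ← CAlg_left CAlg_rj CAlg_jr e2] at t
  exact T_cancel_right s1 (T_cancel_left s2 t)

end Cone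

section Control

variable {G : Type} [Group G] [MulSemiringAction G R] {Λ I J K : Type} (F : GN.FR G Λ)

theorem CAlg_ctl_cols {r : Λ → G → Λ → Prop} {li : I → Λ} {lj : J → Λ} {lk : K → Λ}
    {X : Matrix I J (SkewMonoidAlgebra R G)} {Y : Matrix I K (SkewMonoidAlgebra R G)}
    (hX : Ctl r li lj X) (hY : Ctl r li lk Y) : Ctl r li (Sum.elim lj lk) (fromCols X Y) := by
  rintro i (x | x)
  · exact hX i x
  · exact hY i x

theorem CAlg_ctl_rows {r : Λ → G → Λ → Prop} {li : I → Λ} {lj : J → Λ} {lk : K → Λ}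
    {X : Matrix J I (SkewMonoidAlgebra R G)} {Y : Matrix K I (SkewMonoidAlgebra R G)}
    (hX : Ctl r lj li X) (hY : Ctl r lk li Y) : Ctl r (Sum.elim lj lk) li (fromRows X Y) := by
  rintro (x | x) i
  · exact hX x i
  · exact hY x i

theorem CAlg_ctl_geom [Fintype I] [DecidableEq I] {k : ℕ} {l : I → Λ}
    {X : Matrix I I (SkewMonoidAlgebra R G)} (hX : Ctl (F.rel k) l l X) (n : ℕ) :
    Ctl (F.rel (n * k)) l l (X ^ n) ∧ Ctl (F.rel (n * k)) l l (∑ i ∈ Finset.range n, X ^ i) := by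
  induction n with
  | zero =>
    rw [pow_zero, Finset.sum_range_zero]
    exact ⟨ctl_one F _ l, ctl_zero _ l l⟩
  | succ n ih =>
    rw [pow_succ, Finset.sum_range_succ, Nat.succ_mul]
    exact ⟨ih.1.mul F hX, (ih.2.add ih.1).le F (Nat.le_add_right _ _)⟩

theorem CAlg_ctl_comp [Fintype I] [DecidableEq I] {k : ℕ} {l : I → Λ} (deg : I → ℕ)
    {X : Matrix (I ⊕ I) (I ⊕ I) (SkewMonoidAlgebra R G)}
    (hX : Ctl (F.rel k) (Sum.elim l l) (Sum.elim l l) X) :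
    Ctl (F.rel k) l l (CAlg_r R G deg * (CAlg_W R G I * X) * CAlg_j R G deg) ∧
      Ctl (F.rel k) l l (CAlg_r R G deg * (X * CAlg_W R G I) * CAlg_j R G deg) := by
  have h1 : Ctl (F.rel 0) l l (CAlg_Q (SkewMonoidAlgebra R G) deg) := ctl_diag F 0 l _
  have h2 := (ctl_one F 0 l).sub h1
  have h3 : Ctl (F.rel 0) (Sum.elim l l) (Sum.elim l l) (CAlg_W R G I) :=
    Ctl.fromBlocks (ctl_zero _ l l) (ctl_one F 0 l) (ctl_one F 0 l) (ctl_zero _ l l)
  exact ⟨(((CAlg_ctl_cols h1 h2).mul F (h3.mul F hX)).mul F (CAlg_ctl_rows h1 h2)).le F (by omega),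
    (((CAlg_ctl_cols h1 h2).mul F (hX.mul F h3)).mul F (CAlg_ctl_rows h1 h2)).le F (by omega)⟩

end Control

theorem torsion (N : ℕ) : ∃ c : ℕ, 0 < c ∧ ∀ (G : Type) [Group G] [MulSemiringAction G R] (Λ I J : Type) [Fintype I]
    [DecidableEq I] [Fintype J] [DecidableEq J] (F : GN.FR G Λ) (κ : ℕ) (l : I → Λ) (deg : I → ℕ)
    (d f g h k s : Matrix I I (SkewMonoidAlgebra R G)) (a b : Matrix J J (SkewMonoidAlgebra R G))
    (ι : Matrix I J (SkewMonoidAlgebra R G)) (ε : Matrix J I (SkewMonoidAlgebra R G)),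
    (∀ i, deg i ≤ N) → Dg deg (-1) d → Dg deg 0 f → Dg deg 0 g → Dg deg 1 h → Dg deg 1 k →
    Dg deg 1 s → (∀ i j, ι i j ≠ 0 → deg i = 0) → (∀ j i, ε j i ≠ 0 → deg i = 0) →
    Ctl (F.rel κ) l l d → Ctl (F.rel κ) l l f → Ctl (F.rel κ) l l g → Ctl (F.rel κ) l l h →
    Ctl (F.rel κ) l l k → d * d = 0 → d * f = f * d → d * g = g * d →
    g * f = 1 + d * h + h * d → f * g = 1 + d * k + k * d → a * b = 1 → b * a = 1 →
    ε * ι = 1 → ε * d = 0 → d * s + s * d = 1 - ι * ε → ε * f = a * ε →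
    MSup {1} d → MSup {1} s → MSup {1} ι → MSup {1} ε →
    ∃ A B : Matrix I I (SkewMonoidAlgebra R G), A * B = 1 ∧ B * A = 1 ∧ Ctl (F.rel (c * κ)) l l A ∧
      Ctl (F.rel (c * κ)) l l B ∧ (T A → T a) := by
  refine ⟨6 * N + 15, by omega, ?_⟩
  intro G _ _ Λ I J _ _ _ _ F κ l deg d f g h k s a b ι ε hN hd hf hg hh hk hs hι hε cd cf cg ch ck
    hdd hdf hdg hgf hfg hab hba h1 h2 h6 h7 m1 m2 m3 m4
  have h3 : d * ι = 0 := by
    ext1 i x
    by_contra e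
    obtain ⟨y, e1, e2⟩ := CAlg_ne e
    have := hd i y e1
    have := hι y x e2
    omega
  have h4 : ε * s = 0 := by
    ext1 x i
    by_contra e
    obtain ⟨y, e1, e2⟩ := CAlg_ne e
    have := hs y i e2
    have := hε x y e1
    omega
  have g0 : Dg deg 0 (ι * ε) := by
    have := CAlg_mid hι hε 1
    rwa [Matrix.mul_one] at this
  have g1 : Dg (CAlg_D deg) (-1) (fromBlocks d f 0 (-d)) :=
    CAlg_dg_blocks hd hf (CAlg_dg_zero _) (CAlg_dg_neg hd) rfl rfl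
  have g2 : Dg (CAlg_D deg) 1 (fromBlocks (-k) 0 g h * fromBlocks 1 (-(f * h - k * f)) 0 1) :=
    CAlg_dg_mul (CAlg_dg_blocks (CAlg_dg_neg hk) (CAlg_dg_zero _) hg hh rfl rfl)
      (CAlg_dg_blocks CAlg_dg_one (CAlg_dg_neg (CAlg_dg_sub (CAlg_dg_mul hf hh rfl)
        (CAlg_dg_mul hk hf rfl))) (CAlg_dg_zero _) CAlg_dg_one rfl rfl) rfl
  have e1 : fromBlocks d f 0 (-d) * fromBlocks d f 0 (-d) = 0 := by
    rw [fromBlocks_multiply, ← fromBlocks_zero]
    simp [hdd, hdf]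
  have e2 : fromBlocks d f 0 (-d) * fromBlocks (-k) 0 g h +
      fromBlocks (-k) 0 g h * fromBlocks d f 0 (-d) = fromBlocks 1 (f * h - k * f) 0 1 := by
    rw [fromBlocks_multiply, fromBlocks_multiply, fromBlocks_add]
    simp only [mul_neg, neg_mul, hdg, hgf, hfg, mul_zero, zero_mul, add_zero, zero_add, neg_zero]
    congr 1 <;> abel
  have e3 : fromBlocks 1 (f * h - k * f) 0 1 * fromBlocks 1 (-(f * h - k * f)) 0 1 =
      (1 : Matrix (I ⊕ I) (I ⊕ I) (SkewMonoidAlgebra R G)) := by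
    simp [fromBlocks_multiply]
  have e4 : fromBlocks 1 (-(f * h - k * f)) 0 1 * fromBlocks 1 (f * h - k * f) 0 1 =
      (1 : Matrix (I ⊕ I) (I ⊕ I) (SkewMonoidAlgebra R G)) := by
    simp [fromBlocks_multiply]
  have c1 : Ctl (F.rel κ) (Sum.elim l l) (Sum.elim l l) (fromBlocks d f 0 (-d)) :=
    Ctl.fromBlocks cd cf (ctl_zero _ l l) cd.neg
  have c2 : Ctl (F.rel (κ + (κ + κ))) (Sum.elim l l) (Sum.elim l l)
      (fromBlocks (-k) 0 g h * fromBlocks 1 (-(f * h - k * f)) 0 1) :=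
    (Ctl.fromBlocks ck.neg (ctl_zero _ l l) cg ch).mul F (Ctl.fromBlocks (ctl_one F _ l)
      ((cf.mul F ch).sub (ck.mul F cf)).neg (ctl_zero _ l l) (ctl_one F _ l))
  have e5 : fromBlocks d f 0 (-d) *
      (fromBlocks (-k) 0 g h * fromBlocks 1 (-(f * h - k * f)) 0 1) +
      fromBlocks (-k) 0 g h * fromBlocks 1 (-(f * h - k * f)) 0 1 * fromBlocks d f 0 (-d) = 1 := by
    generalize fromBlocks d f 0 (-d) = dd at *
    generalize fromBlocks (-k) 0 g h = G0 at *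
    generalize (fromBlocks 1 (f * h - k * f) 0 1 : Matrix (I ⊕ I) (I ⊕ I) _) = U at *
    generalize (fromBlocks 1 (-(f * h - k * f)) 0 1 : Matrix (I ⊕ I) (I ⊕ I) _) = V at *
    have u1 : dd * U = U * dd := by
      rw [← e2, mul_add, add_mul, ← mul_assoc, e1, mul_assoc G0, e1, zero_mul, mul_zero, zero_add,
        add_zero, mul_assoc]
    have u2 : V * dd = dd * V := by
      rw [← mul_one (V * dd), ← e3, ← mul_assoc, mul_assoc V, u1, ← mul_assoc, e4, one_mul]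
    rw [mul_assoc G0, u2, ← mul_assoc, ← mul_assoc, ← add_mul, e2, e3]
  generalize fromBlocks (-k) 0 g h * fromBlocks 1 (-(f * h - k * f)) 0 1 = Γ at g2 c2 e5
  obtain ⟨i1, i2⟩ := CAlg_inv (CAlg_DN hN) g2 e1 e5
  obtain ⟨i3, i4⟩ := CAlg_pair CAlg_rj CAlg_jr CAlg_WW (CAlg_even CAlg_QW g1 g2) i1 i2
  have c3 := (c1.le F (Nat.le_add_right _ (κ + κ))).add c2
  refine ⟨_, _, i3, i4, (CAlg_ctl_comp F deg c3).1.le F (by nlinarith),
    (CAlg_ctl_comp F deg (c3.mul F (CAlg_ctl_geom F (c2.mul F c2).neg (N + 1 + 1)).2)).2.le F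
      (le_of_eq (by ring)), fun t => ?_⟩
  have s1 : Dg deg 1 (s * (1 - ι * ε)) := CAlg_dg_mul hs (CAlg_dg_sub CAlg_dg_one g0) rfl
  have s2 : ε * (s * (1 - ι * ε)) = 0 := by rw [← Matrix.mul_assoc, h4, Matrix.zero_mul]
  have s3 : (1 - ι * ε) * ι = 0 := by
    rw [Matrix.sub_mul, Matrix.mul_assoc, h1, Matrix.one_mul, Matrix.mul_one, sub_self]
  have s4 : s * (1 - ι * ε) * ι = 0 := by rw [Matrix.mul_assoc, s3, Matrix.mul_zero]
  have s5 : d * s * ι = 0 := by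
    rw [eq_sub_of_add_eq h6, Matrix.sub_mul, s3, Matrix.mul_assoc, h3, Matrix.mul_zero, sub_zero]
  have s6 : d * (s * (1 - ι * ε)) + s * (1 - ι * ε) * d = 1 - ι * ε := by
    rw [← mul_assoc, mul_sub, mul_one, ← Matrix.mul_assoc, s5, Matrix.zero_mul, sub_zero,
      mul_assoc, sub_mul, Matrix.mul_assoc ι, h2, Matrix.mul_zero, sub_zero, one_mul, h6]
  have s7 : f - ι * a * ε = d * (f * s + s * f * (ι * ε)) + (f * s + s * f * (ι * ε)) * d := by
    have u1 : ι * a * ε = ι * ε * f * (ι * ε) := by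
      rw [Matrix.mul_assoc ι ε f, h7, ← Matrix.mul_assoc, ← Matrix.mul_assoc,
        Matrix.mul_assoc _ ε ι, h1, Matrix.mul_one]
    have u2 : ι * ε * d = 0 := by rw [Matrix.mul_assoc, h2, Matrix.mul_zero]
    have u3 : d * (ι * ε) = 0 := by rw [← Matrix.mul_assoc, h3, Matrix.zero_mul]
    rw [u1]
    generalize ι * ε = p at h6 u2 u3 ⊢
    have u4 : d * (f * s) + f * s * d = f - f * p := by
      rw [← mul_assoc, hdf, mul_assoc, mul_assoc, ← mul_add, h6, mul_sub, mul_one]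
    have u5 : d * (s * f * p) = f * p - p * f * p := by
      rw [← mul_assoc, ← mul_assoc, eq_sub_of_add_eq h6, sub_mul, sub_mul, sub_mul, sub_mul,
        one_mul, mul_assoc s d f, hdf, mul_assoc s, mul_assoc f d, u3, mul_zero, mul_zero, sub_zero]
    rw [mul_add, add_mul, mul_assoc _ p d, u2, mul_zero, add_zero, add_right_comm, u4, u5]
    abel
  refine CAlg_final (b := b) hN hd s1 hι hε hdd h1 h2 h3 s2 s4 s6 m1 ?_ m3 m4
    (CAlg_conj hN hd hf (CAlg_mid hι hε a) (CAlg_dg_add (CAlg_dg_mul hf hs rfl)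
      (CAlg_dg_mul (CAlg_dg_mul hs hf rfl) g0 rfl)) s7 g2
      (CAlg_dg_blocks s1 (CAlg_dg_zero _) (CAlg_mid hι hε b) (CAlg_dg_neg s1) rfl rfl) e1 e5
      (CAlg_model hab hba h1 h2 h3 s2 s4 s6) t)
  have m0 : MSup {1} ((1 : Matrix I I (SkewMonoidAlgebra R G)) - ι * ε) :=
    (msup_one (S := {1}) rfl).sub (msup_one_mul m3 m4)
  exact msup_one_mul m2 m0

end Pool.Agent.MP_f7db47_al.TW

end
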