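import Pool.Agent.MP_f7db47_al.TW.ZLat
import Pool.Agent.MP_f7db47_al.TW.ZCsl
import Pool.Agent.MP_f7db47_al.PT.ZAbq

/-!
Twisted coefficients: part ZFH.
-/

set_option linter.unusedSectionVars false

universe u u' v w

section

namespace Pool.Agent.MP_f7db47_al.TW

open PT

variable {R : Type v} [Ring R] {G : Type u} [Group G] [MulSemiringAction G R]

lemma ZFH_sup {X J : Type} (σ : G →* Equiv.Perm X) {S : Set G}
    {A : Matrix J J (SkewMonoidAlgebra R G)} (hA : MSup S A) {S' : J × X → J × X → Set G}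
    (h : ∀ (x y : J × X) (g : G), g ∈ S → σ g y.2 = x.2 → g ∈ S' x y) :
    MSup2 S' (permM σ A) := fun x y g hg =>
  h x y g ((hA x.1 y.1).pr g hg) (sup_pr {g | σ g y.2 = x.2} _ g hg)

lemma ZFH_inv {X J : Type} [Fintype X] [DecidableEq X] [Fintype J] [DecidableEq J]
    (σ : G →* Equiv.Perm X) {A B : Matrix J J (SkewMonoidAlgebra R G)} (h : A * B = 1) :
    permM σ A * permM σ B = 1 := by
  rw [permM_mul, h, permM_one]

lemma ZFH_prime (φ₀ φ₁ : G → ℤ) (h₀ : ∀ a b, φ₀ (a * b) = φ₀ a + φ₀ b)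
    (h₁ : ∀ a b, φ₁ (a * b) = φ₁ a + φ₁ b)
    (hQ : ∀ a b : ℤ, (a ≠ 0 ∨ b ≠ 0) → ∀ N : Subgroup G,
      (∀ g, g ∈ N ↔ a * φ₀ g + b * φ₁ g = 0) → QQ R N)
    {W : Type w} [AddCommGroup W] (E : WhS R G W) {J : Type} [Fintype J] [DecidableEq J]
    {A B : Matrix J J (SkewMonoidAlgebra R G)} (hAB : A * B = 1) (hBA : B * A = 1) (D : ℕ)
    (hA : MSup {g | |φ₀ g| ≤ D ∧ |φ₁ g| ≤ D} A) (hB : MSup {g | |φ₀ g| ≤ D ∧ |φ₁ g| ≤ D} B)
    (p : ℕ) (hp : p.Prime) (hD : 4 * D < Nat.sqrt p) : p • E.cls A = 0 := by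
  have : Fact p.Prime := ⟨hp⟩
  have hsq : Nat.sqrt p * Nat.sqrt p ≤ p := Nat.sqrt_le p
  have hsp : Nat.sqrt p ≤ p := Nat.sqrt_le_self p
  set c : G → ZMod p × ZMod p := fun g => ((φ₀ g : ZMod p), (φ₁ g : ZMod p)) with hcdef
  have hc : ∀ a b, c (a * b) = c a + c b := fun a b => by
    simp only [hcdef, h₀, h₁, Int.cast_add, Prod.mk_add_mk]
  have hu : IsUnit A := ⟨⟨A, B, hAB, hBA⟩, rfl⟩
  obtain ⟨f, n, Kf, hf, he, h0, hanti, hstep, hn⟩ := exists_radon p
  have key := cls_perm E (ZFH_sig c hc) (ZFH_tau c hc) f hf (fun g F => he (c g) F) n Kf h0 hanti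
    (fun j g F hF => hstep j (c g) F hF) hn hu
  have hT1 : T (permM (ZFH_sig c hc) A) := by
    have hs : ∀ (x y : J × (ZMod p × ZMod p)) (g : G), g ∈ {g | |φ₀ g| ≤ D ∧ |φ₁ g| ≤ D} →
        ZFH_sig c hc g y.2 = x.2 →
        g ∈ {g | |φ₁ g| ≤ D ∧ x.2.2 = y.2.2 + (φ₁ g : ZMod p)} := by
      intro x y g hg hσ
      exact ⟨hg.2, (congrArg Prod.snd hσ).symm⟩
    exact T_ctrl φ₁ h₁ (ZFH_ker φ₁ h₁) (fun _ => Iff.rfl)
      (hQ 0 1 (Or.inr one_ne_zero) _ fun g => by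
        rw [zero_mul, one_mul, zero_add]
        rfl) p D hp (by omega) (fun x : J × (ZMod p × ZMod p) => x.2.2)
      (ZFH_inv _ hAB) (ZFH_inv _ hBA) (ZFH_sup _ hA hs) (ZFH_sup _ hB hs)
  have hT2 : T (permM (ZFH_tau c hc) A) := by
    choose a b e hab ha hb hlin using exists_thue p
    have hadd : ∀ k x y, a k * φ₀ (x * y) + b k * φ₁ (x * y) =
        a k * φ₀ x + b k * φ₁ x + (a k * φ₀ y + b k * φ₁ y) := fun k x y => by
      rw [h₀, h₁]
      ring
    have hs : ∀ (x y : J × (Option (ZMod p) × ZMod p)) (g : G),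
        g ∈ {g | |φ₀ g| ≤ D ∧ |φ₁ g| ≤ D} → ZFH_tau c hc g y.2 = x.2 →
        g ∈ {g | x.2.1 = y.2.1 ∧
          |a x.2.1 * φ₀ g + b x.2.1 * φ₁ g| ≤ (2 * Nat.sqrt p * D : ℕ) ∧
          e x.2.1 * x.2.2 = e y.2.1 * y.2.2 +
            ((a x.2.1 * φ₀ g + b x.2.1 * φ₁ g : ℤ) : ZMod p)} := by
      intro x y g hg hτ
      have e1 : y.2.1 = x.2.1 := (congrArg Prod.fst hτ :)
      have e2 : y.2.2 + linF y.2.1 (c g) = x.2.2 := congrArg Prod.snd hτ
      refine ⟨e1.symm, ?_, ?_⟩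
      · have t1 : |a x.2.1 * φ₀ g| ≤ Nat.sqrt p * D := by
          rw [abs_mul]
          exact mul_le_mul (ha _) hg.1 (abs_nonneg _) (Nat.cast_nonneg _)
        have t2 : |b x.2.1 * φ₁ g| ≤ Nat.sqrt p * D := by
          rw [abs_mul]
          exact mul_le_mul (hb _) hg.2 (abs_nonneg _) (Nat.cast_nonneg _)
        have t3 := abs_add_le (a x.2.1 * φ₀ g) (b x.2.1 * φ₁ g)
        push_cast
        linarith
      · rw [← e2, e1, mul_add, hlin]
        push_cast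
        rfl
    exact T_ctrl' (fun k g => a k * φ₀ g + b k * φ₁ g) hadd
      (fun k => ZFH_ker (fun g => a k * φ₀ g + b k * φ₁ g) (hadd k)) (fun _ _ => Iff.rfl)
      (fun k => hQ (a k) (b k) (hab k) _ fun _ => Iff.rfl) p (2 * Nat.sqrt p * D) hp
      (by nlinarith) (fun x : J × (Option (ZMod p) × ZMod p) => x.2.1)
      (fun x => e x.2.1 * x.2.2)
      (ZFH_inv _ hAB) (ZFH_inv _ hBA) (ZFH_sup _ hA hs) (ZFH_sup _ hB hs)
  rw [(E.zero_iff hT1.isUnit).2 hT1, (E.zero_iff hT2.isUnit).2 hT2, zero_add, zero_add,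
    Fintype.card_prod, Fintype.card_prod, Fintype.card_option, ZMod.card, add_mul, one_mul,
    add_nsmul] at key
  exact add_eq_left.1 key

theorem g1_FH (φ₀ φ₁ : G → ℤ) (h₀ : ∀ a b, φ₀ (a * b) = φ₀ a + φ₀ b)
    (h₁ : ∀ a b, φ₁ (a * b) = φ₁ a + φ₁ b)
    (hQ : ∀ a b : ℤ, (a ≠ 0 ∨ b ≠ 0) → ∀ N : Subgroup G,
      (∀ g, g ∈ N ↔ a * φ₀ g + b * φ₁ g = 0) → QQ R N) : G1 R G := by
  classical
  intro J _ _ A B hAB hBA
  obtain ⟨s, hs, -⟩ := exists_finset_msup A
  obtain ⟨t, ht, -⟩ := exists_finset_msup B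
  obtain ⟨W, _, ⟨E⟩⟩ := exists_WhS R G
  set D : ℕ := (s ∪ t).sup fun g => (φ₀ g).natAbs + (φ₁ g).natAbs with hD
  have hsub : ((s ∪ t : Finset G) : Set G) ⊆ {g | |φ₀ g| ≤ D ∧ |φ₁ g| ≤ D} := by
    intro g hg
    have h1 : (φ₀ g).natAbs + (φ₁ g).natAbs ≤ D :=
      Finset.le_sup (f := fun g => (φ₀ g).natAbs + (φ₁ g).natAbs) hg
    refine ⟨?_, ?_⟩ <;> rw [Int.abs_eq_natAbs] <;> omega
  have hA := hs.mono ((Finset.coe_subset.2 Finset.subset_union_left).trans hsub)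
  have hB := ht.mono ((Finset.coe_subset.2 Finset.subset_union_right).trans hsub)
  obtain ⟨p, hp1, hp⟩ := Nat.exists_infinite_primes ((4 * D + 1) ^ 2)
  obtain ⟨q, hq1, hq⟩ := Nat.exists_infinite_primes (p + 1)
  have e1 := ZFH_prime φ₀ φ₁ h₀ h₁ hQ E hAB hBA D hA hB p hp (Nat.le_sqrt'.2 hp1)
  have e2 := ZFH_prime φ₀ φ₁ h₀ h₁ hQ E hAB hBA D hA hB q hq (Nat.le_sqrt'.2 (hp1.trans (by omega)))
  have hco : Nat.gcd p q = 1 := (Nat.coprime_primes hp hq).2 (by omega)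
  have hdv := Nat.dvd_gcd (addOrderOf_dvd_of_nsmul_eq_zero e1) (addOrderOf_dvd_of_nsmul_eq_zero e2)
  rw [hco, Nat.dvd_one, AddMonoid.addOrderOf_eq_one_iff] at hdv
  exact (E.zero_iff ⟨⟨A, B, hAB, hBA⟩, rfl⟩).1 hdv

end Pool.Agent.MP_f7db47_al.TW

end

section

namespace Pool.Agent.MP_f7db47_al.TW

open PT

variable {R : Type v} [Ring R]

theorem ZAbq_top {G : Type} [Group G] [MulSemiringAction G R] (h : QQ R (⊤ : Subgroup G)) : QQ R G :=
  h.sub' (Subgroup.topEquiv (G := G)).symm.toMonoidHom (fun _ _ => rfl) (Subgroup.topEquiv (G := G)).symm.injective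

theorem ZAbq_res {G Q Q' : Type} [Group G] [MulSemiringAction G R] [Group Q] [Group Q'] (φ : G →* Q)
    (h : ∀ (H : Subgroup G) (ψ : H →* Multiplicative ℤ),
      (∀ x : H, ψ x = 1 → φ x = 1) → QQ R H) (N : Subgroup G) (φ' : N →* Q')
    (hφ : ∀ x : N, φ' x = 1 → φ x = 1) (H : Subgroup N) (ψ : H →* Multiplicative ℤ)
    (hψ : ∀ x : H, ψ x = 1 → φ' x = 1) : QQ R H := by
  let e : H ≃* H.map N.subtype := H.equivMapOfInjective N.subtype N.subtype_injective
  refine (h (H.map N.subtype) (ψ.comp e.symm.toMonoidHom) fun x hx => ?_).sub'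
    e.toMonoidHom (fun _ _ => rfl) e.injective
  have h1 := hφ _ (hψ (e.symm x) hx)
  have h2 : ((e (e.symm x) : H.map N.subtype) : G) = ((e.symm x : H) : N) := rfl
  rw [← h2, e.apply_symm_apply] at h1
  exact h1

theorem ZAbq_core : ∀ (r : ℕ) (G : Type) [Group G] [MulSemiringAction G R] (φ : G →* Multiplicative (Fin r → ℤ)),
    (∀ (H : Subgroup G) (ψ : H →* Multiplicative ℤ),
      (∀ x : H, ψ x = 1 → φ x = 1) → QQ R H) → QQ R G
  | 0, G, _, _, φ, h => ZAbq_top (h ⊤ 1 fun _ _ => Subsingleton.elim _ _)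
  | 1, G, _, _, φ, h => by
    refine ZAbq_top (h ⊤ (((ZAbq_ev 0).comp φ).comp (Subgroup.subtype _)) fun x hx => ?_)
    refine Multiplicative.toAdd.injective (funext fun i => ?_)
    rw [Subsingleton.elim i 0]
    exact congrArg Multiplicative.toAdd hx
  | r + 2, G, _, _, φ, h => by
    intro P _ hP Δ _ _ f _ hf
    refine g1_FH (fun δ => (φ (f δ).1).toAdd 0) (fun δ => (φ (f δ).1).toAdd 1)
      (fun a b => by simp) (fun a b => by simp) fun a b hab N hN => ?_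
    let N₀ : Subgroup G :=
      { carrier := {g | a * (φ g).toAdd 0 + b * (φ g).toAdd 1 = 0}
        one_mem' := by simp
        mul_mem' := fun {x y} hx hy => by
          simp only [Set.mem_ofPred_eq, map_mul, toAdd_mul, Pi.add_apply] at hx hy ⊢
          linear_combination hx + hy
        inv_mem' := fun {x} hx => by
          simp only [Set.mem_ofPred_eq, map_inv, toAdd_inv, Pi.neg_apply] at hx ⊢
          linear_combination -hx }
    refine Ab_le hP f hf N₀ ?_ N fun x hx => (hN x).1 hx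
    have key : ∀ i : Fin (r + 2), (∀ x : N₀, (∀ k : Fin (r + 1), (φ x).toAdd (i.succAbove k) = 0) →
        (φ x).toAdd i = 0) → QQ R N₀ := by
      intro i hi
      refine ZAbq_core (r + 1) N₀ (((ZAbq_co i.succAbove).comp φ).comp N₀.subtype)
        (ZAbq_res φ h N₀ _ fun x hx => ?_)
      have h1 : ∀ k : Fin (r + 1), (φ x).toAdd (i.succAbove k) = 0 := fun k =>
        congrFun (congrArg Multiplicative.toAdd hx) k
      refine Multiplicative.toAdd.injective (funext fun j => ?_)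
      rcases Fin.eq_self_or_eq_succAbove i j with rfl | ⟨k, rfl⟩
      · exact hi x h1
      · exact h1 k
    by_cases ha : a = 0
    · refine key 1 fun x _ => ?_
      have hx : a * (φ x).toAdd 0 + b * (φ x).toAdd 1 = 0 := x.2
      rw [ha, zero_mul, zero_add] at hx
      exact (mul_eq_zero.1 hx).resolve_left (hab.resolve_left fun h => h ha)
    · refine key 0 fun x h1 => ?_
      have hx : a * (φ x).toAdd 0 + b * (φ x).toAdd 1 = 0 := x.2
      have h2 : (φ x).toAdd 1 = 0 := h1 0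
      rw [h2, mul_zero, add_zero] at hx
      exact (mul_eq_zero.1 hx).resolve_left ha

theorem qq_abq' {G Q : Type} [Group G] [MulSemiringAction G R] [CommGroup Q] (hQ : ∀ q : Q, IsOfFinOrder q → q = 1)
    (φ : G →* Q) (h : ∀ (H : Subgroup G) (ψ : H →* Multiplicative ℤ),
      (∀ x : H, ψ x = 1 → φ x = 1) → QQ R H) : QQ R G := by
  refine qq_loc fun K hK => ?_
  have : Group.FG K := (Group.fg_iff_subgroup_fg K).2 hK
  let χ : K →* Q := φ.comp K.subtype
  have : Group.FG χ.range := Group.fg_range χ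
  obtain ⟨r, e, he⟩ := ZAbq_emb (K := χ.range) fun g hg =>
    Subtype.ext (hQ g (χ.range.subtype.isOfFinOrder hg))
  refine ZAbq_core r K (e.comp χ.rangeRestrict) (ZAbq_res φ h K _ fun x hx => ?_)
  have h1 : χ.rangeRestrict x = 1 := he (hx.trans (map_one e).symm)
  exact congrArg Subtype.val h1

end Pool.Agent.MP_f7db47_al.TW

end

section

namespace Pool.Agent.MP_f7db47_al.TW

open Function

variable {R : Type v} [Ring R]

/-- Reduction to the extensions by `ℤ` of subgroups of the isolator of the commutator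
subgroup. -/
theorem qq_iso {G : Type} [Group G] [MulSemiringAction G R] (H : Subgroup G)
    (h : ∀ (L : Subgroup H) (ψ : L →* Multiplicative ℤ),
      (∀ x : L, ψ x = 1 → ∃ k : ℕ, 0 < k ∧ ((x : H) : G) ^ k ∈ ⁅H, H⁆) → QQ R L) : QQ R H := by
  refine qq_abq' (Q := Abelianization H ⧸ CommGroup.torsion (Abelianization H))
    (fun q hq => by_contra fun e => isMulTorsionFree_iff_not_isOfFinOrder.1 inferInstance e hq)
    ((QuotientGroup.mk' _).comp Abelianization.of) fun L ψ hψ => h L ψ fun x hx => ?_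
  have h1 : IsOfFinOrder (Abelianization.of (x : H)) := (QuotientGroup.eq_one_iff _).1 (hψ x hx)
  obtain ⟨k, hk, h2⟩ := isOfFinOrder_iff_pow_eq_one.1 h1
  refine ⟨k, hk, ?_⟩
  rw [← H.map_subtype_commutator]
  refine ⟨(x : H) ^ k, ?_, rfl⟩
  rw [← Abelianization.ker_of]
  exact (map_pow _ _ _).trans h2

end Pool.Agent.MP_f7db47_al.TW

end
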