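import Pool.Agent.MP_f7db47_al.TW.FTr
import Pool.Agent.MP_f7db47_al.TW.AMain
import Pool.Agent.MP_f7db47_al.TW.ZFH
import Pool.Agent.MP_f7db47_al.GF.BFin

/-!
Twisted coefficients: part FMain.
-/

set_option linter.unusedSectionVars false

universe u u' v w

section

namespace Pool.Agent.MP_f7db47_al.TW

open GF

open Matrix

/-- The statement of the theorem on flow spaces. -/
def FlowStmt (R : Type v) [Ring R] : Prop :=
  ∀ (Γ G : Type) [Group Γ] [Group G] [MulSemiringAction G R] (Fam : Set (Subgroup Γ)), HasPack Γ Fam → ∀ f : G →* Γ,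
    (∀ (B : Subgroup Γ) (φ : B →* GN.MZ), (∀ g, φ g = 1 → IsOfFinOrder g) → QQ R (B.comap f)) →
    (∀ B ∈ Fam, QQ R (B.comap f)) → QQ R G

end Pool.Agent.MP_f7db47_al.TW

end

section

namespace Pool.Agent.MP_f7db47_al.TW

open GF

open GN Matrix

variable {R : Type v} [Ring R]

section

variable {ι : Type} [Finite ι] {h h' : ι → ℕ} {q t k : ℕ}

end

theorem vanish2 [NR R] (h1 : QQ R PUnit.{1}) (N k : ℕ) : ∃ r : ℕ, ∀ (G : Type) [Group G] [MulSemiringAction G R]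
    (Λ J ι : Type) [Fintype J] [DecidableEq J] [Finite ι] (S : ι → Spi G Λ) (l : J → Λ),
    (∀ j, {i | 0 < (S i).ht (l j)}.ncard ≤ N) →
    (∀ i j, 0 < (S i).ht (l j) → QQ R ((S i).leg.grp (l j))) → (∀ j, ∃ i, r ≤ (S i).ht (l j)) →
    ∀ a b : Matrix J J (SkewMonoidAlgebra R G), a * b = 1 → b * a = 1 →
    Ctl (fun x g y => ∀ i, (S i).rel k x g y) l l a →
    Ctl (fun x g y => ∀ i, (S i).rel k x g y) l l b → T a := by
  obtain ⟨r, hr⟩ := vanish h1 N (4 * k)
  refine ⟨N * r + 1, fun G _ _ Λ J ι _ _ _ S l hN hQ hc a b hab hba ha hb => ?_⟩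
  refine hr G J (Fin N) (fun q => FVan_S S l q) (by simp) (fun q j hj => ?_) (fun j => ?_) a b
    hab hba (fun x y => (ha x y).mono fun g hg q => FVan_rel hg q)
    fun x y => (hb x y).mono fun g hg q => FVan_rel hg q
  · have a1 : ¬ FVan_u (fun i => (S i).ht (l j)) q ≤ FVan_u (fun i => (S i).ht (l j)) (q + 1) :=
      not_le.2 (Nat.sub_pos_iff_lt.1 hj)
    rw [FVan_le, not_le] at a1
    obtain ⟨i, hi⟩ := Set.nonempty_of_ncard_ne_zero (Nat.zero_lt_of_lt a1).ne'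
    exact AMain_le (fun g hg => hg.2 i hi) (hQ i j (Nat.zero_lt_of_lt hi))
  · obtain ⟨i, hi⟩ := hc j
    exact FVan_cover (hN j) hi

end Pool.Agent.MP_f7db47_al.TW

end

section

namespace Pool.Agent.MP_f7db47_al.TW

open GF

open GN

variable {R : Type v} [Ring R]

theorem flow_thm [NR R] (h1 : QQ R PUnit.{1}) {Γ G : Type} [Group Γ] [Group G] [MulSemiringAction G R]
    {Fam : Set (Subgroup Γ)} (hP : HasPack Γ Fam) (f : G →* Γ)
    (hc : ∀ (B : Subgroup Γ) (φ : B →* MZ), (∀ g, φ g = 1 → IsOfFinOrder g) →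
      QQ R (B.comap f))
    (hF : ∀ B ∈ Fam, QQ R (B.comap f)) : QQ R G := by
  classical
  obtain ⟨S, hS, ⟨Pk⟩⟩ := hP
  intro P _ hPz Δ _ _ j _ hj J _ _ a b hab hba
  let f' : Δ →* Γ := f.comp ((MonoidHom.fst G P).comp j)
  let ρ' : Δ →* Equiv.Perm S.X := Pk.ρ.comp f'
  have hρ : S.Isom ρ' := ⟨fun γ x y => Pk.iso (f' γ) x y, fun γ c hc => Pk.line (f' γ) c hc⟩
  obtain ⟨sA, hsA, -⟩ := exists_finset_msup a
  obtain ⟨sB, hsB, -⟩ := exists_finset_msup b
  let S₀ : Finset Δ := insert 1 (sA ∪ sB)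
  have ha : MSup (S₀ : Set Δ) a := hsA.mono fun x hx => by
    simp only [S₀, Finset.coe_insert, Finset.coe_union, Set.mem_insert_iff, Set.mem_union]
    exact Or.inr (Or.inl hx)
  have hb : MSup (S₀ : Set Δ) b := hsB.mono fun x hx => by
    simp only [S₀, Finset.coe_insert, Finset.coe_union, Set.mem_insert_iff, Set.mem_union]
    exact Or.inr (Or.inr hx)
  obtain ⟨C, hC0, hC1, hC2⟩ := FMain_bound S₀ fun g => dist (ρ' g S.o) S.o
  obtain ⟨Y, _, _, F, ev, hE⟩ := exists_flow hS Pk.toAct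
  obtain ⟨N, hN⟩ := Pack.spiders hS.geo Pk hE
  obtain ⟨n, hn⟩ := hS.fine
  obtain ⟨c, hc3⟩ := transfer3 (R := R) n
  obtain ⟨r, hr⟩ := vanish2 h1 N c
  obtain ⟨ε, hε, ι, _, Tt, hT1, hT2, hT3, hT4⟩ := hN (8 * C) r (by positivity)
  obtain ⟨r0, L, hr0, hCr, hct1, hct2⟩ :=
    hS.geo.control hρ S₀ hC0 hE.pos (half_pos hε) hC1 hC2
  have hr0' : (0 : ℝ) < r0 := by exact_mod_cast hr0
  obtain ⟨Fi, _, e, he1, he2, he3⟩ := hn r0 hr0
  have hk0 : ∀ x ∈ Metric.closedBall S.o (r0 : ℝ), ∃ y : Y, ev y = hS.geo.ctl r0 L x :=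
    fun x hx => hE.surj _ (hS.geo.ctl_mem hr0' L hx).1 (hS.geo.ctl_mem hr0' L hx).2
  have ho : S.o ∈ Metric.closedBall S.o (r0 : ℝ) := Metric.mem_closedBall_self hr0'.le
  have : Nonempty Y := ⟨(hk0 _ ho).choose⟩
  choose! k hk using hk0
  have hA := hS.geo.hact hρ S₀ hC0 hr0' hCr hC1 hC2
  let T' : ι → Spi Δ S.X := fun i => (Tt i).pull f' k
  have h2e : 2 * (ε / 2) = ε := by ring
  rw [h2e] at hct1 hct2
  obtain ⟨J', _, _, l, A, B, -, hAB, hBA, hcA, hcB, hT⟩ :=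
    hc3 Δ S.X Fi J (Metric.closedBall S.o (r0 : ℝ)) e S₀ _ _ (FMain_FR T') (ε / 2)
      (hS.cpt _ _) ⟨_, ho⟩ he1 he2 he3 (Finset.mem_insert_self _ _) hA (half_pos hε)
      (fun x hx y hy hxy i => hT2 i (k x) (f' 1) (k y) ⟨0, by rw [abs_zero]; positivity, by
        rw [F.zero, map_one, one_smul, hE.dist_le, hk x hx, hk y hy]
        exact hct1 x hx y hy hxy⟩)
      (fun g hg g' hg' u hu y hy i => by
        obtain ⟨s, hs, hs'⟩ := hct2 g hg g' hg' u hu y hy
        refine hT2 i (k _) (f' (g * g')) (k y) ⟨s, hs, ?_⟩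
        rw [hE.dist_le]
        intro t
        rw [hE.flow, hE.smul, hk _ (hA.maps g hg g' hg' u hu y hy), hk y hy]
        exact hs' t)
      a b hab hba ha hb
  refine hT (hr Δ S.X J' ι T' l (fun j' => hT1 (k (l j'))) (fun i j' hij => ?_)
    (fun j' => hT4 (k (l j'))) A B hAB hBA hcA hcB)
  obtain ⟨B₀, hB₀, hB⟩ := hT3 i (k (l j')) hij
  refine Ab_le hPz j hj (B₀.comap f) ?_ _ fun x hx => hB₀ hx
  rcases hB with hB | ⟨φ, hφ⟩
  · exact hF B₀ hB
  · exact hc B₀ φ hφ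

end Pool.Agent.MP_f7db47_al.TW

end

section

namespace Pool.Agent.MP_f7db47_al.TW

open GF

open Matrix

variable {R : Type v} [Ring R]

/-- The hypothesis of the induction. -/
def BMainHyp (R : Type v) [Ring R] {G A : Type} [Group G] [MulSemiringAction G R] [Ring A] (ρ : G →* A) : Prop :=
  ∀ (H : Type) [Group H] [MulSemiringAction H R] (j : H →* G) [Cp R j], Function.Injective j → ∀ φ : H →* GN.MZ,
    (∀ g, φ g = 1 → BMainQ (ρ (j g))) → QQ R H

theorem BMain_comp {G H A : Type} [Group G] [MulSemiringAction G R] [Group H] [MulSemiringAction H R] [Ring A] {ρ : G →* A} (h : BMainHyp R ρ)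
    (j : H →* G) [Cp R j] (hj : Function.Injective j) : BMainHyp R (ρ.comp j) :=
  fun K _ _ i _ hi φ hφ => h K (j.comp i) (hj.comp hi) φ hφ

theorem BMain_red {d : ℕ}
    (ih : ∀ (V : Type) [AddCommGroup V] [Module ℚ V] [FiniteDimensional ℚ V],
      Module.finrank ℚ V ≤ d → ∀ (G : Type) [Group G] [MulSemiringAction G R] (ρ : G →* Module.End ℚ V),
        BMainHyp R ρ → QQ R G)
    {V : Type} [AddCommGroup V] [Module ℚ V] [FiniteDimensional ℚ V]
    (hV : Module.finrank ℚ V ≤ d + 1) {H : Type} [Group H] [MulSemiringAction H R] (ρ : H →* Module.End ℚ V)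
    (hρ : BMainHyp R ρ) (W : Submodule ℚ V) (hb : W ≠ ⊥) (ht : W ≠ ⊤)
    (hW : ∀ g, W ≤ W.comap (ρ g)) : QQ R H := by
  have d₁ : Module.finrank ℚ W ≤ d := by
    have := Submodule.finrank_lt ht
    omega
  have d₂ : Module.finrank ℚ (V ⧸ W) ≤ d := by
    have h1 := W.finrank_quotient_add_finrank
    have h2 : Module.finrank ℚ W ≠ 0 := fun e => hb (Submodule.finrank_eq_zero.1 e)
    omega
  let ρ₁ : H →* Module.End ℚ W := Representation.subrepresentation ρ W hW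
  let ρ₂ : H →* Module.End ℚ (V ⧸ W) := Representation.quotient ρ W hW
  refine ih W d₁ H ρ₁ fun H₁ _ _ j₁ _ i₁ φ₁ q₁ => ?_
  refine ih (V ⧸ W) d₂ H₁ (ρ₂.comp j₁) fun H₂ _ _ j₂ _ i₂ φ₂ q₂ => ?_
  refine qq_abq' BMain_tf ((φ₁.comp j₂).prod φ₂) fun H₃ ψ hψ => ?_
  refine hρ H₃ (j₁.comp (j₂.comp H₃.subtype)) (i₁.comp (i₂.comp H₃.subtype_injective)) ψ
    fun g hg => ?_
  have e := hψ g hg
  exact BMain_blk W _ (ρ₁ (j₁ (j₂ g))) (ρ₂ (j₁ (j₂ g))) (fun _ => rfl) (fun _ => rfl)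
    (q₁ _ (congrArg Prod.fst e)) (q₂ _ (congrArg Prod.snd e))

theorem BMain_ind (hF : FlowStmt R) (hP : PackStmt) (d : ℕ) :
    ∀ (V : Type) [AddCommGroup V] [Module ℚ V] [FiniteDimensional ℚ V],
      Module.finrank ℚ V ≤ d → ∀ (G : Type) [Group G] [MulSemiringAction G R] (ρ : G →* Module.End ℚ V),
        BMainHyp R ρ → QQ R G := by
  have z : ∀ (V : Type) [AddCommGroup V] [Module ℚ V] [FiniteDimensional ℚ V],
      Module.finrank ℚ V = 0 → ∀ (G : Type) [Group G] [MulSemiringAction G R] (ρ : G →* Module.End ℚ V),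
        BMainHyp R ρ → QQ R G := by
    intro V _ _ _ hV G _ _ ρ hρ
    have : Subsingleton V := Module.finrank_zero_iff.1 hV
    exact hρ G (MonoidHom.id G) Function.injective_id 1 fun g _ =>
      ⟨1, one_pos, 1, LinearMap.ext fun u => Subsingleton.elim _ _⟩
  induction d with
  | zero => intro V _ _ _ hV; exact z V (Nat.le_zero.1 hV)
  | succ d ih =>
    intro V _ _ _ hV G _ _ ρ₀ hρ₀
    rcases Nat.eq_zero_or_pos (Module.finrank ℚ V) with h0 | h0
    · exact z V h0 G ρ₀ hρ₀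
    obtain ⟨n, hn⟩ : ∃ n, Module.finrank ℚ V = n + 1 := ⟨_, (Nat.succ_pred_eq_of_pos h0).symm⟩
    refine qq_loc fun K hK => ?_
    have hρ := BMain_comp hρ₀ K.subtype K.subtype_injective
    generalize ρ₀.comp K.subtype = ρ at hρ
    let b : Module.Basis (Fin (n + 1)) ℚ V := Module.finBasisOfFinrankEq ℚ V hn
    let e := LinearMap.toMatrixAlgEquiv b
    let f₀ : K →* GL (Fin (n + 1)) ℚ :=
      ((e : Module.End ℚ V →* Matrix (Fin (n + 1)) (Fin (n + 1)) ℚ).comp ρ).toHomUnits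
    have hf₀ : ∀ g, (f₀ g).val = e (ρ g) := fun g => rfl
    obtain ⟨F, hFZ⟩ := BMain_land ((Group.fg_iff_subgroup_fg K).2 hK) f₀
    obtain ⟨Z, hZ, hpk⟩ := hP n F
    let f : K →* GLZ Z (Fin (n + 1)) × GN.MZ := (f₀.codRestrict _ (hFZ Z hZ)).prod 1
    have hf : ∀ g, (f g).1.1.val = e (ρ g) := fun g => rfl
    refine hF _ K _ hpk f (fun B φ hφ => ?_) (fun B hB => ?_)
    · let r : B.comap f →* B := (f.comp (B.comap f).subtype).codRestrict B fun g => g.2
      refine hρ _ (B.comap f).subtype (B.comap f).subtype_injective (φ.comp r) fun g hg => ?_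
      obtain ⟨k, hk, ek⟩ := isOfFinOrder_iff_pow_eq_one.1 (hφ _ hg)
      have e1 : f (g.1 ^ k) = 1 := by
        rw [map_pow]
        exact congrArg Subtype.val ek
      have e2 : e (ρ (g.1 ^ k)) = e 1 := by
        rw [← hf, e1, map_one]
        rfl
      refine ⟨k, hk, ?_⟩
      have e3 := e.injective e2
      rw [map_pow] at e3
      change IsNilpotent (ρ g.1 ^ k - 1)
      rw [e3, sub_self]
      exact IsNilpotent.zero
    · obtain ⟨W₀, hb, ht, hW⟩ := hB
      refine BMain_red ih hV (ρ.comp (B.comap f).subtype)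
        (BMain_comp hρ _ (B.comap f).subtype_injective)
        (W₀.comap (b.equivFun : V →ₗ[ℚ] (Fin (n + 1) → ℚ))) ?_ ?_ ?_
      · intro h
        apply hb
        rw [eq_bot_iff] at h ⊢
        intro u hu
        have : b.equivFun.symm u ∈ W₀.comap (b.equivFun : V →ₗ[ℚ] (Fin (n + 1) → ℚ)) := by
          change b.equivFun (b.equivFun.symm u) ∈ W₀
          rwa [LinearEquiv.apply_symm_apply]
        have h2 := h this
        rw [Submodule.mem_bot] at h2 ⊢
        exact b.equivFun.symm.map_eq_zero_iff.1 h2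
      · intro h
        apply ht
        rw [eq_top_iff] at h ⊢
        intro u _
        have h2 : b.equivFun (b.equivFun.symm u) ∈ W₀ :=
          h (Submodule.mem_top (x := b.equivFun.symm u))
        rwa [LinearEquiv.apply_symm_apply] at h2
      · intro g u hu
        have h1 := hW (f g.1) g.2 _ hu
        rw [hf] at h1
        have h2 : e (ρ g.1) *ᵥ b.repr u = b.repr (ρ g.1 u) :=
          LinearMap.toMatrix_mulVec_repr b b _ u
        change b.equivFun (ρ g.1 u) ∈ W₀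
        rw [Module.Basis.equivFun_apply, ← h2]
        exact h1

theorem qq_glQ_of (hF : FlowStmt R) (hP : PackStmt) {G : Type} [Group G] [MulSemiringAction G R] {n : ℕ}
    (f : G →* GL (Fin n) ℚ)
    (h : ∀ (H : Subgroup G) (φ : H →* GN.MZ), (∀ g : H, φ g = 1 → QU (f g).val) → QQ R H) :
    QQ R G := by
  let e : Matrix (Fin n) (Fin n) ℚ ≃ₐ[ℚ] Module.End ℚ (Fin n → ℚ) := Matrix.toLinAlgEquiv'
  let ρ : G →* Module.End ℚ (Fin n → ℚ) :=
    (e : Matrix (Fin n) (Fin n) ℚ →* Module.End ℚ (Fin n → ℚ)).comp ((Units.coeHom _).comp f)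
  refine BMain_ind hF hP _ (Fin n → ℚ) le_rfl G ρ fun H _ _ j hc hj φ hφ => ?_
  let t := MonoidHom.ofInjective hj
  refine QQ.sub' (h j.range (φ.comp t.symm.toMonoidHom) fun g hg => ?_) t.toMonoidHom hc.eq
    t.injective
  obtain ⟨m, hm, hn⟩ := hφ _ hg
  refine ⟨m, hm, ?_⟩
  have e1 : j (t.symm g) = g.1 := MonoidHom.apply_ofInjective_symm hj g
  have e2 : ρ (j (t.symm.toMonoidHom g)) ^ m - 1 = e ((f g).val ^ m - 1) := by
    rw [map_sub, map_pow, map_one]
    change e (f (j (t.symm g))).val ^ m - 1 = _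
    rw [e1]
  rw [e2] at hn
  exact (IsNilpotent.map_iff e.injective).1 hn

end Pool.Agent.MP_f7db47_al.TW

end
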