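import Pool.Agent.MP_f7db47_al.TW.CMain
import Pool.Agent.MP_f7db47_al.GF.FTr3

/-!
Twisted coefficients: part FTr.
-/

set_option linter.unusedSectionVars false

universe u u' v w

section

namespace Pool.Agent.MP_f7db47_al.TW

open GF

open GN Matrix

variable {R : Type v} [Ring R]

section Tr

variable {G J V : Type} [Group G] [MulSemiringAction G R] [Fintype J] [DecidableEq J] [LinearOrder V]
  {r : J → G → J → Prop} {K : J → Finset V} {Adj : J → V → V → Prop}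
  {φ : J → G → J → Finset V → (Finset V →₀ ℤ)}
  {H : J → G → J → G → J → Finset V → (Finset V →₀ ℤ)} {a b : Matrix J J (SkewMonoidAlgebra R G)}

lemma FTr2_chain (h0 : ∀ i g j, φ i g j ∅ = Finsupp.single ∅ 1)
    (hφ : ∀ i g j σ, r i g j → Clq (Adj j) (K j) σ → σ.Nonempty →
      Ch (Adj i) (K i) σ.card (φ i g j σ) ∧ bd (φ i g j σ) = lin (φ i g j) (bd1 σ))
    (ha : CMainR r a) :
    CMainB (SkewMonoidAlgebra R G) (Subtype.val : CMainP K Adj → _) (Subtype.val : CMainP K Adj → _)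
      (fun _ => bd1) * CMainT (Subtype.val : CMainP K Adj → _) (Subtype.val : CMainP K Adj → _) a φ =
    CMainT (Subtype.val : CMainP K Adj → _) (Subtype.val : CMainP K Adj → _) a φ *
      CMainB (SkewMonoidAlgebra R G) (Subtype.val : CMainP K Adj → _) (Subtype.val : CMainP K Adj → _)
        (fun _ => bd1) := by
  rw [CMainB_mul_T (CMain_sum_P _), CMainT_mul_B (CMain_sum_P _)]
  refine CMainT_congr ?_
  rintro _ g _ hg x y rfl rfl
  have hr := ha _ _ g hg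
  obtain ⟨h1, h2⟩ := hφ _ g _ _ hr (CMain_P y).1 (CMain_P y).2
  rw [CMain_C_bd _ _ fun σ hσ => (h1 σ hσ).1, CMain_C_bd' _ (CMain_P y).1, h2, h0]
  simp [(CMain_P x).2.ne_empty.symm]

lemma FTr2_aug (h0 : ∀ i g j, φ i g j ∅ = Finsupp.single ∅ 1)
    (hφ : ∀ i g j σ, r i g j → Clq (Adj j) (K j) σ → σ.Nonempty →
      Ch (Adj i) (K i) σ.card (φ i g j σ) ∧ bd (φ i g j σ) = lin (φ i g j) (bd1 σ))
    (ha : CMainR r a) :
    CMainB (SkewMonoidAlgebra R G) (fun j => (j, (∅ : Finset V))) (Subtype.val : CMainP K Adj → _)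
      (fun _ => bd1) * CMainT (Subtype.val : CMainP K Adj → _) (Subtype.val : CMainP K Adj → _) a φ =
    a * CMainB (SkewMonoidAlgebra R G) (fun j => (j, (∅ : Finset V))) (Subtype.val : CMainP K Adj → _)
        (fun _ => bd1) := by
  conv_rhs => rw [← CMainT_base (a := a) φ fun i g j => by simp [h0]]
  rw [CMainB_mul_T (CMain_sum_P _), CMainT_mul_B (CMain_sum_J _)]
  refine CMainT_congr ?_
  rintro _ g _ hg x y rfl rfl
  have hr := ha _ _ g hg
  obtain ⟨h1, h2⟩ := hφ _ g _ _ hr (CMain_P y).1 (CMain_P y).2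
  rw [CMain_C_bd _ _ fun σ hσ => (h1 σ hσ).1, h2,
    ← sub_add_cancel (lin _ _) (bd1 y.1.2 ∅ • φ x g y.1.1 ∅), ← CMain_C_bd' _ (CMain_P y).1]
  simp only [CMainC, Finset.sum_singleton, Finsupp.add_apply, Finsupp.finsetSum_apply,
    add_eq_right]
  refine Finset.sum_eq_zero fun σ hσ => ?_
  obtain ⟨h3, h4⟩ := CMain_mem_S.1 hσ
  rw [Finsupp.smul_apply, CMain_ch_empty (hφ _ g _ σ hr h3 h4).1 h4.card_pos, smul_zero]

lemma FTr2_htpy (h1 : ∀ j σ, φ j 1 j σ = Finsupp.single σ 1)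
    (hφ : ∀ i g j σ, r i g j → Clq (Adj j) (K j) σ → σ.Nonempty →
      Ch (Adj i) (K i) σ.card (φ i g j σ) ∧ bd (φ i g j σ) = lin (φ i g j) (bd1 σ))
    (H0 : ∀ i g j g' k, H i g j g' k ∅ = 0)
    (hH : ∀ i g j g' k σ, r i g j → r j g' k → Clq (Adj k) (K k) σ → σ.Nonempty →
      Ch (Adj i) (K i) (σ.card + 1) (H i g j g' k σ) ∧
      bd (H i g j g' k σ) + lin (H i g j g' k) (bd1 σ) =
        lin (φ i g j) (φ j g' k σ) - φ i (g * g') k σ)
    (ha : CMainR r a) (hb : CMainR r b) (hab : a * b = 1) :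
    CMainT (Subtype.val : CMainP K Adj → _) (Subtype.val : CMainP K Adj → _) a φ *
      CMainT (Subtype.val : CMainP K Adj → _) (Subtype.val : CMainP K Adj → _) b φ =
    1 + CMainB (SkewMonoidAlgebra R G) (Subtype.val : CMainP K Adj → _)
      (Subtype.val : CMainP K Adj → _) (fun _ => bd1) *
      CMainW (Subtype.val : CMainP K Adj → _) (Subtype.val : CMainP K Adj → _) a b H +
      CMainW (Subtype.val : CMainP K Adj → _) (Subtype.val : CMainP K Adj → _) a b H *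
      CMainB (SkewMonoidAlgebra R G) (Subtype.val : CMainP K Adj → _) (Subtype.val : CMainP K Adj → _)
        (fun _ => bd1) := by
  have e1 : (1 : Matrix (CMainP K Adj) (CMainP K Adj) (SkewMonoidAlgebra R G)) =
      CMainT Subtype.val Subtype.val (a * b) φ := by
    rw [hab, CMainT_one, ← CMainB_one Subtype.val_injective]
    exact CMainB_congr fun j x y _ _ => by rw [h1]
  rw [e1, CMainT_mul, CMainT_mul_T (CMain_sum_P _), CMainB_mul_W (CMain_sum_P _),
    CMainW_mul_B (CMain_sum_P _), CMainW_add, CMainW_add]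
  refine CMainW_congr ?_
  rintro _ g j g' _ hg hg' x y rfl rfl
  have hr := ha _ _ g hg
  have hr' := hb _ _ g' hg'
  obtain ⟨h2, h3⟩ := hH _ g j g' _ _ hr hr' (CMain_P y).1 (CMain_P y).2
  have h4 := (hφ _ g' _ _ hr' (CMain_P y).1 (CMain_P y).2).1
  simp only [Pi.add_apply]
  rw [CMain_C _ _ _ fun σ hσ => (h4 σ hσ).1, CMain_C_bd _ _ fun σ hσ => (h2 σ hσ).1,
    CMain_C_bd' _ (CMain_P y).1, H0, CMain_ch_empty h4 (CMain_P y).2.card_pos, add_assoc,
    smul_zero, zero_smul, sub_zero, sub_zero, h3, add_sub_cancel]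

end Tr

theorem transfer2 (n : ℕ) : ∃ c : ℕ, 0 < c ∧ ∀ (G : Type) [Group G] [MulSemiringAction G R] (J V Λ : Type) [Fintype J]
    [DecidableEq J] [LinearOrder V] (S₀ : Finset G) (K : Finset V) (Adj : V → V → Prop)
    (C : G → Finset V → Finset V) (φ : G → Finset V → (Finset V →₀ ℤ))
    (H : G → G → Finset V → (Finset V →₀ ℤ)) (F : GN.FR G Λ) (pt : V → Λ) (κ : ℕ), 1 ∈ S₀ →
    ChD S₀ K Adj C n φ H → (∀ x ∈ K, ∀ y ∈ K, Adj x y → F.rel κ (pt x) 1 (pt y)) →
    (∀ g σ, Clq Adj K σ → ∀ x ∈ C g σ, ∀ y ∈ σ, F.rel κ (pt x) g (pt y)) →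
    ∀ a b : Matrix J J (SkewMonoidAlgebra R G), a * b = 1 → b * a = 1 → MSup (S₀ : Set G) a →
    MSup (S₀ : Set G) b →
    ∃ (J' : Type) (_ : Fintype J') (_ : DecidableEq J') (l : J' → Λ)
      (A B : Matrix J' J' (SkewMonoidAlgebra R G)), (∀ j, ∃ x ∈ K, l j = pt x) ∧ A * B = 1 ∧
      B * A = 1 ∧ Ctl (F.rel (c * κ)) l l A ∧ Ctl (F.rel (c * κ)) l l B ∧ (T A → T a) := by
  obtain ⟨c, hc, ht⟩ := torsion (R := R) n
  refine ⟨c, hc, fun G _ _ J V Λ _ _ _ S₀ K Adj C φ H F pt κ hS hD hA hC a b hab hba ha hb => ?_⟩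
  let r : J → G → J → Prop := fun _ g _ => g ∈ S₀
  let K' : J → Finset V := fun _ => K
  let Adj' : J → V → V → Prop := fun _ => Adj
  let φ' : J → G → J → Finset V → (Finset V →₀ ℤ) := fun _ g _ => φ g
  let H' : J → G → J → G → J → Finset V → (Finset V →₀ ℤ) := fun _ g _ g' _ => H g g'
  replace ha : CMainR r a := fun i j g hg => ha i j g hg
  replace hb : CMainR r b := fun i j g hg => hb i j g hg
  obtain ⟨o, s, ho, hs⟩ := FTr2_contr hD.acyc
  have hφC : ∀ g ∈ S₀, ∀ σ, Clq Adj K σ → σ.Nonempty →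
      Ch Adj (C g σ) σ.card (φ g σ) ∧ bd (φ g σ) = lin (φ g) (bd1 σ) := fun g hg σ hσ hne => by
    simpa only [mul_one] using hD.chain g hg 1 hS σ hσ hne
  have h1 : ∀ j σ, φ' j 1 j σ = Finsupp.single σ 1 := fun _ σ => hD.one σ
  have h0 : ∀ i g j, φ' i g j ∅ = Finsupp.single ∅ 1 := fun _ g _ => hD.emp g
  have hφ : ∀ i g j σ, r i g j → Clq (Adj' j) (K' j) σ → σ.Nonempty →
      Ch (Adj' i) (K' i) σ.card (φ' i g j σ) ∧ bd (φ' i g j σ) = lin (φ' i g j) (bd1 σ) :=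
    fun _ g _ σ hg hσ hne =>
      ⟨CExt_ch_mono (hφC g hg σ hσ hne).1 (hD.sub g σ), (hφC g hg σ hσ hne).2⟩
  have H0 : ∀ i g j g' k, H' i g j g' k ∅ = 0 := fun _ g _ g' _ => hD.H0 g g'
  have hH : ∀ i g j g' k σ, r i g j → r j g' k → Clq (Adj' k) (K' k) σ → σ.Nonempty →
      Ch (Adj' i) (K' i) (σ.card + 1) (H' i g j g' k σ) ∧
      bd (H' i g j g' k σ) + lin (H' i g j g' k) (bd1 σ) =
        lin (φ' i g j) (φ' j g' k σ) - φ' i (g * g') k σ :=
    fun _ g _ g' _ σ hg hg' hσ hne =>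
      ⟨CExt_ch_mono (hD.htpy g hg g' hg' σ hσ hne).1 (hD.sub _ σ),
        (hD.htpy g hg g' hg' σ hσ hne).2⟩
  let l : CMainP K' Adj' → Λ := fun x => pt (CMainL x).1.2
  have dT : ∀ a : Matrix J J (SkewMonoidAlgebra R G), CMainR r a →
      Dg (fun x : CMainP K' Adj' => x.1.2.card - 1) 0 (CMainT Subtype.val Subtype.val a φ') :=
    fun a ha => CMain_dg (CMainZ_T (by
      rintro _ g _ hg x y rfl rfl h
      rw [((hφ x.1.1 g y.1.1 _ (ha _ _ g hg) (CMain_P y).1 (CMain_P y).2).1 _ h).2, add_zero]))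
  have dW : ∀ a b : Matrix J J (SkewMonoidAlgebra R G), CMainR r a → CMainR r b →
      Dg (fun x : CMainP K' Adj' => x.1.2.card - 1) 1 (CMainW Subtype.val Subtype.val a b H') :=
    fun a b ha hb => CMain_dg (CMainZ_W (by
      rintro _ g j g' _ hg hg' x y rfl rfl h
      rw [((hH x.1.1 g j g' y.1.1 _ (ha _ _ g hg) (hb _ _ g' hg') (CMain_P y).1
        (CMain_P y).2).1 _ h).2]
      rfl))
  have cT : ∀ a : Matrix J J (SkewMonoidAlgebra R G), CMainR r a →
      Ctl (F.rel κ) l l (CMainT Subtype.val Subtype.val a φ') :=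
    fun a ha => CMain_msup_T (by
      rintro _ g _ hg x y rfl rfl h
      have hr := ha _ _ g hg
      exact hC g y.1.2 (CMain_P y).1 _
        (((hφC g hr _ (CMain_P y).1 (CMain_P y).2).1 _ h).1.1 (CMainL_mem x)) _ (CMainL_mem y))
  have cW : ∀ a b : Matrix J J (SkewMonoidAlgebra R G), CMainR r a → CMainR r b →
      Ctl (F.rel κ) l l (CMainW Subtype.val Subtype.val a b H') :=
    fun a b ha hb => CMain_msup_W (by
      rintro _ g j g' _ hg hg' x y rfl rfl h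
      have hr := ha _ _ g hg
      have hr' := hb _ _ g' hg'
      exact hC (g * g') y.1.2 (CMain_P y).1 _
        (((hD.htpy g hr g' hr' _ (CMain_P y).1 (CMain_P y).2).1 _ h).1.1 (CMainL_mem x)) _
        (CMainL_mem y))
  have dd : ∀ (X : Type) (p : X → J × Finset V),
      CMainB (SkewMonoidAlgebra R G) p (Subtype.val : CMainP K' Adj' → _) (fun _ => bd1) *
        CMainB (SkewMonoidAlgebra R G) (Subtype.val : CMainP K' Adj' → _)
          (Subtype.val : CMainP K' Adj' → _) (fun _ => bd1) = 0 := fun X p => by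
    rw [CMainB_mul_B (CMain_sum_P _), ← CMainB_zero (p := p) (q := Subtype.val)]
    refine CMainB_congr ?_
    rintro _ x y - rfl
    rw [CMain_C_bd' _ (CMain_P y).1, CMain_bd1_empty, smul_zero, sub_zero, ← CMain_bd_single]
    exact congrArg (fun c : Finset V →₀ ℤ => c (p x).2) (bd_bd _)
  obtain ⟨A, B, h⟩ := ht G _ (CMainP K' Adj') J F κ l (fun x => x.1.2.card - 1)
    (CMainB _ Subtype.val Subtype.val fun _ => bd1) (CMainT Subtype.val Subtype.val a φ')
    (CMainT Subtype.val Subtype.val b φ') (CMainW Subtype.val Subtype.val b a H')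
    (CMainW Subtype.val Subtype.val a b H') (CMainB _ Subtype.val Subtype.val fun _ => s) a b
    (CMainB _ Subtype.val (fun j => (j, ∅)) fun _ => s)
    (CMainB _ (fun j => (j, ∅)) Subtype.val fun _ => bd1)
    (fun x => (Nat.sub_le _ _).trans (hD.dim _ (CMain_P x).1))
    (CMain_dg (CMainZ_B fun j x y _ _ h => by have := (CMain_bd1 h).2; omega))
    (dT a ha) (dT b hb) (dW b a hb ha) (dW a b ha hb)
    (CMain_dg (CMainZ_B (by
      rintro _ x y - rfl h
      rw [((hs _ (CMain_P y).1 (CMain_P y).2).1 _ h).2]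
      rfl)))
    (CMainZ_B (Q := fun (x : CMainP K' Adj') (_ : J) => x.1.2.card - 1 = 0) (by
      rintro _ x y - rfl h
      rw [ho.2] at h
      rw [(Finsupp.single_apply_ne_zero.1 h).1, Finset.card_singleton]))
    (CMainZ_B (Q := fun (_ : J) (x : CMainP K' Adj') => x.1.2.card - 1 = 0) fun j x y _ _ h => by
      rw [← (CMain_bd1 h).2, Finset.card_empty])
    (CMain_msup_B (by
      rintro _ x y e rfl h
      have hx := (CMain_bd1 h).1 (CMainL_mem x)
      change F.rel κ (pt (CMainL x).1.2) 1 (pt (CMainL y).1.2)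
      by_cases e' : (CMainL x).1.2 = (CMainL y).1.2
      · rw [e']
        exact F.mono (Nat.zero_le _) (F.refl _)
      · exact hA _ (CMainL x).2 _ (CMainL y).2 ((CMain_P y).1.2 _ hx _ (CMainL_mem y) e')))
    (cT a ha) (cT b hb) (cW b a hb ha) (cW a b ha hb) (dd _ _) (FTr2_chain h0 hφ ha)
    (FTr2_chain h0 hφ hb) (FTr2_htpy h1 hφ H0 hH hb ha hba)
    (FTr2_htpy h1 hφ H0 hH ha hb hab) hab hba
    (by
      rw [CMainB_mul_B (CMain_sum_P _), ← CMainB_one (p := fun j : J => (j, (∅ : Finset V)))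
        fun _ _ e => congrArg Prod.fst e]
      refine CMainB_congr ?_
      rintro _ x y - rfl
      have hcl : ∀ σ, s ∅ σ ≠ 0 → Clq (Adj' y) (K' y) σ := fun σ hσ => by
        rw [ho.2] at hσ
        rw [(Finsupp.single_apply_ne_zero.1 hσ).1]
        exact ⟨Finset.singleton_subset_iff.2 ho.1, by simp⟩
      rw [CMain_C_bd _ _ hcl, ho.2, CMain_bd_single]
      simp [bd1, Finset.filter_singleton])
    (dd _ _)
    (by
      rw [eq_sub_iff_add_eq, CMainB_mul_B (CMain_sum_P _), CMainB_mul_B (CMain_sum_P _),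
        CMainB_mul_B (CMain_sum_J _), CMainB_add, CMainB_add, ← CMainB_one Subtype.val_injective]
      refine CMainB_congr ?_
      rintro _ x y - rfl
      obtain ⟨h2, h3⟩ := hs _ (CMain_P y).1 (CMain_P y).2
      simp only [Pi.add_apply]
      rw [CMain_C_bd _ _ fun σ hσ => (h2 σ hσ).1, CMain_C_bd' _ (CMain_P y).1, ← h3, CMainC,
        Finset.sum_singleton, add_assoc, sub_add_cancel])
    (FTr2_aug h0 hφ ha) (CMainB_base _) (CMainB_base _) (CMainB_base _) (CMainB_base _)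
  exact ⟨_, inferInstance, inferInstance, l, A, B, fun x => ⟨_, (CMainL x).2, rfl⟩, h⟩

end Pool.Agent.MP_f7db47_al.TW

end

section

namespace Pool.Agent.MP_f7db47_al.TW

open GF

open GN Matrix

variable {R : Type v} [Ring R]

theorem transfer3 (n : ℕ) : ∃ c : ℕ, ∀ (G : Type) [Group G] [MulSemiringAction G R] (X F J : Type) [MetricSpace X]
    [Fintype F] [Fintype J] [DecidableEq J] (D : Set X) (e : X → F → ℝ) (S₀ : Finset G)
    (φ : G → X → X) (H : G → G → ℝ → X → X) (Fr : GN.FR G X) (η : ℝ), IsCompact D →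
    D.Nonempty → ContinuousOn e D → Set.InjOn e D → TropC (e '' D) n → 1 ∈ S₀ →
    HAct S₀ D φ H → 0 < η → (∀ x ∈ D, ∀ y ∈ D, dist x y ≤ η → Fr.rel 1 x 1 y) →
    (∀ g ∈ S₀, ∀ g' ∈ S₀, ∀ u ∈ Set.Icc (0 : ℝ) 1, ∀ y ∈ D, Fr.rel 1 (H g g' u y) (g * g') y) →
    ∀ a b : Matrix J J (SkewMonoidAlgebra R G), a * b = 1 → b * a = 1 → MSup (S₀ : Set G) a →
    MSup (S₀ : Set G) b →
    ∃ (J' : Type) (_ : Fintype J') (_ : DecidableEq J') (l : J' → X)
      (A B : Matrix J' J' (SkewMonoidAlgebra R G)), (∀ j, l j ∈ D) ∧ A * B = 1 ∧ B * A = 1 ∧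
      Ctl (Fr.rel c) l l A ∧ Ctl (Fr.rel c) l l B ∧ (T A → T a) := by
  obtain ⟨c, -, hc⟩ := transfer2 (R := R) (n + 1)
  refine ⟨c * 2, ?_⟩
  intro G _ _ X F J _ _ _ _ D e S₀ φ H Fr η hD hne he hinj hT h1 hH hη hr1 hr2 a b hab hba ha hb
  have : Nonempty X := hne.nonempty
  obtain ⟨inv, hinv⟩ : ∃ inv : (F → ℝ) → X, ∀ x ∈ D, inv (e x) = x :=
    ⟨Function.invFunOn e D, fun x hx => hinj.leftInvOn_invFunOn hx⟩
  have hm : ∀ y ∈ e '' D, inv y ∈ D := by
    rintro _ ⟨x, hx, rfl⟩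
    rwa [hinv x hx]
  have hD' : IsCompact (e '' D) := hD.image_of_continuousOn he
  have hci : ContinuousOn inv (e '' D) := by
    refine continuousOn_iff_isClosed.2 fun t ht => ⟨e '' (t ∩ D),
      ((hD.inter_left ht).image_of_continuousOn (he.mono Set.inter_subset_right)).isClosed, ?_⟩
    ext y
    constructor
    · rintro ⟨h, x, hx, rfl⟩
      rw [Set.mem_preimage, hinv x hx] at h
      exact ⟨⟨x, ⟨h, hx⟩, rfl⟩, x, hx, rfl⟩
    · rintro ⟨⟨x, hx, rfl⟩, h⟩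
      exact ⟨by rw [Set.mem_preimage, hinv x hx.2]; exact hx.1, h⟩
  obtain ⟨δ, hδ, hu⟩ :=
    Metric.uniformContinuousOn_iff.1 (hD'.uniformContinuousOn_of_continuous hci) η hη
  have hφ : ∀ g ∈ S₀, ∀ y ∈ D, φ g y ∈ D := fun g hg y hy => by
    have h := hH.maps 1 h1 g hg 0 ⟨le_rfl, zero_le_one⟩ y hy
    rwa [hH.zero 1 h1 g hg y hy, one_mul] at h
  have hH' : HAct S₀ (e '' D) (fun g y => e (φ g (inv y))) fun g g' u y => e (H g g' u (inv y)) := by
    refine ⟨?_, fun g hg g' hg' u hu y hy => ⟨_, hH.maps g hg g' hg' u hu _ (hm y hy), rfl⟩,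
      fun g hg g' hg' => ?_, fun g hg g' hg' y hy => by rw [hH.zero g hg g' hg' _ (hm y hy)],
      fun g hg g' hg' y hy => by
        rw [hH.fin g hg g' hg' _ (hm y hy), hinv _ (hφ g' hg' _ (hm y hy))]⟩
    · rintro _ ⟨x, hx, rfl⟩
      rw [hinv x hx, hH.one x hx]
    · refine he.comp (f := fun p : ℝ × (F → ℝ) => H g g' p.1 (inv p.2)) ?_
        fun p hp => hH.maps g hg g' hg' _ hp.1 _ (hm _ hp.2)
      exact (hH.cont g hg g' hg').comp (f := fun p : ℝ × (F → ℝ) => (p.1, inv p.2))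
        (continuousOn_fst.prodMk (hci.comp continuousOn_snd fun p hp => hp.2))
        fun p hp => ⟨hp.1, hm _ hp.2⟩
  obtain ⟨V, _, K, Adj, C, φ', H', pt, hch, hpt, hadj, hC⟩ :=
    exists_chd hD' (hne.image e) hT h1 hH' (δ / 2) (half_pos hδ)
  have hn : ∀ x ∈ e '' D, ∀ y ∈ e '' D, dist x y ≤ δ / 2 → Fr.rel 1 (inv x) 1 (inv y) :=
    fun x hx y hy h => hr1 _ (hm x hx) _ (hm y hy) (hu x hx y hy (by linarith)).le
  obtain ⟨J', i1, i2, l, A, B, hl, h⟩ := hc G J V X S₀ K Adj C φ' H' Fr (fun x => inv (pt x)) 2 h1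
    hch (fun x hx y hy h => Fr.mono one_le_two (hn _ (hpt x hx) _ (hpt y hy) (hadj x hx y hy h)))
    (fun g σ hσ x hx y hy => by
      obtain ⟨g₁, h₁, g₂, h₂, u, hu', rfl, hd⟩ := hC g σ hσ x hx y hy
      have hy' := hm _ (hpt y (hσ.1 hy))
      have hz := hH.maps g₁ h₁ g₂ h₂ u hu' _ hy'
      have h := hn _ (hpt x (hch.sub _ _ hx)) _ ⟨_, hz, rfl⟩ hd
      rw [hinv _ hz] at h
      simpa only [one_mul] using Fr.comp h (hr2 g₁ h₁ g₂ h₂ u hu' _ hy')) a b hab hba ha hb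
  refine ⟨J', i1, i2, l, A, B, fun j => ?_, h⟩
  obtain ⟨x, hx, hj⟩ := hl j
  rw [hj]
  exact hm _ (hpt x hx)

end Pool.Agent.MP_f7db47_al.TW

end
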