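import Pool.Agent.MP_f7db47_al.TW.Bass
import Pool.Agent.MP_f7db47_al.TreeMain
import Pool.Agent.MP_f7db47_al.PT.Ab

/-!
Twisted coefficients: part Main.
-/

set_option linter.unusedSectionVars false

universe u u' v w

section

namespace Pool.Agent.MP_f7db47_al.TW

open Function

variable {R : Type v} [Ring R]

lemma G1_local {G : Type u} [Group G] [MulSemiringAction G R]
    (h : ∀ Φ : Finset G, ∃ K : Subgroup G, (Φ : Set G) ⊆ K ∧ G1 R K) : G1 R G := by
  rw [G1_iff]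
  intro J _ _ A hA
  obtain ⟨s, hs, -⟩ := exists_finset_msup A
  obtain ⟨K, hK, h⟩ := h s
  exact T_of_isUnit_msup K h (hs.mono hK) hA

variable (R) in
/-- All subgroups of products with poly-`ℤ` groups satisfy `G1`. -/
def QQ (Γ : Type u) [Group Γ] [MulSemiringAction Γ R] : Prop :=
  ∀ (P : Type u) [Group P], PolyZ P → ∀ (Δ : Type u) [Group Δ] [MulSemiringAction Δ R] (f : Δ →* Γ × P)
    [Cp R f], Injective f → G1 R Δ

section QQ

variable {Γ Γ' : Type u} [Group Γ] [MulSemiringAction Γ R] [Group Γ'] [MulSemiringAction Γ' R]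

lemma QQ.sub (h : QQ R Γ) (f : Γ' →* Γ) [Cp R f] (hf : Injective f) : QQ R Γ' :=
  fun P _ hP Δ _ _ g _ hg =>
  h P hP Δ ((f.prodMap (MonoidHom.id P)).comp g) ((hf.prodMap injective_id).comp hg)

lemma QQ.sub' (h : QQ R Γ) (f : Γ' →* Γ) (hc : ∀ (a : Γ') (x : R), a • x = f a • x)
    (hf : Injective f) : QQ R Γ' :=
  haveI : Cp R f := ⟨hc⟩
  h.sub f hf

lemma QQ.g1 (h : QQ R Γ) : G1 R Γ :=
  h PUnit (PolyZ.triv _ inferInstance) Γ (MonoidHom.inl _ _) fun _ _ h => congrArg Prod.fst h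

lemma QQ.g0 (h : QQ R Γ) : G0 R Γ :=
  G0_of_G1_prod (h _ polyZ_int _ ((MonoidHom.id Γ).prodMap (MonoidHom.inr _ _))
    (injective_id.prodMap fun _ _ h => congrArg Prod.snd h))

omit [MulSemiringAction Γ' R] in
lemma QQ.prod_poly (h : QQ R Γ) (hP : PolyZ Γ') : QQ R (Γ × Γ') := fun P _ hP' Δ _ _ g _ hg =>
  h (Γ' × P) (polyZ_prod hP hP') Δ
    ((MulEquiv.prodAssoc (M := Γ) (N := Γ') (P := P)).toMonoidHom.comp g)
    ((MulEquiv.prodAssoc (M := Γ) (N := Γ') (P := P)).injective.comp hg)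

end QQ

end Pool.Agent.MP_f7db47_al.TW

end

section

namespace Pool.Agent.MP_f7db47_al.TW

open Matrix Function

variable {R : Type v} [Ring R]

lemma qq_of_le' {G P Δ : Type u} [Group G] [MulSemiringAction G R] [Group P] [Group Δ] [MulSemiringAction Δ R] (hP : PolyZ P)
    (f : Δ →* G × P) [Cp R f] (hf : Injective f) (K₀ : Subgroup G) (hK₀ : QQ R K₀)
    (K : Subgroup Δ) (hK : ∀ x ∈ K, (f x).1 ∈ K₀) : QQ R K := by
  refine (hK₀.prod_poly hP).sub
    ((((MonoidHom.fst _ _).comp (f.comp K.subtype)).codRestrict K₀ fun x => hK x x.2).prod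
      ((MonoidHom.snd _ _).comp (f.comp K.subtype))) ?_
  intro x y hxy
  exact Subtype.ext (hf (Prod.ext (congrArg (fun z => (z.1 : G)) hxy)
    (congrArg (fun z => z.2) hxy)))

end Pool.Agent.MP_f7db47_al.TW

end

section
namespace Pool.Agent.MP_f7db47_al.TW

open PT

variable {R : Type v} [Ring R]

theorem Ab_le {G P Δ : Type} [Group G] [MulSemiringAction G R] [Group P] [Group Δ] [MulSemiringAction Δ R] (hP : PolyZ P)
    (f : Δ →* G × P) [Cp R f] (hf : Function.Injective f) (K₀ : Subgroup G) (hK₀ : QQ R K₀)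
    (K : Subgroup Δ) (hK : ∀ x ∈ K, (f x).1 ∈ K₀) : QQ R K := by
  refine (hK₀.prod_poly hP).sub
    ((((MonoidHom.fst _ _).comp (f.comp K.subtype)).codRestrict K₀ fun x => hK x x.2).prod
      ((MonoidHom.snd _ _).comp (f.comp K.subtype))) ?_
  intro x y hxy
  exact Subtype.ext (hf (Prod.ext (congrArg (fun z => (z.1 : G)) hxy)
    (congrArg (fun z => z.2) hxy)))

theorem qq_loc {G : Type} [Group G] [MulSemiringAction G R] (h : ∀ K : Subgroup G, K.FG → QQ R K) : QQ R G := by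
  intro P _ hP Δ _ _ f _ hf
  let p : Δ →* G := (MonoidHom.fst _ _).comp f
  refine G1_local fun Φ => ⟨(Subgroup.closure (p '' Φ)).comap p,
    fun x hx => Subgroup.subset_closure ⟨x, hx, rfl⟩, ?_⟩
  exact (Ab_le hP f hf _ (h _ (fg_closure_image p Φ)) _ fun x hx => hx).g1

end Pool.Agent.MP_f7db47_al.TW

end
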