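import Pool.Agent.MP_f7db47_al.TW.OFl

/-!
Relative elementary matrices.
-/

namespace Pool.Agent.MP_f7db47_al.TW

open Matrix

universe v w

variable {F : Type v} [Ring F] {L : Type w} [Ring L]

/-- Block elementary matrices with entries in `S`. -/
def BE (S : AddSubgroup F) (K : Type) [Fintype K] [DecidableEq K] : Set (Matrix K K F) :=
  {N | ∃ (n : Matrix K K F) (U : Set K), (∀ i j, n i j ∈ S) ∧
    (∀ i j, n i j ≠ 0 → i ∈ U ∧ j ∉ U) ∧ N = 1 + n}

variable {J : Type} [Fintype J] [DecidableEq J]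

lemma be_upper {S : AddSubgroup F} {X : Matrix J Unit F} (h : ∀ i j, X i j ∈ S) :
    fromBlocks 1 X 0 1 ∈ Submonoid.closure (BE S (J ⊕ Unit)) := by
  refine Submonoid.subset_closure ⟨fromBlocks 0 X 0 0, Set.range Sum.inl, ?_, ?_, ?_⟩
  · rintro (i | i) (j | j)
    exacts [S.zero_mem, h i j, S.zero_mem, S.zero_mem]
  · rintro (i | i) (j | j) c
    exacts [(c rfl).elim, ⟨⟨i, rfl⟩, fun ⟨_, d⟩ => Sum.inl_ne_inr d⟩, (c rfl).elim, (c rfl).elim]
  · rw [← fromBlocks_one, fromBlocks_add]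
    simp only [add_zero, zero_add]

lemma be_lower {S : AddSubgroup F} {Y : Matrix Unit J F} (h : ∀ i j, Y i j ∈ S) :
    fromBlocks 1 0 Y 1 ∈ Submonoid.closure (BE S (J ⊕ Unit)) := by
  refine Submonoid.subset_closure ⟨fromBlocks 0 0 Y 0, Set.range Sum.inr, ?_, ?_, ?_⟩
  · rintro (i | i) (j | j)
    exacts [S.zero_mem, S.zero_mem, h i j, S.zero_mem]
  · rintro (i | i) (j | j) c
    exacts [(c rfl).elim, (c rfl).elim, ⟨⟨i, rfl⟩, fun ⟨_, d⟩ => Sum.inr_ne_inl d⟩, (c rfl).elim]
  · rw [← fromBlocks_one, fromBlocks_add]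
    simp only [add_zero, zero_add]

lemma elem_mul {i j : J} (hij : i ≠ j) (c d : F) : (1 + single i j c) * (1 + single i j d) =
    (1 + single i j (c + d) : Matrix J J F) := by
  simp only [mul_add, add_mul, one_mul, mul_one, single_mul_single_of_ne _ _ _ _ hij.symm,
    add_zero, single_add]
  abel

theorem rel_elem (ψ₁ ψ₂ : L →+* F) (S : AddSubgroup F)
    (hl : ∀ c, ∀ s ∈ S, ψ₁ c * s ∈ S) (hr : ∀ c, ∀ s ∈ S, s * ψ₁ c ∈ S)
    (hd : ∀ c, ψ₂ c - ψ₁ c ∈ S) (hq : ∀ s ∈ S, ∃ q ∈ S, s * q = s) {B : Matrix J J L}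
    (hB : B ∈ (elemSys L).HG J) (h1 : B.map ψ₁ = 1) :
    fromBlocks (B.map ψ₂) 0 0 (1 : Matrix Unit Unit F) ∈ Submonoid.closure (BE S (J ⊕ Unit)) := by
  let Rel : Submonoid (Matrix J J F) := Submonoid.closure {M | ∃ (X : Matrix J Unit F)
    (Y : Matrix Unit J F), (∀ i j, X i j ∈ S) ∧ (∀ i j, Y i j ∈ S) ∧ Y * X = 0 ∧ M = 1 + X * Y}
  have m1 : ∀ (ψ : L →+* F) (B B' : Matrix J J L), B * B' = 1 → B.map ψ * B'.map ψ = 1 :=
    fun ψ B B' h => by rw [← Matrix.map_mul, h, Matrix.map_one _ (map_zero ψ) (map_one ψ)]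
  have conj : ∀ B B' : Matrix J J L, B * B' = 1 → B' * B = 1 → ∀ M ∈ Rel,
      B.map ψ₁ * M * B'.map ψ₁ ∈ Rel := fun B B' c c' M hM => by
    induction hM using Submonoid.closure_induction with
    | mem x hx =>
      obtain ⟨X, Y, a1, a2, a3, rfl⟩ := hx
      refine Submonoid.subset_closure ⟨B.map ψ₁ * X, Y * B'.map ψ₁,
        fun i j => S.sum_mem fun k _ => hl _ _ (a1 k j),
        fun i j => S.sum_mem fun k _ => hr _ _ (a2 i k), ?_, ?_⟩
      · rw [Matrix.mul_assoc, ← Matrix.mul_assoc (B'.map ψ₁), m1 _ _ _ c', Matrix.one_mul, a3]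
      · rw [mul_add, add_mul, mul_one, m1 _ _ _ c]
        simp only [Matrix.mul_assoc]
    | one => rw [mul_one, m1 _ _ _ c]; exact one_mem _
    | mul x y _ _ hx hy =>
      convert mul_mem hx hy using 1
      rw [mul_assoc _ (B'.map ψ₁), ← mul_assoc (B'.map ψ₁), ← mul_assoc (B'.map ψ₁), m1 _ _ _ c',
        one_mul]
      simp only [mul_assoc]
  have key : ∀ B ∈ (elemSys L).HG J, ∃ B', B * B' = 1 ∧ B' * B = 1 ∧
      B.map ψ₂ * B'.map ψ₁ ∈ Rel := fun B hB => by
    induction hB using Submonoid.closure_induction with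
    | mem x hx =>
      obtain ⟨i, j, hij, c, rfl⟩ := hx
      have e' : ∀ (ψ : L →+* F) (c : L), (1 + single i j c : Matrix J J L).map ψ =
          1 + single i j (ψ c) := fun ψ c => by
        rw [Matrix.map_add _ (map_add ψ), Matrix.map_one _ (map_zero ψ) (map_one ψ), map_single]
      obtain ⟨q, q1, q2⟩ := hq _ (hd c)
      refine ⟨1 + single i j (-c), by rw [elem_mul hij, add_neg_cancel, single_zero, add_zero],
        by rw [elem_mul hij, neg_add_cancel, single_zero, add_zero], Submonoid.subset_closure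
          ⟨single i () (ψ₂ c - ψ₁ c), single () j q, fun a b => ?_, fun a b => ?_,
            single_mul_single_of_ne _ _ _ _ hij.symm _, ?_⟩⟩
      · rw [single_apply]
        split_ifs
        exacts [hd c, S.zero_mem]
      · rw [single_apply]
        split_ifs
        exacts [q1, S.zero_mem]
      · rw [e', e', elem_mul hij, single_mul_single_same, q2, map_neg, sub_eq_add_neg]
    | one =>
      refine ⟨1, mul_one _, mul_one _, ?_⟩
      rw [Matrix.map_one _ (map_zero _) (map_one _), Matrix.map_one _ (map_zero _) (map_one _),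
        mul_one]
      exact one_mem _
    | mul x y _ _ hx hy =>
      obtain ⟨x', a1, a2, a3⟩ := hx
      obtain ⟨y', b1, b2, b3⟩ := hy
      refine ⟨y' * x', by rw [mul_assoc, ← mul_assoc y, b1, one_mul, a1],
        by rw [mul_assoc, ← mul_assoc x', a2, one_mul, b2], ?_⟩
      convert mul_mem a3 (conj x x' a1 a2 _ b3) using 1
      rw [Matrix.map_mul, Matrix.map_mul, mul_assoc _ (x'.map ψ₁), ← mul_assoc (x'.map ψ₁),
        ← mul_assoc (x'.map ψ₁), m1 _ _ _ a2, one_mul]
      simp only [mul_assoc]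
  obtain ⟨B', c1, -, c3⟩ := key B hB
  have c4 := m1 ψ₁ _ _ c1
  rw [h1, one_mul] at c4
  rw [c4, mul_one] at c3
  generalize B.map ψ₂ = M at c3
  induction c3 using Submonoid.closure_induction with
  | mem x hx =>
    obtain ⟨X, Y, a1, a2, a3, rfl⟩ := hx
    have := mul_mem (mul_mem (mul_mem (be_upper a1) (be_lower a2))
      (be_upper (X := -X) fun i j => S.neg_mem (a1 i j)))
      (be_lower (Y := -Y) fun i j => S.neg_mem (a2 i j))
    convert this using 1
    simp [fromBlocks_multiply, Matrix.add_mul, Matrix.mul_assoc, a3]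
  | one => rw [fromBlocks_one]; exact one_mem _
  | mul x y _ _ hx hy =>
    convert mul_mem hx hy using 1
    simp [fromBlocks_multiply]

end Pool.Agent.MP_f7db47_al.TW
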