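import Pool.Agent.MP_f7db47_al.TW.ORing
import Pool.Agent.MP_f7db47_al.TW.ORel

/-!
From the twisted group ring of the double to the obstruction category.
-/

set_option linter.unusedSectionVars false

namespace Pool.Agent.MP_f7db47_al.OB

open Function

universe v

variable {R : Type v} [Ring R] {Φ : ℕ → AddSubgroup R} [Flt Φ] {G : Type} [Group G] {V : Type}
  [MulAction G V]

variable (Φ G V) in
/-- The ideal of small controlled operators. -/
def SS : AddSubgroup (FF R G V) where
  carrier := {a | CG Φ a ∧ Sm a}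
  add_mem' h h' := ⟨h.1.add h'.1, h.2.add h'.2⟩
  zero_mem' := ⟨cg_zero, sm_zero⟩
  neg_mem' h := ⟨h.1.neg, h.2.neg⟩

variable (Φ G V) in
/-- The two projections. -/
noncomputable def pj : Bool → (DD Φ G V →+* FF R G V)
  | false => (RingHom.fst _ _).comp (DD Φ G V).subtype
  | true => (RingHom.snd _ _).comp (DD Φ G V).subtype

lemma pj_smul (s : Bool) (g : G) (x : DD Φ G V) : pj Φ G V s (g • x) = cj g (pj Φ G V s x) := by
  cases s <;> rfl

lemma mm_pj (s : Bool) (x : DD Φ G V) : MM Φ (pj Φ G V s x) := by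
  cases s
  exacts [x.2.1, x.2.2.1]

variable (Φ G V) in
/-- The two evaluations. -/
noncomputable def ps (s : Bool) : SkewMonoidAlgebra (DD Φ G V) G →+* FF R G V :=
  SkewMonoidAlgebra.liftNCRingHom (pj Φ G V s) (ta R V) (by
    intro x y
    rw [pj_smul, cj_tau])

lemma ps_single (s : Bool) (g : G) (d : DD Φ G V) :
    ps Φ G V s (SkewMonoidAlgebra.single g d) = pj Φ G V s d * ta R V g :=
  SkewMonoidAlgebra.liftNC_single _ _ _ _

lemma cg_ps (s : Bool) (c : SkewMonoidAlgebra (DD Φ G V) G) : CG Φ (ps Φ G V s c) := by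
  induction c using TW.Sk.induction_linear with
  | zero => rw [map_zero]; exact cg_zero
  | add x y hx hy => rw [map_add]; exact hx.add hy
  | single g d => rw [ps_single]; exact (mm_pj s d).1.mul (cg_tau g)

lemma ss_ps (c : SkewMonoidAlgebra (DD Φ G V) G) :
    ps Φ G V true c - ps Φ G V false c ∈ SS Φ G V := by
  refine ⟨(cg_ps _ c).sub (cg_ps _ c), ?_⟩
  induction c using TW.Sk.induction_linear with
  | zero => rw [map_zero, map_zero, sub_self]; exact sm_zero
  | add x y hx hy => rw [map_add, map_add, add_sub_add_comm]; exact hx.add hy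
  | single g d => rw [ps_single, ps_single, ← sub_mul]; exact d.2.2.2.right (cg0_tau g)

/-- The homogeneous part. -/
noncomputable def pt (g : G) : FF R G V →+ FF R G V := part g

lemma pt_ps (s : Bool) (g : G) (c : SkewMonoidAlgebra (DD Φ G V) G) :
    pt g (ps Φ G V s c) = pj Φ G V s (c.coeff g) * ta R V g := by
  induction c using TW.Sk.induction_linear with
  | zero => simp
  | add x y hx hy =>
    rw [map_add, map_add, hx, hy, SkewMonoidAlgebra.coeff_add, Finsupp.add_apply, map_add, add_mul]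
  | single h d =>
    have hd := (mm_pj s d).2.mul (dg_tau h)
    rw [one_mul] at hd
    rw [ps_single, SkewMonoidAlgebra.coeff_single]
    by_cases c : h = g
    · subst c
      rw [Finsupp.single_eq_same]
      exact part_eq hd
    · rw [Finsupp.single_eq_of_ne' c, map_zero, zero_mul]
      exact part_ne hd c

lemma ps_inj {c c' : SkewMonoidAlgebra (DD Φ G V) G} (h : ∀ s, ps Φ G V s c = ps Φ G V s c') :
    c = c' := by
  have key : ∀ s g, pj Φ G V s (c.coeff g) = pj Φ G V s (c'.coeff g) := fun s g => by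
    have := congrArg (· * ta R V g⁻¹) (((pt_ps s g c).symm.trans (congrArg _ (h s))).trans
      (pt_ps s g c'))
    simpa only [mul_assoc, ← map_mul, mul_inv_cancel, map_one, mul_one] using this
  exact SkewMonoidAlgebra.ext fun g => Subtype.ext (Prod.ext (key false g) (key true g))

lemma ps_surj {a : FF R G V} (h : a ∈ SS Φ G V) :
    ∃ c, ps Φ G V false c = 0 ∧ ps Φ G V true c = a := by
  obtain ⟨⟨⟨E, a1, a2⟩, a5⟩, S, a3, a4⟩ := h
  obtain ⟨F, b1, b2⟩ := a1.gfin
  have c1 : ∀ g, MM Φ (pt g a * ta R V g⁻¹) := fun g =>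
    ⟨CG.mul ⟨⟨E, a1, (a2.part g).mono fun _ _ _ c => c.2⟩, a5.part g⟩ (cg_tau _), mul_inv_cancel g ▸
      Dg.mul (a := pt g a) ((a2.part g).mono fun _ _ _ c => c.1) (dg_tau g⁻¹)⟩
  have c2 : ∀ g, Sm (pt g a * ta R V g⁻¹ - 0) := fun g => by
    rw [sub_zero]
    exact Sm.right ⟨S, a3, (a4.part g).mono fun _ _ _ c => c.2⟩ (cg0_tau _)
  let d : G → DD Φ G V := fun g => ⟨(0, pt g a * ta R V g⁻¹), ⟨cg_zero, sp_zero _⟩, c1 g, c2 g⟩
  refine ⟨∑ g ∈ b1.toFinset, SkewMonoidAlgebra.single g (d g), ?_, ?_⟩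
  · rw [map_sum]
    exact Finset.sum_eq_zero fun g _ => (ps_single _ _ _).trans (zero_mul _)
  · rw [map_sum]
    refine Eq.trans (Finset.sum_congr rfl fun g _ => ?_)
      (sum_part (a := a.op) (F := b1.toFinset) (a2.mono fun _ _ _ c => b1.mem_toFinset.2 (b2 _ _ _ c)))
    refine (ps_single _ _ _).trans ?_
    change pt g a * ta R V g⁻¹ * ta R V g = pt g a
    rw [mul_assoc, tau_inv, mul_one]

lemma ss_unit {a : FF R G V} (h : a ∈ SS Φ G V) : ∃ q ∈ SS Φ G V, a * q = a := by
  classical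
  obtain ⟨-, S, a3, a4⟩ := h
  let q : Op (MonoidAlgebra R G) (Ix V) (Ix V) :=
    cols fun i => if i ∈ S then Finsupp.single i 1 else 0
  have hq : Sp (fun i g j => (g = 1 ∧ i = j) ∧ j ∈ S) q := fun i j => by
    rw [ent, cols_single]
    split_ifs with c
    · exact (sp_one i j).mono fun g e => ⟨e, c⟩
    · exact sup_zero _
  have hb : Bd Φ q := ⟨0, fun i j => by
    rw [ent, cols_single]
    split_ifs with c
    exacts [co_fs _ _ 1, zero_mem _]⟩
  refine ⟨.of q, ⟨⟨⟨_, good_smul 1, hq.mono fun _ _ _ c => ⟨c.1.1, by rw [one_smul, c.1.2]⟩⟩, hb⟩,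
    S, a3, hq.mono fun _ _ _ c => ⟨c.1.2 ▸ c.2, c.2⟩⟩, FF.ext' fun j => ?_⟩
  rw [op_mul, LinearMap.comp_apply, FF.of_op, cols_single]
  split_ifs with c
  · rfl
  · rw [map_zero]
    ext i g
    exact (by_contra fun d => c (a4 i j g d).2 : (ent a.op i j).coeff g = 0).symm

lemma good_fin {κ : Type} [Finite κ] {E : κ → Ix V → G → Ix V → Prop} (h : ∀ k, Good (E k)) :
    Good fun i g j => ∃ k, E k i g j := by
  classical
  have : ∀ s : Finset κ, Good fun i g j => ∃ k ∈ s, E k i g j := fun s => by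
    induction s using Finset.induction_on with
    | empty => exact (good_smul 1).mono fun _ _ _ ⟨_, c, _⟩ => absurd c (Finset.notMem_empty _)
    | insert k s _ ih =>
      exact ((h k).or ih).mono fun _ _ _ ⟨l, c, d⟩ => (Finset.mem_insert.1 c).elim
        (fun e => Or.inl (e ▸ d)) fun e => Or.inr ⟨l, e, d⟩
  have _ := Fintype.ofFinite κ
  exact (this Finset.univ).mono fun _ _ _ ⟨k, c⟩ => ⟨k, Finset.mem_univ k, c⟩

lemma small_fin {κ : Type} [Finite κ] {S : κ → Set (Ix V)} (h : ∀ k, Small (S k)) :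
    Small (⋃ k, S k) := by
  choose K a1 a2 using fun k => (h k).2
  refine ⟨fun n => (Set.finite_iUnion fun k => (h k).1 n).subset ?_, ⋃ k, K k,
    Set.finite_iUnion a1, fun i hi => ?_⟩
  · rintro i ⟨hi, c⟩
    obtain ⟨k, hk⟩ := Set.mem_iUnion.1 hi
    exact Set.mem_iUnion.2 ⟨k, hk, c⟩
  · obtain ⟨k, hk⟩ := Set.mem_iUnion.1 hi
    exact (a2 k i hk).mono (Set.subset_iUnion K k)

section Big

variable {K : Type} [Fintype K] [DecidableEq K]

/-- A matrix of operators as a big matrix. -/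
noncomputable def big (A : Matrix K K (FF R G V)) :
    Matrix (K × Ix V) (K × Ix V) (MonoidAlgebra R G) := fun y z => ent (A y.1 z.1).op y.2 z.2

lemma big_add (A B : Matrix K K (FF R G V)) : big (A + B) = big A + big B := rfl

lemma big_one_eq (y : K × Ix V) : big (1 : Matrix K K (FF R G V)) y y = 1 := by
  rw [big, Matrix.one_apply_eq]
  exact Finsupp.single_eq_same

lemma big_one_ne {y z : K × Ix V} (h : y ≠ z) : big (1 : Matrix K K (FF R G V)) y z = 0 := by
  rw [big]
  by_cases c : y.1 = z.1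
  · rw [c, Matrix.one_apply_eq]
    exact Finsupp.single_eq_of_ne fun d => h (Prod.ext c d)
  · rw [Matrix.one_apply_ne c]
    rfl

lemma big_mul (A B : Matrix K K (FF R G V)) (y z : K × Ix V) :
    big (A * B) y z = ∑ᶠ w, big A y w * big B w z := by
  rw [finsum_curry, finsum_eq_sum_of_fintype]
  · let e : FF R G V →+ MonoidAlgebra R G := AddMonoidHom.mk' (fun a => ent a.op y.2 z.2)
      fun _ _ => rfl
    refine (map_sum e _ _).trans (Finset.sum_congr rfl fun l _ => ?_)
    exact ent_comp' (A y.1 l).op (B l z.1).op y.2 z.2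
  · refine (Set.finite_iUnion fun l => (ent_fin (B l z.1).op z.2).image (Prod.mk l)).subset ?_
    rintro ⟨l, j⟩ c
    exact Set.mem_iUnion.2 ⟨l, j, fun d => c ((congrArg (_ * ·) d).trans (mul_zero _)), rfl⟩

open Classical in
lemma res_one {I : Type} {ι : I → K × Ix V} (h : Injective ι) :
    (big (1 : Matrix K K (FF R G V))).submatrix ι ι = 1 := by
  ext1 i j
  by_cases c : i = j
  · rw [c, Matrix.one_apply_eq]
    exact big_one_eq _
  · rw [Matrix.one_apply_ne c]
    exact big_one_ne (h.ne c)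

lemma elemProd_of {B : Matrix K K (FF R G V)} (hB : B ∈ Submonoid.closure (TW.BE (SS Φ G V) K)) :
    ∃ S : Set (Ix V), Small S ∧ ∀ (M : Obj V) (ι : M.I → K × Ix V), Injective ι →
      (∀ y : K × Ix V, y.2 ∈ S → y ∈ Set.range ι) → (∀ i, M.t i = (ι i).2.t) →
      (∀ i, M.x i = (ι i).2.p.1) → ElemProd Φ M ((big B).submatrix ι ι) := by
  induction hB using Submonoid.closure_induction_left with
  | one => exact ⟨∅, small_empty, fun M ι h _ _ _ => res_one (R := R) (G := G) h ▸ ElemProd.one⟩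
  | mul_left _ hx B _ ih =>
    obtain ⟨n, U, a1, a2, rfl⟩ := hx
    obtain ⟨S, b1, b2⟩ := ih
    choose E c1 c2 using fun k : K × K => (a1 k.1 k.2).1.1
    choose D c3 using fun k : K × K => (a1 k.1 k.2).1.2
    choose S' d1 d2 using fun k : K × K => (a1 k.1 k.2).2
    have hE := good_fin c1
    refine ⟨_, b1.union (small_fin d1), fun M ι h h1 h2 h3 => ?_⟩
    have e1 : ∀ y g z, (big n y z).coeff g ≠ 0 → ∃ k, E k y.2 g z.2 :=
      fun y g z c => ⟨(y.1, z.1), c2 _ _ _ g c⟩
    have e2 : ∀ y z, big n y z ≠ 0 → ∃ g, (big n y z).coeff g ≠ 0 := fun y z c => by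
      by_contra! d
      exact c (MonoidAlgebra.coeff_injective (Finsupp.ext d))
    convert ElemProd.mul ((big n).submatrix ι ι) _ {i | (ι i).1 ∈ U} ⟨?_, ?_, ?_, ?_⟩
      (fun i j c => a2 _ _ fun d => c (congrArg (fun a : FF R G V => ent a.op _ _) d))
      (b2 M ι h (fun y hy => h1 y (Or.inl hy)) h2 h3) using 1
    · ext1 i k
      rw [← res_one (R := R) (G := G) h, Matrix.submatrix_apply, big_mul, mulM]
      refine Eq.trans ?_ (finsum_mem_range
        (f := fun w => big (1 + n) (ι i) w * big B w (ι k)) h)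
      rw [finsum_mem_def, Set.indicator_eq_self.2]
      intro w hw
      by_contra c
      refine hw ((congrArg (· * _) ?_).trans (zero_mul _))
      rw [big_add, Matrix.add_apply, big_one_ne fun d => c ⟨i, d⟩, zero_add]
      by_contra d
      obtain ⟨g, hg⟩ := e2 _ _ d
      exact c (h1 w (Or.inr (Set.mem_iUnion.2 ⟨_, (d2 ((ι i).1, w.1) _ _ g hg).2⟩)))
    · exact ⟨Finset.univ.sup D, fun i j g => Flt.mono (Finset.le_sup (Finset.mem_univ _))
        (c3 ((ι i).1, (ι j).1) _ _ g)⟩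
    · exact hE.gfin.imp fun F c => ⟨c.1, fun i j g d => c.2 _ _ _ (e1 _ _ _ d)⟩
    · obtain ⟨α, hα⟩ := hE.l.band
      obtain ⟨β, hβ⟩ := hE.r.band
      refine ⟨α + β, fun i j c => ?_⟩
      obtain ⟨g, hg⟩ := e2 _ _ c
      have f1 := hα _ _ ⟨g, e1 _ _ _ hg⟩
      have f2 := hβ _ _ ⟨g, e1 _ _ _ hg⟩
      rw [h2, h2]
      omega
    · refine fun ε hε => (hE.ctl ε hε).imp fun T c i j g d e => ?_
      rw [h3, h3]
      exact c _ _ _ (e1 _ _ _ d) (h2 i ▸ e)

end Big

end Pool.Agent.MP_f7db47_al.OB
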