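import Mathlib

/-!
The obstruction category of Bartels, Lueck and Reich over the full simplex on a `G`-set.
-/

namespace Pool.Agent.MP_f7db47_al.OB

universe v

/-- The `ℓ¹` distance. -/
noncomputable def l1 {V : Type} (x y : V →₀ ℝ) : ℝ := (x - y).sum fun _ r => |r|

/-- An object: a free module with basis `I`; the basis element `i` sits at the point
`(x i, t i)` of `Δ(V) × ℕ`, where `Δ(V)` is the full simplex on `V`. There are finitely many
basis elements below each height, and all `x i` lie in a finite subcomplex. -/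
structure Obj (V : Type) : Type 1 where
  I : Type
  t : I → ℕ
  x : I → (V →₀ ℝ)
  fin : ∀ n, {i | t i ≤ n}.Finite
  nonneg : ∀ i v, 0 ≤ x i v
  total : ∀ i, ((x i).sum fun _ r => r) = 1
  cpt : ∃ K : Set V, K.Finite ∧ ∀ i v, x i v ≠ 0 → v ∈ K

/-- The direct sum of two objects. -/
def Obj.sum {V : Type} (M N : Obj V) : Obj V where
  I := M.I ⊕ N.I
  t := Sum.elim M.t N.t
  x := Sum.elim M.x N.x
  fin n := (((M.fin n).image Sum.inl).union ((N.fin n).image Sum.inr)).subset (by
    rintro (i | i) h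
    · exact Or.inl ⟨i, h, rfl⟩
    · exact Or.inr ⟨i, h, rfl⟩)
  nonneg := by
    rintro (i | i)
    · exact M.nonneg i
    · exact N.nonneg i
  total := by
    rintro (i | i)
    · exact M.total i
    · exact N.total i
  cpt := by
    obtain ⟨K, hK, h⟩ := M.cpt
    obtain ⟨L, hL, h'⟩ := N.cpt
    refine ⟨K ∪ L, hK.union hL, ?_⟩
    rintro (i | i) v hv
    · exact Or.inl (h i v hv)
    · exact Or.inr (h' i v hv)

variable {R : Type v} [Ring R] (Φ : ℕ → AddSubgroup R) {G : Type} [Group G] {V : Type}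
  [MulAction G V]

/-- Controlled endomorphisms: the coefficients have bounded filtration degree, finitely many group
elements occur, the matrix has bounded propagation in the `ℕ` direction, and its propagation in
`Δ(V)` tends to zero at infinity. -/
def Ctrl (M : Obj V) (a : Matrix M.I M.I (MonoidAlgebra R G)) : Prop :=
  (∃ d : ℕ, ∀ i j g, (a i j).coeff g ∈ Φ d) ∧
  (∃ F : Set G, F.Finite ∧ ∀ i j g, (a i j).coeff g ≠ 0 → g ∈ F) ∧
  (∃ α : ℕ, ∀ i j, a i j ≠ 0 → M.t i ≤ M.t j + α ∧ M.t j ≤ M.t i + α) ∧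
  ∀ ε : ℝ, 0 < ε → ∃ T : ℕ, ∀ i j g, (a i j).coeff g ≠ 0 → T ≤ M.t i →
    l1 (M.x i) ((M.x j).mapDomain fun v => g • v) < ε

/-- The product of infinite matrices. -/
noncomputable def mulM {I : Type} {Λ : Type v} [Ring Λ] (a b : Matrix I I Λ) : Matrix I I Λ :=
  fun i k => ∑ᶠ j, a i j * b j k

open Classical in
/-- Finite products of elementary automorphisms `1 + n`, where `n` is controlled and maps a
direct summand `M_{I ∖ S}` to the complement `M_S`, and `M_S` to zero. -/
inductive ElemProd (M : Obj V) : Matrix M.I M.I (MonoidAlgebra R G) → Prop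
  | one : ElemProd M 1
  | mul (n b : Matrix M.I M.I (MonoidAlgebra R G)) (S : Set M.I) (hn : Ctrl Φ M n)
      (hS : ∀ i j, n i j ≠ 0 → i ∈ S ∧ j ∉ S) (hb : ElemProd M b) : ElemProd M (mulM (1 + n) b)

variable (G V) in
open Classical in
/-- Every automorphism is stably a product of elementary automorphisms. -/
def K1Zero : Prop :=
  ∀ (M : Obj V) (a b : Matrix M.I M.I (MonoidAlgebra R G)), Ctrl Φ M a → Ctrl Φ M b →
    mulM a b = 1 → mulM b a = 1 →
    ∃ N : Obj V, ElemProd Φ (M.sum N) (Matrix.fromBlocks a 0 0 (1 : Matrix N.I N.I _))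

end Pool.Agent.MP_f7db47_al.OB
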