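import Pool.Agent.MP_f7db47_al.TW.OMain
import Pool.Agent.MP_f7db47_al.TW.Vc

/-!
The obstruction group vanishes for groups over a group with the fibred reduction property.
-/

namespace Pool.Agent.MP_f7db47_al.OB

universe v

lemma vc_zpowers {Γ : Type} [Group Γ] (γ : Γ) :
    ∃ φ : Subgroup.zpowers γ →* Multiplicative ℤ, Finite φ.ker := by
  by_cases h : Finite (Subgroup.zpowers γ)
  · exact ⟨1, inferInstance⟩
  · have : Infinite (Subgroup.zpowers γ) := not_finite_iff_infinite.1 h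
    obtain ⟨g, hg⟩ := IsCyclic.exists_generator (α := Subgroup.zpowers γ)
    refine ⟨(intEquivOfZPowersEqTop g (Subgroup.eq_top_iff' _ |>.2 hg)).symm.toMonoidHom, ?_⟩
    rw [(MonoidHom.ker_eq_bot_iff _).2 (MulEquiv.injective _)]
    infer_instance

theorem k1zero_fj {R : Type v} [Ring R] (Φ : ℕ → AddSubgroup R) [Flt Φ] {Γ G V : Type} [Group Γ] [Group G] [MulAction G V]
    (hΓ : VC.FJ Γ) (f : G →* Γ) (hV : ∀ (B : Subgroup Γ) (φ : B →* Multiplicative ℤ),
      Finite φ.ker → ∃ v : V, ∀ g, f g ∈ B → g • v = v) : K1Zero Φ G V := by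
  refine k1zero (TW.qq_fj hΓ f fun B ⟨φ, hφ⟩ => ?_) fun g => ?_
  · obtain ⟨v, hv⟩ := hV B φ hφ
    exact qq_fix (B.comap f) hv
  · obtain ⟨φ, hφ⟩ := vc_zpowers (f g)
    exact (hV _ φ hφ).imp fun v hv => hv g (Subgroup.mem_zpowers _)

end Pool.Agent.MP_f7db47_al.OB
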