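import Pool.Agent.MP_f7db47_al.TW.ODefs

/-!
The geometry of the full simplex.
-/

set_option linter.unusedSectionVars false

namespace Pool.Agent.MP_f7db47_al.OB

open Function

variable {G : Type} [Group G] {V : Type} [MulAction G V]

/-- The norm. -/
noncomputable def nrm (z : V →₀ ℝ) : ℝ := z.sum fun _ r => |r|

lemma nrm_eq {z : V →₀ ℝ} {K : Finset V} (h : z.support ⊆ K) : nrm z = ∑ v ∈ K, |z v| :=
  Finsupp.sum_of_support_subset _ h _ fun _ _ => abs_zero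

lemma nrm_nonneg (z : V →₀ ℝ) : 0 ≤ nrm z := Finset.sum_nonneg fun _ _ => abs_nonneg _

lemma nrm_add (z w : V →₀ ℝ) : nrm (z + w) ≤ nrm z + nrm w := by
  classical
  rw [nrm_eq (Finsupp.support_add (g₁ := z) (g₂ := w)),
    nrm_eq (z := z) (Finset.subset_union_left (s₂ := w.support)),
    nrm_eq (z := w) (Finset.subset_union_right (s₁ := z.support)), ← Finset.sum_add_distrib]
  exact Finset.sum_le_sum fun v _ => abs_add_le _ _

lemma nrm_smul (c : ℝ) (z : V →₀ ℝ) : nrm (c • z) = |c| * nrm z := by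
  rw [nrm_eq (Finsupp.support_smul (b := c) (g := z)), nrm_eq (z := z) subset_rfl, Finset.mul_sum]
  exact Finset.sum_congr rfl fun v _ => abs_mul _ _

lemma nrm_neg (z : V →₀ ℝ) : nrm (-z) = nrm z := by
  rw [← neg_one_smul ℝ z, nrm_smul]
  simp

lemma nrm_map {f : V → V} (hf : Injective f) (z : V →₀ ℝ) : nrm (z.mapDomain f) = nrm z :=
  Finsupp.sum_mapDomain_index_inj hf

/-- The full simplex. -/
def Pt (V : Type) : Type := {x : V →₀ ℝ // (∀ v, 0 ≤ x v) ∧ (x.sum fun _ r => r) = 1}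

lemma map_apply' (g : G) (x : V →₀ ℝ) (v : V) :
    (x.mapDomain fun v => g • v) v = x (g⁻¹ • v) := by
  conv_lhs => rw [← smul_inv_smul g v]
  exact Finsupp.mapDomain_apply (MulAction.injective g) x _

noncomputable instance : MulAction G (Pt V) where
  smul g x := ⟨x.1.mapDomain fun v => g • v, fun v => by rw [map_apply']; exact x.2.1 _,
    (Finsupp.sum_mapDomain_index_inj (MulAction.injective g)).trans x.2.2⟩
  one_smul x := Subtype.ext (Finsupp.ext fun v => (map_apply' 1 x.1 v).trans (by simp))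
  mul_smul g h x := Subtype.ext (Finsupp.ext fun v => (map_apply' (g * h) x.1 v).trans (by
    refine Eq.trans ?_ (map_apply' g _ v).symm
    refine Eq.trans ?_ (map_apply' h _ _).symm
    rw [mul_inv_rev, mul_smul]))

lemma smul_val (g : G) (x : Pt V) : (g • x).1 = x.1.mapDomain fun v => g • v := rfl

lemma smul_apply (g : G) (x : Pt V) (v : V) : (g • x).1 v = x.1 (g⁻¹ • v) := map_apply' g x.1 v

lemma nrm_pt (x : Pt V) : nrm x.1 = 1 :=
  (Finset.sum_congr rfl fun v _ => abs_of_nonneg (x.2.1 v)).trans x.2.2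

/-- The distance. -/
noncomputable def dd (x y : Pt V) : ℝ := nrm (x.1 - y.1)

lemma dd_self (x : Pt V) : dd x x = 0 := by simp [dd, nrm]

lemma dd_nonneg (x y : Pt V) : 0 ≤ dd x y := nrm_nonneg _

lemma dd_comm (x y : Pt V) : dd x y = dd y x := by rw [dd, dd, ← nrm_neg, neg_sub]

lemma dd_tri (x y z : Pt V) : dd x z ≤ dd x y + dd y z := by
  rw [dd, dd, dd, ← sub_add_sub_cancel x.1 y.1 z.1]
  exact nrm_add _ _

lemma dd_smul (g : G) (x y : Pt V) : dd (g • x) (g • y) = dd x y := by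
  rw [dd, dd, smul_val, smul_val, ← Finsupp.mapDomain_sub, nrm_map (MulAction.injective g)]

lemma dd_le (x y : Pt V) : dd x y ≤ 2 := by
  have := nrm_add x.1 (-y.1)
  rw [nrm_neg, nrm_pt, nrm_pt, ← sub_eq_add_neg] at this
  rw [dd]
  linarith

/-- The vertex. -/
noncomputable def vx (v : V) : Pt V :=
  ⟨Finsupp.single v 1, fun w => by
    classical
    rw [Finsupp.single_apply]
    split_ifs <;> norm_num, Finsupp.sum_single_index rfl⟩

/-- The parameter of the contraction. -/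
noncomputable def sp (k t : ℕ) : ℝ := (t + 1) / (k + t + 1)

lemma sp_pos (k t : ℕ) : 0 < sp k t := by unfold sp; positivity

lemma sp_le (k t : ℕ) : sp k t ≤ 1 := by
  unfold sp
  rw [div_le_one (by positivity)]
  have : (0 : ℝ) ≤ k := Nat.cast_nonneg k
  linarith

/-- The contraction to a vertex. -/
noncomputable def cx (v : V) (k t : ℕ) (x : Pt V) : Pt V :=
  ⟨sp k t • x.1 + (1 - sp k t) • (vx v).1, fun w => add_nonneg (mul_nonneg (sp_pos k t).le (x.2.1 w))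
    (mul_nonneg (sub_nonneg.2 (sp_le k t)) ((vx v).2.1 w)), by
      rw [Finsupp.sum_add_index' (fun _ => rfl) fun _ _ _ => rfl,
        Finsupp.sum_smul_index' fun _ => rfl, Finsupp.sum_smul_index' fun _ => rfl]
      simp only [smul_eq_mul, ← Finsupp.mul_sum, x.2.2, (vx v).2.2]
      ring⟩

lemma cx_val (v : V) (k t : ℕ) (x : Pt V) :
    (cx v k t x).1 = sp k t • x.1 + (1 - sp k t) • Finsupp.single v 1 := rfl

lemma cx_smul {h : G} {v : V} (hv : h • v = v) (k t : ℕ) (x : Pt V) :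
    h • cx v k t x = cx v k t (h • x) := by
  apply Subtype.ext
  rw [smul_val, cx_val, cx_val, smul_val, Finsupp.mapDomain_add, Finsupp.mapDomain_smul,
    Finsupp.mapDomain_smul, Finsupp.mapDomain_single, hv]

lemma cx_inj (v : V) (k t : ℕ) : Injective (cx v k t) := fun _ _ h =>
  Subtype.ext (smul_right_injective _ (sp_pos k t).ne' (add_right_cancel (congrArg Subtype.val h)))

lemma cx_ne {v w : V} (h : w ≠ v) (k t : ℕ) (x : Pt V) : (cx v k t x).1 w ≠ 0 ↔ x.1 w ≠ 0 := by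
  simp [cx_val, Finsupp.single_eq_of_ne h, (sp_pos k t).ne']

lemma cx_zero (v : V) (t : ℕ) (x : Pt V) : cx v 0 t x = x := by
  have : sp 0 t = 1 := by
    unfold sp
    rw [Nat.cast_zero, zero_add, div_self (by positivity)]
  apply Subtype.ext
  rw [cx_val, this, sub_self, zero_smul, add_zero, one_smul]

lemma dd_cx (v : V) (k t k' t' : ℕ) (x y : Pt V) :
    dd (cx v k t x) (cx v k' t' y) ≤ sp k t * dd x y + 2 * |sp k t - sp k' t'| := by
  have e : (cx v k t x).1 - (cx v k' t' y).1 =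
      sp k t • (x.1 - y.1) + (sp k t - sp k' t') • (y.1 - (vx v).1) := by
    change sp k t • x.1 + (1 - sp k t) • (vx v).1 - (sp k' t' • y.1 + (1 - sp k' t') • (vx v).1) = _
    module
  rw [dd, e]
  refine (nrm_add _ _).trans ?_
  rw [nrm_smul, nrm_smul, abs_of_pos (sp_pos k t), mul_comm 2]
  exact add_le_add le_rfl (mul_le_mul_of_nonneg_left (dd_le y (vx v)) (abs_nonneg _))

lemma sp_sub (k t t' α : ℕ) (h : t ≤ t' + α) (h' : t' ≤ t + α) :
    |sp k t - sp k t'| ≤ α / (k + t + 1) := by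
  have h1 : (0 : ℝ) < k + t + 1 := by positivity
  have h2 : (0 : ℝ) < k + t' + 1 := by positivity
  have e : sp k t - sp k t' = (k / (k + t' + 1) * (t - t')) / (k + t + 1) := by
    unfold sp
    field_simp
    ring
  rw [e, abs_div, abs_of_pos h1, abs_mul]
  refine div_le_div_of_nonneg_right ?_ h1.le
  have h3 : |(k : ℝ) / (k + t' + 1)| ≤ 1 := by
    rw [abs_of_nonneg (by positivity), div_le_one h2]
    have : (0 : ℝ) ≤ t' := Nat.cast_nonneg t'
    linarith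
  have h4 : |(t : ℝ) - t'| ≤ α := by
    have a1 : (t : ℝ) ≤ t' + α := by exact_mod_cast h
    have a2 : (t' : ℝ) ≤ t + α := by exact_mod_cast h'
    rw [abs_le]
    constructor <;> linarith
  calc _ ≤ 1 * (α : ℝ) := mul_le_mul h3 h4 (abs_nonneg _) zero_le_one
    _ = α := one_mul _

lemma sp_succ (k t : ℕ) : |sp (k + 1) t - sp k t| ≤ 1 / (k + t + 1) := by
  have h1 : (0 : ℝ) < k + t + 1 := by positivity
  have e : sp (k + 1) t - sp k t = -(sp (k + 1) t / (k + t + 1)) := by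
    unfold sp
    push_cast
    field_simp
    ring
  rw [e, abs_neg, abs_of_pos (div_pos (sp_pos _ _) h1)]
  exact div_le_div_of_nonneg_right (sp_le _ _) h1.le

lemma exists_div_lt (c ε : ℝ) (hε : 0 < ε) :
    ∃ T : ℕ, ∀ k t : ℕ, T ≤ t + k → c / (k + t + 1) < ε := by
  obtain ⟨T, hT⟩ := exists_nat_gt (c / ε)
  refine ⟨T, fun k t h => ?_⟩
  have h1 : (T : ℝ) ≤ t + k := by exact_mod_cast h
  rw [div_lt_iff₀ (by positivity)]
  rw [div_lt_iff₀ hε] at hT
  nlinarith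

/-- The big index set. -/
@[ext] structure Ix (V : Type) : Type where
  p : Pt V
  t : ℕ
  m : ℕ

noncomputable instance : MulAction G (Ix V) where
  smul g i := ⟨g • i.p, i.t, i.m⟩
  one_smul i := Ix.ext (one_smul G i.p) rfl rfl
  mul_smul g h i := Ix.ext (mul_smul g h i.p) rfl rfl

/-- The maps of the swindle. -/
noncomputable def jx (v : V) (y : ℕ × Ix V) : Ix V :=
  ⟨cx v y.1 y.2.t y.2.p, y.2.t + y.1, Nat.pair y.1 y.2.m⟩

lemma jx_inj (v : V) : Injective (jx v) := by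
  rintro ⟨k, p, t, m⟩ ⟨k', p', t', m'⟩ h
  obtain ⟨h1, h2⟩ := Nat.pair_eq_pair.1 (congrArg Ix.m h)
  change k = k' at h1
  change m = m' at h2
  subst h1 h2
  have h3 : t = t' := Nat.add_right_cancel (congrArg Ix.t h)
  subst h3
  rw [show p = p' from cx_inj v k t (congrArg Ix.p h)]

lemma jx_smul {h : G} {v : V} (hv : h • v = v) (k : ℕ) (i : Ix V) :
    h • jx v (k, i) = jx v (k, h • i) := Ix.ext (cx_smul hv _ _ _) rfl rfl

/-- The point lies in the simplex spanned by `K`. -/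
def In (K : Set V) (i : Ix V) : Prop := ∀ v, i.p.1 v ≠ 0 → v ∈ K

lemma In.mono {K K' : Set V} {i : Ix V} (h : In K i) (h' : K ⊆ K') : In K' i :=
  fun v hv => h' (h v hv)

lemma in_jx {K : Set V} {v : V} {k : ℕ} {i : Ix V} (h : In K i) : In (insert v K) (jx v (k, i)) :=
  fun w hw => by
    by_cases e : w = v
    · exact Or.inl e
    · exact Or.inr (h w ((cx_ne e _ _ _).1 hw))

lemma in_of_jx {K : Set V} {v : V} {k : ℕ} {i : Ix V} (h : In K (jx v (k, i))) :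
    In (insert v K) i := fun w hw => by
  by_cases e : w = v
  · exact Or.inl e
  · exact Or.inr (h w ((cx_ne e _ _ _).2 hw))

/-- One sided conditions on a relation. -/
structure One (E : Ix V → Ix V → Prop) : Prop where
  fin : ∀ j, {i | E i j}.Finite
  cpt : ∀ K : Set V, K.Finite → ∃ K' : Set V, K'.Finite ∧ ∀ i j, E i j → In K j → In K' i
  band : ∃ α : ℕ, ∀ i j, E i j → i.t ≤ j.t + α

section One

variable {E E' : Ix V → Ix V → Prop}

lemma One.mono (h : One E) (h' : ∀ i j, E' i j → E i j) : One E' :=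
  ⟨fun j => (h.fin j).subset fun i => h' i j, fun K hK => (h.cpt K hK).imp fun _ c =>
    ⟨c.1, fun i j e => c.2 i j (h' i j e)⟩, h.band.imp fun _ c i j e => c i j (h' i j e)⟩

lemma One.or (h : One E) (h' : One E') : One fun i j => E i j ∨ E' i j := by
  refine ⟨fun j => (h.fin j).union (h'.fin j), fun K hK => ?_, ?_⟩
  · obtain ⟨K₁, a1, a2⟩ := h.cpt K hK
    obtain ⟨K₂, b1, b2⟩ := h'.cpt K hK
    exact ⟨K₁ ∪ K₂, a1.union b1, fun i j e c => e.elim
      (fun e => (a2 i j e c).mono Set.subset_union_left)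
      fun e => (b2 i j e c).mono Set.subset_union_right⟩
  · obtain ⟨α, a⟩ := h.band
    obtain ⟨β, b⟩ := h'.band
    exact ⟨α + β, fun i j e => e.elim (fun e => by have := a i j e; omega)
      fun e => by have := b i j e; omega⟩

lemma One.comp (h : One E) (h' : One E') : One fun i k => ∃ j, E i j ∧ E' j k := by
  refine ⟨fun k => ((h'.fin k).biUnion fun j _ => h.fin j).subset ?_, fun K hK => ?_, ?_⟩
  · rintro i ⟨j, a, b⟩
    exact Set.mem_biUnion b a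
  · obtain ⟨K₁, b1, b2⟩ := h'.cpt K hK
    obtain ⟨K₂, a1, a2⟩ := h.cpt K₁ b1
    exact ⟨K₂, a1, fun i k ⟨j, a, b⟩ c => a2 i j a (b2 j k b c)⟩
  · obtain ⟨α, a⟩ := h.band
    obtain ⟨β, b⟩ := h'.band
    exact ⟨α + β, fun i k ⟨j, c, d⟩ => by have := a i j c; have := b j k d; omega⟩

lemma one_smul' (g : G) : One fun i j : Ix V => i = g • j := by
  refine ⟨fun j => Set.finite_singleton _, fun K hK =>
    ⟨(fun v => g • v) '' K, hK.image _, ?_⟩, 0, ?_⟩
  · rintro _ j rfl h v hv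
    exact ⟨g⁻¹ • v, h _ ((smul_apply g j.p v).symm.trans_ne hv), smul_inv_smul g v⟩
  · rintro _ j rfl
    exact le_rfl

lemma One.amp (v : V) (h : One E) :
    One fun i' j' => ∃ k i j, i' = jx v (k, i) ∧ j' = jx v (k, j) ∧ E i j := by
  refine ⟨fun j' => ?_, fun K hK => ?_, ?_⟩
  · by_cases c : ∃ y, j' = jx v y
    · obtain ⟨⟨k, j⟩, rfl⟩ := c
      refine ((h.fin j).image fun i => jx v (k, i)).subset ?_
      rintro _ ⟨k', i, j', rfl, e, a⟩
      obtain ⟨rfl, rfl⟩ := Prod.mk.inj (jx_inj v e)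
      exact ⟨i, a, rfl⟩
    · refine Set.finite_empty.subset ?_
      rintro _ ⟨k, i, j, -, e, -⟩
      exact c ⟨_, e⟩
  · obtain ⟨K', a1, a2⟩ := h.cpt _ (hK.insert v)
    refine ⟨insert v K', a1.insert v, ?_⟩
    rintro _ _ ⟨k, i, j, rfl, rfl, a⟩ c
    exact in_jx (a2 i j a (in_of_jx c))
  · obtain ⟨α, a⟩ := h.band
    refine ⟨α, ?_⟩
    rintro _ _ ⟨k, i, j, rfl, rfl, c⟩
    have := a i j c
    change i.t + k ≤ j.t + k + α
    omega

end One

/-- Small sets of indices. -/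
def Small (S : Set (Ix V)) : Prop :=
  (∀ n, {i | i ∈ S ∧ i.t ≤ n}.Finite) ∧ ∃ K : Set V, K.Finite ∧ ∀ i ∈ S, In K i

lemma small_empty : Small (∅ : Set (Ix V)) :=
  ⟨fun _ => Set.finite_empty.subset fun _ h => h.1, ∅, Set.finite_empty, fun _ h => h.elim⟩

lemma Small.union {S S' : Set (Ix V)} (h : Small S) (h' : Small S') : Small (S ∪ S') := by
  obtain ⟨K, a1, a2⟩ := h.2
  obtain ⟨K', b1, b2⟩ := h'.2
  exact ⟨fun n => ((h.1 n).union (h'.1 n)).subset fun i c =>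
    c.1.imp (fun e => ⟨e, c.2⟩) fun e => ⟨e, c.2⟩, K ∪ K', a1.union b1, fun i c => c.elim
      (fun e => (a2 i e).mono Set.subset_union_left) fun e => (b2 i e).mono Set.subset_union_right⟩

lemma Small.img {E : Ix V → Ix V → Prop} (h : One E) (h' : One fun i j => E j i) {S : Set (Ix V)}
    (hS : Small S) : Small {i | ∃ j ∈ S, E i j} := by
  obtain ⟨α, a⟩ := h'.band
  obtain ⟨K, b1, b2⟩ := hS.2
  obtain ⟨K', c1, c2⟩ := h.cpt K b1
  refine ⟨fun n => ((hS.1 (n + α)).biUnion fun j _ => h.fin j).subset ?_, K', c1, ?_⟩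
  · rintro i ⟨⟨j, hj, e⟩, hi⟩
    exact Set.mem_biUnion (x := j) ⟨hj, by have := a j i e; omega⟩ e
  · rintro i ⟨j, hj, e⟩
    exact c2 i j e (b2 j hj)

lemma Small.amp (v : V) {S : Set (Ix V)} (hS : Small S) :
    Small {i' | ∃ k, ∃ i ∈ S, i' = jx v (k, i)} := by
  obtain ⟨K, b1, b2⟩ := hS.2
  refine ⟨fun n => (((Set.finite_le_nat n).prod (hS.1 n)).image (jx v)).subset ?_,
    insert v K, b1.insert v, ?_⟩
  · rintro _ ⟨⟨k, i, hi, rfl⟩, c⟩
    have c' : i.t + k ≤ n := c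
    exact ⟨(k, i), ⟨show k ≤ n by omega, hi, show i.t ≤ n by omega⟩, rfl⟩
  · rintro _ ⟨k, i, hi, rfl⟩
    exact in_jx (b2 i hi)

/-- Controlled relations. -/
structure Good (E : Ix V → G → Ix V → Prop) : Prop where
  gfin : ∃ F : Set G, F.Finite ∧ ∀ i g j, E i g j → g ∈ F
  l : One fun i j => ∃ g, E i g j
  r : One fun j i => ∃ g, E i g j
  ctl : ∀ ε : ℝ, 0 < ε → ∃ T : ℕ, ∀ i g j, E i g j → T ≤ i.t → dd i.p (g • j.p) < ε

section Good

variable {E E' : Ix V → G → Ix V → Prop}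

lemma Good.mono (h : Good E) (h' : ∀ i g j, E' i g j → E i g j) : Good E' :=
  ⟨h.gfin.imp fun _ c => ⟨c.1, fun i g j e => c.2 i g j (h' i g j e)⟩,
    h.l.mono fun i j c => c.imp fun g => h' i g j, h.r.mono fun j i c => c.imp fun g => h' i g j,
    fun ε hε => (h.ctl ε hε).imp fun _ c i g j e => c i g j (h' i g j e)⟩

lemma Good.or (h : Good E) (h' : Good E') : Good fun i g j => E i g j ∨ E' i g j := by
  obtain ⟨F, a1, a2⟩ := h.gfin
  obtain ⟨F', b1, b2⟩ := h'.gfin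
  refine ⟨⟨F ∪ F', a1.union b1, fun i g j e => e.imp (a2 i g j) (b2 i g j)⟩,
    (h.l.or h'.l).mono fun _ _ => exists_or.1, (h.r.or h'.r).mono fun _ _ => exists_or.1,
    fun ε hε => ?_⟩
  obtain ⟨T, a⟩ := h.ctl ε hε
  obtain ⟨T', b⟩ := h'.ctl ε hε
  exact ⟨T + T', fun i g j e c => e.elim (fun e => a i g j e (by omega)) fun e => b i g j e (by omega)⟩

lemma Good.comp (h : Good E) (h' : Good E') :
    Good fun i g k => ∃ j g₁ g₂, E i g₁ j ∧ E' j g₂ k ∧ g = g₁ * g₂ := by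
  obtain ⟨F, a1, a2⟩ := h.gfin
  obtain ⟨F', b1, b2⟩ := h'.gfin
  refine ⟨⟨Set.image2 (· * ·) F F', a1.image2 _ b1, ?_⟩, (h.l.comp h'.l).mono ?_,
    (h'.r.comp h.r).mono ?_, fun ε hε => ?_⟩
  · rintro i _ k ⟨j, g₁, g₂, c, d, rfl⟩
    exact ⟨g₁, a2 _ _ _ c, g₂, b2 _ _ _ d, rfl⟩
  · rintro i k ⟨_, j, g₁, g₂, c, d, rfl⟩
    exact ⟨j, ⟨g₁, c⟩, g₂, d⟩
  · rintro k i ⟨_, j, g₁, g₂, c, d, rfl⟩
    exact ⟨j, ⟨g₂, d⟩, g₁, c⟩
  · obtain ⟨T, a⟩ := h.ctl _ (half_pos hε)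
    obtain ⟨T', b⟩ := h'.ctl _ (half_pos hε)
    obtain ⟨α, hα⟩ := h.l.band
    refine ⟨T + T' + α, ?_⟩
    rintro i _ k ⟨j, g₁, g₂, c, d, rfl⟩ hT
    have h1 := a _ _ _ c (by omega)
    have h2 := b _ _ _ d (by have := hα i j ⟨g₁, c⟩; omega)
    have h3 := dd_tri i.p (g₁ • j.p) ((g₁ * g₂) • k.p)
    rw [mul_smul, dd_smul] at h3
    rw [mul_smul]
    linarith

lemma Good.swap (h : Good E) : Good fun j g i => E i g⁻¹ j := by
  obtain ⟨F, a1, a2⟩ := h.gfin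
  refine ⟨⟨(·⁻¹) '' F, a1.image _, fun j g i e => ⟨g⁻¹, a2 _ _ _ e, inv_inv g⟩⟩,
    h.r.mono fun _ _ ⟨g, e⟩ => ⟨_, e⟩, h.l.mono fun _ _ ⟨g, e⟩ => ⟨_, e⟩, fun ε hε => ?_⟩
  obtain ⟨T, a⟩ := h.ctl ε hε
  obtain ⟨α, hα⟩ := h.r.band
  refine ⟨T + α, fun j g i e hT => ?_⟩
  have := a _ _ _ e (by have := hα j i ⟨_, e⟩; omega)
  rwa [← dd_smul g, smul_inv_smul, dd_comm] at this

lemma good_smul (g : G) : Good fun (i : Ix V) h j => h = g ∧ i = g • j := by
  refine ⟨⟨{g}, Set.finite_singleton g, fun _ _ _ e => e.1⟩,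
    (one_smul' g).mono fun _ _ ⟨_, e⟩ => e.2,
    (one_smul' g⁻¹).mono fun _ _ ⟨_, e⟩ => by rw [e.2, inv_smul_smul], fun ε hε => ⟨0, ?_⟩⟩
  rintro _ _ j ⟨rfl, rfl⟩ -
  exact (dd_self _).trans_lt hε

lemma Good.amp (v : V) (h : Good E) : Good fun i' (g : G) j' =>
    g = 1 ∧ ∃ k i j, i' = jx v (k, i) ∧ j' = jx v (k, j) ∧ E i 1 j := by
  refine ⟨⟨{1}, Set.finite_singleton _, fun _ _ _ e => e.1⟩, (h.l.amp v).mono ?_,
    (h.r.amp v).mono ?_, fun ε hε => ?_⟩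
  · rintro _ _ ⟨_, -, k, i, j, rfl, rfl, e⟩
    exact ⟨k, i, j, rfl, rfl, 1, e⟩
  · rintro _ _ ⟨_, -, k, i, j, rfl, rfl, e⟩
    exact ⟨k, j, i, rfl, rfl, 1, e⟩
  · obtain ⟨T, a⟩ := h.ctl _ (half_pos hε)
    obtain ⟨α, hα⟩ := h.l.band
    obtain ⟨β, hβ⟩ := h.r.band
    obtain ⟨T₁, b⟩ := exists_div_lt ((α + β : ℕ) : ℝ) (ε / 4) (by positivity)
    obtain ⟨T₂, c⟩ := exists_div_lt (T : ℝ) (ε / 4) (by positivity)
    refine ⟨T₁ + T₂, ?_⟩
    rintro _ _ _ ⟨rfl, k, i, j, rfl, rfl, e⟩ hT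
    have hT' : T₁ + T₂ ≤ i.t + k := hT
    rw [one_smul]
    have h1 := dd_cx v k i.t k j.t i.p j.p
    have h2 := (sp_sub k i.t j.t (α + β) (by have := hα i j ⟨1, e⟩; omega)
      (by have := hβ j i ⟨1, e⟩; omega)).trans_lt (b k i.t (by omega))
    have h3 : sp k i.t * dd i.p j.p < ε / 2 := by
      by_cases d : T ≤ i.t
      · have := a _ _ _ e d
        rw [one_smul] at this
        exact (mul_le_of_le_one_left (dd_nonneg _ _) (sp_le _ _)).trans_lt this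
      · have h4 : sp k i.t ≤ T / (k + i.t + 1) :=
          div_le_div_of_nonneg_right (by exact_mod_cast Nat.succ_le_of_lt (not_le.1 d))
            (by positivity)
        have h5 := h4.trans_lt (c k i.t (by omega))
        have h6 := mul_le_mul_of_nonneg_left (dd_le i.p j.p) (sp_pos k i.t).le
        linarith
    change dd (cx v k i.t i.p) (cx v k j.t j.p) < ε
    linarith

lemma good_shift (v : V) : Good fun i' (g : G) j' =>
    g = 1 ∧ ∃ k i, i' = jx v (k + 1, i) ∧ j' = jx v (k, i) := by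
  refine ⟨⟨{1}, Set.finite_singleton _, fun _ _ _ e => e.1⟩, ⟨fun j' => ?_, fun K hK =>
    ⟨insert v (insert v K), (hK.insert v).insert v, ?_⟩, 1, ?_⟩, ⟨fun j' => ?_, fun K hK =>
    ⟨insert v (insert v K), (hK.insert v).insert v, ?_⟩, 0, ?_⟩, fun ε hε => ?_⟩
  · refine Set.Subsingleton.finite ?_
    rintro _ ⟨_, -, k, i, rfl, rfl⟩ _ ⟨_, -, k', i', rfl, e⟩
    obtain ⟨rfl, rfl⟩ := Prod.mk.inj (jx_inj v e)
    rfl
  · rintro _ _ ⟨_, -, k, i, rfl, rfl⟩ c
    exact in_jx (in_of_jx c)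
  · rintro _ _ ⟨_, -, k, i, rfl, rfl⟩
    exact le_rfl
  · refine Set.Subsingleton.finite ?_
    rintro _ ⟨_, -, k, i, rfl, rfl⟩ _ ⟨_, -, k', i', e, rfl⟩
    obtain ⟨e', rfl⟩ := Prod.mk.inj (jx_inj v e)
    rw [Nat.succ_injective e']
  · rintro _ _ ⟨_, -, k, i, rfl, rfl⟩ c
    exact in_jx (in_of_jx c)
  · rintro _ _ ⟨_, -, k, i, rfl, rfl⟩
    exact Nat.le_succ _
  · obtain ⟨T, b⟩ := exists_div_lt 1 (ε / 2) (half_pos hε)
    refine ⟨T + 1, ?_⟩
    rintro _ _ _ ⟨rfl, k, i, rfl, rfl⟩ hT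
    have hT' : T + 1 ≤ i.t + (k + 1) := hT
    rw [one_smul]
    have h1 := dd_cx v (k + 1) i.t k i.t i.p i.p
    have h2 := (sp_succ k i.t).trans_lt (b k i.t (by omega))
    rw [dd_self, mul_zero, zero_add] at h1
    change dd (cx v (k + 1) i.t i.p) (cx v k i.t i.p) < ε
    linarith

lemma good_fib {φ : Ix V → Ix V} (hφ : Injective φ) (h1 : ∀ i, (φ i).p = i.p)
    (h2 : ∀ i, (φ i).t = i.t) : Good fun i (g : G) j => g = 1 ∧ i = φ j := by
  refine ⟨⟨{1}, Set.finite_singleton _, fun _ _ _ e => e.1⟩, ⟨fun j => ?_, fun K hK =>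
    ⟨K, hK, ?_⟩, 0, ?_⟩, ⟨fun j' => ?_, fun K hK => ⟨K, hK, ?_⟩, 0, ?_⟩, fun ε hε => ⟨0, ?_⟩⟩
  · exact (Set.finite_singleton (φ j)).subset fun _ ⟨_, e⟩ => e.2
  · rintro _ j ⟨_, -, rfl⟩ c v hv
    exact c v (by rwa [h1] at hv)
  · rintro _ j ⟨_, -, rfl⟩
    exact (h2 j).le
  · refine Set.Subsingleton.finite ?_
    rintro i ⟨_, -, rfl⟩ i' ⟨_, -, e⟩
    exact hφ e
  · rintro j _ ⟨_, -, rfl⟩ c v hv
    exact c v (by rwa [h1])
  · rintro j _ ⟨_, -, rfl⟩
    exact (h2 j).ge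
  · rintro _ _ j ⟨rfl, rfl⟩ -
    rw [one_smul, h1, dd_self]
    exact hε

end Good

end Pool.Agent.MP_f7db47_al.OB
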