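import Pool.Agent.MP_f7db47_al.TW.OOp
import Pool.Agent.MP_f7db47_al.TW.OFl

/-!
The ring of controlled operators and its double.
-/

set_option linter.unusedSectionVars false

namespace Pool.Agent.MP_f7db47_al.OB

open Function

universe v

variable {R : Type v} [Ring R] {Φ : ℕ → AddSubgroup R} [Flt Φ] {G : Type} [Group G] {V : Type}
  [MulAction G V]

variable (R G V) in
/-- All operators. -/
def FF : Type v := Op (MonoidAlgebra R G) (Ix V) (Ix V)

noncomputable instance : Ring (FF R G V) :=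
  inferInstanceAs (Ring (Op (MonoidAlgebra R G) (Ix V) (Ix V)))

/-- The underlying operator. -/
def FF.op (a : FF R G V) : Op (MonoidAlgebra R G) (Ix V) (Ix V) := a

/-- An operator as an element of the ring. -/
def FF.of (a : Op (MonoidAlgebra R G) (Ix V) (Ix V)) : FF R G V := a

lemma FF.of_op (a : Op (MonoidAlgebra R G) (Ix V) (Ix V)) : (FF.of a).op = a := rfl

lemma FF.ext {a b : FF R G V} (h : ∀ z, a.op z = b.op z) : a = b := LinearMap.ext h

lemma FF.ext' {a b : FF R G V}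
    (h : ∀ j, a.op (Finsupp.single j 1) = b.op (Finsupp.single j 1)) : a = b := op_ext h

lemma op_mul (a b : FF R G V) : (a * b).op = a.op ∘ₗ b.op := rfl

lemma op_add (a b : FF R G V) : (a + b).op = a.op + b.op := rfl

lemma op_sub (a b : FF R G V) : (a - b).op = a.op - b.op := rfl

lemma op_neg (a : FF R G V) : (-a).op = -a.op := rfl

lemma op_one : (1 : FF R G V).op = LinearMap.id := rfl

lemma op_zero : (0 : FF R G V).op = 0 := rfl

variable (R V) in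
/-- The operator given by a group element. -/
noncomputable def ta : G →* FF R G V := tau R

lemma op_ta (g : G) : (ta R V g).op = tau R g := rfl

/-- Geometrically controlled operators. -/
def CG0 (a : FF R G V) : Prop := ∃ E, Good E ∧ Sp E a.op

/-- Controlled operators. -/
def CG (Φ : ℕ → AddSubgroup R) (a : FF R G V) : Prop := CG0 a ∧ Bd Φ a.op

/-- Operators with small support. -/
def Sm (a : FF R G V) : Prop := ∃ S, Small S ∧ Sp (fun i _ j => i ∈ S ∧ j ∈ S) a.op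

/-- Operators of degree `g`. -/
def Dg (g : G) (a : FF R G V) : Prop := Sp (fun _ x _ => x = g) a.op

variable {a b : FF R G V}

lemma cg0_tau (g : G) : CG0 (ta R V g) := ⟨_, good_smul g, sp_tau g⟩

lemma cg_tau (g : G) : CG Φ (ta R V g) := ⟨cg0_tau g, bd_tau g⟩

lemma cg_one : CG Φ (1 : FF R G V) := map_one (ta R V (G := G)) ▸ cg_tau 1

lemma cg_zero : CG Φ (0 : FF R G V) := ⟨⟨_, good_smul 1, sp_zero _⟩, bd_zero⟩

lemma CG.add (h : CG Φ a) (h' : CG Φ b) : CG Φ (a + b) := by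
  obtain ⟨⟨E, a1, a2⟩, a3⟩ := h
  obtain ⟨⟨E', b1, b2⟩, b3⟩ := h'
  exact ⟨⟨_, a1.or b1, (a2.mono fun _ _ _ => Or.inl).add (b2.mono fun _ _ _ => Or.inr)⟩, a3.add b3⟩

lemma CG.neg (h : CG Φ a) : CG Φ (-a) := ⟨h.1.imp fun _ c => ⟨c.1, c.2.neg⟩, h.2.neg⟩

lemma CG.sub (h : CG Φ a) (h' : CG Φ b) : CG Φ (a - b) := sub_eq_add_neg a b ▸ h.add h'.neg

lemma CG.mul (h : CG Φ a) (h' : CG Φ b) : CG Φ (a * b) := by
  obtain ⟨⟨E, a1, a2⟩, a3⟩ := h
  obtain ⟨⟨E', b1, b2⟩, b3⟩ := h'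
  exact ⟨⟨_, a1.comp b1, a2.comp b2⟩, a3.comp b3⟩

lemma sm_zero : Sm (0 : FF R G V) := ⟨∅, small_empty, sp_zero _⟩

lemma Sm.add (h : Sm a) (h' : Sm b) : Sm (a + b) := by
  obtain ⟨S, a1, a2⟩ := h
  obtain ⟨S', b1, b2⟩ := h'
  exact ⟨_, a1.union b1, (a2.mono fun _ _ _ c => ⟨Or.inl c.1, Or.inl c.2⟩).add
    (b2.mono fun _ _ _ c => ⟨Or.inr c.1, Or.inr c.2⟩)⟩

lemma Sm.neg (h : Sm a) : Sm (-a) := h.imp fun _ c => ⟨c.1, c.2.neg⟩

lemma Sm.left (h : Sm b) (h' : CG0 a) : Sm (a * b) := by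
  obtain ⟨S, a1, a2⟩ := h
  obtain ⟨E, b1, b2⟩ := h'
  refine ⟨_, a1.union (a1.img b1.l b1.r), (b2.comp a2).mono ?_⟩
  rintro i _ k ⟨j, g₁, g₂, c, d, rfl⟩
  exact ⟨Or.inr ⟨j, d.1, g₁, c⟩, Or.inl d.2⟩

lemma Sm.right (h : Sm a) (h' : CG0 b) : Sm (a * b) := by
  obtain ⟨S, a1, a2⟩ := h
  obtain ⟨E, b1, b2⟩ := h'
  refine ⟨_, a1.union (a1.img b1.r b1.l), (a2.comp b2).mono ?_⟩
  rintro i _ k ⟨j, g₁, g₂, c, d, rfl⟩
  exact ⟨Or.inl c.1, Or.inr ⟨j, c.2, g₂, d⟩⟩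

lemma Dg.mul {g h : G} (ha : Dg g a) (hb : Dg h b) : Dg (g * h) (a * b) :=
  (Sp.comp ha hb).mono (by rintro _ _ _ ⟨_, _, _, rfl, rfl, rfl⟩; rfl)

lemma dg_tau (g : G) : Dg g (ta R V g) := (sp_tau g).mono fun _ _ _ c => c.1

lemma dg_one : Dg 1 (1 : FF R G V) := sp_one.mono fun _ _ _ c => c.1

/-- Controlled operators over `R`. -/
def MM (Φ : ℕ → AddSubgroup R) (a : FF R G V) : Prop := CG Φ a ∧ Dg 1 a

lemma mm_of {E : Ix V → G → Ix V → Prop} (h : Good E) (h1 : ∀ i g j, E i g j → g = 1)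
    (ha : Sp E a.op) (hb : Bd Φ a.op) : MM Φ a := ⟨⟨⟨E, h, ha⟩, hb⟩, ha.mono h1⟩

lemma MM.mul (h : MM Φ a) (h' : MM Φ b) : MM Φ (a * b) :=
  ⟨h.1.mul h'.1, one_mul (1 : G) ▸ h.2.mul h'.2⟩

lemma rg1 {A : Type*} [Ring A] (a b c d : A) : b * d - a * c = (b - a) * d + a * (d - c) := by
  noncomm_ring

lemma rg2 {A : Type*} [Ring A] (a b c d : A) : c * b * d - c * a * d = c * (b - a) * d := by
  noncomm_ring

variable (Φ G V) in
/-- The double of the ring of controlled operators along the ideal of small operators. -/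
def DD : Subring (FF R G V × FF R G V) where
  carrier := {x | MM Φ x.1 ∧ MM Φ x.2 ∧ Sm (x.2 - x.1)}
  one_mem' := ⟨⟨cg_one, dg_one⟩, ⟨cg_one, dg_one⟩, (sub_self (1 : FF R G V)).symm ▸ sm_zero⟩
  zero_mem' := ⟨⟨cg_zero, sp_zero _⟩, ⟨cg_zero, sp_zero _⟩,
    (sub_self (0 : FF R G V)).symm ▸ sm_zero⟩
  add_mem' {x y} h h' := ⟨⟨h.1.1.add h'.1.1, Sp.add h.1.2 h'.1.2⟩,
    ⟨h.2.1.1.add h'.2.1.1, Sp.add h.2.1.2 h'.2.1.2⟩, by
      convert h.2.2.add h'.2.2 using 1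
      exact add_sub_add_comm x.2 y.2 x.1 y.1⟩
  neg_mem' {x} h := ⟨⟨h.1.1.neg, Sp.neg h.1.2⟩, ⟨h.2.1.1.neg, Sp.neg h.2.1.2⟩, by
    convert h.2.2.neg using 1
    exact (neg_sub' x.2 x.1).symm⟩
  mul_mem' {x y} h h' := ⟨h.1.mul h'.1, h.2.1.mul h'.2.1, by
    convert (h.2.2.right h'.2.1.1.1).add (h'.2.2.left h.1.1.1) using 1
    exact rg1 x.1 x.2 y.1 y.2⟩

/-- A diagonal element. -/
def dg (a : FF R G V) (h : MM Φ a) : DD Φ G V := ⟨(a, a), h, h, (sub_self a).symm ▸ sm_zero⟩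

/-- Conjugation. -/
noncomputable def cj (g : G) (a : FF R G V) : FF R G V := ta R V g * a * ta R V g⁻¹

lemma tau_inv (g : G) : ta R V g⁻¹ * ta R V g = 1 := by
  rw [← map_mul, inv_mul_cancel, map_one]

lemma cj_tau (g : G) (a : FF R G V) : cj g a * ta R V g = ta R V g * a := by
  rw [cj, mul_assoc, tau_inv, mul_one]

lemma cj_one (a : FF R G V) : cj 1 a = a := by rw [cj, inv_one, map_one, one_mul, mul_one]

lemma cj_cj (g h : G) (a : FF R G V) : cj (g * h) a = cj g (cj h a) := by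
  simp only [cj, mul_inv_rev, map_mul, mul_assoc]

lemma cj_mul (g : G) (a b : FF R G V) : cj g (a * b) = cj g a * cj g b := by
  rw [cj, cj, cj, mul_assoc _ (ta R V g⁻¹), ← mul_assoc (ta R V g⁻¹), ← mul_assoc (ta R V g⁻¹),
    tau_inv, one_mul]
  simp only [mul_assoc]

lemma cj_add (g : G) (a b : FF R G V) : cj g (a + b) = cj g a + cj g b := by
  rw [cj, mul_add, add_mul]
  rfl

lemma cj_eq {g : G} (h : ta R V g * a = a * ta R V g) : cj g a = a := by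
  rw [cj, h, mul_assoc, ← map_mul, mul_inv_cancel, map_one, mul_one]

lemma MM.cj (h : MM Φ a) (g : G) : MM Φ (cj g a) :=
  ⟨((cg_tau g).mul h.1).mul (cg_tau _), by
    have := ((dg_tau g).mul h.2).mul (dg_tau g⁻¹)
    rwa [mul_one, mul_inv_cancel] at this⟩

noncomputable instance : MulSemiringAction G (DD Φ G V) where
  smul g x := ⟨(cj g x.1.1, cj g x.1.2), x.2.1.cj g, x.2.2.1.cj g, by
    convert (x.2.2.2.left (cg0_tau g)).right (cg0_tau g⁻¹) using 1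
    exact rg2 x.1.1 x.1.2 (ta R V g) (ta R V g⁻¹)⟩
  one_smul _ := Subtype.ext (Prod.ext (cj_one _) (cj_one _))
  mul_smul _ _ _ := Subtype.ext (Prod.ext (cj_cj _ _ _) (cj_cj _ _ _))
  smul_zero _ := Subtype.ext (Prod.ext (cj_eq (by simp)) (cj_eq (by simp)))
  smul_add _ _ _ := Subtype.ext (Prod.ext (cj_add _ _ _) (cj_add _ _ _))
  smul_one _ := Subtype.ext (Prod.ext (cj_eq (by simp)) (cj_eq (by simp)))
  smul_mul _ _ _ := Subtype.ext (Prod.ext (cj_mul _ _ _) (cj_mul _ _ _))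

lemma mm_push {φ : Ix V → Ix V} (hφ : Injective φ) (h1 : ∀ i, (φ i).p = i.p)
    (h2 : ∀ i, (φ i).t = i.t) : MM Φ (.of (push (MonoidAlgebra R G) φ)) :=
  mm_of (good_fib hφ h1 h2) (fun _ _ _ c => c.1) (sp_push φ) (bd_push φ)

lemma mm_pull {φ : Ix V → Ix V} (hφ : Injective φ) (h1 : ∀ i, (φ i).p = i.p)
    (h2 : ∀ i, (φ i).t = i.t) : MM Φ (.of (pull (MonoidAlgebra R G) hφ)) :=
  mm_of (good_fib hφ h1 h2).swap (fun _ _ _ c => inv_eq_one.1 c.1)
    ((sp_pull hφ).mono fun _ _ _ c => ⟨inv_eq_one.2 c.1, c.2⟩) (bd_pull hφ)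

instance : TW.NR (DD Φ G V) := by
  let φ : ℕ → Ix V → Ix V := fun s i => ⟨i.p, i.t, 2 * i.m + s⟩
  have hφ : ∀ s, Injective (φ s) := fun s i j h =>
    Ix.ext (congrArg Ix.p h :) (congrArg Ix.t h :) (by
      have : 2 * i.m + s = 2 * j.m + s := congrArg Ix.m h
      omega)
  have hne : ∀ i, φ 1 i ∉ Set.range (φ 0) := by
    rintro i ⟨j, h⟩
    have : 2 * j.m + 0 = 2 * i.m + 1 := congrArg Ix.m h
    omega
  have hne' : ∀ i, φ 0 i ∉ Set.range (φ 1) := fun i ⟨j, h⟩ => hne j ⟨i, h.symm⟩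
  let b : ℕ → DD Φ G V := fun s => dg _ (mm_push (hφ s) (fun _ => rfl) fun _ => rfl)
  let a : ℕ → DD Φ G V := fun s => dg _ (mm_pull (hφ s) (fun _ => rfl) fun _ => rfl)
  have e1 : (b 0).1.1 * (a 0).1.1 + (b 1).1.1 * (a 1).1.1 = 1 :=
    FF.ext' fun i => by
      change push (MonoidAlgebra R G) (φ 0) (pull _ (hφ 0) _) + push _ (φ 1) (pull _ (hφ 1) _) =
        Finsupp.single i 1
      rcases Nat.even_or_odd' i.m with ⟨k, h | h⟩
      · rw [show i = φ 0 ⟨i.p, i.t, k⟩ from Ix.ext rfl rfl h, pull_single, push_single,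
          pull_single' _ (hne' _), map_zero, add_zero]
      · rw [show i = φ 1 ⟨i.p, i.t, k⟩ from Ix.ext rfl rfl h, pull_single, push_single,
          pull_single' _ (hne _), map_zero, zero_add]
  have e2 : ∀ s, (a s).1.1 * (b s).1.1 = 1 := fun s => FF.ext (pull_push (hφ s))
  have e3 : (a 0).1.1 * (b 1).1.1 = 0 := FF.ext' fun i => by
    change pull (MonoidAlgebra R G) (hφ 0) (push _ (φ 1) _) = 0
    rw [push_single, pull_single' _ (hne _)]
  have e4 : (a 1).1.1 * (b 0).1.1 = 0 := FF.ext' fun i => by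
    change pull (MonoidAlgebra R G) (hφ 1) (push _ (φ 0) _) = 0
    rw [push_single, pull_single' _ (hne' _)]
  refine ⟨⟨fun _ => Sum.elim (fun _ => b 0) fun _ => b 1,
    Sum.elim (fun _ _ => a 0) fun _ _ => a 1, ?_, ?_⟩⟩
  · ext1 i j
    rw [Matrix.mul_apply, Fintype.sum_sum_type, Fintype.sum_unique, Fintype.sum_unique,
      Matrix.one_apply_eq]
    exact Subtype.ext (Prod.ext e1 e1)
  · ext1 i j
    rw [Matrix.mul_apply, Fintype.sum_unique]
    rcases i with i | i <;> rcases j with j | j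
    · exact Subtype.ext (Prod.ext (e2 0) (e2 0))
    · exact Subtype.ext (Prod.ext e3 e3)
    · exact Subtype.ext (Prod.ext e4 e4)
    · exact Subtype.ext (Prod.ext (e2 1) (e2 1))

section Swindle

variable (v : V)

/-- The endomorphism of the swindle. -/
noncomputable def sg (a : FF R G V) : FF R G V :=
  .of (push _ (jx v) ∘ₗ amp a.op ∘ₗ pull _ (jx_inj v))

lemma Sp.sg {E : Ix V → G → Ix V → Prop} (h : Sp E a.op) :
    Sp (fun i' g j' => ∃ k i j, i' = jx v (k, i) ∧ j' = jx v (k, j) ∧ E i g j) (sg v a).op := by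
  refine ((sp_push _).comp (h.amp.comp (sp_pull _))).mono ?_
  rintro _ _ _ ⟨⟨k, i⟩, _, _, ⟨rfl, rfl⟩, ⟨⟨_, j⟩, g, _, ⟨rfl, e⟩, ⟨rfl, rfl⟩, rfl⟩, rfl⟩
  exact ⟨k, i, j, rfl, rfl, by rwa [one_mul, mul_one]⟩

lemma MM.sg (h : MM Φ a) : MM Φ (sg v a) := by
  obtain ⟨⟨⟨E, a1, a2⟩, a4⟩, a3⟩ := h
  refine mm_of (a1.amp v) (fun _ _ _ c => c.1) (((a2.and a3).sg v).mono ?_)
    ((bd_push _).comp (a4.amp.comp (bd_pull _)))
  rintro _ _ _ ⟨k, i, j, rfl, rfl, e, rfl⟩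
  exact ⟨rfl, k, i, j, rfl, rfl, e⟩

lemma Sm.sg (h : Sm a) : Sm (sg v a) := by
  obtain ⟨S, a1, a2⟩ := h
  refine ⟨_, a1.amp v, (a2.sg v).mono ?_⟩
  rintro _ _ _ ⟨k, i, j, rfl, rfl, e⟩
  exact ⟨⟨k, i, e.1, rfl⟩, k, j, e.2, rfl⟩

lemma sg_add (a b : FF R G V) : sg v (a + b) = sg v a + sg v b := FF.ext fun z => by
  simp only [sg, FF.of_op, op_add, amp_add, LinearMap.comp_apply, LinearMap.add_apply, map_add]

lemma amp_comp {Λ : Type v} [Ring Λ] {X : Type} (a b : Op Λ X X) (z : ℕ × X →₀ Λ) :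
    amp (a ∘ₗ b) z = amp a (amp b z) := amp_mul a b z

lemma amp_id {Λ : Type v} [Ring Λ] {X : Type} (z : ℕ × X →₀ Λ) :
    amp (LinearMap.id : Op Λ X X) z = z := amp_one z

lemma sg_mul (a b : FF R G V) : sg v (a * b) = sg v a * sg v b := FF.ext fun z => by
  simp only [sg, FF.of_op, op_mul, LinearMap.comp_apply, pull_push, amp_comp]

variable (R G) in
/-- The first isometry. -/
noncomputable def b0 : FF R G V := .of (push _ (jx v) ∘ₗ push _ (Prod.mk 0))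

variable (R G) in
/-- Its adjoint. -/
noncomputable def a0 : FF R G V := .of (pull _ (mk_inj 0) ∘ₗ pull _ (jx_inj v))

variable (R G) in
/-- The second isometry. -/
noncomputable def b1 : FF R G V := .of (push _ (jx v) ∘ₗ push _ (sh _) ∘ₗ pull _ (jx_inj v))

variable (R G) in
/-- Its adjoint. -/
noncomputable def a1 : FF R G V := .of (push _ (jx v) ∘ₗ pull _ sh_inj ∘ₗ pull _ (jx_inj v))

lemma good0 : Good fun (i : Ix V) (g : G) j => g = 1 ∧ i = jx v (0, j) :=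
  good_fib (φ := fun j => jx v (0, j)) ((jx_inj v).comp (mk_inj 0)) (fun _ => cx_zero _ _ _)
    fun _ => rfl

lemma mm_b0 : MM Φ (b0 R G v) := by
  refine mm_of (good0 v) (fun _ _ _ c => c.1) (((sp_push _).comp (sp_push _)).mono ?_)
    ((bd_push _).comp (bd_push _))
  rintro _ _ _ ⟨_, _, _, ⟨rfl, rfl⟩, ⟨rfl, rfl⟩, rfl⟩
  exact ⟨mul_one _, rfl⟩

lemma mm_a0 : MM Φ (a0 R G v) := by
  refine mm_of (good0 v).swap (fun _ _ _ c => inv_eq_one.1 c.1)
    (((sp_pull _).comp (sp_pull _)).mono ?_) ((bd_pull _).comp (bd_pull _))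
  rintro _ _ _ ⟨_, _, _, ⟨rfl, rfl⟩, ⟨rfl, rfl⟩, rfl⟩
  exact ⟨by simp, rfl⟩

lemma mm_b1 : MM Φ (b1 R G v) := by
  refine mm_of (good_shift v) (fun _ _ _ c => c.1)
    (((sp_push _).comp ((sp_push _).comp (sp_pull _))).mono ?_)
    ((bd_push _).comp ((bd_push _).comp (bd_pull _)))
  rintro _ _ _ ⟨_, _, _, ⟨rfl, rfl⟩, ⟨⟨k, i⟩, _, _, ⟨rfl, rfl⟩, ⟨rfl, rfl⟩, rfl⟩, rfl⟩
  exact ⟨by simp, k, i, rfl, rfl⟩

lemma mm_a1 : MM Φ (a1 R G v) := by
  refine mm_of (good_shift v).swap (fun _ _ _ c => inv_eq_one.1 c.1)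
    (((sp_push _).comp ((sp_pull _).comp (sp_pull _))).mono ?_)
    ((bd_push _).comp ((bd_pull _).comp (bd_pull _)))
  rintro _ _ _ ⟨⟨k, i⟩, _, _, ⟨rfl, rfl⟩, ⟨_, _, _, ⟨rfl, rfl⟩, ⟨rfl, rfl⟩, rfl⟩, rfl⟩
  exact ⟨by simp, k, i, rfl, rfl⟩

lemma fl_h0 : a0 R G v * b0 R G v = 1 := FF.ext fun z => by
  simp only [a0, b0, FF.of_op, op_mul, op_one, LinearMap.comp_apply, pull_push, LinearMap.id_apply]

lemma fl_h1 : a1 R G v * b1 R G v = sg v 1 := FF.ext fun z => by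
  simp only [a1, b1, sg, FF.of_op, op_mul, op_one, LinearMap.comp_apply, pull_push, amp_id]

lemma fl_h01 : a0 R G v * b1 R G v = 0 := FF.ext fun z => by
  simp only [a0, b1, FF.of_op, op_mul, op_zero, LinearMap.comp_apply, pull_push, pull0_sh,
    LinearMap.zero_apply]

lemma fl_eq (a : FF R G V) :
    sg v a = b0 R G v * a * a0 R G v + b1 R G v * sg v a * a1 R G v := FF.ext fun z => by
  simp only [a0, b0, a1, b1, sg, FF.of_op, op_mul, op_add, LinearMap.comp_apply, pull_push,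
    LinearMap.add_apply, ← map_add, ← amp_eq]

lemma Sm.sg_sub (h : Sm (b - a)) : Sm (OB.sg v b - OB.sg v a) := by
  have e := sg_add v (b - a) a
  rw [sub_add_cancel] at e
  rw [e, add_sub_cancel_right]
  exact h.sg v

/-- The endomorphism of the double. -/
noncomputable def sgD (x : DD Φ G V) : DD Φ G V :=
  ⟨(sg v x.1.1, sg v x.1.2), x.2.1.sg v, x.2.2.1.sg v, x.2.2.2.sg_sub v⟩

lemma sgD_add (x y : DD Φ G V) : sgD v (x + y) = sgD v x + sgD v y :=
  Subtype.ext (Prod.ext (sg_add v x.1.1 y.1.1) (sg_add v x.1.2 y.1.2))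

lemma sgD_mul (x y : DD Φ G V) : sgD v (x * y) = sgD v x * sgD v y :=
  Subtype.ext (Prod.ext (sg_mul v x.1.1 y.1.1) (sg_mul v x.1.2 y.1.2))

variable (Φ G) in
/-- The swindle on the double. -/
noncomputable def fl : TW.Fl (DD Φ G V) where
  σ := AddMonoidHom.mk' (sgD v) (sgD_add v)
  a₀ := dg _ (mm_a0 v)
  b₀ := dg _ (mm_b0 v)
  a₁ := dg _ (mm_a1 v)
  b₁ := dg _ (mm_b1 v)
  mul := sgD_mul v
  h0 := Subtype.ext (Prod.ext (fl_h0 v) (fl_h0 v))
  h1 := Subtype.ext (Prod.ext (fl_h1 v) (fl_h1 v))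
  h01 := Subtype.ext (Prod.ext (fl_h01 v) (fl_h01 v))
  eq x := Subtype.ext (Prod.ext (fl_eq v x.1.1) (fl_eq v x.1.2))

variable {v} {h : G}

lemma tau_push (hv : h • v = v) (z : ℕ × Ix V →₀ MonoidAlgebra R G) :
    tau R h (push _ (jx v) z) = push _ (jx v) (amp (tau R h) z) :=
  LinearMap.congr_fun (f := tau R h ∘ₗ push _ (jx v)) (g := push _ (jx v) ∘ₗ amp (tau R h))
    (op_ext fun ⟨k, i⟩ => by
      simp only [LinearMap.comp_apply, push_single, amp_single, tau_single, jx_smul hv]) z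

lemma pull_tau (hv : h • v = v) (z : Ix V →₀ MonoidAlgebra R G) :
    pull _ (jx_inj v) (tau R h z) = amp (tau R h) (pull _ (jx_inj v) z) :=
  LinearMap.congr_fun (f := pull _ (jx_inj v) ∘ₗ tau R h)
    (g := amp (tau R h) ∘ₗ pull _ (jx_inj v)) (op_ext fun i => by
      simp only [LinearMap.comp_apply, tau_single]
      by_cases c : i ∈ Set.range (jx v)
      · obtain ⟨⟨k, j⟩, rfl⟩ := c
        rw [jx_smul hv, pull_single, pull_single, amp_single, tau_single, push_single]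
      · rw [pull_single' _ c, map_zero, pull_single']
        rintro ⟨⟨k, j⟩, e⟩
        exact c ⟨(k, h⁻¹ • j), by
          rw [← jx_smul (inv_smul_eq_iff.2 hv.symm), e, inv_smul_smul]⟩) z

lemma fl_inv (hv : h • v = v) : (fl Φ G v).Inv fun x => h • x := by
  have hv' : h⁻¹ • v = v := inv_smul_eq_iff.2 hv.symm
  have e : ∀ a : FF R G V, sg v (cj h a) = cj h (sg v a) := fun a => FF.ext fun z => by
    simp only [sg, cj, FF.of_op, op_mul, op_ta, LinearMap.comp_apply, amp_comp, tau_push hv,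
      pull_tau hv']
  have e1 : cj h (a0 R G v) = a0 R G v := cj_eq (FF.ext fun z => by
    simp only [a0, FF.of_op, op_mul, op_ta, LinearMap.comp_apply, pull_tau hv, amp_zero'])
  have e2 : cj h (b0 R G v) = b0 R G v := cj_eq (FF.ext fun z => by
    simp only [b0, FF.of_op, op_mul, op_ta, LinearMap.comp_apply, tau_push hv, amp_push])
  have e3 : cj h (a1 R G v) = a1 R G v := cj_eq (FF.ext fun z => by
    simp only [a1, FF.of_op, op_mul, op_ta, LinearMap.comp_apply, tau_push hv, pull_tau hv,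
      amp_sh'])
  have e4 : cj h (b1 R G v) = b1 R G v := cj_eq (FF.ext fun z => by
    simp only [b1, FF.of_op, op_mul, op_ta, LinearMap.comp_apply, tau_push hv, pull_tau hv,
      amp_sh])
  exact ⟨fun x => Subtype.ext (Prod.ext (e x.1.1) (e x.1.2)), Subtype.ext (Prod.ext e1 e1),
    Subtype.ext (Prod.ext e2 e2), Subtype.ext (Prod.ext e3 e3), Subtype.ext (Prod.ext e4 e4)⟩

/-- Subgroups with a fixed vertex. -/
theorem qq_fix (H : Subgroup G) (hv : ∀ h ∈ H, h • v = v) : TW.QQ (DD Φ G V) H :=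
  (fl Φ G v).qq fun δ => fl_inv (hv δ.1 δ.2)

end Swindle

end Pool.Agent.MP_f7db47_al.OB
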