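import Pool.Agent.MP_f7db47_al.TW.Split
import Pool.Agent.MP_f7db47_al.PT.Orb
import Pool.Agent.MP_f7db47_al.PT.ZDefs

/-!
Twisted coefficients: part Orb.
-/

set_option linter.unusedSectionVars false

universe u u' v w

section
namespace Pool.Agent.MP_f7db47_al.TW

open PT

open Matrix

variable {R : Type v} [Ring R] {G : Type u} [Group G] [MulSemiringAction G R]

/-- The lift of a matrix along a refinement of the labels. -/
noncomputable def lift {Y Y' J J' : Type} (π : Y → J) (π' : Y' → J') (Rel : Y → Y' → Set G)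
    (A : Matrix J J' (SkewMonoidAlgebra R G)) : Matrix Y Y' (SkewMonoidAlgebra R G) :=
  fun y y' => pr (Rel y y') (A (π y) (π' y'))

theorem Lift_fib {Y' : Type} (s : Finset Y') (R₁ R₂ : Y' → Set G) (R₃ SA SB : Set G)
    {x z : SkewMonoidAlgebra R G} (hx : Sup SA x) (hz : Sup SB z)
    (hmul : ∀ y', ∀ g ∈ R₁ y', ∀ h ∈ R₂ y', g * h ∈ R₃)
    (huniq : ∀ g ∈ SA, ∀ h ∈ SB, g * h ∈ R₃ → ∃! y', y' ∈ s ∧ g ∈ R₁ y' ∧ h ∈ R₂ y') :
    ∑ y' ∈ s, pr (R₁ y') x * pr (R₂ y') z = pr R₃ (x * z) := by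
  refine hx.induction (P := fun x => ∑ y' ∈ s, pr (R₁ y') x * pr (R₂ y') z = pr R₃ (x * z))
    (by simp) (fun a b ha hb => ?_) fun g hg r => ?_
  · simp only [map_add, add_mul, Finset.sum_add_distrib, ha, hb]
  refine hz.induction (P := fun z => ∑ y' ∈ s, pr (R₁ y') (SkewMonoidAlgebra.single g r) *
    pr (R₂ y') z = pr R₃ (SkewMonoidAlgebra.single g r * z))
    (by simp) (fun a b ha hb => ?_) fun h hh t => ?_
  · simp only [map_add, mul_add, Finset.sum_add_distrib, ha, hb]
  have h0 : ∀ y', ¬ (g ∈ R₁ y' ∧ h ∈ R₂ y') →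
      pr (R₁ y') (SkewMonoidAlgebra.single g r) * pr (R₂ y') (SkewMonoidAlgebra.single h t) = 0 := by
    intro y' hy
    by_cases h1 : g ∈ R₁ y'
    · rw [pr_single_of_not_mem (fun h2 => hy ⟨h1, h2⟩), mul_zero]
    · rw [pr_single_of_not_mem h1, zero_mul]
  by_cases h3 : g * h ∈ R₃
  · obtain ⟨y₀, ⟨m0, m1, m2⟩, hu⟩ := huniq g hg h hh h3
    rw [Finset.sum_eq_single_of_mem y₀ m0 fun y' hy hne => h0 y' fun hc => hne (hu y' ⟨hy, hc⟩),
      pr_single_of_mem m1, pr_single_of_mem m2, SkewMonoidAlgebra.single_mul_single,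
      pr_single_of_mem h3]
  · rw [SkewMonoidAlgebra.single_mul_single, pr_single_of_not_mem h3]
    exact Finset.sum_eq_zero fun y' _ => h0 y' fun hc => h3 (hmul y' g hc.1 h hc.2)

theorem lift_mul {Y Y' Y'' J J' J'' : Type} [Fintype Y'] [Fintype J'] (π : Y → J) (π' : Y' → J')
    (π'' : Y'' → J'') (R₁ : Y → Y' → Set G) (R₂ : Y' → Y'' → Set G) (R₃ : Y → Y'' → Set G)
    {SA : J → J' → Set G} {SB : J' → J'' → Set G} {A : Matrix J J' (SkewMonoidAlgebra R G)}
    {B : Matrix J' J'' (SkewMonoidAlgebra R G)} (hA : MSup2 SA A) (hB : MSup2 SB B)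
    (hmul : ∀ y y' y'', ∀ g ∈ R₁ y y', ∀ h ∈ R₂ y' y'', g * h ∈ R₃ y y'')
    (huniq : ∀ y y'' j, ∀ g ∈ SA (π y) j, ∀ h ∈ SB j (π'' y''), g * h ∈ R₃ y y'' →
      ∃! y', π' y' = j ∧ g ∈ R₁ y y' ∧ h ∈ R₂ y' y'') :
    lift π π' R₁ A * lift π' π'' R₂ B = lift π π'' R₃ (A * B) := by
  classical
  ext1 y y''
  simp only [lift, Matrix.mul_apply, map_sum]
  rw [← Finset.sum_fiberwise Finset.univ π']
  refine Finset.sum_congr rfl fun j _ => ?_
  rw [← Lift_fib (Finset.univ.filter fun y' => π' y' = j) (R₁ y) (fun y' => R₂ y' y'') (R₃ y y'')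
    _ _ (hA (π y) j) (hB j (π'' y'')) (fun y' => hmul y y' y'') fun g hg h hh h3 => by
      simpa using huniq y y'' j g hg h hh h3]
  refine Finset.sum_congr rfl fun y' hy => ?_
  rw [(Finset.mem_filter.1 hy).2]

end Pool.Agent.MP_f7db47_al.TW

end

section
namespace Pool.Agent.MP_f7db47_al.TW

open PT

open Matrix

variable {R : Type v} [Ring R] {G : Type u} [Group G] [MulSemiringAction G R]

theorem T_of_groupoid {J : Type} [Fintype J] [DecidableEq J] (rel : J → J → Set G)
    (h1 : ∀ i, (1 : G) ∈ rel i i)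
    (hmul : ∀ i j k, ∀ a ∈ rel i j, ∀ b ∈ rel j k, a * b ∈ rel i k)
    (hinv : ∀ i j, ∀ a ∈ rel i j, a⁻¹ ∈ rel j i)
    (hG : ∀ i, ∀ H : Subgroup G, (H : Set G) = rel i i → G1 R H)
    {A : Matrix J J (SkewMonoidAlgebra R G)} (hA : MSup2 rel A) (hu : IsUnit A) : T A := by
  classical
  let s : Setoid J := ⟨fun i j => (rel i j).Nonempty, ⟨fun i => ⟨1, h1 i⟩,
    fun ⟨a, ha⟩ => ⟨a⁻¹, hinv _ _ a ha⟩, fun ⟨a, ha⟩ ⟨b, hb⟩ => ⟨a * b, hmul _ _ _ a ha b hb⟩⟩⟩
  obtain ⟨c, hc, hcc⟩ : ∃ c : J → J, (∀ i, (rel (c i) i).Nonempty) ∧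
      ∀ i j, (rel (c i) (c j)).Nonempty → c i = c j :=
    ⟨fun i => (Quotient.mk s i).out, fun i => Quotient.mk_out (s := s) i, fun i j h => by
      have := Quotient.sound (s := s) h
      simp only [Quotient.out_eq] at this
      simp only [this]⟩
  choose u hu' using hc
  obtain ⟨D, hD⟩ : ∃ D : Matrix J J (SkewMonoidAlgebra R G),
      D = diagonal fun i => SkewMonoidAlgebra.single (u i) 1 := ⟨_, rfl⟩
  obtain ⟨D', hD'⟩ : ∃ D' : Matrix J J (SkewMonoidAlgebra R G),
      D' = diagonal fun i => SkewMonoidAlgebra.single (u i)⁻¹ 1 := ⟨_, rfl⟩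
  have e1 : D * D' = 1 := by
    rw [hD, hD', diagonal_mul_diagonal, ← diagonal_one]
    congr 1; funext i
    rw [SkewMonoidAlgebra.single_mul_single, mul_inv_cancel, one_mul, smul_one]; rfl
  have e2 : D' * D = 1 := by
    rw [hD, hD', diagonal_mul_diagonal, ← diagonal_one]
    congr 1; funext i
    rw [SkewMonoidAlgebra.single_mul_single, inv_mul_cancel, one_mul, smul_one]; rfl
  have hZ : MSup2 (fun i j => rel (c i) (c j)) (D * A * D') := by
    intro i j
    rw [hD, hD', mul_diagonal, diagonal_mul]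
    exact ((sup_single (hu' i) 1).mul (hA i j) (hmul _ _ _)).mul
      (sup_single (hinv _ _ _ (hu' j)) 1) (hmul _ _ _)
  have hZ0 : ∀ i j, c i ≠ c j → (D * A * D') i j = 0 := fun i j h =>
    (hZ i j).eq_zero (hZ i j) fun g hg _ => h (hcc i j ⟨g, hg⟩)
  have hZu : IsUnit (D * A * D') :=
    (IsUnit.mul ⟨⟨D, D', e1, e2⟩, rfl⟩ hu).mul ⟨⟨D', D, e2, e1⟩, rfl⟩
  have hT : T (D * A * D') := by
    refine (stdTS R G).of_blocks c (proj_comm c hZ0) fun y => ?_
    let H : Subgroup G :=
      { carrier := rel y y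
        one_mem' := h1 y
        mul_mem' := fun ha hb => hmul _ _ _ _ ha _ hb
        inv_mem' := fun ha => hinv _ _ _ ha }
    refine T_of_isUnit_msup H (hG y H rfl) ?_
      (orb_unit (proj_mul_self c y) (proj_comm c hZ0 y) hZu)
    refine ((msup_one H.one_mem).sub ?_).add fun i j => ?_
    · refine msup2_diagonal (S := fun _ _ => (H : Set G)) fun i => ?_
      split_ifs
      · exact sup_one H.one_mem
      · exact sup_zero _
    · rw [proj_mul_apply]
      split_ifs with h
      · by_cases h' : c i = c j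
        · have := hZ i j
          simp only [← h', h] at this
          exact this
        · rw [hZ0 i j h']; exact sup_zero _
      · exact sup_zero _
  have := T_conj D' D e2 e1 hT
  rwa [← mul_assoc, ← mul_assoc, e2, one_mul, mul_assoc, e2, mul_one] at this

theorem T_of_orbit {J : Type} [Fintype J] [DecidableEq J] {Y : Type w} [MulAction G Y]
    (y : J → Y) (hG : ∀ j, G1 R (MulAction.stabilizer G (y j)))
    {A : Matrix J J (SkewMonoidAlgebra R G)} (hA : MSup2 (fun i j => {g | g • y j = y i}) A)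
    (hu : IsUnit A) : T A := by
  refine T_of_groupoid _ (fun i => one_smul G _) (fun i j k a ha b hb => ?_)
    (fun i j a ha => ?_) (fun i H hH => ?_) hA hu
  · simp only [Set.mem_ofPred_eq] at *
    rw [mul_smul, hb, ha]
  · simp only [Set.mem_ofPred_eq] at *
    rw [← ha, inv_smul_smul]
  · have : H = MulAction.stabilizer G (y i) := SetLike.coe_injective hH
    rw [this]; exact hG i

end Pool.Agent.MP_f7db47_al.TW

end

section

namespace Pool.Agent.MP_f7db47_al.TW

open PT

open Matrix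

/-- An abelian group that measures the failure of `T`. -/
structure WhS (R : Type v) [Ring R] (G : Type u) [Group G] [MulSemiringAction G R] (W : Type w) [AddCommGroup W] where
  cls : ∀ {J : Type} [Fintype J] [DecidableEq J], Matrix J J (SkewMonoidAlgebra R G) → W
  zero_iff : ∀ {J : Type} [Fintype J] [DecidableEq J] {A : Matrix J J (SkewMonoidAlgebra R G)},
    IsUnit A → (cls A = 0 ↔ T A)
  mul : ∀ {J : Type} [Fintype J] [DecidableEq J] {A B : Matrix J J (SkewMonoidAlgebra R G)},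
    IsUnit A → IsUnit B → cls (A * B) = cls A + cls B
  diag : ∀ {J K : Type} [Fintype J] [DecidableEq J] [Fintype K] [DecidableEq K]
    {A : Matrix J J (SkewMonoidAlgebra R G)} {D : Matrix K K (SkewMonoidAlgebra R G)},
    IsUnit A → IsUnit D → cls (fromBlocks A 0 0 D) = cls A + cls D
  reindex : ∀ {J K : Type} [Fintype J] [DecidableEq J] [Fintype K] [DecidableEq K] (e : K ≃ J)
    {A : Matrix J J (SkewMonoidAlgebra R G)}, IsUnit A → cls (A.submatrix e e) = cls A

variable {R : Type v} [Ring R] {G : Type u} [Group G] [MulSemiringAction G R]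

/-- The matrix induced along a permutation representation. -/
noncomputable def permM {X J : Type} (σ : G →* Equiv.Perm X)
    (A : Matrix J J (SkewMonoidAlgebra R G)) : Matrix (J × X) (J × X) (SkewMonoidAlgebra R G) :=
  fun x y => pr {g | σ g y.2 = x.2} (A x.1 y.1)

end Pool.Agent.MP_f7db47_al.TW

end

section

namespace Pool.Agent.MP_f7db47_al.TW

open PT

variable {R : Type v} [Ring R] {G : Type u} [Group G] [MulSemiringAction G R] {X J : Type}

theorem permM_mul [Fintype X] [Fintype J] (σ : G →* Equiv.Perm X)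
    (A B : Matrix J J (SkewMonoidAlgebra R G)) : permM σ A * permM σ B = permM σ (A * B) := by
  refine lift_mul (SA := fun _ _ => Set.univ) (SB := fun _ _ => Set.univ) Prod.fst Prod.fst
    Prod.fst (fun x y : J × X => {g | σ g y.2 = x.2}) (fun x y : J × X => {g | σ g y.2 = x.2})
    (fun x y : J × X => {g | σ g y.2 = x.2}) (fun _ _ => sup_univ _) (fun _ _ => sup_univ _)
    (fun y y' y'' g hg h hh => ?_) fun y y'' j g _ h _ hgh => ?_
  · simp only [Set.mem_ofPred_eq] at *
    rw [map_mul, Equiv.Perm.mul_apply, hh, hg]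
  · simp only [Set.mem_ofPred_eq, map_mul, Equiv.Perm.mul_apply] at *
    refine ⟨(j, σ h y''.2), ⟨rfl, hgh, rfl⟩, ?_⟩
    rintro ⟨j', x⟩ ⟨h1, -, h2⟩
    exact Prod.ext h1 h2.symm

theorem permM_one [DecidableEq X] [DecidableEq J] (σ : G →* Equiv.Perm X) :
    permM σ (1 : Matrix J J (SkewMonoidAlgebra R G)) = 1 := by
  ext1 x y
  by_cases h : x = y
  · subst h
    simp only [permM, Matrix.one_apply_eq]
    exact (sup_one (S := {g | σ g x.2 = x.2}) (by simp)).pr_eq
  · rw [Matrix.one_apply_ne h]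
    by_cases h' : x.1 = y.1
    · change pr _ ((1 : Matrix J J (SkewMonoidAlgebra R G)) x.1 y.1) = 0
      rw [h', Matrix.one_apply_eq]
      refine (sup_one (S := {1}) rfl).pr_eq_zero ?_
      rintro _ rfl h1
      exact h (Prod.ext h' (by simpa using h1.symm))
    · simp only [permM, Matrix.one_apply_ne h', map_zero]

end Pool.Agent.MP_f7db47_al.TW

end
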