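import Pool.Agent.MP_f7db47_al.TW.Main

/-!
Twisted coefficients: part Split.
-/

set_option linter.unusedSectionVars false

universe u u' v w

section

namespace Pool.Agent.MP_f7db47_al.TW

open Matrix

variable {R : Type v} [Ring R] {G : Type u} [Group G] [MulSemiringAction G R]

variable {J : Type} [Fintype J] [DecidableEq J]

lemma proj_map {Y : Type*} (c : J → Y) (y : Y) :
    (proj ℤ c y).map (sz R (1 : G)) = proj (SkewMonoidAlgebra R G) c y := by
  ext1 i j
  by_cases hij : i = j
  · subst hij
    simp only [proj, map_apply, diagonal_apply_eq]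
    split_ifs <;> simp
  · simp [proj, hij]

lemma const_comm {ε : Matrix J J ℤ} {u : J → G} (hu : ∀ i j, u i ≠ u j → ε i j = 0) :
    ε.map (sz R (1 : G)) * diagonal (fun i => SkewMonoidAlgebra.single (u i) 1) =
      diagonal (fun i => SkewMonoidAlgebra.single (u i) 1) * ε.map (sz R (1 : G)) := by
  ext1 i j
  rw [mul_diagonal, diagonal_mul, map_apply, ← sz_one, ← sz_one, sz_mul, sz_mul]
  by_cases h : u i = u j
  · simp [h]
  · simp [hu i j h]

lemma T_idem_diag {ε : Matrix J J ℤ} (hε : ε * ε = ε) {u : J → G}
    (hu : ∀ i j, u i ≠ u j → ε i j = 0) :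
    T (1 - ε.map (sz R (1 : G)) +
      ε.map (sz R (1 : G)) * diagonal fun i => SkewMonoidAlgebra.single (u i) 1) := by
  refine (stdTS R G).of_blocks u (proj_comm u fun i j h => ?_) fun g => ?_
  · have hij : i ≠ j := fun e => h (congrArg u e)
    simp [mul_diagonal, hu i j h, hij]
  · have hc := proj_comm u hu g
    have hi : (proj ℤ u g * ε) * (proj ℤ u g * ε) = proj ℤ u g * ε := by
      rw [mul_assoc, ← mul_assoc ε, ← hc, mul_assoc, hε, ← mul_assoc, proj_mul_self]
    have := T_gen (Gen.idem (R := R) (G := G) _ hi g)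
    change T _
    convert this using 1
    have e1 : proj (SkewMonoidAlgebra R G) u g * ε.map (sz R (1 : G)) =
        (proj ℤ u g * ε).map (sz R (1 : G)) := by
      rw [← proj_map, map_sz_mul, mul_one]
    have e2 : proj (SkewMonoidAlgebra R G) u g * (ε.map (sz R (1 : G)) *
        diagonal fun i => SkewMonoidAlgebra.single (u i) 1) =
        (proj ℤ u g * ε).map (sz R g) := by
      rw [const_comm hu]
      ext1 i j
      rw [proj_mul_apply, map_apply, proj_mul_apply, diagonal_mul]
      split_ifs with h
      · simp [h, ← sz_one, sz_mul]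
      · simp
    rw [mul_add, mul_sub, mul_one, e1, e2]
    abel

end Pool.Agent.MP_f7db47_al.TW

end
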