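import Pool.Agent.MP_f7db47_al.TW.Pr

/-!
Twisted coefficients: part ZExt.
-/

set_option linter.unusedSectionVars false

universe u u' v w

section

namespace Pool.Agent.MP_f7db47_al.TW

open Matrix

variable {R : Type v} [Ring R] {G : Type u} [Group G] [MulSemiringAction G R]

variable {J : Type} [Fintype J] [DecidableEq J]

lemma T.isUnit {A : Matrix J J (SkewMonoidAlgebra R G)} (hA : T A) : IsUnit A := by
  obtain ⟨B, -, h1, h2⟩ := T_unit hA
  exact ⟨⟨A, B, h1, h2⟩, rfl⟩

lemma G1_iff : G1 R G ↔ ∀ (J : Type) [Fintype J] [DecidableEq J]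
    (A : Matrix J J (SkewMonoidAlgebra R G)), IsUnit A → T A := by
  constructor
  · rintro h J _ _ A ⟨u, rfl⟩
    exact h J _ _ u.mul_inv u.inv_mul
  · intro h J _ _ A B h1 h2
    exact h J A ⟨⟨A, B, h1, h2⟩, rfl⟩

lemma T_of_isUnit_msup (N : Subgroup G) (hN : G1 R N) {M : Matrix J J (SkewMonoidAlgebra R G)}
    (hM : MSup (N : Set G) M) (hu : IsUnit M) : T M := by
  obtain ⟨u, rfl⟩ := hu
  have hr : Set.range N.subtype = (N : Set G) := by simp
  have h1 : mpr (N : Set G) (1 : Matrix J J (SkewMonoidAlgebra R G)) = 1 :=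
    (msup_one N.one_mem).mpr_eq
  refine T_of_msup N.subtype N.subtype_injective hN (B := mpr N (u⁻¹ : Units _).val)
    (hr ▸ hM) (hr ▸ msup_mpr _ _) ?_ ?_
  · rw [← mpr_mul_left (S := N) _ hM fun k hk g => N.mul_mem_cancel_left hk, u.mul_inv, h1]
  · rw [← mpr_mul_right (S := N) _ hM fun g k hk => N.mul_mem_cancel_right hk, u.inv_mul, h1]

section Graded

variable (dg : G → ℤ) (hadd : ∀ a b, dg (a * b) = dg a + dg b)

include hadd

variable (N : Subgroup G) (hN : ∀ g, g ∈ N ↔ dg g = 0) (t : G) (ht : dg t = 1)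

include hN ht

lemma T_split (h1 : G1 R N) (h0 : G0 R N) {a b ε : Matrix J J (SkewMonoidAlgebra R G)}
    (ha : MSup {g | dg g = 0} a) (hb : MSup {g | dg g = 1} b) (hε : MSup {g | dg g = 0} ε)
    (hεε : ε * ε = ε) (hu : IsUnit ((1 - ε) * a + ε * b)) : T ((1 - ε) * a + ε * b) := by
  have hr : Set.range N.subtype = {g | dg g = 0} := by ext g; simp [hN]
  obtain ⟨ε', rfl⟩ := exists_map_of_msup N.subtype N.subtype_injective (hr ▸ hε)
  have hinj : Function.Injective fun M : Matrix J J (SkewMonoidAlgebra R N) =>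
      M.map (mapR R N.subtype) :=
    Matrix.map_injective (mapDomain_inj _ N.subtype_injective)
  obtain ⟨ι, _, _, κ, _, _, e, X', Y', he, hXY, hYX⟩ :=
    h0 J ε' (hinj (by simpa [Matrix.map_mul] using hεε))
  set φ := mapR R N.subtype with hφ
  set ε := ε'.map φ with hεdef
  set X := X'.map φ with hXdef
  set Y := Y'.map φ with hYdef
  have hX : MSup {g | dg g = 0} X := fun i j => hr ▸ sup_mapDomain _ _
  have hY : MSup {g | dg g = 0} Y := fun i j => hr ▸ sup_mapDomain _ _
  set ε1 : Matrix (J ⊕ ι) (J ⊕ ι) (SkewMonoidAlgebra R G) := fromBlocks ε 0 0 1 with hε1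
  have hXY' : X * Y = ε1 := by
    rw [hXdef, hYdef, ← Matrix.map_mul, hXY, fromBlocks_map, Matrix.map_zero _ (map_zero _),
      Matrix.map_zero _ (map_zero _), Matrix.map_one _ (map_zero _) (map_one _)]
  have hYX' : Y * X = e.map (sz R 1) := by
    rw [hXdef, hYdef, ← Matrix.map_mul, hYX]
    ext1 i j; simp [hφ]
  have hε11 : ε1 * ε1 = ε1 := by simp [hε1, fromBlocks_multiply, hεε]
  set τ : Matrix ι ι (SkewMonoidAlgebra R G) := (1 : Matrix ι ι R).map (SkewMonoidAlgebra.single t)
  set V := (1 - ε) * a + ε * b with hV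
  set a1 : Matrix (J ⊕ ι) (J ⊕ ι) (SkewMonoidAlgebra R G) := fromBlocks a 0 0 0
  set b1 : Matrix (J ⊕ ι) (J ⊕ ι) (SkewMonoidAlgebra R G) := fromBlocks b 0 0 τ
  have hV1 : fromBlocks V 0 0 τ = (1 - ε1) * a1 + ε1 * b1 := by
    rw [sub_mul, one_mul, sub_eq_add_neg]
    simp [a1, b1, hε1, fromBlocks_multiply, fromBlocks_add, fromBlocks_neg, hV,
      sub_eq_add_neg, add_mul]
  set e1 : Matrix κ κ (SkewMonoidAlgebra R G) := e.map (sz R 1)
  set eg : Matrix κ κ (SkewMonoidAlgebra R G) := e.map (sz R t⁻¹)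
  have heg : eg * e1 = eg := by simp only [eg, e1, map_sz_mul, he, mul_one]
  have he1 : e1 * e1 = e1 := by simp only [e1, map_sz_mul, he, mul_one]
  have hD : T (1 - X * ((e1 - eg) * Y)) := by
    apply T_one_sub_comm
    rw [Matrix.mul_assoc, hYX', sub_mul, he1, heg, ← sub_add]
    exact T_gen (Gen.idem e he _)
  have hD' : 1 - X * ((e1 - eg) * Y) = 1 - ε1 + X * eg * Y := by
    rw [Matrix.sub_mul, Matrix.mul_sub, ← hYX', Matrix.mul_assoc Y, hXY', ← Matrix.mul_assoc X Y,
      hXY', hε11, Matrix.mul_assoc]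
    abel
  have hz : X * eg * Y * (1 - ε1) = 0 := by
    rw [← heg, ← hYX']
    simp only [Matrix.mul_assoc]
    rw [← Matrix.mul_assoc X Y, hXY', mul_sub, mul_one, hε11, sub_self]
    simp
  have hprod : (1 - ε1 + X * eg * Y) * ((1 - ε1) * a1 + ε1 * b1) =
      (1 - ε1) * a1 + X * eg * Y * ε1 * b1 := by
    have h2 : (1 - ε1) * (1 - ε1) = 1 - ε1 := by
      rw [mul_sub, mul_one, sub_mul, one_mul, hε11, sub_self, sub_zero]
    have h3 : (1 - ε1) * ε1 = 0 := by rw [sub_mul, one_mul, hε11, sub_self]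
    rw [add_mul, mul_add, mul_add, ← mul_assoc, ← mul_assoc, ← mul_assoc, ← mul_assoc, h2, h3, hz]
    simp
  have hτ : T τ := T_scalar t
  have hVu : IsUnit (fromBlocks V 0 0 τ) := isUnit_fromBlocks_diag hu hτ.isUnit
  have h00 : (1 : G) ∈ {g | dg g = 0} := dg_one dg hadd
  have hε1s : MSup {g | dg g = 0} ε1 :=
    hε.fromBlocks (msup_zero _) (msup_zero _) (msup_one h00)
  have hmain : T ((1 - ε1) * a1 + X * eg * Y * ε1 * b1) := by
    refine T_of_isUnit_msup N h1 ?_ ?_
    · have hNs : (N : Set G) = {g | dg g = 0} := by ext g; simp [hN]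
      rw [hNs]
      refine MSup.add (((msup_one h00).sub hε1s).mul (S' := {g | dg g = 0})
        (ha.fromBlocks (msup_zero _) (msup_zero _) (msup_zero _)) ?_) ?_
      · intro x hx y hy
        simp only [Set.mem_ofPred_eq, hadd] at *; omega
      · refine MSup.mul (S := {g | dg g = -1}) (S' := {g | dg g = 1}) ?_
          (hb.fromBlocks (msup_zero _) (msup_zero _)
            (msup_map_single (S := {g | dg g = 1}) ht _)) ?_
        · refine MSup.mul (S := {g | dg g = -1}) ?_ hε1s ?_
          · refine MSup.mul (S := {g | dg g = -1}) ?_ hY ?_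
            · refine hX.mul (S' := {g | dg g = -1}) (msup_map_single ?_ _) ?_
              · show dg t⁻¹ = -1
                rw [dg_inv dg hadd, ht]
              · intro x hx y hy
                simp only [Set.mem_ofPred_eq, hadd] at *; omega
            · intro x hx y hy
              simp only [Set.mem_ofPred_eq, hadd] at *; omega
          · intro x hx y hy
            simp only [Set.mem_ofPred_eq, hadd] at *; omega
        · intro x hx y hy
          simp only [Set.mem_ofPred_eq, hadd] at *; omega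
    · rw [← hprod, ← hD', ← hV1]
      exact hD.isUnit.mul hVu
  rw [← hprod, ← hD', ← hV1] at hmain
  exact T_upper_block_left (T_cancel_left hD hmain) hτ

end Graded

end Pool.Agent.MP_f7db47_al.TW

end

section

namespace Pool.Agent.MP_f7db47_al.TW

open Matrix

/-- The concrete calculus. -/
def stdTS (R : Type v) [Ring R] (G : Type u) [Group G] [MulSemiringAction G R] : TS (SkewMonoidAlgebra R G) where
  T := T
  one := T_one
  mul := T_mul
  unit := T_unit
  of_stab := T_of_stab
  upper := T_upper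
  lower := T_lower
  comm := T_one_sub_comm

end Pool.Agent.MP_f7db47_al.TW

end
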